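import Pool.Agent.Work.MP_9628a2_al.Geo

set_option autoImplicit false

namespace Pool.Agent.QIB

section
variable {X : Type} [GSp X] {δ : ℕ}

/-- Points on two sides at the same distance from `w`, below the Gromov product, are close. -/
theorem tripod (h : Hyp X δ) {w x y a b : X} (ha : Btw w a x) (hb : Btw w b y)
    (hab : d w a = d w b) (ht : 2 * d w a + d x y ≤ d w x + d w y) : d a b ≤ 2 * δ := by
  unfold Btw at *
  have h1 := h a y w x
  have h2 := h a b w y
  have := d_comm a w; have := d_comm b w; have := d_comm y w; have := d_comm x w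
  have := d_comm y x; have := d_comm y b; have := d_comm x a
  omega

theorem slim_of_hyp (h : Hyp X δ) : Slim X (2 * δ) := by
  intro x y z p hp
  have e1 := d_tri x z y; have e2 := d_tri y x z; have e3 := d_tri x y z
  have c1 := d_comm x y; have c2 := d_comm y z; have c3 := d_comm x z; have c4 := d_comm p y
  by_cases hc : 2 * d x p + d y z ≤ d x y + d x z
  · obtain ⟨q, hq, hq'⟩ := exists_btw x z (d x p) (by omega)
    exact ⟨q, Or.inl hq, tripod h hp hq hq'.symm hc⟩
  · have hp' := hp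
    unfold Btw at hp'
    obtain ⟨q, hq, hq'⟩ := exists_btw y z (d y p) (by omega)
    exact ⟨q, Or.inr hq.symm, tripod h hp.symm hq hq'.symm (by omega)⟩

theorem hyp_of_slim {s : ℕ} (h : Slim X s) : Hyp X (6 * s + 2) := by
  have key : ∀ x y w : X, ∃ p, Btw x p y ∧ 2 * d w p + d x y ≤ d w x + d w y + 4 * s + 2 := by
    intro x y w
    obtain ⟨γ, hγ⟩ := exists_geod x y
    have hex : ∃ i, i ≤ d x y ∧ ∃ q, Btw w q y ∧ d (γ i) q ≤ s :=
      ⟨d x y, le_rfl, y, btw_right w y, by rw [hγ.2.1 _ le_rfl, d_self]; omega⟩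
    classical
    obtain ⟨hi, q, hq, hq'⟩ := Nat.find_spec hex
    have hmin := fun m => @Nat.find_min _ _ hex m
    generalize Nat.find hex = i at *
    have b1 := hγ.d_left hi; have b2 := hγ.d_right hi
    unfold Btw at hq
    have t1 := d_tri w q (γ i); have t2 := d_tri (γ i) q y
    have := d_comm q (γ i)
    cases i with
    | zero =>
      refine ⟨γ 0, hγ.btw 0, ?_⟩
      rw [hγ.1] at *
      omega
    | succ i =>
      obtain ⟨q', hq1, hq2⟩ := h x y w (γ i) (hγ.btw i)
      rcases hq1 with hq1 | hq1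
      · refine ⟨γ (i + 1), hγ.btw _, ?_⟩
        unfold Btw at hq1
        have c1 := hγ.d_left (i := i) (by omega)
        have c2 := hγ.d_succ i
        have t3 := d_tri w q' (γ i); have t4 := d_tri x q' (γ i)
        have t5 := d_tri w (γ i) (γ (i + 1))
        have := d_comm q' (γ i); have := d_comm q' w; have := d_comm x w
        omega
      · exact absurd ⟨by omega, q', hq1, hq2⟩ (hmin i (by omega))
  intro x y z w
  obtain ⟨p, hp, hp'⟩ := key x y w
  obtain ⟨q, hq, hq'⟩ := h x y z p hp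
  have t1 := d_tri w p q
  have := d_comm z w; have := d_comm x w; have := d_comm y w; have := d_comm y z
  have := d_comm q w
  rcases hq with hq | hq
  · unfold Btw at hq
    have := d_tri w q x; have := d_tri w q z; have := d_comm q x
    omega
  · unfold Btw at hq
    have := d_tri w q y; have := d_tri w q z; have := d_comm q z
    omega

/-- A point coarsely between `a` and `b` is close to the interval. -/
theorem near_btw (h : Hyp X δ) {a b w : X} {κ : ℕ} (hw : d a w + d w b ≤ d a b + κ) :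
    ∃ p, Btw a p b ∧ 2 * d w p ≤ κ + 4 * δ + 1 := by
  have e1 := d_tri a w b; have e2 := d_tri w a b; have e3 := d_tri a b w
  have c1 := d_comm a w; have c2 := d_comm b w
  obtain ⟨p, hp, hp'⟩ := exists_btw a b ((d a w + d a b - d w b) / 2) (by omega)
  obtain ⟨q, hq, hq'⟩ := exists_btw a w ((d a w + d a b - d w b) / 2) (by omega)
  refine ⟨p, hp, ?_⟩
  have := tripod h hq hp (by omega) (by omega)
  unfold Btw at hq
  have := d_tri w q p; have := d_comm w q
  omega

/-- Chain lemma. -/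
theorem chain (h : Hyp X δ) (p : ℕ → X) (a : ℕ → ℕ) (n g : ℕ) (hg : 1 ≤ g)
    (h1 : ∀ i, i + 2 ≤ n →
      d (p i) (p (i + 1)) + d (p (i + 1)) (p (i + 2)) ≤ d (p i) (p (i + 2)) + a (i + 1))
    (h2 : ∀ i, i < n → a i + a (i + 1) + 3 * δ + g ≤ 2 * d (p i) (p (i + 1))) :
    (∀ i, i < n → d (p 0) (p i) + d (p i) (p (i + 1)) ≤ d (p 0) (p (i + 1)) + a i + δ) ∧
    g * n ≤ 2 * d (p 0) (p n) := by
  have A : ∀ i, i < n →
      d (p 0) (p i) + d (p i) (p (i + 1)) ≤ d (p 0) (p (i + 1)) + a i + δ := by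
    intro i
    induction i with
    | zero => intro _; rw [d_self]; omega
    | succ i ih =>
      intro hi
      have e1 := ih (by omega)
      have e2 := h1 i (by omega)
      have e3 := h2 i (by omega)
      have e4 := h (p i) (p (i + 1 + 1)) (p 0) (p (i + 1))
      have := d_comm (p i) (p 0); have := d_comm (p (i + 1 + 1)) (p (i + 1))
      have := d_comm (p (i + 1 + 1)) (p 0)
      simp only [show i + 2 = i + 1 + 1 from rfl] at e2
      omega
  refine ⟨A, ?_⟩
  have B : ∀ i, i < n → a (i + 1) + δ + g * (i + 1) ≤ 2 * d (p 0) (p (i + 1)) := by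
    intro i
    induction i with
    | zero => intro hi; have := h2 0 hi; simp only [zero_add] at *; omega
    | succ i ih =>
      intro hi
      have e1 := ih (by omega)
      have e2 := A (i + 1) hi
      have e3 := h2 (i + 1) hi
      rw [Nat.mul_succ g (i + 1)]
      omega
  cases n with
  | zero => simp
  | succ n => have := B n (by omega); omega

/-- In a chain every inner point is coarsely between the two ends. -/
theorem chain_btw (h : Hyp X δ) (p : ℕ → X) (a : ℕ → ℕ) (n g : ℕ) (hg : 1 ≤ g)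
    (h1 : ∀ i, i + 2 ≤ n →
      d (p i) (p (i + 1)) + d (p (i + 1)) (p (i + 2)) ≤ d (p i) (p (i + 2)) + a (i + 1))
    (h2 : ∀ i, i < n → a i + a (i + 1) + 3 * δ + g ≤ 2 * d (p i) (p (i + 1)))
    (i : ℕ) (hi : i ≤ n) : d (p 0) (p i) + d (p i) (p n) ≤ d (p 0) (p n) + a i + 2 * δ := by
  rcases Nat.eq_zero_or_pos i with rfl | hi0
  · rw [d_self]; omega
  rcases Nat.eq_or_lt_of_le hi with rfl | hin
  · rw [d_self]; omega
  obtain ⟨i, rfl⟩ : ∃ k, i = k + 1 := ⟨i - 1, by omega⟩
  have F := (chain h p a n g hg h1 h2).1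
  have B := (chain h (fun k => p (n - k)) (fun k => a (n - k)) n g hg (by
    intro k hk
    have := h1 (n - (k + 2)) (by omega)
    rw [show n - (k + 2) + 1 = n - (k + 1) by omega, show n - (k + 2) + 2 = n - k by omega] at this
    have := d_comm (p (n - k)) (p (n - (k + 1)))
    have := d_comm (p (n - (k + 2))) (p (n - (k + 1)))
    have := d_comm (p (n - k)) (p (n - (k + 2)))
    omega) (by
    intro k hk
    have := h2 (n - (k + 1)) (by omega)
    rw [show n - (k + 1) + 1 = n - k by omega] at this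
    have := d_comm (p (n - k)) (p (n - (k + 1)))
    omega)).1
  have e1 := F i (by omega)
  have e2 := F (i + 1) hin
  have e3 := h2 (i + 1) hin
  have e4 := h (p 0) (p (i + 1 + 1)) (p n) (p (i + 1))
  have := d_comm (p n) (p (i + 1)); have := d_comm (p (i + 1 + 1)) (p (i + 1))
  by_cases hn : i + 2 = n
  · subst hn
    simp only [show i + 2 = i + 1 + 1 from rfl] at *
    omega
  · have e5 := B (n - (i + 2)) (by omega)
    simp only [Nat.sub_zero] at e5
    rw [show n - (n - (i + 2)) = i + 1 + 1 by omega,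
      show n - (n - (i + 2) + 1) = i + 1 by omega] at e5
    have := d_comm (p n) (p (i + 1 + 1))
    omega

/-- Bisection: a point of a geodesic is logarithmically close to any coarse path. -/
theorem bisect {s : ℕ} (h : Slim X s) (k M : ℕ) (y : ℕ → X)
    (hy : ∀ i, i < 2 ^ k → d (y i) (y (i + 1)) ≤ M) (p : X) (hp : Btw (y 0) p (y (2 ^ k))) :
    ∃ i, i ≤ 2 ^ k ∧ d p (y i) ≤ s * k + M := by
  induction k generalizing y p with
  | zero =>
    refine ⟨0, by omega, ?_⟩
    have := hy 0 (by omega)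
    unfold Btw at hp
    have := d_comm p (y 0)
    simp only [pow_zero, zero_add] at *
    omega
  | succ k ih =>
    obtain ⟨q, hq, hq'⟩ := h _ _ (y (2 ^ k)) p hp
    have e : 2 ^ (k + 1) = 2 ^ k + 2 ^ k := by rw [pow_succ]; omega
    rcases hq with hq | hq
    · obtain ⟨i, hi, hi'⟩ := ih y (fun i hi => hy i (by omega)) q hq
      refine ⟨i, by omega, ?_⟩
      have := d_tri p q (y i)
      rw [Nat.mul_succ]; omega
    · obtain ⟨i, hi, hi'⟩ := ih (fun i => y (2 ^ k + i)) (fun i hi => hy (2 ^ k + i) (by omega)) q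
        (by simpa [e] using hq)
      refine ⟨2 ^ k + i, by omega, ?_⟩
      have := d_tri p q (y (2 ^ k + i))
      rw [Nat.mul_succ]
      omega

end

section
variable {G X : Type} [Group G] [MulAction G X] [GSp X] [Iso G X] {δ : ℕ}

/-- Convexity of the displacement. -/
theorem cv (h : Hyp X δ) (f : G) {p q z : X} {κ D : ℕ} (hz : d p z + d z q ≤ d p q + κ)
    (hp : d p (f • p) ≤ D) (hq : d q (f • q) ≤ D) : d z (f • z) ≤ D + κ + δ := by
  have e := h p q (f • z) z
  have a1 := d_tri p (f • p) (f • z)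
  have a2 := d_tri q (f • q) (f • z)
  rw [d_smul] at a1 a2
  have := d_comm (f • z) z; have := d_comm q z
  omega

/-- Points beyond half of the displacement on a geodesic to a fixed point are moved little. -/
theorem mid (h : Hyp X δ) (f : G) {s y z : X} (hs : f • s = s) (hz : Btw y z s)
    (ht : d y (f • y) ≤ 2 * d y z) : d z (f • z) ≤ 2 * δ := by
  have h1 : Btw s (f • z) (f • y) := by
    have := (btw_smul f s z y).2 hz.symm
    rwa [hs] at this
  have e1 : d s (f • z) = d s z := by conv_lhs => rw [← hs, d_smul]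
  have e2 : d s (f • y) = d s y := by conv_lhs => rw [← hs, d_smul]
  refine tripod h hz.symm h1 e1.symm ?_
  unfold Btw at hz
  have := d_comm s z; have := d_comm s y
  omega

/-- Form of `mid` that produces the point. -/
theorem exists_mid (h : Hyp X δ) (f : G) {s : X} (hs : f • s = s) (y : X) :
    ∃ z, Btw y z s ∧ 2 * d y z ≤ d y (f • y) + 1 ∧ d z (f • z) ≤ 2 * δ := by
  have e : d y (f • y) ≤ 2 * d y s := by
    have := d_move_le f y s
    rw [hs, d_self] at this; omega
  obtain ⟨z, hz, hz'⟩ := exists_btw y s (min ((d y (f • y) + 1) / 2) (d y s)) (by omega)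
  exact ⟨z, hz, by omega, mid h f hs hz (by omega)⟩

/-- The Gromov product at `g y` of `y` and `g g y` is controlled by the displacements. -/
theorem disp_prod (h : Hyp X δ) (g : G) (y : X) (t : ℕ) (ht : 2 * t ≤ d y (g • y))
    (hA : 2 * t + d y (g • g • y) ≤ 2 * d y (g • y)) :
    ∃ z : X, d z (g • z) + 2 * t ≤ d y (g • y) + 2 * δ := by
  obtain ⟨γ, hγ⟩ := exists_geod y (g • y)
  refine ⟨γ t, ?_⟩
  have b1 : Btw (g • y) (γ (d y (g • y) - t)) y := (hγ.btw _).symm
  have b2 : Btw (g • y) (g • γ t) (g • g • y) := (btw_smul g y (γ t) (g • y)).2 (hγ.btw _)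
  have c1 := hγ.d_right (i := d y (g • y) - t) (by omega)
  have c2 := hγ.d_left (i := t) (by omega)
  have c3 := hγ.2.2 t (d y (g • y) - t) (by omega) (by omega)
  have c4 := d_comm (g • y) (γ (d y (g • y) - t))
  have c5 := d_smul g y (γ t)
  have c6 := d_smul g y (g • y)
  have c7 := d_comm y (g • y)
  have := tripod h b1 b2 (by omega) (by omega)
  have := d_tri (γ t) (γ (d y (g • y) - t)) (g • γ t)
  omega

theorem tl_chain (h : Hyp X δ) {g : G} (hg : ∀ z : X, 5 * δ + 2 ≤ d z (g • z)) (y : X) :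
    2 * d y (g • y) + 3 * δ + 2 ≤ 2 * d y (g • g • y) := by
  by_contra hc
  have e0 := d_tri y (g • y) (g • g • y)
  rw [d_smul] at e0
  obtain ⟨z, hz⟩ := disp_prod h g y
    (min (d y (g • y) / 2) ((2 * d y (g • y) - d y (g • g • y)) / 2)) (by omega) (by omega)
  have := hg z
  omega

theorem tl_aux (g : G) (y : X) (A n : ℕ)
    (hA : 2 * d y (g • y) ≤ d y (g • g • y) + A) (hA' : 2 * A + 3 * δ + 2 ≤ 2 * d y (g • y)) :
    (∀ i, i + 2 ≤ n → d (g ^ i • y) (g ^ (i + 1) • y) + d (g ^ (i + 1) • y) (g ^ (i + 2) • y) ≤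
      d (g ^ i • y) (g ^ (i + 2) • y) + A) ∧
    (∀ i, i < n → A + A + 3 * δ + 2 ≤ 2 * d (g ^ i • y) (g ^ (i + 1) • y)) := by
  have e1 : ∀ i, d (g ^ i • y) (g ^ (i + 1) • y) = d y (g • y) := fun i => by
    rw [pow_succ, mul_smul, d_smul]
  have e2 : ∀ i, d (g ^ i • y) (g ^ (i + 2) • y) = d y (g • g • y) := fun i => by
    rw [pow_add, mul_smul, d_smul, pow_two, mul_smul]
  refine ⟨fun i _ => ?_, fun i _ => ?_⟩
  · rw [e1, e1 (i + 1), e2]; omega
  · rw [e1]; omega

/-- An isometry that moves every point a lot is loxodromic. -/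
theorem tl_lox (h : Hyp X δ) {g : G} (hg : ∀ z : X, 5 * δ + 2 ≤ d z (g • z)) (y : X) (j : ℕ) :
    j ≤ d y (g ^ j • y) := by
  have e := tl_chain h hg y
  have e0 := d_tri y (g • y) (g • g • y)
  rw [d_smul] at e0
  obtain ⟨a1, a2⟩ := tl_aux (δ := δ) g y (2 * d y (g • y) - d y (g • g • y)) j (by omega) (by omega)
  have := (chain h (fun i => g ^ i • y) (fun _ => 2 * d y (g • y) - d y (g • g • y)) j 2
    (by omega) a1 a2).2
  simp only [pow_zero, one_smul] at this
  omega

/-- Monotonicity of the displacement along powers. -/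
theorem tl_mono (h : Hyp X δ) {g : G} (hg : ∀ z : X, 5 * δ + 2 ≤ d z (g • z)) (y : X) (j : ℕ)
    (hj : j ≠ 0) : d y (g • y) ≤ d y (g ^ j • y) := by
  have e := tl_chain h hg y
  have e0 := d_tri y (g • y) (g • g • y)
  rw [d_smul] at e0
  obtain ⟨a1, a2⟩ := tl_aux (δ := δ) g y (2 * d y (g • y) - d y (g • g • y)) j (by omega) (by omega)
  have A := (chain h (fun i => g ^ i • y) (fun _ => 2 * d y (g • y) - d y (g • g • y)) j 2
    (by omega) a1 a2).1
  have B : ∀ i, i < j → d y (g • y) ≤ d y (g ^ (i + 1) • y) := by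
    intro i
    induction i with
    | zero => intro _; simp
    | succ i ih =>
      intro hi
      have b1 := ih (by omega)
      have b2 := A (i + 1) hi
      simp only [pow_zero, one_smul] at b2
      have : d (g ^ (i + 1) • y) (g ^ (i + 1 + 1) • y) = d y (g • y) := by
        rw [pow_succ g (i + 1), mul_smul, d_smul]
      omega
  obtain ⟨j, rfl⟩ : ∃ k, j = k + 1 := ⟨j - 1, by omega⟩
  exact B j (by omega)

theorem tl_mono_z (h : Hyp X δ) {g : G} (hg : ∀ z : X, 5 * δ + 2 ≤ d z (g • z)) (y : X) (j : ℤ)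
    (hj : j ≠ 0) : d y (g • y) ≤ d y (g ^ j • y) := by
  rw [d_zpow_eq]; exact tl_mono h hg y _ (by omega)

/-- The point `y` is coarsely between `g ^ (-i) y` and `g ^ j y`. -/
theorem tl_btw (h : Hyp X δ) {g : G} (hg : ∀ z : X, 5 * δ + 2 ≤ d z (g • z)) (y : X) (A : ℕ)
    (hA : 2 * d y (g • y) ≤ d y (g • g • y) + A) (i j : ℕ) :
    d y (g ^ i • y) + d y (g ^ j • y) ≤ d y (g ^ (i + j) • y) + A + 2 * δ := by
  have e := tl_chain h hg y
  have e0 := d_tri y (g • y) (g • g • y)
  rw [d_smul] at e0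
  obtain ⟨a1, a2⟩ := tl_aux (δ := δ) g y (2 * d y (g • y) - d y (g • g • y)) (i + j) (by omega) (by omega)
  have := chain_btw h (fun i => g ^ i • y) (fun _ => 2 * d y (g • y) - d y (g • g • y)) (i + j) 2
    (by omega) a1 a2 i (by omega)
  simp only [pow_zero, one_smul] at this
  rw [pow_add, mul_smul, d_smul, ← mul_smul, ← pow_add] at this
  omega

/-- At a point of minimal displacement the Gromov product is small. -/
theorem tl_min (h : Hyp X δ) {g : G} (y : X) (hy : ∀ z : X, d y (g • y) ≤ d z (g • z))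
    (hl : 2 * δ + 2 ≤ d y (g • y)) : 2 * d y (g • y) ≤ d y (g • g • y) + (2 * δ + 1) := by
  by_contra hc
  obtain ⟨z, hz⟩ := disp_prod h g y (δ + 1) (by omega) (by omega)
  have := hy z
  omega

omit [Iso G X] in
theorem exists_min_disp [Nonempty X] (g : G) : ∃ y : X, ∀ z : X, d y (g • y) ≤ d z (g • z) := by
  classical
  have hex : ∃ n, ∃ y : X, d y (g • y) = n := ⟨_, Classical.arbitrary X, rfl⟩
  obtain ⟨y, hy⟩ := Nat.find_spec hex
  exact ⟨y, fun z => hy ▸ Nat.find_min' hex ⟨z, rfl⟩⟩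

/-- Linear growth at one point gives linear growth at every point. -/
theorem lox_of_pt {ν : ℕ} {g : G} (x : X) (hx : ∀ j : ℕ, j ≤ ν * d x (g ^ j • x)) :
    Lox X ν g := by
  intro y j
  by_contra hc
  have key : ∀ k : ℕ, k ≤ ν * (2 * d x y) := by
    intro k
    have e1 := hx (j * k)
    have e2 := d_move_le (g ^ (j * k)) x y
    have e3 := d_pow_le (g ^ j) y k
    rw [← pow_mul] at e3
    have e4 : ν * d x (g ^ (j * k) • x) ≤ ν * (k * d y (g ^ j • y) + 2 * d x y) :=
      Nat.mul_le_mul_left _ (by omega)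
    have e5 : k * (ν * d y (g ^ j • y) + 1) ≤ k * j := Nat.mul_le_mul_left _ (by omega)
    nlinarith
  have := key (ν * (2 * d x y) + 1)
  omega

omit [Iso G X] in
theorem Lox.mono {ν ν' : ℕ} {g : G} (h : Lox X ν g) (hh : ν ≤ ν') : Lox X ν' g :=
  fun x j => (h x j).trans (Nat.mul_le_mul_right _ hh)

omit [Iso G X] in
theorem Lox.lt {ν : ℕ} {g : G} (h : Lox X ν g) (x : X) {j B : ℕ} (hj : ν * B < j) :
    B < d x (g ^ j • x) := by
  by_contra hc
  have := h x j
  have := Nat.mul_le_mul_left ν (show d x (g ^ j • x) ≤ B by omega)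
  omega

omit [Iso G X] in
theorem Lox.not_bdd {ν : ℕ} {g : G} (h : Lox X ν g) (B : ℕ) :
    ¬ ∀ j : ℕ, ∃ x : X, d x (g ^ j • x) ≤ B := fun hb => by
  obtain ⟨x, hx⟩ := hb (ν * B + 1)
  have := h.lt x (j := ν * B + 1) (B := B) (by omega)
  omega

theorem par_btw (h : Hyp X δ) (f : G) {p q z : X} {M : ℕ} (hp : d p (f • p) ≤ M)
    (hq : d q (f • q) ≤ M) (hz : Btw p z q) (h1 : M + δ < d p z) (h2 : M + δ < d z q) :
    d p (f • z) + d (f • z) q ≤ d p q + 2 * δ := by
  unfold Btw at hz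
  have a1 := d_smul f p z; have a2 := d_smul f z q; have a3 := d_smul f p q
  have e1 := h (f • p) (f • q) p (f • z)
  have e2 := h p (f • q) q (f • z)
  have t1 := d_tri (f • p) p (f • z); have t2 := d_tri (f • q) q (f • z)
  have := d_comm (f • p) p; have := d_comm (f • q) q; have := d_comm (f • q) (f • z)
  have := d_comm q (f • z); have := d_comm (f • q) p
  omega

theorem bus_aux (h : Hyp X δ) {p q a w : X} {M : ℕ} (ha : d p a ≤ M)
    (hw : d p w + d w q ≤ d p q + 2 * δ) (hpw : M + 2 * δ < d p w) :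
    d a w + d p q ≤ d a q + d p w + δ ∧ d a q + d p w ≤ d a w + d p q + δ := by
  have e1 := h a w q p
  have e2 := h a q w p
  have t1 := d_tri p a w; have t2 := d_tri p a q; have t3 := d_tri p w q
  have := d_comm q p; have := d_comm a p; have := d_comm w p; have := d_comm w q
  omega

/-- Commutators move the inner points of a long segment little. -/
theorem comm_small (h : Hyp X δ) (f g : G) {p q z : X} {M : ℕ} (hfp : d p (f • p) ≤ M)
    (hfq : d q (f • q) ≤ M) (hgp : d p (g • p) ≤ M) (hgq : d q (g • q) ≤ M) (hz : Btw p z q)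
    (h1 : 5 * M + 5 * δ < d p z) (h2 : 5 * M + 5 * δ < d z q) :
    d z ((f * g * f⁻¹ * g⁻¹) • z) ≤ 7 * δ := by
  have i1 : ∀ x : X, d x (f⁻¹ • x) = d x (f • x) := d_smul_inv f
  have i2 : ∀ x : X, d x (g⁻¹ • x) = d x (g • x) := d_smul_inv g
  have m2 : ∀ x : X, d x ((f⁻¹ * g⁻¹) • x) ≤ d x (f • x) + d x (g • x) := fun x => by
    have := d_mul_le f⁻¹ g⁻¹ x; rw [i1, i2] at this; exact this
  have m3 : ∀ x : X, d x ((g * (f⁻¹ * g⁻¹)) • x) ≤ d x (f • x) + 2 * d x (g • x) := fun x => by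
    have := d_mul_le g (f⁻¹ * g⁻¹) x; have := m2 x; omega
  have m4 : ∀ x : X, d x ((f * (g * (f⁻¹ * g⁻¹))) • x) ≤ 2 * d x (f • x) + 2 * d x (g • x) :=
    fun x => by have := d_mul_le f (g * (f⁻¹ * g⁻¹)) x; have := m3 x; omega
  have P : ∀ u : G, d p (u • p) ≤ 4 * M → d q (u • q) ≤ 4 * M →
      d p (u • z) + d (u • z) q ≤ d p q + 2 * δ ∧ M + 2 * δ < d p (u • z) + d p (u • p) - 3 * M
      := fun u a b => by
    refine ⟨par_btw h u a b hz (by omega) (by omega), ?_⟩
    have := d_tri (u • p) p (u • z)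
    rw [d_smul] at this
    have := d_comm p (u • p)
    omega
  obtain ⟨p1, q1⟩ := P g⁻¹ (by rw [i2]; omega) (by rw [i2]; omega)
  obtain ⟨p2, q2⟩ := P (f⁻¹ * g⁻¹) (by have := m2 p; omega) (by have := m2 q; omega)
  obtain ⟨p3, q3⟩ := P (g * (f⁻¹ * g⁻¹)) (by have := m3 p; omega) (by have := m3 q; omega)
  obtain ⟨p4, -⟩ := P (f * (g * (f⁻¹ * g⁻¹))) (by have := m4 p; omega) (by have := m4 q; omega)
  have r1 := i2 p; have r2 := m2 p; have r3 := m3 p
  have B1 := bus_aux h (a := g⁻¹ • p) (M := M) (by rw [i2]; omega) p1 (by omega)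
  have B2 := bus_aux h (a := g⁻¹ • p) (M := M) (by rw [i2]; omega) p2 (by omega)
  have B3 := bus_aux h (a := f⁻¹ • p) (M := M) (by rw [i1]; omega) p2 (by omega)
  have B4 := bus_aux h (a := f⁻¹ • p) (M := M) (by rw [i1]; omega) p3 (by omega)
  have c1 : d (g⁻¹ • p) (g⁻¹ • z) = d p z := d_smul _ _ _
  have c2 : d (g⁻¹ • p) ((f⁻¹ * g⁻¹) • z) = d p ((g * (f⁻¹ * g⁻¹)) • z) := by
    rw [← d_smul g, smul_inv_smul, ← mul_smul]
  have c3 : d (f⁻¹ • p) ((f⁻¹ * g⁻¹) • z) = d p (g⁻¹ • z) := by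
    rw [mul_smul, d_smul]
  have c4 : d (f⁻¹ • p) ((g * (f⁻¹ * g⁻¹)) • z) = d p ((f * (g * (f⁻¹ * g⁻¹))) • z) := by
    rw [← d_smul f, smul_inv_smul, ← mul_smul]
  rw [show f * g * f⁻¹ * g⁻¹ = f * (g * (f⁻¹ * g⁻¹)) by group]
  have e := h z ((f * (g * (f⁻¹ * g⁻¹))) • z) q p
  unfold Btw at hz
  have := d_comm z p; have := d_comm q p; have := d_comm ((f * (g * (f⁻¹ * g⁻¹))) • z) p
  omega

end

end Pool.Agent.QIB
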