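import Pool.Agent.Work.MP_9628a2_al.Quot
import Pool.Agent.Work.MP_9628a2_al.Hyp

-- merged part: Pool.Agent.Work.MP_9628a2_al.Logic
section
-- merged part: Pool.Agent.Work.MP_9628a2_al.Wind
section
set_option autoImplicit false

namespace Pool.Agent.QIB

variable {X : Type} [GSp X]

/-- The subgroup generated by the stabilisers of the apices. -/
def rotK (G : Type) [Group G] [MulAction G X] (A : Set X) : Subgroup G :=
  Subgroup.closure {κ | ∃ c ∈ A, κ • c = c}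

/-- A spinning family. -/
structure Spin (G : Type) [Group G] [MulAction G X] (A : Set X) (δ sp : ℕ) : Prop where
  hyp : Hyp X δ
  hδ : 1 ≤ δ
  inv : ∀ (g : G), ∀ c ∈ A, g • c ∈ A
  sep : ∀ c ∈ A, ∀ c' ∈ A, c ≠ c' → sp ≤ d c c'
  hsp : 100 * δ ≤ sp
  rot : ∀ c ∈ A, ∀ κ : G, κ ≠ 1 → κ • c = c → ∀ u, d c u = 1 → ¬ Reach c (200 * δ) u (κ • u)

variable {G : Type} [Group G] [MulAction G X] {A : Set X} {δ sp : ℕ}

omit [GSp X] in
theorem mem_rotK {κ : G} {c : X} (hc : c ∈ A) (h : κ • c = c) : κ ∈ rotK G A :=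
  Subgroup.subset_closure ⟨c, hc, h⟩

omit [GSp X] in
theorem rotK_normal (h : ∀ (g : G), ∀ c ∈ A, g • c ∈ A) : (rotK G A).Normal := by
  refine ⟨fun k hk g => ?_⟩
  induction hk using Subgroup.closure_induction with
  | mem κ hκ =>
    obtain ⟨c, hc, hκ⟩ := hκ
    exact mem_rotK (h g c hc) (by rw [mul_smul, mul_smul, inv_smul_smul, hκ])
  | one => simp
  | mul a b _ _ ha hb =>
    rw [show g * (a * b) * g⁻¹ = (g * a * g⁻¹) * (g * b * g⁻¹) by group]
    exact Subgroup.mul_mem _ ha hb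
  | inv a _ ha =>
    rw [show g * a⁻¹ * g⁻¹ = (g * a * g⁻¹)⁻¹ by group]
    exact Subgroup.inv_mem _ ha

namespace Wm

/-- Apices in a ball. -/
def Bs (A : Set X) (δ : ℕ) (x : X) (j : ℕ) : Set X := {c | c ∈ A ∧ d x c < 8 * δ * j}

variable (G)

/-- The windmill groups. -/
def Kj (A : Set X) (δ : ℕ) (x : X) (j : ℕ) : Subgroup G := rotK G (Bs A δ x j)

/-- Translates of apices of level `i` by the group of level `j`. -/
def Tr (A : Set X) (δ : ℕ) (x : X) (j i : ℕ) (c : X) : Prop :=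
  ∃ h ∈ Kj G A δ x j, ∃ c0 ∈ Bs A δ x i, c = h • c0

/-- Vertices of the windmill. -/
def Pt (A : Set X) (δ : ℕ) (x : X) (j : ℕ) (p : X) : Prop :=
  (∃ h ∈ Kj G A δ x j, p = h • x) ∨ Tr G A δ x j (j + 1) p

/-- Points near the windmill. -/
def Qz (A : Set X) (δ : ℕ) (x : X) (j : ℕ) (z : X) : Prop :=
  ∃ h ∈ Kj G A δ x j, d z (h • x) < 8 * δ * j ∨ z = h • x ∨
    ∃ c ∈ A, d c (h • x) < 8 * δ * j ∧ d c (h • x) + 2 * d z c < 8 * δ * j + 16 * δ

/-- Geodesics between orbit points stay near the windmill. -/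
def QQ (A : Set X) (δ : ℕ) (x : X) (j : ℕ) : Prop :=
  ∀ g ∈ Kj G A δ x j, ∀ z, Btw x z (g • x) → Qz G A δ x j z

/-- Decompositions into rotations. -/
def Dec (A : Set X) (δ : ℕ) (x : X) (j : ℕ) (k : G) (l : List (G × X)) (g : G) : Prop :=
  (∀ p ∈ l, p.1 • p.2 = p.2 ∧ Tr G A δ x j (j + 1) p.2) ∧ g ∈ Kj G A δ x j ∧
    k = (l.map Prod.fst).prod * g

variable {G} {x : X} {j : ℕ}

theorem Kj_mono {i j : ℕ} (h : i ≤ j) : Kj G A δ x i ≤ Kj G A δ x j := by
  refine Subgroup.closure_mono ?_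
  rintro κ ⟨c, ⟨h1, h2⟩, h3⟩
  exact ⟨c, ⟨h1, lt_of_lt_of_le h2 (Nat.mul_le_mul_left _ h)⟩, h3⟩

theorem Kj_zero {k : G} (h : k ∈ Kj G A δ x 0) : k = 1 := by
  have : Kj G A δ x 0 ≤ ⊥ := by
    refine (Subgroup.closure_le _).2 ?_
    rintro κ ⟨c, ⟨-, h2⟩, -⟩
    omega
  exact this h

theorem exists_Kj (hδ : 1 ≤ δ) {k : G} (h : k ∈ rotK G A) : ∃ j, k ∈ Kj G A δ x j := by
  induction h using Subgroup.closure_induction with
  | mem κ hκ =>
    obtain ⟨c, hc, hκ⟩ := hκ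
    exact ⟨d x c + 1, mem_rotK ⟨hc, by nlinarith⟩ hκ⟩
  | one => exact ⟨0, Subgroup.one_mem _⟩
  | mul a b _ _ ha hb =>
    obtain ⟨i, hi⟩ := ha
    obtain ⟨j, hj⟩ := hb
    exact ⟨max i j, Subgroup.mul_mem _ (Kj_mono (le_max_left _ _) hi) (Kj_mono (le_max_right _ _) hj)⟩
  | inv a _ ha =>
    obtain ⟨i, hi⟩ := ha
    exact ⟨i, Subgroup.inv_mem _ hi⟩

theorem Tr.smul {i : ℕ} {c : X} (h : Tr G A δ x j i c) {g : G} (hg : g ∈ Kj G A δ x j) :
    Tr G A δ x j i (g • c) := by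
  obtain ⟨a, ha, c0, h0, rfl⟩ := h
  exact ⟨g * a, Subgroup.mul_mem _ hg ha, c0, h0, (mul_smul _ _ _).symm⟩

theorem Tr.mem_K {i : ℕ} {c : X} (h : Tr G A δ x j i c) (hji : j ≤ i) {κ : G} (hκ : κ • c = c) :
    κ ∈ Kj G A δ x i := by
  obtain ⟨a, ha, c0, h0, rfl⟩ := h
  have ha' := Kj_mono hji ha
  have : a⁻¹ * κ * a ∈ Kj G A δ x i :=
    mem_rotK h0 (by rw [mul_smul, mul_smul, hκ, inv_smul_smul])
  rw [show κ = a * (a⁻¹ * κ * a) * a⁻¹ by group]
  exact Subgroup.mul_mem _ (Subgroup.mul_mem _ ha' this) (Subgroup.inv_mem _ ha')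

theorem Tr.mem_A (H : Spin G A δ sp) {i : ℕ} {c : X} (h : Tr G A δ x j i c) : c ∈ A := by
  obtain ⟨a, -, c0, h0, rfl⟩ := h
  exact H.inv a c0 h0.1

theorem exists_dec {k : G} (h : k ∈ Kj G A δ x (j + 1)) : ∃ l g, Dec G A δ x j k l g := by
  have step : ∀ (κ : G) (c : X), c ∈ Bs A δ x (j + 1) → κ • c = c → ∀ k : G,
      (∃ l g, Dec G A δ x j k l g) → ∃ l g, Dec G A δ x j (κ * k) l g := by
    rintro κ c hc hκ k ⟨l, g, h1, h2, h3⟩
    refine ⟨(κ, c) :: l, g, ?_, h2, by simp [h3, mul_assoc]⟩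
    intro p hp
    rcases List.mem_cons.1 hp with rfl | hp
    · exact ⟨hκ, 1, Subgroup.one_mem _, c, hc, (one_smul _ _).symm⟩
    · exact h1 p hp
  induction h using Subgroup.closure_induction_left with
  | one => exact ⟨[], 1, by simp, Subgroup.one_mem _, by simp⟩
  | mul_left κ hκ k _ ih =>
    obtain ⟨c, hc, hκ⟩ := hκ
    exact step κ c hc hκ k ih
  | inv_mul_cancel κ hκ k _ ih =>
    obtain ⟨c, hc, hκ⟩ := hκ
    exact step κ⁻¹ c hc (inv_smul_eq_iff.2 hκ.symm) k ih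

theorem Dec.mem {k g : G} {l : List (G × X)} (h : Dec G A δ x j k l g) :
    k ∈ Kj G A δ x (j + 1) := by
  obtain ⟨h1, h2, rfl⟩ := h
  refine Subgroup.mul_mem _ (Subgroup.list_prod_mem _ ?_) (Kj_mono (by omega) h2)
  intro a ha
  obtain ⟨p, hp, rfl⟩ := List.mem_map.1 ha
  exact (h1 p hp).2.mem_K (by omega) (h1 p hp).1

omit [GSp X] [MulAction G X] in
theorem prod_conj (a : G) (f : X → X) (l : List (G × X)) :
    ((l.map fun p => (a * p.1 * a⁻¹, f p.2)).map Prod.fst).prod =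
      a * (l.map Prod.fst).prod * a⁻¹ := by
  induction l with
  | nil => simp
  | cons p l ih =>
    simp only [List.map_cons, List.prod_cons] at *
    rw [ih]; group

/-- Reduced decompositions exist with no greater length. -/
theorem exists_red (l : List (G × X)) : ∀ (k g : G), Dec G A δ x j k l g →
    (∃ l' g', Dec G A δ x j k l' g' ∧ l'.length < l.length) ∨
    ((∀ p ∈ l, p.1 ∉ Kj G A δ x j) ∧ l.IsChain (fun p q => p.2 ≠ q.2)) := by
  induction l with
  | nil => intro k g _; exact Or.inr ⟨by simp, List.isChain_nil⟩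
  | cons p l ih =>
    rintro k g ⟨h1, h2, h3⟩
    have hp := h1 p (List.mem_cons_self ..)
    have hl : ∀ q ∈ l, q.1 • q.2 = q.2 ∧ Tr G A δ x j (j + 1) q.2 :=
      fun q hq => h1 q (List.mem_cons_of_mem _ hq)
    rcases ih ((l.map Prod.fst).prod * g) g ⟨hl, h2, rfl⟩ with ⟨l', g', ⟨a1, a2, a3⟩, a4⟩ | ⟨a1, a2⟩
    · refine Or.inl ⟨p :: l', g', ⟨?_, a2, ?_⟩, by simpa using a4⟩
      · intro q hq
        rcases List.mem_cons.1 hq with rfl | hq
        · exact hp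
        · exact a1 q hq
      · rw [h3]; simp only [List.map_cons, List.prod_cons, mul_assoc]; rw [a3]
    by_cases hk : p.1 ∈ Kj G A δ x j
    · refine Or.inl ⟨l.map fun q => (p.1 * q.1 * p.1⁻¹, p.1 • q.2), p.1 * g,
        ⟨?_, Subgroup.mul_mem _ hk h2, ?_⟩, by simp⟩
      · intro q hq
        obtain ⟨r, hr, rfl⟩ := List.mem_map.1 hq
        exact ⟨by simp only; rw [mul_smul, mul_smul, inv_smul_smul, (hl r hr).1],
          (hl r hr).2.smul hk⟩
      · rw [prod_conj, h3]; simp only [List.map_cons, List.prod_cons]; group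
    cases l with
    | nil => exact Or.inr ⟨by simpa using hk, List.isChain_singleton _⟩
    | cons q l =>
      by_cases he : p.2 = q.2
      · refine Or.inl ⟨(p.1 * q.1, p.2) :: l, g, ⟨?_, h2, ?_⟩, by simp⟩
        · intro r hr
          rcases List.mem_cons.1 hr with rfl | hr
          · refine ⟨?_, hp.2⟩
            simp only
            rw [mul_smul, he, (hl q (List.mem_cons_self ..)).1, ← he, hp.1]
          · exact hl r (List.mem_cons_of_mem _ hr)
        · rw [h3]; simp [mul_assoc]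
      · refine Or.inr ⟨?_, List.IsChain.cons_cons he a2⟩
        intro r hr
        rcases List.mem_cons.1 hr with rfl | hr
        · exact hk
        · exact a1 r hr

variable [Iso G X]

theorem Qz.smul {z : X} (H : Spin G A δ sp) (h : Qz G A δ x j z) {g : G}
    (hg : g ∈ Kj G A δ x j) : Qz G A δ x j (g • z) := by
  obtain ⟨a, ha, h⟩ := h
  refine ⟨g * a, Subgroup.mul_mem _ hg ha, ?_⟩
  rw [mul_smul, d_smul]
  rcases h with h | h | ⟨c, hc, h1, h2⟩
  · exact Or.inl h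
  · exact Or.inr (Or.inl (by rw [h]))
  · exact Or.inr (Or.inr ⟨g • c, H.inv g c hc, by rw [d_smul]; exact h1, by
      rw [d_smul, d_smul]; exact h2⟩)

theorem tr_of_lt (H : Spin G A δ sp) {z : X} (hz : z ∈ A) {h : G} (hh : h ∈ Kj G A δ x j)
    (hd : d z (h • x) < 8 * δ * j) : Tr G A δ x j j z :=
  ⟨h, hh, h⁻¹ • z, ⟨H.inv _ _ hz, by rw [d_inv_smul, d_comm]; exact hd⟩, by simp⟩

theorem Qz.old (H : Spin G A δ sp) (hx : 1 ≤ j ∨ x ∉ A) {z : X} (hz : z ∈ A)
    (h : Qz G A δ x j z) : Tr G A δ x j j z := by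
  obtain ⟨a, ha, h | h | ⟨c, hc, h1, h2⟩⟩ := h
  · exact tr_of_lt H hz ha h
  · rcases hx with hx | hx
    · refine tr_of_lt H hz ha ?_
      rw [h, d_self]
      have := H.hδ
      positivity
    · exact absurd (by simpa [h] using H.inv a⁻¹ z hz) hx
  · by_cases he : z = c
    · exact tr_of_lt H hz ha (he ▸ h1)
    · have := H.sep z hz c hc he
      have := H.hsp
      have := d_tri z c (a • x)
      exact tr_of_lt H hz ha (by omega)

theorem loc (H : Spin G A δ sp) (hx : 1 ≤ j ∨ x ∉ A) (hQ : QQ G A δ x j) {c : X} (hc : c ∈ A)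
    (hn : ¬ Tr G A δ x j j c) {p q : X} (hp : Pt G A δ x j p) (hq : Pt G A δ x j q) (hpc : p ≠ c)
    (hqc : q ≠ c) : Ang c (60 * δ) p q := by
  have side : ∀ p, Pt G A δ x j p → p ≠ c → ∃ h ∈ Kj G A δ x j, ¬ Btw (h • x) c p := by
    rintro p (⟨h, hh, rfl⟩ | ⟨h, hh, c0, h0, rfl⟩) hpc
    · exact ⟨h, hh, fun hb => hpc hb.eq_of_self.symm⟩
    · refine ⟨h, hh, fun hb => hn (tr_of_lt H hc hh ?_)⟩
      have := H.sep c hc _ (H.inv h c0 h0.1) hpc.symm
      have := H.hsp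
      have := h0.2
      unfold Btw at hb
      rw [d_smul] at hb
      have := d_comm c (h • x)
      rw [Nat.mul_add] at *
      omega
  obtain ⟨a, ha, ha'⟩ := side p hp hpc
  obtain ⟨b, hb, hb'⟩ := side q hq hqc
  have hm : ¬ Btw (a • x) c (b • x) := by
    intro h
    have h' : Btw x (a⁻¹ • c) ((a⁻¹ * b) • x) := by
      rw [← btw_smul a]; simpa [mul_smul] using h
    have := (hQ _ (Subgroup.mul_mem _ (Subgroup.inv_mem _ ha) hb) _ h').old H hx (H.inv _ _ hc)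
    exact hn (by simpa using this.smul ha)
  exact (((bgi H.hyp H.hδ ha').symm.trans (bgi H.hyp H.hδ hm) (ne_left_of_not_btw hm)).trans
    (bgi H.hyp H.hδ hb') (ne_left_of_not_btw hb')).mono (by omega)

theorem quad (H : Spin G A δ sp) (hQ : QQ G A δ x j) {p q z : X} (hp : Pt G A δ x j p)
    (hq : Pt G A δ x j q) (hz : Btw p z q) : Qz G A δ x (j + 1) z := by
  have hδ := H.hδ
  have side : ∀ p, Pt G A δ x j p → ∃ h ∈ Kj G A δ x j, ∀ z', Btw p z' (h • x) →
      d z z' ≤ 4 * δ → Qz G A δ x (j + 1) z := by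
    rintro p (⟨h, hh, rfl⟩ | ⟨h, hh, c0, h0, rfl⟩)
    · refine ⟨h, hh, fun z' hb hd => ⟨h, Kj_mono (by omega) hh, Or.inl ?_⟩⟩
      rw [hb.eq_of_self] at hd
      rw [Nat.mul_add]; omega
    · refine ⟨h, hh, fun z' hb hd => ⟨h, Kj_mono (by omega) hh, ?_⟩⟩
      have h1 : d (h • c0) (h • x) < 8 * δ * (j + 1) := by rw [d_smul, d_comm]; exact h0.2
      unfold Btw at hb
      have := d_tri z z' (h • x)
      have := d_tri z z' (h • c0)
      have := d_comm z' (h • c0)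
      by_cases h4 : 4 * δ ≤ d (h • c0) z'
      · exact Or.inl (by omega)
      · exact Or.inr (Or.inr ⟨h • c0, H.inv _ _ h0.1, h1, by omega⟩)
  obtain ⟨a, ha, ha'⟩ := side p hp
  obtain ⟨b, hb, hb'⟩ := side q hq
  obtain ⟨z1, h1 | h1, h1'⟩ := slim_of_hyp H.hyp p q (a • x) z hz
  · exact ha' z1 h1 (by omega)
  obtain ⟨z2, h2 | h2, h2'⟩ := slim_of_hyp H.hyp (a • x) q (b • x) z1 h1
  swap
  · exact hb' z2 h2.symm (by have := d_tri z z1 z2; omega)
  have h' : Btw x (a⁻¹ • z2) ((a⁻¹ * b) • x) := by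
    rw [← btw_smul a]; simpa [mul_smul] using h2
  have := (hQ _ (Subgroup.mul_mem _ (Subgroup.inv_mem _ ha) hb) _ h').smul H ha
  rw [smul_inv_smul] at this
  obtain ⟨h, hh, h3⟩ := this
  refine ⟨h, Kj_mono (by omega) hh, ?_⟩
  have t1 := d_tri z z1 z2
  have t2 := d_tri z z2 (h • x)
  rw [Nat.mul_add]
  rcases h3 with h3 | h3 | ⟨c, hc, h3, h4⟩
  · exact Or.inl (by omega)
  · rw [← h3]; exact Or.inl (by omega)
  · exact Or.inr (Or.inr ⟨c, hc, by omega, by have := d_tri z z2 c; omega⟩)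

/-- The first vertex after the start of a decomposition. -/
def nx (x : X) (l : List (G × X)) (g : G) : X :=
  match l with
  | [] => g • x
  | p :: _ => p.2

theorem main (H : Spin G A δ sp) (hx : 1 ≤ j ∨ x ∉ A) (hQ : QQ G A δ x j) (l : List (G × X)) :
    ∀ (k g : G), Dec G A δ x j k l g → (∀ p ∈ l, p.1 ∉ Kj G A δ x j) →
    l.IsChain (fun p q => p.2 ≠ q.2) → ∀ p, Pt G A δ x j p → (l = [] ∨ p ≠ nx x l g) →
    (∀ z, Btw p z (k • x) → Qz G A δ x (j + 1) z) ∧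
    (p ≠ nx x l g → ¬ Btw (nx x l g) p (k • x)) ∧
    ∀ q l', l = q :: l' → q.2 ≠ k • x ∧ Ang q.2 (80 * δ) (q.1 • p) (k • x) := by
  induction l with
  | nil =>
    rintro k g ⟨-, h2, h3⟩ - - p hp -
    simp only [List.map_nil, List.prod_nil, one_mul] at h3
    subst h3
    exact ⟨fun z hz => quad H hQ hp (Or.inl ⟨k, h2, rfl⟩) hz,
      fun hne hb => hne hb.eq_of_self, by simp⟩
  | cons q l ih =>
    rintro k g ⟨h1, h2, h3⟩ h4 h5 p hp hne
    have hne' : p ≠ q.2 := by simpa [nx] using hne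
    obtain ⟨hq1, hq2⟩ := h1 q (List.mem_cons_self ..)
    have hqK := h4 q (List.mem_cons_self ..)
    have hqA := hq2.mem_A H
    have hnew : ¬ Tr G A δ x j j q.2 := fun h => hqK (h.mem_K le_rfl hq1)
    have hl : ∀ r ∈ l, r.1 • r.2 = r.2 ∧ Tr G A δ x j (j + 1) r.2 :=
      fun r hr => h1 r (List.mem_cons_of_mem _ hr)
    have hn : Pt G A δ x j (nx x l g) ∧ q.2 ≠ nx x l g := by
      cases l with
      | nil =>
        refine ⟨Or.inl ⟨g, h2, rfl⟩, fun e => hnew ?_⟩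
        exact Qz.old H hx hqA ⟨g, h2, Or.inr (Or.inl e)⟩
      | cons r l =>
        exact ⟨Or.inr (hl r (List.mem_cons_self ..)).2, (List.isChain_cons_cons.1 h5).1⟩
    obtain ⟨i1, i2, -⟩ := ih ((l.map Prod.fst).prod * g) g ⟨hl, h2, rfl⟩
      (fun r hr => h4 r (List.mem_cons_of_mem _ hr)) h5.tail q.2 (Or.inr hq2) (Or.inr hn.2)
    have i3 := i2 hn.2
    set y := ((l.map Prod.fst).prod * g) • x with hy
    have hk : k • x = q.1 • y := by
      rw [h3, hy, ← mul_smul]; simp [mul_assoc]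
    have hyc : y ≠ q.2 := ne_right_of_not_btw i3
    have a1 : Ang q.2 (80 * δ) p y :=
      ((loc H hx hQ hqA hnew hp hn.1 hne' hn.2.symm).trans (bgi H.hyp H.hδ i3) hn.2.symm).mono
        (by omega)
    have hκ1 : q.1 ≠ 1 := fun e => hqK (e ▸ Subgroup.one_mem _)
    have a2 : ¬ Ang q.2 (120 * δ) p (q.1 • y) := fun h =>
      not_ang_of_rot hq1 (H.rot _ hqA _ hκ1 hq1) hyc ((a1.symm.trans h hne').mono (by omega))
    have hs := sep_of_not_ang H.hyp H.hδ (by omega) a2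
    have hκK : q.1 ∈ Kj G A δ x (j + 1) := hq2.mem_K (by omega) hq1
    rw [hk]
    refine ⟨fun z hz => ?_, fun _ hb => ?_, ?_⟩
    · rcases hs.cases hz with hb | hb
      · exact quad H hQ hp (Or.inr hq2) hb
      · have : Btw q.2 (q.1⁻¹ • z) y := by
          rw [← btw_smul q.1, hq1]; simpa using hb
        simpa using (i1 _ this).smul H hκK
    · have := hs.btw
      have := d_pos hne'
      simp only [nx] at hb
      unfold Btw at *
      have := d_comm p q.2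
      omega
    · intro q' l' e
      obtain ⟨rfl, -⟩ := List.cons.inj e
      refine ⟨(ne_of_not_ang a2).2.symm, ?_⟩
      have := a1.smul q.1
      rwa [hq1] at this

omit [Iso G X] in
theorem fix_one (H : Spin G A δ sp) (hx : x ∈ A) {k : G} (hk : k ∈ Kj G A δ x 1) : k • x = x := by
  have : Kj G A δ x 1 ≤ MulAction.stabilizer G x := by
    refine (Subgroup.closure_le _).2 ?_
    rintro κ ⟨c, ⟨h1, h2⟩, h3⟩
    have : x = c := by
      by_contra hne
      have := H.sep x hx c h1 hne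
      have := H.hsp
      omega
    subst this
    exact h3
  exact this hk

omit [Iso G X] in
theorem exists_min (k : G) (h : k ∈ Kj G A δ x (j + 1)) : ∃ l g, Dec G A δ x j k l g ∧
    l.length = sInf {n | ∃ l g, Dec G A δ x j k l g ∧ l.length = n} ∧
    (∀ p ∈ l, p.1 ∉ Kj G A δ x j) ∧ l.IsChain (fun p q => p.2 ≠ q.2) := by
  obtain ⟨l0, g0, h0⟩ := exists_dec h
  obtain ⟨l, g, h1, h2⟩ := Nat.sInf_mem
    (s := {n | ∃ l g, Dec G A δ x j k l g ∧ l.length = n}) ⟨_, l0, g0, h0, rfl⟩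
  refine ⟨l, g, h1, h2, (exists_red l k g h1).resolve_left ?_⟩
  rintro ⟨l', g', h3, h4⟩
  have := Nat.sInf_le (s := {n | ∃ l g, Dec G A δ x j k l g ∧ l.length = n}) ⟨l', g', h3, rfl⟩
  omega

theorem pt_self (hx : 1 ≤ j ∨ x ∉ A) (H : Spin G A δ sp) {k g : G} {l : List (G × X)}
    (h : Dec G A δ x j k l g) (h4 : ∀ p ∈ l, p.1 ∉ Kj G A δ x j) :
    Pt G A δ x j x ∧ (l = [] ∨ x ≠ nx x l g) := by
  refine ⟨Or.inl ⟨1, Subgroup.one_mem _, (one_smul _ _).symm⟩, ?_⟩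
  cases l with
  | nil => exact Or.inl rfl
  | cons q l =>
    refine Or.inr fun e => h4 q (List.mem_cons_self ..) ?_
    obtain ⟨hq1, hq2⟩ := h.1 q (List.mem_cons_self ..)
    refine Tr.mem_K (Qz.old H hx (hq2.mem_A H) ⟨1, Subgroup.one_mem _, Or.inr (Or.inl ?_)⟩)
      le_rfl hq1
    rw [one_smul]; exact e.symm

theorem qq (H : Spin G A δ sp) (j : ℕ) : QQ G A δ x j := by
  induction j with
  | zero =>
    intro g hg z hz
    rw [Kj_zero hg, one_smul] at hz
    exact ⟨1, Subgroup.one_mem _, Or.inr (Or.inl (by rw [one_smul]; exact hz.eq_of_self))⟩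
  | succ j ih =>
    intro k hk z hz
    by_cases hx : 1 ≤ j ∨ x ∉ A
    · obtain ⟨l, g, h1, -, h3, h4⟩ := exists_min k hk
      obtain ⟨a1, a2⟩ := pt_self hx H h1 h3
      exact (main H hx ih l k g h1 h3 h4 x a1 a2).1 z hz
    · push Not at hx
      obtain rfl : j = 0 := by omega
      rw [fix_one H hx.2 hk] at hz
      exact ⟨1, Subgroup.one_mem _, Or.inr (Or.inl (by rw [one_smul]; exact hz.eq_of_self))⟩

end Wm

variable [Iso G X]

open Wm in
/-- Greendlinger property. -/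
theorem Spin.gp (H : Spin G A δ sp) (x : X) : ∃ r : G → G → Prop, WellFounded r ∧
    ∀ k ∈ rotK G A, k ≠ 1 → ∃ c ∈ A, ∃ κ : G, κ ≠ 1 ∧ κ • c = c ∧ r (κ⁻¹ * k) k ∧
      (c = x ∨ (c ≠ x ∧ c ≠ k • x ∧ Ang c (80 * δ) (κ • x) (k • x))) := by
  let lvl : G → ℕ := fun k => sInf {j | k ∈ Kj G A δ x j}
  let len : G → ℕ := fun k => sInf {n | ∃ l g, Dec G A δ x (lvl k - 1) k l g ∧ l.length = n}
  refine ⟨InvImage (Prod.Lex (· < ·) (· < ·)) (fun k => (lvl k, len k)),
    InvImage.wf _ (WellFounded.prod_lex wellFounded_lt wellFounded_lt), ?_⟩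
  intro k hk h1
  have hl : k ∈ Kj G A δ x (lvl k) := Nat.sInf_mem (exists_Kj H.hδ hk)
  obtain ⟨j, hj⟩ : ∃ j, lvl k = j + 1 := by
    refine ⟨lvl k - 1, ?_⟩
    have : lvl k ≠ 0 := fun e => h1 (Kj_zero (e ▸ hl))
    omega
  have hnot : k ∉ Kj G A δ x j := fun h => by
    have : lvl k ≤ j := Nat.sInf_le h
    omega
  rw [hj] at hl
  by_cases hx : 1 ≤ j ∨ x ∉ A
  · obtain ⟨l, g, a1, a2, a3, a4⟩ := exists_min k hl
    obtain ⟨b1, b2⟩ := pt_self hx H a1 a3
    cases l with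
    | nil => exact absurd (by rw [a1.2.2]; simpa using a1.2.1) hnot
    | cons q l =>
      obtain ⟨c1, c2⟩ := (main H hx (qq H j) _ k g a1 a3 a4 x b1 b2).2.2 q l rfl
      obtain ⟨hq1, hq2⟩ := a1.1 q (List.mem_cons_self ..)
      refine ⟨q.2, hq2.mem_A H, q.1, fun e => a3 q (List.mem_cons_self ..) (e ▸ Subgroup.one_mem _),
        hq1, ?_, Or.inr ⟨by simpa [nx, eq_comm] using b2, c1, c2⟩⟩
      have hd : Dec G A δ x j (q.1⁻¹ * k) l g :=
        ⟨fun r hr => a1.1 r (List.mem_cons_of_mem _ hr), a1.2.1, by rw [a1.2.2]; simp [mul_assoc]⟩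
      have h2 : lvl (q.1⁻¹ * k) ≤ j + 1 := Nat.sInf_le hd.mem
      show Prod.Lex _ _ (lvl _, len _) (lvl k, len k)
      rcases Nat.lt_or_eq_of_le h2 with h2 | h2
      · exact Prod.Lex.left _ _ (by omega)
      · rw [h2, hj]
        refine Prod.Lex.right _ ?_
        have e1 : len (q.1⁻¹ * k) ≤ l.length := Nat.sInf_le ⟨l, g, by rw [h2]; exact hd, rfl⟩
        have e2 : len k = l.length + 1 := by
          simp only [len, hj, Nat.add_sub_cancel]; rw [← a2]; rfl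
        omega
  · push Not at hx
    obtain rfl : j = 0 := by omega
    refine ⟨x, hx.2, k, h1, fix_one H hx.2 hl, ?_, Or.inl rfl⟩
    show Prod.Lex _ _ (lvl _, len _) (lvl k, len k)
    refine Prod.Lex.left _ _ ?_
    have : lvl (k⁻¹ * k) ≤ 0 := Nat.sInf_le (by simp)
    omega

end Pool.Agent.QIB
end

-- merged part: Pool.Agent.Work.MP_9628a2_al.WindQ
section
set_option autoImplicit false

namespace Pool.Agent.QIB

variable {X : Type} [GSp X] {G : Type} [Group G] [MulAction G X] [Iso G X] {A : Set X} {δ sp : ℕ}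

/-- The angle given by the Greendlinger property is large. -/
theorem Spin.windq_not_ang (H : Spin G A δ sp) {c x y : X} {κ : G} (hc : c ∈ A) (h1 : κ ≠ 1)
    (hκ : κ • c = c) (hx : c ≠ x) (hy : c ≠ y) (ha : Ang c (80 * δ) (κ • x) y) :
    ¬ Ang c (120 * δ) x y := fun h =>
  not_ang_of_rot hκ (H.rot c hc κ h1 hκ) hx.symm ((h.trans ha.symm hy.symm).mono (by omega))

theorem windq_d_inv {κ : G} {c : X} (hκ : κ • c = c) (y : X) : d c (κ⁻¹ • y) = d c y := by
  rw [d_inv_smul, hκ]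

/-- Nontrivial elements of the rotation group move points unless they are near an apex. -/
theorem Spin.l0 (H : Spin G A δ sp) {k : G} (hk : k ∈ rotK G A) (h1 : k ≠ 1) (x : X) :
    ∃ c ∈ A, 2 * d x c ≤ d x (k • x) := by
  obtain ⟨r, -, hr⟩ := H.gp x
  obtain ⟨c, hc, κ, hκ1, hκ, -, h | ⟨h2, h3, h4⟩⟩ := hr k hk h1
  · refine ⟨c, hc, ?_⟩
    rw [h, d_self]; omega
  · have hb := btw_of_not_ang H.hyp H.hδ (by omega) (H.windq_not_ang hc hκ1 hκ h2 h3 h4)
    unfold Btw at hb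
    by_cases hle : d x c ≤ d c (k • x)
    · exact ⟨c, hc, by omega⟩
    · refine ⟨k⁻¹ • c, H.inv _ _ hc, ?_⟩
      rw [d_inv_smul, d_comm (k • x) c]; omega

theorem Spin.eq_one_of_fix (H : Spin G A δ sp) {k : G} (hk : k ∈ rotK G A) {s : X} (hs : s ∉ A)
    (h : k • s = s) : k = 1 := by
  by_contra h1
  obtain ⟨c, hc, h2⟩ := H.l0 hk h1 s
  rw [h, d_self] at h2
  exact hs (eq_of_d s c (by omega) ▸ hc)

/-- Closing up a lifted triangle. -/
theorem Spin.windq_close (H : Spin G A δ sp) (x : X) (pb yb zb : QX (rotK G A) X) (k : G)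
    (hk : k ∈ rotK G A) : ∀ p y z : X, qm (rotK G A) p = pb → qm (rotK G A) y = yb →
      qm (rotK G A) z = zb → d x p + d p y ≤ d (qm (rotK G A) x) yb → d y z ≤ d yb zb →
      d z (k • x) ≤ d zb (qm (rotK G A) x) →
      ∃ p y z : X, qm (rotK G A) p = pb ∧ qm (rotK G A) y = yb ∧ qm (rotK G A) z = zb ∧
        d x p + d p y ≤ d (qm (rotK G A) x) yb ∧ d y z ≤ d yb zb ∧
        d z x ≤ d zb (qm (rotK G A) x) := by
  obtain ⟨r, wf, hr⟩ := H.gp x
  induction k using wf.induction with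
  | _ k ih =>
  intro p y z hp hy hz e1 e2 e3
  by_cases h1 : k = 1
  · subst h1
    rw [one_smul] at e3
    exact ⟨p, y, z, hp, hy, hz, e1, e2, e3⟩
  obtain ⟨c, hc, κ, hκ1, hκ, hlt, hcase⟩ := hr k hk h1
  have hκK : κ⁻¹ ∈ rotK G A := Subgroup.inv_mem _ (mem_rotK hc hκ)
  have ih' := ih _ hlt (Subgroup.mul_mem _ hκK hk)
  have q1 : ∀ w : X, qm (rotK G A) (κ⁻¹ • w) = qm (rotK G A) w := qm_smul_mem hκK
  have q2 : ∀ w : X, d c (κ⁻¹ • w) = d c w := windq_d_inv hκ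
  rcases hcase with h | ⟨h2, h3, h4⟩
  · subst h
    refine ih' (κ⁻¹ • p) (κ⁻¹ • y) (κ⁻¹ • z) (by rw [q1, hp]) (by rw [q1, hy]) (by rw [q1, hz])
      ?_ ?_ ?_
    · rw [q2, d_smul]; exact e1
    · rw [d_smul]; exact e2
    · rw [mul_smul, d_smul]; exact e3
  have hna := H.windq_not_ang hc hκ1 hκ h2 h3 h4
  have hxy : Btw x p y := by
    have := d_qm_le (K := rotK G A) x y
    have := d_tri x p y
    rw [hy] at *
    unfold Btw; omega
  by_cases s1 : Sep c x y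
  · rcases s1.cases hxy with hb | hb
    · refine ih' p (κ⁻¹ • y) (κ⁻¹ • z) hp (by rw [q1, hy]) (by rw [q1, hz]) ?_ ?_ ?_
      · have a1 := s1.btw
        have a2 := d_tri p c (κ⁻¹ • y)
        rw [q2] at a2
        unfold Btw at *; omega
      · rw [d_smul]; exact e2
      · rw [mul_smul, d_smul]; exact e3
    · refine ih' (κ⁻¹ • p) (κ⁻¹ • y) (κ⁻¹ • z) (by rw [q1, hp]) (by rw [q1, hy]) (by rw [q1, hz])
        ?_ ?_ ?_
      · have a1 := s1.btw
        have a2 := d_tri x c (κ⁻¹ • p)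
        rw [q2] at a2
        rw [d_smul]
        unfold Btw at *; omega
      · rw [d_smul]; exact e2
      · rw [mul_smul, d_smul]; exact e3
  by_cases s2 : Btw y c z
  · refine ih' p y (κ⁻¹ • z) hp hy (by rw [q1, hz]) e1 ?_ ?_
    · have a2 := d_tri y c (κ⁻¹ • z)
      rw [q2] at a2
      unfold Btw at *; omega
    · rw [mul_smul, d_smul]; exact e3
  by_cases s3 : Btw z c (k • x)
  · refine ih' p y z hp hy hz e1 e2 ?_
    have a2 := d_tri z c (κ⁻¹ • k • x)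
    rw [q2] at a2
    rw [mul_smul]
    unfold Btw at *; omega
  exact absurd ((((ang_of_not_sep H.hyp H.hδ s1).trans (bgi H.hyp H.hδ s2)
    (ne_left_of_not_btw s2)).trans (bgi H.hyp H.hδ s3) (ne_left_of_not_btw s3)).mono
      (by omega)) hna

/-- The quotient is as slim as the space. -/
theorem Spin.slim (H : Spin G A δ sp) {s : ℕ} (h : Slim X s) : Slim (QX (rotK G A) X) s := by
  intro xb yb zb pb hb
  obtain ⟨x, rfl⟩ := qm_surj (rotK G A) xb
  obtain ⟨p, hp, hp'⟩ := exists_lift x pb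
  obtain ⟨y, hy, hy'⟩ := exists_lift p yb
  obtain ⟨z, hz, hz'⟩ := exists_lift y zb
  obtain ⟨k, hk, hk'⟩ := exists_lift_k (K := rotK G A) z x
  rw [hp] at hy'
  rw [hy] at hz'
  rw [hz] at hk'
  obtain ⟨p, y, z, rfl, rfl, rfl, e1, e2, e3⟩ := H.windq_close x pb yb zb k hk p y z hp hy hz
    (by unfold Btw at hb; omega) hz'.le hk'.le
  have hxy : Btw x p y := by
    have := d_qm_le (K := rotK G A) x y
    have := d_tri x p y
    unfold Btw; omega
  obtain ⟨q, hq, hq'⟩ := h x y z p hxy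
  refine ⟨qm (rotK G A) q, ?_, (d_qm_le p q).trans hq'⟩
  rcases hq with hq | hq
  · refine Or.inl (btw_qm hq ?_).1
    have := d_qm_le (K := rotK G A) x z
    have := d_comm x z
    have := d_comm (qm (rotK G A) x) (qm (rotK G A) z)
    omega
  · refine Or.inr (btw_qm hq ?_).1
    have := d_qm_le (K := rotK G A) z y
    have := d_comm y z
    have := d_comm (qm (rotK G A) y) (qm (rotK G A) z)
    omega

/-- Pairs of points with no apex between them keep their distance. -/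
theorem Spin.d_qm (H : Spin G A δ sp) {x p : X} (h : ∀ c ∈ A, ¬ Btw x c p) :
    d (qm (rotK G A) x) (qm (rotK G A) p) = d x p := by
  have key : ∀ k ∈ rotK G A, d x p ≤ d x (k • p) := by
    obtain ⟨r, wf, hr⟩ := H.gp p
    intro k
    induction k using wf.induction with
    | _ k ih =>
    intro hk
    by_cases h1 : k = 1
    · rw [h1, one_smul]
    obtain ⟨c, hc, κ, hκ1, hκ, hlt, hcase⟩ := hr k hk h1
    have hκK : κ⁻¹ ∈ rotK G A := Subgroup.inv_mem _ (mem_rotK hc hκ)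
    have ih' := ih _ hlt (Subgroup.mul_mem _ hκK hk)
    rcases hcase with e | ⟨h2, h3, h4⟩
    · exact absurd (e ▸ btw_right x p) (h c hc)
    have hna := H.windq_not_ang hc hκ1 hκ h2 h3 h4
    have hb : Btw x c (k • p) := by
      by_contra hb
      exact hna (((bgi H.hyp H.hδ (h c hc)).symm.trans (bgi H.hyp H.hδ hb)
        (ne_left_of_not_btw hb)).mono (by omega))
    have a2 := d_tri x c (κ⁻¹ • k • p)
    rw [windq_d_inv hκ] at a2
    rw [mul_smul] at ih'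
    unfold Btw at hb; omega
  obtain ⟨k, hk, hk'⟩ := exists_lift_k (K := rotK G A) x p
  have := key k hk
  have := d_qm_le (K := rotK G A) x p
  omega

/-- Small displacements of elements outside the rotation group are seen in the quotient. -/
theorem Spin.windq_aux (H : Spin G A δ sp) {g : G} (hg : g ∉ rotK G A) {e : ℕ}
    (he : 3 * e + 4 < sp) {w : X} (h1 : d w (g • w) ≤ e + 2)
    (h2 : d (qm (rotK G A) w) (qm (rotK G A) (g • w)) ≤ e) :
    d w (g • w) = d (qm (rotK G A) w) (qm (rotK G A) (g • w)) := by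
  obtain ⟨k, hk, hk'⟩ := exists_lift_k (K := rotK G A) w (g • w)
  by_cases hk1 : k = 1
  · rw [hk1, one_smul] at hk'; exact hk'
  obtain ⟨c, hc, hc'⟩ := H.l0 hk hk1 (g • w)
  have a1 := d_tri (g • w) w (k • g • w)
  have a2 := d_move_le g c (g • w)
  rw [d_smul] at a2
  have := d_comm w (g • w)
  have := d_comm c (g • w)
  refine absurd (mem_rotK hc ?_) hg
  by_contra hne
  have := H.sep c hc _ (H.inv g c hc) (fun e => hne e.symm)
  omega

/-- Continuity lemma. -/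
theorem Spin.cont (H : Spin G A δ sp) (hq : Hyp (QX (rotK G A) X) δ) {g : G} (hg : g ∉ rotK G A)
    {p q : X} {ε : ℕ} (hε : 3 * (ε + δ) + 4 < sp)
    (hpq : d p q = d (qm (rotK G A) p) (qm (rotK G A) q)) (hp : d p (g • p) ≤ ε)
    (hq' : d (qm (rotK G A) q) (qm (rotK G A) (g • q)) ≤ ε) :
    d q (g • q) = d (qm (rotK G A) q) (qm (rotK G A) (g • q)) := by
  have : (rotK G A).Normal := rotK_normal H.inv
  obtain ⟨γ, hγ⟩ := exists_geod p q
  have hquot : ∀ i, d (qm (rotK G A) (γ i)) (qm (rotK G A) (g • γ i)) ≤ ε + δ := by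
    intro i
    have hb := (btw_qm (hγ.btw i) hpq).1
    have := cv hq (g : G ⧸ rotK G A) (p := qm (rotK G A) p) (q := qm (rotK G A) q)
      (z := qm (rotK G A) (γ i)) (κ := 0) (D := ε) (by unfold Btw at hb; omega)
      (by rw [mk_smul]; exact (d_qm_le _ _).trans hp) (by rw [mk_smul]; exact hq')
    rw [mk_smul] at this
    omega
  have hind : ∀ i, d (γ i) (g • γ i) ≤ ε + δ := by
    intro i
    induction i with
    | zero => rw [hγ.1]; omega
    | succ i ih =>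
      have a1 := d_move_le g (γ (i + 1)) (γ i)
      have a2 := hγ.d_succ i
      have a3 := d_comm (γ i) (γ (i + 1))
      rw [H.windq_aux hg hε (by omega) (hquot (i + 1))]
      exact hquot (i + 1)
  have a1 := hind (d p q)
  rw [hγ.2.1 _ le_rfl] at a1
  exact H.windq_aux hg hε (by omega) (by omega)

end Pool.Agent.QIB
end

-- merged part: Pool.Agent.Work.MP_9628a2_al.Ctx
section
set_option autoImplicit false

namespace Pool.Agent.QIB

variable {G0 T G X C : Type} [Group G0] [Group G] [MulAction G X] [GSp X] [MulAction G C]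
  {P : Par} {γ : ℕ → G0} {S : SD G0 T G X}

namespace Fam

variable (F : Fam P S γ C)

/-- The cone-off data of a step. -/
def D : CD X C where
  Y := F.Y
  R := P.R
  ρ := P.ρ
  ne := F.ne
  hR := by have := P.hR; omega

instance : F.D.Equi G := ⟨F.equi⟩

/-- The apices of relator cones. -/
def Ap : Set F.D.V := {a | ∃ c, F.isR c ∧ a = CD.V.apex c}

theorem Ap_inv (g : G) : ∀ a ∈ F.Ap, g • a ∈ F.Ap := by
  rintro _ ⟨c, hc, rfl⟩
  exact ⟨g • c, (F.isR_smul g c).2 hc, rfl⟩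

/-- The kernel of the step. -/
abbrev K : Subgroup G := rotK G F.Ap

instance : F.K.Normal := rotK_normal F.Ap_inv

/-- The next group. -/
abbrev G' : Type := G ⧸ F.K

/-- The next space. -/
abbrev X' : Type := QX F.K F.D.V

/-- The quotient map of spaces. -/
abbrev q (u : F.D.V) : F.X' := qm F.K u

/-- The quotient map of groups. -/
abbrev φ : G →* F.G' := QuotientGroup.mk' F.K

/-- The next stage data. -/
def S' : SD G0 T F.G' F.X' where
  π := F.φ.comp S.π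
  ι := fun v => F.q (CD.V.base (S.ι v))
  E := {x | ∃ c ∈ S.E, x = F.q (CD.V.base c)} ∪ {x | ∃ c, ¬ F.isR c ∧ x = F.q (CD.V.apex c)}
  F := {x | ∃ c, ¬ F.isR c ∧ x = F.q (CD.V.apex c)}

/-- Special points of the cone-off. -/
def Sph : Set F.D.V :=
  {u | ∃ s ∈ S.Sp, u = CD.V.base s} ∪ {u | ∃ c, ¬ F.isR c ∧ u = CD.V.apex c}

theorem φ_smul (g : G) (u : F.D.V) : F.φ g • F.q u = F.q (g • u) := rfl

theorem φ_eq_one {g : G} : F.φ g = 1 ↔ g ∈ F.K := QuotientGroup.eq_one_iff g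

theorem φ_surj : Function.Surjective F.φ := QuotientGroup.mk'_surjective _

theorem mem_Sp' {x : F.X'} : x ∈ F.S'.Sp ↔ ∃ u ∈ F.Sph, x = F.q u := by
  constructor
  · rintro (⟨v, rfl⟩ | ⟨c, hc, rfl⟩ | ⟨c, hc, rfl⟩)
    · exact ⟨_, Or.inl ⟨_, S.ι_mem v, rfl⟩, rfl⟩
    · exact ⟨_, Or.inl ⟨_, S.E_mem hc, rfl⟩, rfl⟩
    · exact ⟨_, Or.inr ⟨c, hc, rfl⟩, rfl⟩
  · rintro ⟨_, ⟨s, ⟨v, rfl⟩ | hs, rfl⟩ | ⟨c, hc, rfl⟩, rfl⟩
    · exact Or.inl ⟨v, rfl⟩
    · exact Or.inr (Or.inl ⟨s, hs, rfl⟩)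
    · exact Or.inr (Or.inr ⟨c, hc, rfl⟩)

theorem Sph_not_Ap {u : F.D.V} (h : u ∈ F.Sph) : u ∉ F.Ap := by
  rintro ⟨c, hc, rfl⟩
  rcases h with ⟨s, -, h⟩ | ⟨c', hc', h⟩
  · cases h
  · cases h; exact hc' hc

theorem mem_K_of_fix {g : G} {c : C} (hc : F.isR c) (h : g • c = c) : g ∈ F.K :=
  mem_rotK (A := F.Ap) ⟨c, hc, rfl⟩ (by rw [CD.smul_apex, h])

theorem ell'_of_fix {g : G} {c : C} (hc : ¬ F.isR c) (h : g • c = c) : F.S'.Ell (F.φ g) :=
  ⟨F.q (CD.V.apex c), F.mem_Sp'.2 ⟨_, Or.inr ⟨c, hc, rfl⟩, rfl⟩, by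
    rw [φ_smul, CD.smul_apex, h]⟩

theorem ell'_of_ell {g : G} (h : S.Ell g) : F.S'.Ell (F.φ g) := by
  obtain ⟨s, hs, h⟩ := h
  exact ⟨F.q (CD.V.base s), F.mem_Sp'.2 ⟨_, Or.inl ⟨s, hs, rfl⟩, rfl⟩, by
    rw [φ_smul, CD.smul_base, h]⟩

variable [MulAction G0 T] {v0 : T} {e : G0} [Iso G X]

omit [Iso G X] in
theorem Sph_smul (I : Inv P v0 γ e S) (g : G) {u : F.D.V} (h : u ∈ F.Sph) : g • u ∈ F.Sph := by
  rcases h with ⟨s, hs, rfl⟩ | ⟨c, hc, rfl⟩
  · exact Or.inl ⟨g • s, I.Sp_smul g hs, rfl⟩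
  · exact Or.inr ⟨g • c, fun h => hc ((F.isR_smul g c).1 h), rfl⟩

omit [Iso G X] in
theorem good (I : Inv P v0 γ e S) : F.D.Good P.δ P.σ P.Δ where
  hyp := I.hyp
  qc := F.qc
  ovl := F.ovl
  hR := by have := P.hR; show _ ≤ P.R; omega
  hρ := by have := P.hρ; have := P.one_le; show _ ≤ P.ρ; omega

omit [Iso G X] in
theorem hypH (I : Inv P v0 γ e S) : Hyp F.D.V P.δ :=
  (hyp_of_slim (F.good I).slim).mono P.hδ

omit [MulAction G0 T] [Iso G X] in
theorem apex_sep {c c' : C} (h : c ≠ c') :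
    2 * P.ρ + 2 ≤ d (CD.V.apex c : F.D.V) (CD.V.apex c') := by
  have := CD.lev_add_le (D := F.D) (u := CD.V.apex c) (w := CD.V.apex c')
    (fun e => h (Option.some.inj e))
  simp only [CD.V.lev] at this
  have e : F.D.ρ = P.ρ := rfl
  omega

omit [Iso G X] in
/-- Rotation bound in the cone-off from a displacement bound in the base. -/
theorem not_reach (I : Inv P v0 γ e S) {c : C} {g : G} (hg : g • c = c) {t : ℕ}
    (h : ∀ y ∈ F.Y c, t * (P.R * 2 ^ P.ρ) < d y (g • y)) (u : F.D.V)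
    (hu : d (CD.V.apex c) u = 1) : ¬ Reach (CD.V.apex c) t u (g • u) := by
  intro hr
  obtain ⟨h1, h2⟩ := CD.nbr_apex (F.good I).hρ hu
  have := (F.good I).reach h1 (by rw [CD.cone_smul, h1]; simp [hg]) hr
  rw [CD.bs_smul g u h2.le] at this
  exact absurd (h _ (CD.bs_mem h1)) (not_lt.2 this)

omit [Iso G X] in
theorem spin (I : Inv P v0 γ e S) : Spin G F.Ap P.δ (2 * P.ρ + 2) where
  hyp := F.hypH I
  hδ := P.one_le
  inv := F.Ap_inv
  sep := by
    rintro _ ⟨c, -, rfl⟩ _ ⟨c', -, rfl⟩ h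
    exact F.apex_sep fun e => h (e ▸ rfl)
  hsp := by have := P.hρ; omega
  rot := by
    rintro _ ⟨c, hc, rfl⟩ κ h1 hκ
    have hκ' : κ • c = c := CD.V.apex.inj (D := F.D) hκ
    refine F.not_reach I hκ' fun y hy => ?_
    obtain ⟨t, ht⟩ := F.pos_equi κ c hc
    have e1 := ht y hy
    rw [hκ'] at e1
    have e2 := F.pos_lip c hc y hy (κ • y) (by have := F.equi κ c y hy; rwa [hκ'] at this)
    have ht0 : t ≠ 0 := by
      rintro rfl
      exact h1 (F.pos_faith κ c hc hκ' y hy (by simpa using e1))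
    have e3 : P.N ≤ (F.pos c y - F.pos c (κ • y)).natAbs := by
      rw [e1, show F.pos c y - (F.pos c y + P.N * t) = -(P.N * t) by ring, Int.natAbs_neg,
        Int.natAbs_mul, Int.natAbs_natCast]
      exact Nat.le_mul_of_pos_right _ (by omega)
    have hN := P.hN
    have h0 : 0 < P.δ * (P.R * 2 ^ P.ρ) :=
      Nat.mul_pos P.one_le (Nat.mul_pos F.D.hR (by positivity))
    nlinarith

theorem hyp' (I : Inv P v0 γ e S) : Hyp F.X' P.δ :=
  (hyp_of_slim ((F.spin I).slim (F.good I).slim)).mono P.hδ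

include F in
/-- A nontrivial element fixes at most one cone. -/
theorem uniq (I : Inv P v0 γ e S) {g : G} (h1 : g ≠ 1) {c c' : C} (hc : g • c = c)
    (hc' : g • c' = c') : c = c' := by
  refine cone_unique I.hyp F.qc F.ne F.ovl (by omega) (g := g) ?_ ?_ ?_
    (I.lox (F.nonell g c hc h1))
  · intro y hy; have := F.equi g c y hy; rwa [hc] at this
  · intro y hy; have := F.equi g⁻¹ c y hy; rwa [inv_smul_eq_iff.2 hc.symm] at this
  · intro y hy; have := F.equi g c' y hy; rwa [hc'] at this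

theorem K_fix (I : Inv P v0 γ e S) {k : G} (hk : k ∈ F.K) {u : F.D.V} (hu : u ∈ F.Sph)
    (h : k • u = u) : k = 1 :=
  (F.spin I).eq_one_of_fix hk (F.Sph_not_Ap hu) h

/-- Elements of the kernel move low points a lot. -/
theorem K_disp (I : Inv P v0 γ e S) {k : G} (hk : k ∈ F.K) {u : F.D.V}
    (h : d u (k • u) + 2 * u.lev < 2 * P.ρ + 2) : k = 1 := by
  by_contra h1
  obtain ⟨_, ⟨c, -, rfl⟩, hc⟩ := (F.spin I).l0 hk h1 u
  have : P.ρ + 1 ≤ _ := CD.lev_lip (D := F.D) (CD.V.apex c) u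
  have := d_comm u (CD.V.apex c)
  omega

/-- The continuity lemma of the step. -/
theorem cont (I : Inv P v0 γ e S) {g : G} (hg : g ∉ F.K) {p u : F.D.V}
    (hpq : d p u = d (F.q p) (F.q u)) (hp : d p (g • p) ≤ P.ε3)
    (hu : d (F.q u) (F.φ g • F.q u) ≤ P.ε3) : d u (g • u) = d (F.q u) (F.φ g • F.q u) :=
  (F.spin I).cont (F.hyp' I) hg (by have := P.hρ; have := P.hε4; have := P.one_le; omega) hpq hp hu

/-- Lifting an elliptic element together with a special fixed point nearest to `u`. -/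
theorem lift_ell (I : Inv P v0 γ e S) {g : F.G'} {s : F.X'} (hs : s ∈ F.S'.Sp) (h : g • s = s)
    (u : F.D.V) : ∃ a : G, ∃ s' ∈ F.Sph, F.φ a = g ∧ F.q s' = s ∧ a • s' = s' ∧
      d s' u = d s (F.q u) := by
  obtain ⟨s0, hs0, rfl⟩ := F.mem_Sp'.1 hs
  obtain ⟨k, hk, hk'⟩ := exists_lift_k (K := F.K) u s0
  have e : F.q (k • s0) = F.q s0 := qm_smul_mem hk s0
  rw [← e] at h
  obtain ⟨a, ha, ha'⟩ := exists_lift_fix h
  exact ⟨a, k • s0, F.Sph_smul I k hs0, ha, e, ha', by rw [d_comm, hk', d_comm]⟩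

end Fam

theorem Par.e1_le (P : Par) : 200 * P.δ ≤ P.ε2 := le_trans (Nat.le_add_left _ _) P.hε2

theorem Par.e0_le (P : Par) : 4 * P.ε0 ≤ P.ε3 := by
  have := P.hε3
  nlinarith [Nat.zero_le ((wlen P.W1 + wlen P.W2) * P.ε0)]

end Pool.Agent.QIB
end

-- merged part: Pool.Agent.Work.MP_9628a2_al.Elem
section
set_option autoImplicit false

namespace Pool.Agent.QIB

variable {G0 T G X : Type} [Group G0] [Group G] [MulAction G X] [GSp X] [Iso G X] [MulAction G0 T]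
  {P : Par} {v0 : T} {γ : ℕ → G0} {e : G0} {S : SD G0 T G X}

/-- Two inner points of a long segment that are far from each other. -/
theorem elem_mid_pts (p q : X) (L A : ℕ) (h : 2 * L + A + 3 ≤ d p q) :
    ∃ z1 z2 : X, Btw p z1 q ∧ Btw p z2 q ∧ L < d p z1 ∧ L < d z1 q ∧ L < d p z2 ∧ L < d z2 q ∧
      A < d z1 z2 := by
  obtain ⟨g, hg⟩ := exists_geod p q
  have a1 := hg.d_left (i := L + 1) (by omega)
  have a2 := hg.d_right (i := L + 1) (by omega)
  have a3 := hg.d_left (i := L + A + 2) (by omega)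
  have a4 := hg.d_right (i := L + A + 2) (by omega)
  have a5 := hg.2.2 (L + 1) (L + A + 2) (by omega) (by omega)
  exact ⟨g (L + 1), g (L + A + 2), hg.btw _, hg.btw _, by omega, by omega, by omega, by omega,
    by omega⟩

theorem elem_d_comm {f u : G} (h : Commute f u) (x : X) :
    d (u • x) (f • u • x) = d x (f • x) := by
  rw [← mul_smul, h.eq, mul_smul, d_smul]

omit [Iso G X] in
theorem Inv.elem_nonell_conj (I : Inv P v0 γ e S) {κ : G} (hκ : ¬ S.Ell κ) (u : G) :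
    ¬ S.Ell (u * κ * u⁻¹) := fun h => hκ (by
  have := I.ell_conj h u⁻¹
  rwa [show u⁻¹ * (u * κ * u⁻¹) * u⁻¹⁻¹ = κ by group] at this)

/-- Nontrivial elements that commute with a loxodromic element are loxodromic. -/
theorem Inv.cent_nonell (I : Inv P v0 γ e S) {κ g : G} (hκ : ¬ S.Ell κ) (hg : g * κ = κ * g)
    (h1 : g ≠ 1) : ¬ S.Ell g := by
  rintro ⟨s, hs, hgs⟩
  refine (I.lox hκ).not_bdd P.A' fun j => ⟨s, ?_⟩
  have hc : Commute g (κ ^ j) := Commute.pow_right hg j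
  have := I.i5a g h1 s hs hgs (κ ^ j • s) (by
    rw [elem_d_comm hc, hgs, d_self]; omega)
  rwa [d_comm] at this

theorem Inv.elem_two_pts (I : Inv P v0 γ e S) {κ f g f' g' : G} (hκ : ¬ S.Ell κ)
    (hf : Commute f κ) (hg : Commute g κ) (hf' : Commute f' κ) (hg' : Commute g' κ) :
    ∃ z1 z2 : X, P.A < d z1 z2 ∧ d z1 ((f * g * f⁻¹ * g⁻¹) • z1) ≤ 7 * P.δ ∧
      d z2 ((f * g * f⁻¹ * g⁻¹) • z2) ≤ 7 * P.δ ∧ d z1 ((f' * g' * f'⁻¹ * g'⁻¹) • z1) ≤ 7 * P.δ ∧
      d z2 ((f' * g' * f'⁻¹ * g'⁻¹) • z2) ≤ 7 * P.δ := by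
  obtain ⟨x, -⟩ : ∃ x : X, True := ⟨S.ι v0, trivial⟩
  obtain ⟨M, hM⟩ : ∃ M, M = d x (f • x) + d x (g • x) + d x (f' • x) + d x (g' • x) := ⟨_, rfl⟩
  obtain ⟨j, hj⟩ : ∃ j : ℕ, 2 * (5 * M + 5 * P.δ) + P.A + 3 < d x (κ ^ j • x) :=
    ⟨_, (I.lox hκ).lt x (Nat.lt_succ_self _)⟩
  obtain ⟨z1, z2, b1, b2, c1, c2, c3, c4, c5⟩ :=
    elem_mid_pts x (κ ^ j • x) (5 * M + 5 * P.δ) P.A hj.le
  have e1 := elem_d_comm (hf.pow_right j) x
  have e2 := elem_d_comm (hg.pow_right j) x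
  have e3 := elem_d_comm (hf'.pow_right j) x
  have e4 := elem_d_comm (hg'.pow_right j) x
  exact ⟨z1, z2, c5,
    comm_small I.hyp f g (M := M) (by omega) (by omega) (by omega) (by omega) b1 c1 c2,
    comm_small I.hyp f g (M := M) (by omega) (by omega) (by omega) (by omega) b2 c3 c4,
    comm_small I.hyp f' g' (M := M) (by omega) (by omega) (by omega) (by omega) b1 c1 c2,
    comm_small I.hyp f' g' (M := M) (by omega) (by omega) (by omega) (by omega) b2 c3 c4⟩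

theorem elem_commute_cm {κ f g : G} (hf : Commute f κ) (hg : Commute g κ) :
    Commute (f * g * f⁻¹ * g⁻¹) κ :=
  ((hf.mul_left hg).mul_left hf.inv_left).mul_left hg.inv_left

theorem Inv.elem_cm_cm (I : Inv P v0 γ e S) {κ f g f' g' : G} (hκ : ¬ S.Ell κ)
    (hf : Commute f κ) (hg : Commute g κ) (hf' : Commute f' κ) (hg' : Commute g' κ) :
    Commute (f * g * f⁻¹ * g⁻¹) (f' * g' * f'⁻¹ * g'⁻¹) := by
  by_cases h1 : f * g * f⁻¹ * g⁻¹ = 1
  · rw [h1]; exact Commute.one_left _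
  by_cases h2 : f' * g' * f'⁻¹ * g'⁻¹ = 1
  · rw [h2]; exact Commute.one_right _
  obtain ⟨z1, z2, c, a1, a2, a3, a4⟩ := I.elem_two_pts hκ hf hg hf' hg'
  exact I.i5b _ _ (I.cent_nonell hκ (elem_commute_cm hf hg).eq h1)
    (I.cent_nonell hκ (elem_commute_cm hf' hg').eq h2) z1 z2 (by omega) (by omega) (by omega)
    (by omega) c

theorem Inv.elem_cm_triv (I : Inv P v0 γ e S) {κ a : G} (hκ : ¬ S.Ell κ) (ha : Commute a κ)
    (h : ∀ j : ℕ, ∃ f g : G, Commute f κ ∧ Commute g κ ∧ a ^ j = f * g * f⁻¹ * g⁻¹) : a = 1 := by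
  by_contra h1
  refine (I.lox (I.cent_nonell hκ ha.eq h1)).not_bdd (7 * P.δ) fun j => ?_
  obtain ⟨f, g, hf, hg, e⟩ := h j
  obtain ⟨z1, -, -, a1, -⟩ := I.elem_two_pts hκ hf hg hf hg
  exact ⟨z1, e ▸ a1⟩

/-- Centralisers of loxodromic elements are abelian. -/
theorem Inv.cent_comm (I : Inv P v0 γ e S) {κ g h : G} (hκ : ¬ S.Ell κ) (hg : g * κ = κ * g)
    (hh : h * κ = κ * h) : g * h = h * g := by
  have hg' : Commute g κ := hg
  have hh' : Commute h κ := hh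
  obtain ⟨a, ha⟩ : ∃ a, a = g * h * g⁻¹ * h⁻¹ := ⟨_, rfl⟩
  have haκ : Commute a κ := ha ▸ elem_commute_cm hg' hh'
  have cen : ∀ u : G, Commute u κ → Commute u a := by
    intro u hu
    have c1 : Commute (u * a * u⁻¹) a := by
      have := I.elem_cm_cm hκ ((hu.mul_left hg').mul_left hu.inv_left)
        ((hu.mul_left hh').mul_left hu.inv_left) hg' hh'
      rw [← ha, show u * g * u⁻¹ * (u * h * u⁻¹) * (u * g * u⁻¹)⁻¹ * (u * h * u⁻¹)⁻¹
        = u * a * u⁻¹ by rw [ha]; group] at this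
      exact this
    have c2 : u * a * u⁻¹ * a⁻¹ = 1 := by
      refine I.elem_cm_triv hκ (elem_commute_cm hu haκ) fun j => ⟨u, a ^ j, hu, haκ.pow_left j, ?_⟩
      rw [c1.inv_right.mul_pow, conj_pow, inv_pow]
    show u * a = a * u
    calc u * a = (u * a * u⁻¹ * a⁻¹) * (a * u) := by group
      _ = a * u := by rw [c2, one_mul]
  have a1 : a = 1 := by
    refine I.elem_cm_triv hκ haκ fun j => ⟨g ^ j, h, hg'.pow_left j, hh', ?_⟩
    induction j with
    | zero => simp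
    | succ j ih =>
      have c := (cen (g ^ j) (hg'.pow_left j)).eq
      calc a ^ (j + 1) = a * (g ^ j * h * (g ^ j)⁻¹ * h⁻¹) := by rw [pow_succ', ih]
        _ = (a * g ^ j) * (h * (g ^ j)⁻¹ * h⁻¹) := by group
        _ = (g ^ j * a) * (h * (g ^ j)⁻¹ * h⁻¹) := by rw [c]
        _ = g ^ (j + 1) * h * (g ^ (j + 1))⁻¹ * h⁻¹ := by rw [ha, pow_succ]; group
  calc g * h = (g * h * g⁻¹ * h⁻¹) * (h * g) := by group
    _ = h * g := by rw [← ha, a1, one_mul]

theorem elem_four {δ : ℕ} (hy : Hyp X δ) {α β : G} (c : Commute α β) (x : X) :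
    d x ((α * β) • x) + d x ((α⁻¹ * β) • x) ≤
      max (2 * d x (α • x)) (2 * d x (β • x)) + δ ∧
    d x ((α * α) • x) + d x ((β * β) • x) ≤
      max (2 * d x ((α * β) • x)) (2 * d x ((α⁻¹ * β) • x)) + δ := by
  have e1 := hy x ((α * β) • x) (α • x) (β • x)
  have e2 := hy (α⁻¹ • x) (α • x) (β⁻¹ • x) (β • x)
  have a1 : d (α • x) (β • x) = d x ((α⁻¹ * β) • x) := by
    rw [mul_smul, d_inv_smul]
  have a2 : d ((α * β) • x) (β • x) = d x (α • x) := by
    rw [c.eq, mul_smul, d_smul, d_comm]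
  have a3 : d ((α * β) • x) (α • x) = d x (β • x) := by
    rw [mul_smul, d_smul, d_comm]
  have a4 : d (α⁻¹ • x) (α • x) = d x ((α * α) • x) := by
    rw [← d_smul α, smul_inv_smul, mul_smul]
  have a5 : d (β⁻¹ • x) (β • x) = d x ((β * β) • x) := by
    rw [← d_smul β, smul_inv_smul, mul_smul]
  have a6 : d (α⁻¹ • x) (β⁻¹ • x) = d x ((α⁻¹ * β) • x) := by
    rw [d_comm, ← d_smul β, smul_inv_smul, ← mul_smul, c.inv_left.eq]
  have a7 : d (α⁻¹ • x) (β • x) = d x ((α * β) • x) := by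
    rw [← d_smul α, smul_inv_smul, mul_smul]
  have a8 : d (α • x) (β⁻¹ • x) = d x ((α * β) • x) := by
    rw [d_comm, ← d_smul β, smul_inv_smul, ← mul_smul, c.eq]
  omega

omit [Iso G X] in
theorem Inv.elem_big (I : Inv P v0 γ e S) {κ : G} (hκ : ¬ S.Ell κ) (z : X) :
    5 * P.δ + 2 ≤ d z (κ ^ (P.ν * (5 * P.δ + 1) + 1) • z) :=
  (I.lox hκ).lt z (Nat.lt_succ_self _)

omit [Iso G X] [MulAction G0 T] in
theorem elem_nonell_of_big {h : G} {δ : ℕ} (hb : ∀ z : X, 5 * δ + 2 ≤ d z (h • z)) :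
    ¬ S.Ell h := by
  rintro ⟨s, -, hs⟩
  have := hb s
  rw [hs, d_self] at this
  omega

/-- Normaliser lemma. -/
theorem Inv.norm_comm (I : Inv P v0 γ e S) {κ g : G} (hκ : ¬ S.Ell κ)
    (hg : (g * κ * g⁻¹) * κ = κ * (g * κ * g⁻¹)) : g * κ = κ * g := by
  have hg' : Commute (g * κ * g⁻¹) κ := hg
  obtain ⟨J, hJ⟩ : ∃ J : ℕ, ∀ z : X, 5 * P.δ + 2 ≤ d z (κ ^ J • z) := ⟨_, I.elem_big hκ⟩
  obtain ⟨a, ha⟩ : ∃ a, a = κ ^ J := ⟨_, rfl⟩
  obtain ⟨b, hb⟩ : ∃ b, b = g * a * g⁻¹ := ⟨_, rfl⟩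
  rw [← ha] at hJ
  have hne : ¬ S.Ell a := elem_nonell_of_big hJ
  have haκ : Commute a κ := ha ▸ (Commute.refl κ).pow_left J
  have hbκ : Commute b κ := by
    rw [hb, ha, ← conj_pow]; exact hg'.pow_left J
  have hab : Commute a b := by
    rw [ha]; exact (hbκ.pow_right J).symm
  have key : a * b = 1 ∨ a⁻¹ * b = 1 := by
    by_contra hc
    rw [not_or] at hc
    have l1 := I.lox (I.cent_nonell hκ (haκ.mul_left hbκ).eq hc.1)
    have l2 := I.lox (I.cent_nonell hκ (haκ.inv_left.mul_left hbκ).eq hc.2)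
    obtain ⟨x, -⟩ : ∃ x : X, True := ⟨S.ι v0, trivial⟩
    obtain ⟨B, hB⟩ : ∃ B, B = 2 * d x (a • x) + 5 * d x (g • x) + 4 * P.δ := ⟨_, rfl⟩
    obtain ⟨i, hi⟩ : ∃ i, P.ν * B < i := ⟨_, Nat.lt_succ_self _⟩
    have m1 := l1.lt x hi
    have m2 := l2.lt x hi
    rw [hab.mul_pow] at m1
    rw [hab.inv_left.mul_pow, inv_pow] at m2
    obtain ⟨f1, f2⟩ := elem_four I.hyp ((hab.pow_left i).pow_right i) x
    have t := tl_btw I.hyp hJ x (2 * d x (a • x)) (by omega) i i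
    rw [pow_add] at t
    have w : ∀ u : G, d x ((g * u * g⁻¹) • x) = d (g⁻¹ • x) (u • g⁻¹ • x) := fun u => by
      rw [← d_smul g (g⁻¹ • x), smul_inv_smul, mul_smul, mul_smul]
    have w1 := w (a ^ i)
    have w2 := w (a ^ i * a ^ i)
    rw [← conj_pow, ← hb] at w1
    rw [← conj_mul, ← conj_pow, ← hb] at w2
    have n1 := d_move_le (a ^ i) (g⁻¹ • x) x
    have n2 := d_move_le (a ^ i * a ^ i) x (g⁻¹ • x)
    have n3 := d_smul_inv g x
    have n4 := d_comm x (g⁻¹ • x)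
    omega
  rcases key with k | k
  · have e1 : g * a * g⁻¹ = a⁻¹ := by rw [← hb]; exact eq_inv_of_mul_eq_one_right k
    have e2 : g ^ 2 * a = a * g ^ 2 := by
      calc g ^ 2 * a = g * (g * a * g⁻¹) * g := by rw [pow_two]; group
        _ = g * a⁻¹ * g := by rw [e1]
        _ = (g * a * g⁻¹)⁻¹ * g ^ 2 := by rw [pow_two]; group
        _ = a * g ^ 2 := by rw [e1, inv_inv]
    by_cases h2 : g ^ 2 = 1
    · rw [I.tf g 2 (by omega) h2]; simp
    · have c := I.cent_comm (I.cent_nonell hne e2 h2) (g := g) (h := a)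
        ((Commute.refl g).pow_right 2).eq e2.symm
      have e3 : a ^ 2 = 1 := by
        calc a ^ 2 = a * (a * g * g⁻¹) := by rw [pow_two]; group
          _ = 1 := by rw [← c, e1, mul_inv_cancel]
      exact absurd (I.tf a 2 (by omega) e3 ▸ I.ell_one) hne
  · have e1 : g * a = a * g := by
      calc g * a = a * (a⁻¹ * b) * g := by rw [hb]; group
        _ = a * g := by rw [k, mul_one]
    exact I.cent_comm hne e1 haκ.symm.eq

/-- Elements that move two far points by a bounded amount commute. -/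
theorem Inv.i5b_plus (I : Inv P v0 γ e S) {g h : G} {p q : X} {M : ℕ} (h1 : d p (g • p) ≤ M)
    (h2 : d q (g • q) ≤ M) (h3 : d p (h • p) ≤ M) (h4 : d q (h • q) ≤ M)
    (hd : 30 * M + 20 * P.δ + 2 * P.A ≤ d p q) : g * h = h * g := by
  have hδ := P.one_le
  have hA := P.hA
  obtain ⟨z1, z2, b1, b2, c1, c2, c3, c4, c5⟩ :=
    elem_mid_pts p q (5 * (3 * M) + 5 * P.δ) P.A (by omega)
  have cj : ∀ (u v : G) (x : X), d x ((u * v * u⁻¹) • x) ≤ 2 * d x (u • x) + d x (v • x) := by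
    intro u v x
    have := d_mul_le (u * v) u⁻¹ x
    have := d_mul_le u v x
    have := d_smul_inv u x
    omega
  have j1 := cj g h p; have j2 := cj g h q; have j3 := cj h g p; have j4 := cj h g q
  have s : ∀ u v : G, d p (u • p) ≤ 3 * M → d q (u • q) ≤ 3 * M → d p (v • p) ≤ 3 * M →
      d q (v • q) ≤ 3 * M → d z1 ((u * v * u⁻¹ * v⁻¹) • z1) ≤ 7 * P.δ ∧
        d z2 ((u * v * u⁻¹ * v⁻¹) • z2) ≤ 7 * P.δ := fun u v a1 a2 a3 a4 =>
    ⟨comm_small I.hyp u v a1 a2 a3 a4 b1 c1 c2, comm_small I.hyp u v a1 a2 a3 a4 b2 c3 c4⟩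
  obtain ⟨k, hk⟩ : ∃ k, k = g * h * g⁻¹ * h⁻¹ := ⟨_, rfl⟩
  obtain ⟨s1, s2⟩ := s g h (by omega) (by omega) (by omega) (by omega)
  obtain ⟨s3, s4⟩ := s g (g * h * g⁻¹) (by omega) (by omega) (by omega) (by omega)
  obtain ⟨s5, s6⟩ := s (h * g * h⁻¹) h (by omega) (by omega) (by omega) (by omega)
  rw [← hk] at s1 s2
  rw [show g * (g * h * g⁻¹) * g⁻¹ * (g * h * g⁻¹)⁻¹ = g * k * g⁻¹ by rw [hk]; group] at s3 s4
  rw [show h * g * h⁻¹ * h * (h * g * h⁻¹)⁻¹ * h⁻¹ = h * k * h⁻¹ by rw [hk]; group] at s5 s6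
  by_cases k1 : k = 1
  · calc g * h = (g * h * g⁻¹ * h⁻¹) * (h * g) := by group
      _ = h * g := by rw [← hk, k1, one_mul]
  have hne : ¬ S.Ell k := by
    rintro ⟨s, hs, hks⟩
    have e1 := I.i5a k k1 s hs hks z1 (by omega)
    have e2 := I.i5a k k1 s hs hks z2 (by omega)
    have := d_tri z1 s z2
    have := d_comm s z2
    omega
  exact I.cent_comm hne
    (I.norm_comm hne (I.i5b _ _ (I.elem_nonell_conj hne g) hne z1 z2 (by omega) (by omega)
      (by omega) (by omega) c5))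
    (I.norm_comm hne (I.i5b _ _ (I.elem_nonell_conj hne h) hne z1 z2 (by omega) (by omega)
      (by omega) (by omega) c5))

end Pool.Agent.QIB
end

-- merged part: Pool.Agent.Work.MP_9628a2_al.StepBAux
section
set_option autoImplicit false
set_option linter.unusedSectionVars false

namespace Pool.Agent.QIB

variable {G0 T G X C : Type} [Group G0] [Group G] [MulAction G X] [GSp X] [MulAction G C]
  {P : Par} {γ : ℕ → G0} {S : SD G0 T G X} [MulAction G0 T] {v0 : T} {e : G0} [Iso G X]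

/-- The constant that bounds base displacements of low points, in units of `R`. -/
def Par.L (P : Par) : ℕ := 30 * P.δ * 2 ^ (60 * P.δ)

theorem Par.L_le (P : Par) : P.L + 200 * P.δ ≤ P.ε2 := P.hε2

theorem Par.rho_ge (P : Par) : 1000 * P.δ ≤ P.ρ := by have := P.hρ; omega

theorem Par.e3_ge (P : Par) : 30 * P.δ ≤ P.ε3 := by
  have := P.e0_le; have := P.e1_le; have := P.hε0; omega

theorem Par.one_le_ν (P : Par) : 1 ≤ P.ν := by
  have h1 := P.hν
  have h2 : 1 ≤ P.R := by have := P.hR; omega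
  have h3 : 1 * 1 ≤ P.R * (14 * P.δ * 2 ^ (14 * P.δ) + 3) := Nat.mul_le_mul h2 (by omega)
  omega

/-- The `m`-th power of a loxodromic element moves every point a lot. -/
theorem Par.lox_pow (P : Par) {H Z : Type} [Group H] [MulAction H Z] [GSp Z] {a : H}
    (h : Lox Z P.ν a) (z : Z) : 5 * P.δ + 2 ≤ d z (a ^ P.m • z) := by
  have h1 := P.hm
  have h2 := P.one_le
  have h3 : P.ν * (5 * P.δ + 1) ≤ P.ν * (P.ε0 * (P.R * 2 ^ (2 * P.ε0)) + 7 * P.δ) :=
    Nat.mul_le_mul_left _ (by omega)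
  exact h.lt z (B := 5 * P.δ + 1) (by omega)

namespace Fam

variable (F : Fam P S γ C)

theorem ell'_one (v0 : T) : F.S'.Ell (1 : F.G') := ⟨F.S'.ι v0, F.S'.ι_mem v0, one_smul _ _⟩

/-- A lift of a non-elliptic element fixes no cone. -/
theorem no_cone (v0 : T) {a : G} (h : ¬ F.S'.Ell (F.φ a)) (c : C) : a • c ≠ c := by
  intro hc
  by_cases hR : F.isR c
  · rw [F.φ_eq_one.2 (F.mem_K_of_fix hR hc)] at h
    exact h (F.ell'_one v0)
  · exact h (F.ell'_of_fix hR hc)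

theorem low_of_no_cone {a : G} (h : ∀ c : C, a • c ≠ c) (u : F.D.V) :
    2 * u.lev ≤ d u (a • u) := by
  by_contra hc
  obtain ⟨c, -, hc⟩ := CD.deep a u (by omega)
  exact h c hc

/-- Base displacement under a vertex that is far from the apex. -/
theorem bs_disp {a : G} {u : F.D.V} {ε k : ℕ} (h : d u (a • u) ≤ ε) (hk : u.lev + ε ≤ k)
    (hρ : u.lev + ε ≤ P.ρ) : d u.bs (a • u.bs) ≤ ε * 2 ^ k * P.R := by
  have e : F.D.ρ = P.ρ := rfl
  have h1 := CD.d_bs_le u (a • u) (by omega)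
  rw [CD.bs_smul a u (by omega)] at h1
  refine h1.trans ?_
  have h2 : 2 ^ (u.lev + d u (a • u)) ≤ 2 ^ k := Nat.pow_le_pow_right (by omega) (by omega)
  calc d u (a • u) * (P.R * 2 ^ (u.lev + d u (a • u))) ≤ ε * (P.R * 2 ^ k) :=
        Nat.mul_le_mul h (Nat.mul_le_mul_left _ h2)
    _ = ε * 2 ^ k * P.R := by ring

/-- Base displacement under a low vertex. -/
theorem low_disp {a : G} {u : F.D.V} (h : d u (a • u) ≤ 30 * P.δ) (hl : 2 * u.lev ≤ 30 * P.δ) :
    d u.bs (a • u.bs) ≤ P.L * P.R :=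
  F.bs_disp h (by omega) (by have := P.rho_ge; omega)

/-- From the base back to the cone-off. -/
theorem d_le_of_bs (u w : F.D.V) {t : ℕ} (h : d u.bs w.bs ≤ t * P.R) :
    d u w ≤ u.lev + t + w.lev := by
  have h1 := CD.d_base_le (D := F.D) u.bs w.bs t h
  have h2 := CD.d_bs u
  have h3 := CD.d_bs w
  have := d_tri u (CD.V.base u.bs) w
  have := d_tri (CD.V.base u.bs : F.D.V) (CD.V.base w.bs) w
  have := d_comm w (CD.V.base w.bs)
  omega

theorem disp_of_bs {a : G} {u : F.D.V} {t : ℕ} (hl : u.lev ≤ P.ρ)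
    (h : d u.bs (a • u.bs) ≤ t * P.R) : d u (a • u) ≤ 2 * u.lev + t := by
  have := F.d_le_of_bs u (a • u) (t := t) (by rw [CD.bs_smul a u hl]; exact h)
  rw [CD.lev_smul] at this
  omega

theorem fix_mem {a : G} {c : C} (h : a • c = c) : (∀ y ∈ F.Y c, a • y ∈ F.Y c) ∧
    ∀ y ∈ F.Y c, a⁻¹ • y ∈ F.Y c := by
  constructor
  · intro y hy; have := F.equi a c y hy; rwa [h] at this
  · intro y hy; have := F.equi a⁻¹ c y hy; rwa [inv_smul_eq_iff.2 h.symm] at this

end Fam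

end Pool.Agent.QIB
end

-- merged part: Pool.Agent.Work.MP_9628a2_al.StepC
section
set_option autoImplicit false
set_option linter.unusedSectionVars false

namespace Pool.Agent.QIB

variable {G0 T G X C : Type} [Group G0] [Group G] [MulAction G X] [GSp X] [MulAction G C]
  {P : Par} {γ : ℕ → G0} {S : SD G0 T G X} [MulAction G0 T] {v0 : T} {e : G0} [Iso G X]

namespace Fam

variable (F : Fam P S γ C)

theorem i5a' (I : Inv P v0 γ e S) (g : F.G') (h1 : g ≠ 1) : ∀ s ∈ F.S'.Sp, g • s = s →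
    ∀ x : F.X', d x (g • x) ≤ 30 * P.δ → d x s ≤ P.A' := by
  intro s hs hg x h
  have hδ := P.one_le
  have hL := P.L_le
  have hρ := P.rho_ge
  have hA' := P.hA'
  have hA := P.hA
  have hR := P.hR
  have e : F.D.ρ = P.ρ := rfl
  obtain ⟨u, rfl⟩ := qm_surj F.K x
  obtain ⟨a, s', hs', rfl, rfl, ha, hd⟩ := F.lift_ell I hs hg u
  have hK : a ∉ F.K := fun h => h1 (F.φ_eq_one.2 h)
  have ha1 : a ≠ 1 := fun h => hK (h ▸ F.K.one_mem)
  have hu : d u (a • u) ≤ 30 * P.δ := by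
    rw [F.cont I hK hd (by rw [ha, d_self]; omega) (h.trans P.e3_ge)]
    exact h
  refine (d_qm_le (K := F.K) u s').trans ?_
  rcases hs' with ⟨s0, hs0, rfl⟩ | ⟨c, -, rfl⟩
  · have h2 : a • s0 = s0 := CD.V.base.inj (D := F.D) ha
    have hl := F.low_of_no_cone (fun c hc => F.nonell a c hc ha1 ⟨s0, hs0, h2⟩) u
    have hM := F.low_disp hu (by omega)
    obtain ⟨z, -, hz1, hz2⟩ := exists_mid I.hyp a h2 u.bs
    have h3 := I.i5a a ha1 s0 hs0 h2 z (by omega)
    have h4 := d_tri u.bs z s0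
    have h5 := F.d_le_of_bs u (CD.V.base s0) (t := P.L + 1) (by
      show d u.bs s0 ≤ _
      rw [Nat.add_mul]; omega)
    have h6 : (CD.V.base s0 : F.D.V).lev = 0 := rfl
    omega
  · have h2 : a • c = c := CD.V.apex.inj (D := F.D) ha
    by_cases hl : 2 * u.lev ≤ 30 * P.δ
    · have hM := F.low_disp hu hl
      obtain ⟨y, hy, hy'⟩ := marg I.hyp (F.qc c) (F.ne c) (F.fix_mem h2).1 (F.fix_mem h2).2
        (I.lox (F.nonell a c h2 ha1)) P.hkk hM
      have h3 := P.hkk'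
      have h5 := F.d_le_of_bs u (CD.V.base y) (t := P.L + 2) (by
        show d u.bs y ≤ _
        rw [Nat.add_mul]; omega)
      have h6 : (CD.V.base y : F.D.V).lev = 0 := rfl
      have h7 := CD.d_base_apex (D := F.D) hy
      have h8 := d_tri u (CD.V.base y) (CD.V.apex c)
      omega
    · obtain ⟨c', hc, hc'⟩ := CD.deep a u (by omega)
      obtain rfl := F.uniq I ha1 hc' h2
      have := CD.d_apex_le hc
      omega

theorem i5b' (I : Inv P v0 γ e S) (g h : F.G') (hg : ¬ F.S'.Ell g) (hh : ¬ F.S'.Ell h)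
    (x y : F.X') (h1 : d x (g • x) ≤ 30 * P.δ) (h2 : d y (g • y) ≤ 30 * P.δ)
    (h3 : d x (h • x) ≤ 30 * P.δ) (h4 : d y (h • y) ≤ 30 * P.δ) (hd : P.A < d x y) :
    g * h = h * g := by
  have hδ := P.one_le
  have hL := P.L_le
  have hA := P.hA
  have hR := P.hR
  have h3e := P.e3_ge
  obtain ⟨u, rfl⟩ := qm_surj F.K x
  obtain ⟨w, rfl, hw⟩ := exists_lift u y
  have key : ∀ g : F.G', ¬ F.S'.Ell g → d (F.q u) (g • F.q u) ≤ 30 * P.δ →
      d (F.q w) (g • F.q w) ≤ 30 * P.δ → ∃ a : G, F.φ a = g ∧ 2 * u.lev ≤ 30 * P.δ ∧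
        2 * w.lev ≤ 30 * P.δ ∧ d u.bs (a • u.bs) ≤ P.L * P.R ∧ d w.bs (a • w.bs) ≤ P.L * P.R := by
    intro g hg a1 a2
    obtain ⟨a, rfl, ha⟩ := exists_lift_disp g u
    have hK : a ∉ F.K := fun h => hg (by
      rw [(QuotientGroup.eq_one_iff a).2 h]; exact F.ell'_one v0)
    have hu : d u (a • u) ≤ 30 * P.δ := ha ▸ a1
    have hw' : d w (a • w) ≤ 30 * P.δ := by
      rw [F.cont I hK hw (by omega) (a2.trans h3e)]
      exact a2
    have hc := F.no_cone v0 (a := a) hg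
    have l1 := F.low_of_no_cone hc u
    have l2 := F.low_of_no_cone hc w
    exact ⟨a, rfl, by omega, by omega, F.low_disp hu (by omega), F.low_disp hw' (by omega)⟩
  obtain ⟨a, rfl, l1, l2, a1, a2⟩ := key g hg h1 h2
  obtain ⟨b, rfl, -, -, b1, b2⟩ := key h hh h3 h4
  rw [← map_mul, ← map_mul, I.i5b_plus a1 a2 b1 b2]
  by_contra hc
  have := F.d_le_of_bs u w (t := 30 * P.L + 1) (by rw [Nat.add_mul, Nat.mul_assoc]; omega)
  omega

end Fam

end Pool.Agent.QIB
end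

-- merged part: Pool.Agent.Work.MP_9628a2_al.StepA
section
set_option autoImplicit false
set_option linter.unusedSectionVars false

namespace Pool.Agent.QIB

variable {G0 T G X C : Type} [Group G0] [Group G] [MulAction G X] [GSp X] [MulAction G C]
  {P : Par} {γ : ℕ → G0} {S : SD G0 T G X} [MulAction G0 T] {v0 : T} {e : G0} [Iso G X]

namespace Fam

variable (F : Fam P S γ C)

/-- A fixed point of the image lifts to a fixed point, for elliptic elements outside the kernel. -/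
theorem fix_lift (I : Inv P v0 γ e S) {a : G} (hK : a ∉ F.K) {p s : F.D.V} (hp : a • p = p)
    (hs : F.φ a • F.q s = F.q s) : ∃ k ∈ F.K, a • k • s = k • s := by
  obtain ⟨k, hk, hk'⟩ := exists_lift_k (K := F.K) p s
  have e1 : F.q (k • s) = F.q s := qm_smul_mem hk s
  have h0 : d (F.q (k • s)) (F.φ a • F.q (k • s)) = 0 := by rw [e1, hs, d_self]
  have := F.cont I hK (p := p) (u := k • s) (by rw [e1]; exact hk')
    (by rw [hp, d_self]; omega) (by omega)
  exact ⟨k, hk, (eq_of_d _ _ (this.trans h0)).symm⟩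

/-- Every point is within its level plus one of the orbit of the base point. -/
theorem near_orbit (I : Inv P v0 γ e S) (u : F.D.V) :
    ∃ a : G, d (F.q u) (F.φ a • F.S'.ι v0) ≤ u.lev + 1 := by
  obtain ⟨a, ha⟩ := I.cob u.bs
  refine ⟨a, (d_qm_le (K := F.K) u (CD.V.base (a • S.ι v0))).trans ?_⟩
  have h1 := CD.d_base_le (D := F.D) u.bs (a • S.ι v0) 1 (by rw [one_mul]; exact ha)
  have h2 := CD.d_bs u
  have := d_tri u (CD.V.base u.bs) (CD.V.base (a • S.ι v0))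
  omega

theorem ι_not' (I : Inv P v0 γ e S) (v : T) : F.S'.ι v ∉ F.S'.E := by
  rintro (⟨c, hc, h⟩ | ⟨c, -, h⟩)
  · obtain ⟨k, -, hk⟩ := qm_eq.1 h
    have e1 : k • c = S.ι v := CD.V.base.inj (D := F.D) hk
    exact I.ι_not v (e1 ▸ I.E_smul k c hc)
  · obtain ⟨k, -, hk⟩ := qm_eq.1 h
    rw [CD.smul_apex] at hk
    cases hk

theorem E_smul' (I : Inv P v0 γ e S) (g : F.G') : ∀ c ∈ F.S'.E, g • c ∈ F.S'.E := by
  obtain ⟨a, rfl⟩ := F.φ_surj g
  rintro _ (⟨c, hc, rfl⟩ | ⟨c, hc, rfl⟩)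
  · exact Or.inl ⟨a • c, I.E_smul a c hc, rfl⟩
  · exact Or.inr ⟨a • c, fun h => hc ((F.isR_smul a c).1 h), rfl⟩

theorem F_smul' (g : F.G') : ∀ c ∈ F.S'.F, g • c ∈ F.S'.F := by
  obtain ⟨a, rfl⟩ := F.φ_surj g
  rintro _ ⟨c, hc, rfl⟩
  exact ⟨a • c, fun h => hc ((F.isR_smul a c).1 h), rfl⟩

theorem s1' (I : Inv P v0 γ e S) (g : G0) (v v' : T) (h : F.S'.π g • F.S'.ι v = F.S'.ι v') :
    ∃ k : G0, F.S'.π k = 1 ∧ (k * g) • v = v' := by
  have h' : F.q (CD.V.base (S.ι v')) = F.q (CD.V.base (S.π g • S.ι v)) := h.symm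
  obtain ⟨k, hk, hk'⟩ := qm_eq.1 h'
  have e1 : k • S.π g • S.ι v = S.ι v' := CD.V.base.inj (D := F.D) hk'
  obtain ⟨k1, rfl⟩ := I.surj k
  obtain ⟨k2, h1, h2⟩ := I.s1 (k1 * g) v v' (by rw [map_mul, mul_smul, e1])
  refine ⟨k2 * k1, ?_, by rw [mul_assoc, h2]⟩
  show F.φ (S.π (k2 * k1)) = 1
  rw [map_mul, h1, one_mul]
  exact F.φ_eq_one.2 hk

theorem s2' (I : Inv P v0 γ e S) (g : G0) (v : T) (h : g • v = v) (h1 : F.S'.π g = 1) :
    g = 1 := by
  refine I.s2 g v h (F.K_fix I (F.φ_eq_one.1 h1) (u := CD.V.base (S.ι v))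
    (Or.inl ⟨_, S.ι_mem v, rfl⟩) ?_)
  rw [CD.smul_base, ← I.ι_smul, h]

theorem s3' (I : Inv P v0 γ e S) (g : G0) (v v' : T) (h : g • v = v) (h1 : g ≠ 1)
    (h2 : F.S'.π g • F.S'.ι v' = F.S'.ι v') : ∃ k : G0, F.S'.π k = 1 ∧ g • k • v' = k • v' := by
  have hp : S.π g • (CD.V.base (S.ι v) : F.D.V) = CD.V.base (S.ι v) := by
    rw [CD.smul_base, ← I.ι_smul, h]
  have hK : S.π g ∉ F.K := fun hK =>
    h1 (I.s2 g v h (F.K_fix I hK (Or.inl ⟨_, S.ι_mem v, rfl⟩) hp))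
  obtain ⟨k, hk, hu⟩ := F.fix_lift I hK hp (s := CD.V.base (S.ι v')) h2
  obtain ⟨k1, rfl⟩ := I.surj k
  have e1 : S.π g • S.π k1 • S.ι v' = S.π k1 • S.ι v' := CD.V.base.inj (D := F.D) hu
  rw [← I.ι_smul k1 v'] at e1
  obtain ⟨k2, h3, h4⟩ := I.s3 g v (k1 • v') h h1 e1
  refine ⟨k2 * k1, ?_, by rw [mul_smul, h4]⟩
  show F.φ (S.π (k2 * k1)) = 1
  rw [map_mul, h3, one_mul]
  exact F.φ_eq_one.2 hk

theorem k0' (I : Inv P v0 γ e S) (g : F.G') (h1 : g ≠ 1) :
    ∀ c ∈ F.S'.E, ∀ s ∈ F.S'.Sp, g • c = c → g • s = s → s = c := by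
  intro c hc s hs hgc hgs
  obtain ⟨s0, hs0, rfl⟩ := F.mem_Sp'.1 hs
  have key : ∀ c0 : F.D.V, g • F.q c0 = F.q c0 → ∃ a : G, a ≠ 1 ∧ a • c0 = c0 ∧
      ∃ u ∈ F.Sph, a • u = u ∧ F.q u = F.q s0 := by
    intro c0 h0
    obtain ⟨a, ha, ha'⟩ := exists_lift_fix h0
    have ha1 : F.φ a = g := ha
    have hK : a ∉ F.K := fun hK => h1 (ha1 ▸ F.φ_eq_one.2 hK)
    obtain ⟨k, hk, hu⟩ := F.fix_lift I hK ha' (s := s0) (by rw [ha1]; exact hgs)
    exact ⟨a, fun e => hK (e ▸ F.K.one_mem), ha', k • s0, F.Sph_smul I k hs0, hu,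
      qm_smul_mem hk s0⟩
  rcases hc with ⟨c1, hc1, rfl⟩ | ⟨c1, hc1, rfl⟩
  · obtain ⟨a, ha1, ha, u, hu, hau, hq⟩ := key _ hgc
    have e1 : a • c1 = c1 := CD.V.base.inj (D := F.D) ha
    rcases hu with ⟨s1, hs1, rfl⟩ | ⟨c2, -, rfl⟩
    · have e2 : a • s1 = s1 := CD.V.base.inj (D := F.D) hau
      rw [← hq, I.k0 a ha1 c1 hc1 s1 hs1 e1 e2]
    · have e2 : a • c2 = c2 := CD.V.apex.inj (D := F.D) hau
      exact absurd ⟨c1, S.E_mem hc1, e1⟩ (F.nonell a c2 e2 ha1)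
  · obtain ⟨a, ha1, ha, u, hu, hau, hq⟩ := key _ hgc
    have e1 : a • c1 = c1 := CD.V.apex.inj (D := F.D) ha
    rcases hu with ⟨s1, hs1, rfl⟩ | ⟨c2, -, rfl⟩
    · have e2 : a • s1 = s1 := CD.V.base.inj (D := F.D) hau
      exact absurd ⟨s1, hs1, e2⟩ (F.nonell a c1 e1 ha1)
    · have e2 : a • c2 = c2 := CD.V.apex.inj (D := F.D) hau
      rw [← hq, F.uniq I ha1 e2 e1]

theorem E_comm' (I : Inv P v0 γ e S) :
    ∀ c ∈ F.S'.E, ∀ g h : F.G', g • c = c → h • c = c → g * h = h * g := by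
  intro c hc g h hg hh
  rcases hc with ⟨c1, hc1, rfl⟩ | ⟨c1, -, rfl⟩
  · obtain ⟨a, rfl, ha⟩ := exists_lift_fix hg
    obtain ⟨b, rfl, hb⟩ := exists_lift_fix hh
    have := I.E_comm c1 hc1 a b (CD.V.base.inj (D := F.D) ha) (CD.V.base.inj (D := F.D) hb)
    rw [← QuotientGroup.mk_mul, ← QuotientGroup.mk_mul, this]
  · obtain ⟨a, rfl, ha⟩ := exists_lift_fix hg
    obtain ⟨b, rfl, hb⟩ := exists_lift_fix hh
    have := F.comm a b c1 (CD.V.apex.inj (D := F.D) ha) (CD.V.apex.inj (D := F.D) hb)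
    rw [← QuotientGroup.mk_mul, ← QuotientGroup.mk_mul, this]

theorem F_sep' : ∀ c ∈ F.S'.F, ∀ c' ∈ F.S'.F, c ≠ c' → 2 * P.ρ ≤ d c c' := by
  rintro _ ⟨c1, -, rfl⟩ _ ⟨c2, -, rfl⟩ hne
  obtain ⟨k, hk, hk'⟩ := exists_lift_k (K := F.K) (CD.V.apex c1 : F.D.V) (CD.V.apex c2)
  have h1 : c1 ≠ k • c2 := by
    rintro rfl
    exact hne (qm_smul_mem hk (CD.V.apex c2 : F.D.V))
  have h2 := F.apex_sep h1
  rw [CD.smul_apex] at hk'
  have h3 : d (F.q (CD.V.apex c1)) (F.q (CD.V.apex c2)) =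
      d (CD.V.apex c1 : F.D.V) (CD.V.apex (k • c2)) := hk'.symm
  omega

theorem F_rot' (I : Inv P v0 γ e S) : ∀ c ∈ F.S'.F, ∀ g : F.G', g ≠ 1 → g • c = c →
    ∀ i : ℕ, P.k0 ≤ i → ∀ u, d c u = 1 → ¬ Reach c (400 * P.δ) u (g ^ i • u) := by
  rintro _ ⟨c1, hc1, rfl⟩ g h1 hg i hi u hu hr
  obtain ⟨a, rfl, ha⟩ := exists_lift_fix hg
  obtain ⟨u0, rfl, hu0⟩ := exists_lift (K := F.K) (CD.V.apex c1 : F.D.V) u
  have hu1 : d (CD.V.apex c1 : F.D.V) u0 = 1 := hu0.trans hu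
  have e1 : a • c1 = c1 := CD.V.apex.inj (D := F.D) ha
  have ha1 : a ≠ 1 := by
    rintro rfl
    exact h1 rfl
  have ei : a ^ i • c1 = c1 := MulAction.mem_stabilizer_iff.1
    (Subgroup.pow_mem _ (MulAction.mem_stabilizer_iff.2 e1) i)
  obtain ⟨w, hw, hr'⟩ := reach_lift hr
  rw [← QuotientGroup.mk_pow, mk_smul] at hw
  obtain ⟨k, hk, rfl⟩ := qm_eq.1 hw
  have d1 := hr'.d_le
  have d2 : d (CD.V.apex (k • c1) : F.D.V) (k • a ^ i • u0) = 1 := by
    rw [← CD.smul_apex, d_smul, ← ei, ← CD.smul_apex, d_smul, hu1]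
  have e2 : k • c1 = c1 := by
    by_contra hne
    have := F.apex_sep hne
    have := d_tri (CD.V.apex (k • c1) : F.D.V) (k • a ^ i • u0) (CD.V.apex c1)
    have := d_tri (k • a ^ i • u0) u0 (CD.V.apex c1 : F.D.V)
    have := d_comm (k • a ^ i • u0) u0
    have := d_comm u0 (CD.V.apex c1 : F.D.V)
    have := P.hρ
    have := P.one_le
    omega
  have e3 : k = 1 := F.K_fix I hk (u := CD.V.apex c1) (Or.inr ⟨c1, hc1, rfl⟩)
    (by rw [CD.smul_apex, e2])
  rw [e3, one_smul] at hr'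
  exact F.not_reach I ei (fun y _ => (I.lox (F.nonell a c1 e1 ha1)).lt y
    (lt_of_lt_of_le P.hk0 hi)) u0 hu1 hr'

theorem cob' (I : Inv P v0 γ e S) (x : F.X') : ∃ g : F.G', d x (g • F.S'.ι v0) ≤ P.R := by
  obtain ⟨u, rfl⟩ := qm_surj F.K x
  obtain ⟨a, ha⟩ := F.near_orbit I u
  refine ⟨F.φ a, ha.trans ?_⟩
  have h1 : u.lev ≤ P.ρ + 1 := CD.lev_le u
  have := P.hR; have := P.hA; have := P.hA'
  omega

theorem dich' (I : Inv P v0 γ e S) (x : F.X') : (∃ g : F.G', d x (g • F.S'.ι v0) ≤ P.B0) ∨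
    ∀ g h : F.G', d x (g • x) ≤ P.ε3 → d x (h • x) ≤ P.ε3 → g * h = h * g := by
  obtain ⟨u, rfl⟩ := qm_surj F.K x
  by_cases hl : u.lev + 1 ≤ P.B0
  · obtain ⟨a, ha⟩ := F.near_orbit I u
    exact Or.inl ⟨F.φ a, ha.trans hl⟩
  · refine Or.inr fun g h hg hh => ?_
    obtain ⟨a, rfl, ha⟩ := exists_lift_disp g u
    obtain ⟨b, rfl, hb⟩ := exists_lift_disp h u
    have hB := P.hB0
    obtain ⟨c, hc, hac⟩ := CD.deep a u (by omega)
    obtain ⟨c', hc', hbc⟩ := CD.deep b u (by omega)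
    obtain rfl : c = c' := Option.some.inj (hc.symm.trans hc')
    rw [← QuotientGroup.mk_mul, ← QuotientGroup.mk_mul, F.comm a b c hac hbc]

theorem inj' (I : Inv P v0 γ e S) (g : G) (h1 : g ≠ 1) (h : d (S.ι v0) (g • S.ι v0) ≤ P.R) :
    F.φ g ≠ 1 := by
  intro hK
  refine h1 (F.K_disp I (F.φ_eq_one.1 hK) (u := CD.V.base (S.ι v0)) ?_)
  have h2 := CD.d_base_le (D := F.D) (S.ι v0) (g • S.ι v0) 1 (by rw [one_mul]; exact h)
  rw [CD.smul_base]
  simp only [CD.V.lev]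
  omega

theorem shrink' (g : G) (t : ℕ) (h : d (S.ι v0) (g • S.ι v0) ≤ t * P.R) :
    d (F.S'.ι v0) (F.φ g • F.S'.ι v0) ≤ t := by
  exact (d_qm_le (K := F.K) (CD.V.base (S.ι v0) : F.D.V) (CD.V.base (g • S.ι v0))).trans
    (CD.d_base_le (D := F.D) _ _ t h)

theorem gam' (I : Inv P v0 γ e S) (i : ℕ) (hi : i ≤ P.n) :
    F.S'.π (γ i) ≠ 1 ∧ d (F.S'.ι v0) (F.S'.π (γ i) • F.S'.ι v0) ≤ 2 * P.n := by
  obtain ⟨h1, h2⟩ := I.gam i hi
  have := P.hR; have := P.hA; have := P.hA'; have := P.hρ; have := P.hε4; have := P.hB0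
  refine ⟨F.inj' I _ h1 (by omega), F.shrink' _ _ (h2.trans ?_)⟩
  exact Nat.le_mul_of_pos_right _ (by omega)

end Fam

end Pool.Agent.QIB
end

-- merged part: Pool.Agent.Work.MP_9628a2_al.StepB
section
set_option autoImplicit false
set_option linter.unusedSectionVars false

namespace Pool.Agent.QIB

variable {G0 T G X C : Type} [Group G0] [Group G] [MulAction G X] [GSp X] [MulAction G C]
  {P : Par} {γ : ℕ → G0} {S : SD G0 T G X} [MulAction G0 T] {v0 : T} {e : G0} [Iso G X]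

theorem pow_aux {δ k : ℕ} (hδ : 1 ≤ δ) (hk : 15 * δ ≤ k) :
    2 * (6 * δ * 2 ^ (10 * δ)) + 1 < 2 ^ k := by
  have h1 : δ < 2 ^ δ := Nat.lt_two_pow_self
  have h2 : 2 ^ (15 * δ) ≤ 2 ^ k := Nat.pow_le_pow_right (by omega) hk
  have h3 : 2 ^ 4 ≤ 2 ^ (4 * δ) := Nat.pow_le_pow_right (by omega) (by omega)
  have h4 : 2 ^ (15 * δ) = 2 ^ (4 * δ) * (2 ^ δ * 2 ^ (10 * δ)) := by
    rw [← pow_add, ← pow_add]; congr 1; omega
  have h5 : 1 ≤ 2 ^ (10 * δ) := Nat.one_le_two_pow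
  have h6 : (δ + 1) * 2 ^ (10 * δ) ≤ 2 ^ δ * 2 ^ (10 * δ) := Nat.mul_le_mul_right _ h1
  have h7 : 2 ^ 4 * ((δ + 1) * 2 ^ (10 * δ)) ≤ 2 ^ (4 * δ) * (2 ^ δ * 2 ^ (10 * δ)) :=
    Nat.mul_le_mul h3 h6
  generalize 2 ^ (10 * δ) = w at *
  have h8 : 0 ≤ δ * w := Nat.zero_le _
  nlinarith

namespace Fam

variable (F : Fam P S γ C)

theorem i4' (I : Inv P v0 γ e S) (g : F.G') : F.S'.Ell g ∨ Lox F.X' P.ν g := by
  by_cases hE : F.S'.Ell g
  · exact Or.inl hE
  right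
  have hδ := P.one_le
  by_cases hA : ∀ z : F.X', 5 * P.δ + 2 ≤ d z (g • z)
  · refine Lox.mono (ν := 1) (fun x j => ?_) P.one_le_ν
    have := tl_lox (F.hyp' I) hA x j
    omega
  push Not at hA
  obtain ⟨x, hx⟩ := hA
  obtain ⟨u, rfl⟩ := qm_surj F.K x
  obtain ⟨a, rfl, ha⟩ := exists_lift_disp g u
  have hc : ∀ c : C, a • c ≠ c := F.no_cone v0 hE
  have hne : ¬ S.Ell a := fun h => hE (F.ell'_of_ell h)
  have hmv : ∀ z : X, 5 * P.δ + 2 ≤ d z (a • z) := fun z => by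
    by_contra h
    obtain ⟨c, -, h'⟩ := F.short a z hne (by omega)
    exact hc c h'
  have hl := F.low_of_no_cone hc u
  have hρ := P.rho_ge
  have hM := F.bs_disp (a := a) (u := u) (ε := 6 * P.δ) (k := 10 * P.δ) (by omega) (by omega)
    (by omega)
  generalize u.bs = y at hM
  have hR := P.hR
  refine lox_of_pt (F.q (CD.V.base y)) fun j => ?_
  have hB : ∀ c p q, IsProj (F.Y c) y p → IsProj (F.Y c) (a ^ j • y) q →
      d p q ≤ (2 * (6 * P.δ * 2 ^ (10 * P.δ)) + 1) * P.R := fun c p q hp hq => by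
    have h1 : d (a ^ j • y) (a • a ^ j • y) ≤ 6 * P.δ * 2 ^ (10 * P.δ) * P.R := by
      rw [← mul_smul, ← pow_succ', pow_succ, mul_smul, d_smul]; exact hM
    have := proj_move I.hyp F.qc F.ovl (by omega) (hc c).symm (F.equi a c) hM h1 hp hq
    rw [Nat.add_mul, Nat.mul_assoc 2]
    omega
  have h1 := (F.good I).d_le_mul hB
  have h2 : d (F.q (CD.V.base y)) (F.q (CD.V.base (a ^ j • y))) =
      d (CD.V.base y : F.D.V) (CD.V.base (a ^ j • y)) := by
    refine (F.spin I).d_qm ?_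
    rintro _ ⟨c, -, rfl⟩ hb
    have hk := P.hδ
    have e : F.D.ρ = P.ρ := rfl
    obtain ⟨p, q, hp, hq, hpq⟩ := (F.good I).apex_btw (by omega) hb
    have h3 := hB c p q hp hq
    have h4 := pow_aux hδ (k := F.D.ρ + 1 - kB) (by omega)
    have h5 : (2 * (6 * P.δ * 2 ^ (10 * P.δ)) + 1) * P.R < 2 ^ (F.D.ρ + 1 - kB) * P.R :=
      Nat.mul_lt_mul_of_pos_right h4 (by omega)
    have e' : F.D.R = P.R := rfl
    rw [e', Nat.mul_comm] at hpq
    omega
  have h3 : ((a : F.G') ^ j) • F.q (CD.V.base y) = F.q (CD.V.base (a ^ j • y)) := by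
    rw [← QuotientGroup.mk_pow]; rfl
  rw [h3, h2]
  have h4 := tl_lox I.hyp hmv y j
  refine h4.trans (h1.trans ?_)
  rw [Nat.mul_comm]
  refine Nat.mul_le_mul_right _ (le_trans ?_ P.hν)
  have e' : F.D.R = P.R := rfl
  have h5 : 2 ^ (10 * P.δ) ≤ 2 ^ (14 * P.δ) := Nat.pow_le_pow_right (by omega) (by omega)
  have h6 : 2 * (6 * P.δ * 2 ^ (10 * P.δ)) ≤ 14 * P.δ * 2 ^ (14 * P.δ) := by
    rw [← Nat.mul_assoc]
    exact Nat.mul_le_mul (by omega) h5
  calc 2 * F.D.R + (2 * (6 * P.δ * 2 ^ (10 * P.δ)) + 1) * P.R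
      = P.R * (2 * (6 * P.δ * 2 ^ (10 * P.δ)) + 3) := by rw [e']; ring
    _ ≤ _ := Nat.mul_le_mul_left _ (by omega)

theorem tf' (I : Inv P v0 γ e S) (g : F.G') (i : ℕ) (hi : i ≠ 0) (h : g ^ i = 1) : g = 1 := by
  rcases F.i4' I g with ⟨s, hs, hg⟩ | hg
  · obtain ⟨a, s', hs', rfl, -, ha, -⟩ := F.lift_ell I hs hg (CD.V.base (S.ι v0))
    have h1 : a ^ i ∈ F.K := F.φ_eq_one.1 (by rw [map_pow, h])
    have h2 : a ^ i • s' = s' := MulAction.mem_stabilizer_iff.1
      ((MulAction.stabilizer G s').pow_mem (MulAction.mem_stabilizer_iff.2 ha) i)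
    rw [I.tf a i hi (F.K_fix I h1 hs' h2), map_one]
  · have := hg (F.S'.ι v0) i
    rw [h, one_smul, d_self] at this
    omega

theorem i7' (I : Inv P v0 γ e S) (a : F.G') (i : ℤ) (x : F.X') (hi : i ≠ 0)
    (h : d x ((a ^ P.m) ^ i • x) ≤ 30 * P.δ) : d x (a ^ P.m • x) ≤ P.ε2 := by
  have hδ := P.one_le
  have hL := P.L_le
  have hρ := P.rho_ge
  have e : F.D.ρ = P.ρ := rfl
  rcases F.i4' I a with ⟨s, hs, hg⟩ | hg
  swap
  · have := tl_mono_z (F.hyp' I) (P.lox_pow hg) x i hi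
    omega
  obtain ⟨u, rfl⟩ := qm_surj F.K x
  obtain ⟨a, s', hs', rfl, rfl, ha, hd⟩ := F.lift_ell I hs hg u
  have fixp : ∀ {Z : Type} [MulAction G Z] {z : Z}, a • z = z →
      a ^ P.m • z = z ∧ (a ^ P.m) ^ i • z = z := fun {Z} _ {z} hz => by
    have h1 := (MulAction.stabilizer G z).pow_mem (MulAction.mem_stabilizer_iff.2 hz) P.m
    exact ⟨MulAction.mem_stabilizer_iff.1 h1,
      MulAction.mem_stabilizer_iff.1 ((MulAction.stabilizer G z).zpow_mem h1 i)⟩
  rw [← map_pow] at h ⊢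
  rw [← map_zpow] at h
  by_cases hK : (a ^ P.m) ^ i ∈ F.K
  · rw [I.tf_z hi (F.K_fix I hK hs' (fixp ha).2), map_one, one_smul, d_self]
    omega
  have h1 : (a ^ P.m) ^ i ≠ 1 := fun h => hK (h ▸ F.K.one_mem)
  have ha1 : a ≠ 1 := fun h => h1 (by rw [h, one_pow, one_zpow])
  have hu : d u ((a ^ P.m) ^ i • u) ≤ 30 * P.δ := by
    rw [F.cont I hK hd (by rw [(fixp ha).2, d_self]; omega) (h.trans P.e3_ge)]
    exact h
  refine (d_qm_le (K := F.K) u (a ^ P.m • u)).trans ?_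
  have mono : ∀ c : C, a • c = c → ∀ y : X, d y (a ^ P.m • y) ≤ d y ((a ^ P.m) ^ i • y) :=
    fun c hc y => tl_mono_z I.hyp (P.lox_pow (I.lox (F.nonell a c hc ha1))) y i hi
  by_cases hl : 2 * u.lev ≤ 30 * P.δ
  · have hM := F.low_disp hu hl
    suffices H : d u.bs (a ^ P.m • u.bs) ≤ (P.L + 1) * P.R by
      have := F.disp_of_bs (by omega) H
      omega
    rw [Nat.add_mul]
    rcases hs' with ⟨s0, -, rfl⟩ | ⟨c, -, rfl⟩
    · have hs0 : a • s0 = s0 := CD.V.base.inj (D := F.D) ha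
      obtain ⟨z, -, hz1, hz2⟩ := exists_mid I.hyp ((a ^ P.m) ^ i) (fixp hs0).2 u.bs
      have h2 := I.i7 a i z hi (by omega)
      have h3 := d_move_le (a ^ P.m) u.bs z
      have := P.hR; have := P.hA
      omega
    · have := mono c (CD.V.apex.inj (D := F.D) ha) u.bs
      omega
  · obtain ⟨c, hc, hc'⟩ := CD.deep ((a ^ P.m) ^ i) u (by omega)
    have hac : a • c = c := by
      rcases hs' with ⟨s0, hs0, rfl⟩ | ⟨c', -, rfl⟩
      · have h2 : a • s0 = s0 := CD.V.base.inj (D := F.D) ha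
        exact absurd ⟨s0, hs0, (fixp h2).2⟩ (F.nonell _ c hc' h1)
      · have h2 : a • c' = c' := CD.V.apex.inj (D := F.D) ha
        rw [F.uniq I h1 hc' (fixp h2).2]; exact h2
    by_cases hl' : u.lev + 30 * P.δ ≤ P.ρ
    · have h2 := F.bs_disp (k := u.lev + 30 * P.δ) hu le_rfl hl'
      have h3 := mono c hac u.bs
      have h4 : 30 * P.δ ≤ 2 ^ (30 * P.δ) := Nat.lt_two_pow_self.le
      have h5 : d u.bs (a ^ P.m • u.bs) ≤ F.D.R * 2 ^ (u.lev + 60 * P.δ) := by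
        refine h3.trans (h2.trans ?_)
        calc 30 * P.δ * 2 ^ (u.lev + 30 * P.δ) * P.R
            ≤ 2 ^ (30 * P.δ) * 2 ^ (u.lev + 30 * P.δ) * P.R :=
              Nat.mul_le_mul_right _ (Nat.mul_le_mul_right _ h4)
          _ = P.R * 2 ^ (u.lev + 60 * P.δ) := by
              rw [← pow_add, Nat.mul_comm]; congr 2; omega
      have hm := CD.bs_mem hc
      have h6 := CD.d_col_le c u.bs hm (a ^ P.m • u.bs) ((F.fix_mem (fixp hac).1).1 _ hm) u.lev
        (60 * P.δ) h5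
      have h7 : a ^ P.m • u = F.D.col c (a ^ P.m • u.bs) ((F.fix_mem (fixp hac).1).1 _ hm)
          u.lev := by
        conv_lhs => rw [CD.eq_col hc, CD.smul_col]
        congr 1
        exact (fixp hac).1
      rw [← CD.eq_col hc, ← h7] at h6
      omega
    · have h2 := CD.d_apex_le hc
      have h3 := d_move_le (a ^ P.m) u (CD.V.apex c)
      rw [CD.smul_apex, (fixp hac).1, d_self] at h3
      omega

end Fam

end Pool.Agent.QIB
end

-- merged part: Pool.Agent.Work.MP_9628a2_al.WordsF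
section
set_option autoImplicit false

namespace Pool.Agent.QIB

/-- Alternating lists that fit between a syllable of type `s` and one of type `t`. -/
def Bt : Bool → List (Bool × ℤ) → Bool → Prop
  | s, [], t => s ≠ t
  | s, p :: l, t => s ≠ p.1 ∧ p.2 ≠ 0 ∧ Bt p.1 l t

/-- Formal inverse of a list of syllables. -/
def linv (l : List (Bool × ℤ)) : List (Bool × ℤ) := (l.map fun p => (p.1, -p.2)).reverse

theorem Bt.append {s t t' : Bool} {l l' : List (Bool × ℤ)} (h : Bt s l t) (h' : Bt (!t) l' t') :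
    Bt s (l ++ l') t' := by
  induction l generalizing s with
  | nil =>
    obtain rfl : s = !t := by revert h; cases s <;> cases t <;> simp [Bt]
    exact h'
  | cons p l ih => exact ⟨h.1, h.2.1, ih h.2.2⟩

theorem Bt.linv {s t : Bool} {l : List (Bool × ℤ)} (h : Bt s l t) : Bt t (linv l) s := by
  induction l generalizing s with
  | nil => exact Ne.symm h
  | cons p l ih =>
    have : QIB.linv (p :: l) = QIB.linv l ++ [(p.1, -p.2)] := by simp [QIB.linv]
    rw [this]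
    exact (ih h.2.2).append ⟨by simp, neg_ne_zero.2 h.2.1, Ne.symm h.1⟩

theorem evl_linv {G : Type} [Group G] (a b : G) (l : List (Bool × ℤ)) :
    evl a b (linv l) = (evl a b l)⁻¹ := by
  induction l with
  | nil => simp [linv]
  | cons p l ih =>
    have : linv (p :: l) = linv l ++ [(p.1, -p.2)] := by simp [linv]
    rw [this, evl_append, ih]; simp

theorem Bt.alt {s t : Bool} {l : List (Bool × ℤ)} (h : Bt s l t) : Alt l := by
  induction l generalizing s with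
  | nil => exact ⟨List.IsChain.nil, by simp⟩
  | cons p l ih =>
    obtain ⟨a, b⟩ := ih h.2.2
    refine ⟨?_, by simpa using ⟨h.2.1, by simpa using b⟩⟩
    cases l with
    | nil => exact List.IsChain.singleton _
    | cons q l => exact List.IsChain.cons_cons h.2.2.1 a

theorem Bt.ab {l : List (Bool × ℤ)} (h : Bt false l true) (hl : l ≠ []) : AB l := by
  have k : ∀ (l : List (Bool × ℤ)) s, Bt s l true → l ≠ [] →
      l.getLast?.map Prod.fst = some false := by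
    intro l
    induction l with
    | nil => exact fun _ _ h => absurd rfl h
    | cons p l ih =>
      intro s h _
      cases l with
      | nil => simpa [Bt] using h.2.2
      | cons q l => rw [List.getLast?_cons_cons]; exact ih _ h.2.2 (by simp)
  refine ⟨?_, k l _ h hl⟩
  cases l with
  | nil => exact absurd rfl hl
  | cons p l => simpa using h.1

theorem Alt.bt {l : List (Bool × ℤ)} (h : Alt l) {s t : Bool}
    (h1 : l.head?.map Prod.fst = some (!s)) (h2 : l.getLast?.map Prod.fst = some (!t)) :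
    Bt s l t := by
  induction l generalizing s with
  | nil => simp at h1
  | cons p l ih =>
    have e : p.1 = !s := by simpa using h1
    refine ⟨by simp [e], h.2 p (by simp), ?_⟩
    cases l with
    | nil =>
      have : p.1 = !t := by simpa using h2
      simp [Bt, this]
    | cons q l =>
      obtain ⟨a, b⟩ := List.isChain_cons_cons.1 h.1
      refine ih ⟨b, fun r hr => h.2 r (by simp [hr])⟩ ?_ (by rwa [List.getLast?_cons_cons] at h2)
      revert a
      cases p.1 <;> simp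

theorem Alt.exists_bt {l : List (Bool × ℤ)} (h : Alt l) (hl : l ≠ []) : ∃ s t, Bt s l t :=
  ⟨!(l.head hl).1, !(l.getLast hl).1, h.bt (by simp [List.head?_eq_some_head hl])
    (by simp [List.getLast?_eq_some_getLast hl])⟩

theorem exists_alt_cons {l : List (Bool × ℤ)} (h : Alt l) (p : Bool × ℤ) :
    ∃ l', Alt l' ∧ wd l' = wd (p :: l) := by
  by_cases h0 : p.2 = 0
  · exact ⟨l, h, by simp [wd, h0]⟩
  cases l with
  | nil => exact ⟨[p], ⟨List.IsChain.singleton _, by simpa using h0⟩, rfl⟩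
  | cons q l =>
    by_cases h1 : p.1 = q.1
    · have e : wd (p :: q :: l) = wd ((q.1, p.2 + q.2) :: l) := by
        simp [wd, h1, zpow_add, mul_assoc]
      by_cases h2 : p.2 + q.2 = 0
      · exact ⟨l, ⟨h.1.tail, fun r hr => h.2 r (by simp [hr])⟩, by rw [e]; simp [wd, h2]⟩
      · refine ⟨_, ⟨?_, ?_⟩, e.symm⟩
        · cases l with
          | nil => exact List.IsChain.singleton _
          | cons r l => exact List.IsChain.cons_cons (List.isChain_cons_cons.1 h.1).1 h.1.tail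
        · intro r hr
          rcases List.mem_cons.1 hr with rfl | hr
          exacts [h2, h.2 r (by simp [hr])]
    · refine ⟨_, ⟨List.IsChain.cons_cons h1 h.1, fun r hr => ?_⟩, rfl⟩
      rcases List.mem_cons.1 hr with rfl | hr
      exacts [h0, h.2 r hr]

/-- Every element of the free group is the value of an alternating list. -/
theorem exists_alt (w : FreeGroup Bool) : ∃ l, Alt l ∧ wd l = w := by
  obtain ⟨l, rfl⟩ : ∃ l, wd l = w := by
    induction w using FreeGroup.induction_on with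
    | C1 => exact ⟨[], rfl⟩
    | of t => exact ⟨[(t, 1)], by cases t <;> simp [wd]⟩
    | inv_of t _ => exact ⟨[(t, -1)], by cases t <;> simp [wd]⟩
    | mul _ _ a b =>
      obtain ⟨l, rfl⟩ := a
      obtain ⟨l', rfl⟩ := b
      exact ⟨l ++ l', evl_append _ _ _ _⟩
  induction l with
  | nil => exact ⟨[], ⟨List.IsChain.nil, by simp⟩, rfl⟩
  | cons p l ih =>
    obtain ⟨l', a, b⟩ := ih
    obtain ⟨l'', c, e⟩ := exists_alt_cons a p
    exact ⟨l'', c, by rw [e]; simp only [wd, evl_cons] at b ⊢; rw [b]⟩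

/-- Sanov transformations. -/
def sanA (R : Type) [CommRing R] : Multiplicative ℤ →* Equiv.Perm (R × R) :=
  MonoidHom.mk' (fun k => ⟨fun v => (v.1 + 2 * (k.toAdd : ℤ) * v.2, v.2),
    fun v => (v.1 - 2 * (k.toAdd : ℤ) * v.2, v.2), fun v => by simp, fun v => by simp⟩)
    fun k k' => by ext v <;> simp; ring

def sanB (R : Type) [CommRing R] : Multiplicative ℤ →* Equiv.Perm (R × R) :=
  MonoidHom.mk' (fun k => ⟨fun v => (v.1, v.2 + 2 * (k.toAdd : ℤ) * v.1),
    fun v => (v.1, v.2 - 2 * (k.toAdd : ℤ) * v.1), fun v => by simp, fun v => by simp⟩)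
    fun k k' => by ext v <;> simp; ring

theorem san_pow (R : Type) [CommRing R] (t : Bool) (k : ℤ) (v : R × R) :
    ((cond t (sanA R (.ofAdd 1)) (sanB R (.ofAdd 1))) ^ k) v =
      cond t (v.1 + 2 * k * v.2, v.2) (v.1, v.2 + 2 * k * v.1) := by
  cases t
  · simp only [cond_false]; rw [← map_zpow, ← ofAdd_zsmul]; simp [sanB]
  · simp only [cond_true]; rw [← map_zpow, ← ofAdd_zsmul]; simp [sanA]

theorem san_cast (R : Type) [CommRing R] (l : List (Bool × ℤ)) (v : ℤ × ℤ) :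
    evl (sanA R (.ofAdd 1)) (sanB R (.ofAdd 1)) l ((v.1 : R), (v.2 : R)) =
      (((evl (sanA ℤ (.ofAdd 1)) (sanB ℤ (.ofAdd 1)) l v).1 : R),
        ((evl (sanA ℤ (.ofAdd 1)) (sanB ℤ (.ofAdd 1)) l v).2 : R)) := by
  induction l with
  | nil => rfl
  | cons p l ih =>
    rw [evl_cons, evl_cons, Equiv.Perm.mul_apply, Equiv.Perm.mul_apply, ih, san_pow, san_pow]
    cases p.1 <;> simp

theorem san_step {x y k : ℤ} (hk : k ≠ 0) (h : |x| < |y|) : |y| < |x + 2 * k * y| := by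
  have h1 := abs_sub (x + 2 * k * y) x
  rw [add_sub_cancel_left, abs_mul, abs_mul, abs_two] at h1
  have := Int.one_le_abs hk
  nlinarith [abs_nonneg x]

theorem san_grow {s t : Bool} {l : List (Bool × ℤ)} (h : Bt s l t) (v w : ℤ × ℤ)
    (hv : cond t (|v.2| < |v.1|) (|v.1| < |v.2|))
    (hw : w = evl (sanA ℤ (.ofAdd 1)) (sanB ℤ (.ofAdd 1)) l v) :
    cond s (|w.1| < |w.2|) (|w.2| < |w.1|) ∧ |v.1| + |v.2| + l.length ≤ |w.1| + |w.2| := by
  induction l generalizing s w with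
  | nil =>
    subst hw
    revert h hv
    cases s <;> cases t <;> simp [Bt]
  | cons p l ih =>
    obtain ⟨a, b⟩ := ih h.2.2 _ rfl
    rw [evl_cons, Equiv.Perm.mul_apply, san_pow] at hw
    obtain ⟨h1, h2, -⟩ := h
    generalize evl (sanA ℤ (.ofAdd 1)) (sanB ℤ (.ofAdd 1)) l v = u at *
    subst hw
    revert h1 a
    cases s <;> cases p.1 <;> simp only [cond_true, cond_false, List.length_cons] <;>
      intro h1 a <;> first | exact absurd rfl h1 | skip
    · have := san_step h2 a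
      push_cast; omega
    · have := san_step h2 a
      push_cast; omega

theorem alt_rf {l : List (Bool × ℤ)} (h : Alt l) (hl : l ≠ []) :
    ∃ (Q : Type) (_ : Group Q) (_ : Finite Q) (a b : Q), evl a b l ≠ 1 := by
  obtain ⟨s, t, hb⟩ := h.exists_bt hl
  obtain ⟨v, hv⟩ : ∃ v : ℤ × ℤ, cond t (|v.2| < |v.1|) (|v.1| < |v.2|) := by
    cases t
    exacts [⟨(0, 1), by simp⟩, ⟨(1, 0), by simp⟩]
  have g := (san_grow hb v _ hv rfl).2
  have c := fun R [CommRing R] => san_cast R l v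
  generalize evl (sanA ℤ (.ofAdd 1)) (sanB ℤ (.ofAdd 1)) l v = w at *
  obtain ⟨n, hn⟩ : ∃ n, n = (w.1 - v.1).natAbs + (w.2 - v.2).natAbs := ⟨_, rfl⟩
  refine ⟨Equiv.Perm (ZMod (n + 1) × ZMod (n + 1)), inferInstance,
    inferInstance, sanA _ (.ofAdd 1), sanB _ (.ofAdd 1), fun e => ?_⟩
  have := c (ZMod (n + 1))
  rw [e, Equiv.Perm.one_apply, Prod.mk.injEq, ZMod.intCast_eq_intCast_iff_dvd_sub,
    ZMod.intCast_eq_intCast_iff_dvd_sub] at this
  have a1 := Int.eq_zero_of_dvd_of_natAbs_lt_natAbs this.1 (by omega)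
  have a2 := Int.eq_zero_of_dvd_of_natAbs_lt_natAbs this.2 (by omega)
  rw [sub_eq_zero.1 a1, sub_eq_zero.1 a2] at g
  have := List.length_pos_iff.2 hl
  omega

theorem wd_ne_one {l : List (Bool × ℤ)} (h : Alt l) (hl : l ≠ []) : wd l ≠ 1 := by
  obtain ⟨Q, _, _, a, b, e⟩ := alt_rf h hl
  exact fun q => e (by rw [← ev_wd, q, map_one])

theorem exists_bt (N : Subgroup (FreeGroup Bool)) [hn : N.Normal] (hN : ∃ w ∈ N, w ≠ 1) (t : Bool) :
    ∃ l, Bt t l t ∧ wd l ∈ N := by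
  obtain ⟨s, l, a, b⟩ : ∃ s l, Bt s l s ∧ wd l ∈ N := by
    obtain ⟨w, hw, h1⟩ := hN
    obtain ⟨l, a, rfl⟩ := exists_alt w
    cases l with
    | nil => exact absurd rfl h1
    | cons p l =>
      obtain ⟨s, t, b⟩ := a.exists_bt (by simp)
      by_cases c : s = t
      · exact ⟨s, _, c ▸ b, hw⟩
      have e : p.1 = t := by
        have := b.1
        revert c this
        cases s <;> cases t <;> cases p.1 <;> simp
      refine ⟨s, (p.1, p.2 + p.2) :: (l ++ [(p.1, -p.2)]), ⟨b.1, by have := b.2.1; simp only; omega,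
        b.2.2.append ⟨by simp [e], neg_ne_zero.2 b.2.1, Ne.symm b.1⟩⟩, ?_⟩
      simpa [wd, evl_append, zpow_add, mul_assoc] using
        hn.conj_mem _ hw ((cond p.1 (.of true) (.of false)) ^ p.2)
  by_cases c : s = t
  · exact ⟨l, c ▸ a, b⟩
  · refine ⟨(s, 1) :: (l ++ [(s, -1)]), ⟨Ne.symm c, one_ne_zero, a.append ⟨by simp, by simp, c⟩⟩, ?_⟩
    simpa [wd, evl_append, mul_assoc] using hn.conj_mem _ b (cond s (.of true) (.of false))

theorem Bt.ne_nil {s : Bool} {l : List (Bool × ℤ)} (h : Bt s l s) : l ≠ [] := by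
  rintro rfl; exact h rfl

theorem bt_comm {u v : List (Bool × ℤ)} (hu : Bt false u false) (hv : Bt true v true) :
    Bt false (u ++ (v ++ (linv u ++ linv v))) true ∧ u ++ (v ++ (linv u ++ linv v)) ≠ [] ∧
      wd (u ++ (v ++ (linv u ++ linv v))) = wd u * wd v * (wd u)⁻¹ * (wd v)⁻¹ :=
  ⟨hu.append (hv.append (hu.linv.append hv.linv)), by simp [hu.ne_nil],
    by simp [wd, evl_append, evl_linv, mul_assoc]⟩

theorem exists_ab (N M : Subgroup (FreeGroup Bool)) [N.Normal] [M.Normal]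
    (hN : ∃ w ∈ N, w ≠ 1) (hM : ∃ w ∈ M, w ≠ 1) :
    ∃ l, Bt false l true ∧ l ≠ [] ∧ wd l ∈ ⁅N, M⁆ := by
  obtain ⟨u, a1, a2⟩ := exists_bt N hN false
  obtain ⟨v, b1, b2⟩ := exists_bt M hM true
  obtain ⟨c1, c2, c3⟩ := bt_comm a1 b1
  exact ⟨_, c1, c2, c3 ▸ Subgroup.commutator_mem_commutator a2 b2⟩

/-- Two nontrivial normal subgroups of the free group meet nontrivially. -/
theorem normal_inf_ne (N M : Subgroup (FreeGroup Bool)) [N.Normal] [M.Normal]
    (hN : ∃ w ∈ N, w ≠ 1) (hM : ∃ w ∈ M, w ≠ 1) : ∃ w, w ∈ N ∧ w ∈ M ∧ w ≠ 1 := by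
  obtain ⟨l, a, b, c⟩ := exists_ab N M hN hM
  have := Subgroup.commutator_le_inf N M c
  exact ⟨_, this.1, this.2, wd_ne_one a.alt b⟩

theorem derived_ne (n : ℕ) : ∃ w ∈ derivedSeries (FreeGroup Bool) n, w ≠ 1 := by
  induction n with
  | zero => exact ⟨.of true, trivial, FreeGroup.of_ne_one _⟩
  | succ n ih =>
    obtain ⟨l, a, b, c⟩ := exists_ab _ _ ih ih
    exact ⟨_, c, wd_ne_one a.alt b⟩

/-- Choice of the two basic words. -/
theorem exists_words (w0 : FreeGroup Bool) (h : w0 ≠ 1) : ∃ W1 W2 : List (Bool × ℤ),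
    Alt W1 ∧ AB W1 ∧ wd W1 * wd W2 ≠ wd W2 * wd W1 ∧
    wd W1 ∈ Subgroup.normalClosure {w0} ∧ wd W2 ∈ Subgroup.normalClosure {w0} ∧
    wd W1 ∈ derivedSeries (FreeGroup Bool) 2 ∧ wd W2 ∈ derivedSeries (FreeGroup Bool) 2 := by
  obtain ⟨w, h1, h2, h3⟩ := normal_inf_ne (Subgroup.normalClosure {w0}) _
    ⟨w0, Subgroup.subset_normalClosure rfl, h⟩ (derived_ne 2)
  obtain ⟨u, a1, a2⟩ := exists_bt (Subgroup.normalClosure {w0} ⊓ derivedSeries _ 2)
    ⟨w, ⟨h1, h2⟩, h3⟩ false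
  obtain ⟨v, b1, b2⟩ := exists_bt (Subgroup.normalClosure {w0} ⊓ derivedSeries _ 2)
    ⟨w, ⟨h1, h2⟩, h3⟩ true
  obtain ⟨c1, c2, c3⟩ := bt_comm a1 b1
  have m : wd (u ++ (v ++ (linv u ++ linv v))) ∈
      Subgroup.normalClosure {w0} ⊓ derivedSeries _ 2 := by
    rw [c3]
    exact mul_mem (mul_mem (mul_mem a2 b2) (inv_mem a2)) (inv_mem b2)
  refine ⟨_, u, c1.alt, c1.ab c2, fun e => ?_, m.1, a2.1, m.2, a2.2⟩
  refine wd_ne_one (b1.append (a1.linv.append (b1.linv.append (a1.append (b1.append (a1.append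
    (b1.linv.append a1.linv))))))).alt (by simp [b1.ne_nil]) ?_
  rw [c3] at e
  simp only [wd, evl_append, evl_linv] at e ⊢
  generalize evl (FreeGroup.of true) (FreeGroup.of false) u = x at *
  generalize evl (FreeGroup.of true) (FreeGroup.of false) v = y at *
  calc _ = x⁻¹ * (x * y * x⁻¹ * y⁻¹ * x) * (y * (x * (y⁻¹ * x⁻¹))) := by group
    _ = 1 := by rw [e]; group

/-- The free group of rank two is residually finite. -/
theorem free_rf (w : FreeGroup Bool) (h : w ≠ 1) :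
    ∃ (Q : Type) (_ : Group Q) (_ : Finite Q) (a b : Q), ev a b w ≠ 1 := by
  obtain ⟨l, a, rfl⟩ := exists_alt w
  simpa only [ev_wd] using alt_rf a (by rintro rfl; exact h rfl)

end Pool.Agent.QIB
end

-- merged part: Pool.Agent.Work.MP_9628a2_al.PP
section
set_option autoImplicit false

namespace Pool.Agent.QIB

variable {G X : Type} [Group G] [MulAction G X] [GSp X] [Iso G X] {δ : ℕ}

/-- Ping-pong data for two elliptic elements. -/
structure PPD (δ : ℕ) (a b : G) (s s' : X) (A B : ℕ) : Prop where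
  ha : a • s = s
  hb : b • s' = s'
  hA : ∀ i : ℤ, i ≠ 0 → 2 * d s s' ≤ d s' (a ^ i • s') + A
  hB : ∀ i : ℤ, i ≠ 0 → 2 * d s s' ≤ d s (b ^ i • s) + B
  gap : A + B + 3 * δ + 1 ≤ 2 * d s s'

theorem pp_key (h : Hyp X δ) {a b : G} {s s' : X} {A B : ℕ} (H : PPD δ a b s s' A B) {u t : Bool}
    {l : List (Bool × ℤ)} (hl : Bt u l t) :
    d s s' + d (cond u s' s) (evl a b l • cond t s s') ≤
      d (cond u s s') (evl a b l • cond t s s') + cond u B A + δ ∧
    cond u A B + δ + l.length + 1 ≤ 2 * d (cond u s s') (evl a b l • cond t s s') := by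
  have g := H.gap
  have c := d_comm s s'
  induction l generalizing u with
  | nil =>
    revert hl
    cases u <;> cases t <;> simp [Bt, d_self] <;> omega
  | cons p l ih =>
    obtain ⟨i1, i2⟩ := ih hl.2.2
    obtain ⟨h1, h2, -⟩ := hl
    rw [evl_cons, mul_smul, List.length_cons]
    generalize evl a b l • cond t s s' = q at *
    obtain ⟨v, k⟩ := p
    cases u <;> cases v <;> simp only [cond_true, cond_false] at * <;>
      first | exact absurd rfl h1 | skip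
    · have f : a ^ k • s = s := (MulAction.stabilizer G s).zpow_mem H.ha k
      have e := h s' (a ^ k • s') s (a ^ k • q)
      have e1 := H.hA k h2
      have e2 := d_smul (a ^ k) s q
      have e3 := d_smul (a ^ k) s' q
      have e4 := d_smul (a ^ k) s' s
      rw [f] at e2 e4
      omega
    · have f : b ^ k • s' = s' := (MulAction.stabilizer G s').zpow_mem H.hb k
      have e := h s (b ^ k • s) s' (b ^ k • q)
      have e1 := H.hB k h2
      have e2 := d_smul (b ^ k) s' q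
      have e3 := d_smul (b ^ k) s q
      have e4 := d_smul (b ^ k) s s'
      rw [f] at e2 e4
      omega

theorem pp_unbdd (h : Hyp X δ) {a b : G} {s s' : X} {A B : ℕ} (H : PPD δ a b s s' A B)
    {l : List (Bool × ℤ)} (hl : Alt l) (hab : AB l) (j : ℕ) :
    j ≤ 2 * d s' (evl a b l ^ j • s) := by
  have hb : Bt false l true := hl.bt hab.1 hab.2
  have h0 : 0 < l.length := List.length_pos_iff.2 (by rintro rfl; simp [AB] at hab)
  obtain ⟨L, a1, a2, a3⟩ : ∃ L, Bt false L true ∧ j ≤ L.length ∧ evl a b L = evl a b l ^ j := by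
    induction j with
    | zero => exact ⟨[], by simp [Bt], le_rfl, by simp⟩
    | succ j ih =>
      obtain ⟨L, a1, a2, a3⟩ := ih
      exact ⟨L ++ l, a1.append hb, by rw [List.length_append]; omega,
        by rw [evl_append, a3, pow_succ]⟩
  have := (pp_key h H a1).2
  simp only [cond_true, cond_false, a3] at this
  omega

theorem pp_not_fix' (h : Hyp X δ) {a b : G} {s s' : X} {A B : ℕ} (H : PPD δ a b s s' A B)
    {l : List (Bool × ℤ)} (hl : Alt l) (hab : AB l) (x : X) : evl a b l • x ≠ x := by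
  intro e
  have := pp_unbdd h H hl hab (2 * (d s' x + d x s) + 1)
  have f : evl a b l ^ (2 * (d s' x + d x s) + 1) • x = x := (MulAction.stabilizer G x).pow_mem e _
  have e1 := d_smul (evl a b l ^ (2 * (d s' x + d x s) + 1)) x s
  have e2 := d_tri s' x (evl a b l ^ (2 * (d s' x + d x s) + 1) • s)
  rw [f] at e1
  omega

theorem pp_inj (h : Hyp X δ) {a b : G} {s s' : X} {A B : ℕ} (H : PPD δ a b s s' A B)
    (w : FreeGroup Bool) (hw : w ≠ 1) : ev a b w ≠ 1 := by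
  intro e
  obtain ⟨l, a1, a2, a3⟩ := exists_ab (ev a b).ker (ev a b).ker ⟨w, e, hw⟩ ⟨w, e, hw⟩
  have : ev a b (wd l) = 1 := (Subgroup.commutator_le_inf _ _ a3).1
  rw [ev_wd] at this
  exact pp_not_fix' h H a1.alt (a1.ab a2) s (by rw [this, one_smul])

theorem pp_not_fix (h : Hyp X δ) {a b : G} {s s' : X} {A B : ℕ} (H : PPD δ a b s s' A B)
    {l : List (Bool × ℤ)} (hl : Alt l) (hab : AB l) (x : X) : evl a b l • x ≠ x :=
  pp_not_fix' h H hl hab x

theorem exists_min_ne (f : ℤ → ℕ) : ∃ i, i ≠ 0 ∧ ∀ j, j ≠ 0 → f i ≤ f j := by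
  obtain ⟨i, a, b⟩ := exists_minimalFor_of_wellFoundedLT (fun i : ℤ => i ≠ 0) f ⟨1, one_ne_zero⟩
  exact ⟨i, a, fun j hj => (le_total _ _).elim id fun q => b hj q⟩

theorem pp_setup {a b : G} {s s' : X} (ha : a • s = s) (hb : b • s' = s') :
    ∃ i j : ℤ, i ≠ 0 ∧ j ≠ 0 ∧ a ^ i • s = s ∧ b ^ j • s' = s' ∧ d s' (a ^ i • s') ≤ 2 * d s s' ∧
      d s (b ^ j • s) ≤ 2 * d s s' ∧
      (2 * d s s' + 3 * δ + 1 ≤ d s' (a ^ i • s') + d s (b ^ j • s) → ∃ A B, PPD δ a b s s' A B) := by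
  obtain ⟨i, i0, hi⟩ := exists_min_ne fun i => d s' (a ^ i • s')
  obtain ⟨j, j0, hj⟩ := exists_min_ne fun j => d s (b ^ j • s)
  have f : a ^ i • s = s := (MulAction.stabilizer G s).zpow_mem ha i
  have f' : b ^ j • s' = s' := (MulAction.stabilizer G s').zpow_mem hb j
  have e := d_move_le (a ^ i) s' s
  have e' := d_move_le (b ^ j) s s'
  rw [f, d_self, d_comm s' s] at e
  rw [f', d_self] at e'
  refine ⟨i, j, i0, j0, f, f', by omega, by omega, fun q => ⟨2 * d s s' - d s' (a ^ i • s'),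
    2 * d s s' - d s (b ^ j • s), ha, hb, fun k hk => ?_, fun k hk => ?_, by omega⟩⟩
  · have := hi k hk
    omega
  · have := hj k hk
    omega

/-- Large joint displacement gives ping-pong data. -/
theorem pp_of_energy (h : Hyp X δ) {a b : G} {s s' : X} (ha : a • s = s) (hb : b • s' = s')
    {e : ℕ} (h7a : ∀ (z : X) (i : ℤ), i ≠ 0 → d z (a ^ i • z) ≤ 2 * δ → d z (a • z) ≤ e)
    (h7b : ∀ (z : X) (i : ℤ), i ≠ 0 → d z (b ^ i • z) ≤ 2 * δ → d z (b • z) ≤ e)
    (hE : ∀ z : X, e + 4 * δ + 2 < d z (a • z) ∨ e + 4 * δ + 2 < d z (b • z)) :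
    ∃ A B, PPD δ a b s s' A B := by
  obtain ⟨i, j, i0, j0, f, f', b1, b2, k⟩ := pp_setup (δ := δ) ha hb
  refine k (not_lt.1 fun c => ?_)
  have c0 := d_comm s s'
  obtain ⟨γ, hγ⟩ := exists_geod s' s
  obtain ⟨α, hα⟩ : ∃ α, α = (d s' (a ^ i • s') + 1) / 2 := ⟨_, rfl⟩
  obtain ⟨β, hβ⟩ : ∃ β, β = min α (d s s' - (d s (b ^ j • s) + 1) / 2) := ⟨_, rfl⟩
  have a1 := hγ.d_left (i := α) (by omega)
  have a2 := hγ.d_right (i := β) (by omega)
  have a3 := hγ.2.2 β α (by omega) (by omega)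
  have a4 := d_comm s (γ β)
  have a5 := d_comm (γ α) (γ β)
  have m1 := h7a _ i i0 (mid h (a ^ i) f (hγ.btw α) (by omega))
  have m2 := h7b _ j j0 (mid h (b ^ j) f' (hγ.btw β).symm (by omega))
  have := d_move_le b (γ α) (γ β)
  have := hE (γ α)
  omega

/-- The tree version. -/
theorem pp_of_tree (h : Hyp X 0) (hm : ∀ x y z : X, ∃ m, Btw x m y ∧ Btw y m z ∧ Btw x m z)
    {a b : G} {s s' : X} (ha : a • s = s) (hb : b • s' = s')
    (h7a : ∀ (z : X) (i : ℤ), i ≠ 0 → a ^ i • z = z → a • z = z)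
    (h7b : ∀ (z : X) (i : ℤ), i ≠ 0 → b ^ i • z = z → b • z = z)
    (hE : ∀ z : X, ¬ (a • z = z ∧ b • z = z)) : ∃ A B, PPD 0 a b s s' A B := by
  obtain ⟨i, j, i0, j0, f, f', b1, b2, k⟩ := pp_setup (δ := 0) ha hb
  refine k (not_lt.1 fun c => ?_)
  have ev : ∀ (g : G) (x y : X), g • x = x → d y (g • y) % 2 = 0 := fun g x y e => by
    obtain ⟨m, q1, q2, q3⟩ := hm y x (g • y)
    have := d_smul g x y
    rw [e] at this
    have := d_comm x y
    have := d_comm x m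
    unfold Btw at *
    omega
  have e1 := ev _ s s' f
  have e2 := ev _ s' s f'
  have c0 := d_comm s s'
  obtain ⟨z, z1, z2⟩ := exists_btw s' s (d s' (a ^ i • s') / 2) (by omega)
  have z3 := z1
  unfold Btw at z3
  have a4 := d_comm s z
  have m1 := mid h (a ^ i) f z1 (by omega)
  have m2 := mid h (b ^ j) f' z1.symm (by omega)
  exact hE z ⟨h7a z i i0 (eq_of_d _ _ (by omega)).symm, h7b z j j0 (eq_of_d _ _ (by omega)).symm⟩

end Pool.Agent.QIB
end

-- merged part: Pool.Agent.Work.MP_9628a2_al.StepD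
section
set_option autoImplicit false
set_option linter.unusedSectionVars false

namespace Pool.Agent.QIB

variable {G0 T G X C : Type} [Group G0] [Group G] [MulAction G X] [GSp X] [MulAction G C]
  {P : Par} {γ : ℕ → G0} {S : SD G0 T G X} [MulAction G0 T] {v0 : T} {e : G0} [Iso G X]

namespace Fam

variable (F : Fam P S γ C)

theorem ready' (g h : G) (hr : S.Ready P g h) :
    Treated P (fun i => F.S'.π (γ i)) (F.φ g) (F.φ h) := by
  obtain ⟨u, hu⟩ := F.ready g h hr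
  refine ⟨F.φ u, fun i hi => ?_⟩
  obtain ⟨c, hc, hfix⟩ := hu i hi
  have h1 := F.φ_eq_one.2 (F.mem_K_of_fix hc hfix)
  rw [map_mul, map_inv, mul_inv_eq_one, map_vw, map_mul, map_mul, map_inv] at h1
  exact h1

theorem elem' (g h : G) (he : S.Elem g h) : F.S'.Elem (F.φ g) (F.φ h) := by
  obtain ⟨s, hs, h1, h2⟩ := he
  exact ⟨F.q (CD.V.base s), F.mem_Sp'.2 ⟨_, Or.inl ⟨s, hs, rfl⟩, rfl⟩,
    by rw [φ_smul, CD.smul_base, h1], by rw [φ_smul, CD.smul_base, h2]⟩

theorem short' (g : G) (h : d (S.ι v0) (g • S.ι v0) ≤ 1) : F.S'.Ell (F.φ g) := by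
  by_cases he : S.Ell g
  · exact F.ell'_of_ell he
  · obtain ⟨c, hc, hg⟩ := F.short g (S.ι v0) he (by have := P.one_le; omega)
    exact F.ell'_of_fix hc hg

/-- A power with small displacement in the quotient lifts to a power with the same displacement. -/
theorem sD_lift (I : Inv P v0 γ e S) (a : F.G') (u : F.D.V)
    (ha : d (F.q u) (a ^ P.m • F.q u) ≤ P.ε0) :
    (∃ s ∈ F.S'.Sp, a • s = s) ∧ (a ^ P.m ≠ 1 →
      ∃ a0 : G, F.φ a0 = a ∧ a0 ^ P.m ∉ F.K ∧ d u (a0 ^ P.m • u) ≤ P.ε0) := by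
  have hell : F.S'.Ell a := by
    refine (F.i4' I a).resolve_right fun hl => ?_
    have hm := P.hm
    have h0 : 0 < P.R * 2 ^ (2 * P.ε0) := Nat.mul_pos F.D.hR (by positivity)
    have h1 : P.ε0 ≤ P.ε0 * (P.R * 2 ^ (2 * P.ε0)) + 7 * P.δ :=
      le_trans (Nat.le_mul_of_pos_right _ h0) (Nat.le_add_right _ _)
    have := hl.lt (F.q u) (j := P.m) (B := P.ε0)
      (lt_of_le_of_lt (Nat.mul_le_mul_left _ h1) hm)
    omega
  refine ⟨hell, fun hne => ?_⟩
  obtain ⟨s, hs, hfix⟩ := hell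
  obtain ⟨a0, s', -, h1, h2, h3, h4⟩ := F.lift_ell I hs hfix u
  have hK : a0 ^ P.m ∉ F.K := fun hk => hne (by rw [← h1, ← map_pow]; exact F.φ_eq_one.2 hk)
  have h5 : a0 ^ P.m • s' = s' := MulAction.mem_stabilizer_iff.1
    (Subgroup.pow_mem _ (MulAction.mem_stabilizer_iff.2 h3) _)
  have h6 := P.e0_le
  have h7 : F.φ (a0 ^ P.m) = a ^ P.m := by rw [map_pow, h1]
  have := F.cont I hK (p := s') (u := u) (by rw [h4, h2]) (by rw [h5, d_self]; omega)
    (by rw [h7]; omega)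
  exact ⟨a0, h1, hK, by rw [this, h7]; exact ha⟩

/-- A power that moves a low point a little comes from an elliptic element of the old stage. -/
theorem sD_low (I : Inv P v0 γ e S) (a : G) (u : F.D.V) (hl : 2 * u.lev ≤ P.ε0)
    (ha : d u (a ^ P.m • u) ≤ P.ε0) : S.Ell a := by
  refine (I.i4 a).resolve_right fun hlox => ?_
  have hm := P.hm
  have h6 := P.e0_le
  have hρ := P.hρ
  have h4 := P.hε4
  have e : F.D.ρ = P.ρ := rfl
  have h1 := CD.d_bs_le u (a ^ P.m • u) (by omega)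
  rw [CD.bs_smul _ u (by omega)] at h1
  have h2 : d u (a ^ P.m • u) * (F.D.R * 2 ^ (u.lev + d u (a ^ P.m • u))) ≤
      P.ε0 * (P.R * 2 ^ (2 * P.ε0)) :=
    Nat.mul_le_mul ha (Nat.mul_le_mul_left _ (Nat.pow_le_pow_right (by omega) (by omega)))
  have := hlox.lt u.bs (j := P.m) (B := P.ε0 * (P.R * 2 ^ (2 * P.ε0)))
    (lt_of_le_of_lt (Nat.mul_le_mul_left _ (Nat.le_add_right _ _)) hm)
  omega

/-- The fourth alternative passes to the quotient, or the pair becomes ready. -/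
theorem sD_four (I : Inv P v0 γ e S) (g h : G) (u : F.D.V) (hl : 2 * u.lev ≤ P.ε0)
    (hd : 4 * (d u (g • u) + d u (h • u) + P.ε0) ≤ P.ε3) (hg : ¬ S.Ell g) (hc : g * h ≠ h * g) :
    F.S'.Ready P (F.φ g) (F.φ h) ∨
      (¬ F.S'.Ell (F.φ g) ∧ F.φ g * F.φ h ≠ F.φ h * F.φ g) := by
  have hρ := P.hρ
  have h4 := P.hε4
  have hc' : F.φ g * F.φ h ≠ F.φ h * F.φ g := by
    intro he
    have hk : g * h * (h * g)⁻¹ ∈ F.K := by
      rw [← F.φ_eq_one, map_mul, map_inv, map_mul, map_mul, he, mul_inv_cancel]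
    have a1 := d_mul_le (g * h) (h * g)⁻¹ u
    rw [d_smul_inv] at a1
    have a2 := d_mul_le g h u
    have a3 := d_mul_le h g u
    exact hc (mul_inv_eq_one.1 (F.K_disp I hk (u := u) (by omega)))
  by_cases hell : F.S'.Ell (F.φ g)
  swap
  · exact Or.inr ⟨hell, hc'⟩
  left
  have hne : F.φ g ≠ 1 := fun h1 => hc' (by rw [h1, one_mul, mul_one])
  obtain ⟨s, hs, hfix⟩ := hell
  obtain ⟨p, s', hs', h1, h2, h3, h5⟩ := F.lift_ell I hs hfix u
  have hK : p ∉ F.K := fun hk => hne (by rw [← h1]; exact F.φ_eq_one.2 hk)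
  have b1 : d (F.q u) (F.φ g • F.q u) ≤ d u (g • u) := by rw [φ_smul]; exact d_qm_le _ _
  have b2 : d (F.q u) (F.φ h • F.q u) ≤ d u (h • u) := by rw [φ_smul]; exact d_qm_le _ _
  have b3 := F.cont I hK (p := s') (u := u) (by rw [h5, h2]) (by rw [h3, d_self]; omega)
    (by rw [h1]; omega)
  rw [h1] at b3
  have hk : p⁻¹ * g ∈ F.K := by rw [← F.φ_eq_one, map_mul, map_inv, h1, inv_mul_cancel]
  have a1 := d_mul_le p⁻¹ g u
  rw [d_smul_inv] at a1
  have hp : p = g := inv_mul_eq_one.1 (F.K_disp I hk (u := u) (by omega))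
  subst hp
  rcases hs' with ⟨s0, hs0, rfl⟩ | ⟨c, hcR, rfl⟩
  · exact absurd ⟨s0, hs0, CD.V.base.inj (D := F.D) h3⟩ hg
  · have hF : s ∈ F.S'.F := ⟨c, hcR, h2.symm⟩
    refine ⟨s, hF, hne, hfix, fun hh => hc' (F.E_comm' I s (Or.inr hF) _ _ hfix hh),
      F.q u, by omega, by omega⟩

theorem i3' (I : Inv P v0 γ e S) (a b : F.G') (x : F.X') (ha : d x (a ^ P.m • x) ≤ P.ε0)
    (hb : d x (b ^ P.m • x) ≤ P.ε0) :
    F.S'.Elem (a ^ P.m) (b ^ P.m) ∨
    Treated P (fun i => F.S'.π (γ i)) (evl (a ^ P.m) (b ^ P.m) P.W1)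
      (evl (a ^ P.m) (b ^ P.m) P.W2) ∨
    F.S'.Ready P (evl (a ^ P.m) (b ^ P.m) P.W1) (evl (a ^ P.m) (b ^ P.m) P.W2) ∨
    (¬ F.S'.Ell (evl (a ^ P.m) (b ^ P.m) P.W1) ∧
      evl (a ^ P.m) (b ^ P.m) P.W1 * evl (a ^ P.m) (b ^ P.m) P.W2 ≠
        evl (a ^ P.m) (b ^ P.m) P.W2 * evl (a ^ P.m) (b ^ P.m) P.W1) := by
  obtain ⟨u, rfl⟩ := qm_surj F.K x
  obtain ⟨⟨s, hs, hsa⟩, hA⟩ := F.sD_lift I a u ha
  obtain ⟨⟨t, ht, htb⟩, hB⟩ := F.sD_lift I b u hb
  by_cases ha1 : a ^ P.m = 1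
  · exact Or.inl ⟨t, ht, by rw [ha1, one_smul], MulAction.mem_stabilizer_iff.1
      (Subgroup.pow_mem _ (MulAction.mem_stabilizer_iff.2 htb) _)⟩
  by_cases hb1 : b ^ P.m = 1
  · exact Or.inl ⟨s, hs, MulAction.mem_stabilizer_iff.1
      (Subgroup.pow_mem _ (MulAction.mem_stabilizer_iff.2 hsa) _), by rw [hb1, one_smul]⟩
  obtain ⟨a0, rfl, hKa, hda⟩ := hA ha1
  obtain ⟨b0, rfl, hKb, hdb⟩ := hB hb1
  rw [← map_pow, ← map_pow, ← map_evl, ← map_evl]
  by_cases hl : 2 * u.lev ≤ P.ε0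
  swap
  · obtain ⟨c, hc, hca⟩ := CD.deep (a0 ^ P.m) u (by omega)
    obtain ⟨c', hc', hcb⟩ := CD.deep (b0 ^ P.m) u (by omega)
    obtain rfl : c = c' := Option.some.inj (hc.symm.trans hc')
    have hR : ¬ F.isR c := fun hR => hKa (F.mem_K_of_fix hR hca)
    exact Or.inl ⟨F.q (CD.V.apex c), F.mem_Sp'.2 ⟨_, Or.inr ⟨c, hR, rfl⟩, rfl⟩,
      by rw [φ_smul, CD.smul_apex, hca], by rw [φ_smul, CD.smul_apex, hcb]⟩
  have four : (¬ S.Ell (evl (a0 ^ P.m) (b0 ^ P.m) P.W1) ∧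
      evl (a0 ^ P.m) (b0 ^ P.m) P.W1 * evl (a0 ^ P.m) (b0 ^ P.m) P.W2 ≠
        evl (a0 ^ P.m) (b0 ^ P.m) P.W2 * evl (a0 ^ P.m) (b0 ^ P.m) P.W1) →
      F.S'.Ready P (F.φ (evl (a0 ^ P.m) (b0 ^ P.m) P.W1)) (F.φ (evl (a0 ^ P.m) (b0 ^ P.m) P.W2)) ∨
      (¬ F.S'.Ell (F.φ (evl (a0 ^ P.m) (b0 ^ P.m) P.W1)) ∧
        F.φ (evl (a0 ^ P.m) (b0 ^ P.m) P.W1) * F.φ (evl (a0 ^ P.m) (b0 ^ P.m) P.W2) ≠
        F.φ (evl (a0 ^ P.m) (b0 ^ P.m) P.W2) * F.φ (evl (a0 ^ P.m) (b0 ^ P.m) P.W1)) := by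
    rintro ⟨h1, h2⟩
    refine F.sD_four I _ _ u hl ?_ h1 h2
    have e1 := d_evl_le _ _ u _ hda hdb P.W1
    have e2 := d_evl_le _ _ u _ hda hdb P.W2
    have e3 := P.hε3
    rw [mul_assoc, Nat.add_mul, Nat.add_mul, one_mul] at e3
    omega
  by_cases hz : ∃ z : X, d z (a0 ^ P.m • z) ≤ P.ε0 ∧ d z (b0 ^ P.m • z) ≤ P.ε0
  · obtain ⟨z, h1, h2⟩ := hz
    rcases I.i3 a0 b0 z h1 h2 with h | h | h | h
    · exact Or.inl (F.elem' _ _ h)
    · exact Or.inr (Or.inl (h.map F.φ))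
    · exact Or.inr (Or.inl (F.ready' _ _ h))
    · exact Or.inr (Or.inr (four h))
  · obtain ⟨s0, -, hs0⟩ := F.sD_low I a0 u hl hda
    obtain ⟨t0, -, ht0⟩ := F.sD_low I b0 u hl hdb
    have hδ := P.one_le
    have h0 := P.hε0
    obtain ⟨A, B, H⟩ := pp_of_energy I.hyp (a := a0 ^ P.m) (b := b0 ^ P.m) (s := s0) (s' := t0)
      (MulAction.mem_stabilizer_iff.1 (Subgroup.pow_mem _ (MulAction.mem_stabilizer_iff.2 hs0) _))
      (MulAction.mem_stabilizer_iff.1 (Subgroup.pow_mem _ (MulAction.mem_stabilizer_iff.2 ht0) _))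
      (e := P.ε2) (fun z i hi h => I.i7 a0 i z hi (by omega))
      (fun z i hi h => I.i7 b0 i z hi (by omega))
      (fun z => by
        by_contra hcon
        exact hz ⟨z, by omega, by omega⟩)
    refine Or.inr (Or.inr (four ⟨?_, fun hcm => ?_⟩))
    · rintro ⟨z, -, hz'⟩
      exact pp_not_fix I.hyp H P.hW1 P.hAB z hz'
    · refine pp_inj I.hyp H (wd P.W1 * wd P.W2 * (wd P.W2 * wd P.W1)⁻¹)
        (fun h => P.hW (mul_inv_eq_one.1 h)) ?_
      rw [map_mul, map_inv, map_mul, map_mul, ev_wd, ev_wd, hcm, mul_inv_cancel]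

end Fam

end Pool.Agent.QIB
end

-- merged part: Pool.Agent.Work.MP_9628a2_al.LiftA
section
set_option autoImplicit false

namespace Pool.Agent.QIB

/-- Close modulo `N`. -/
def Cl (N B : ℕ) (a b : ℤ) : Prop := ∃ m : ℤ, (N : ℤ) ∣ m ∧ (b - a - m).natAbs ≤ B

open Classical in
/-- The prescribed jump between two positions, for the cut `z`. -/
noncomputable def Jp (N B : ℕ) (z a b : ℤ) : ℤ :=
  if h : Cl N B a b then b - a - Classical.choose h else (b - z) % N - (a - z) % N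

variable {N B : ℕ}

theorem dvd_small {m : ℤ} (h : (N : ℤ) ∣ m) (h' : m.natAbs < N) : m = 0 :=
  Int.eq_zero_of_dvd_of_natAbs_lt_natAbs h (by simpa using h')

theorem Cl.symm {a b : ℤ} (h : Cl N B a b) : Cl N B b a := by
  obtain ⟨m, h1, h2⟩ := h
  exact ⟨-m, dvd_neg.2 h1, by omega⟩

theorem Cl.mono {B' : ℕ} {a b : ℤ} (h : Cl N B a b) (hh : B ≤ B') : Cl N B' a b := by
  obtain ⟨m, h1, h2⟩ := h
  exact ⟨m, h1, by omega⟩

theorem Cl.trans {B' : ℕ} {a b c : ℤ} (h : Cl N B a b) (h' : Cl N B' b c) :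
    Cl N (B + B') a c := by
  obtain ⟨m, h1, h2⟩ := h
  obtain ⟨m', h1', h2'⟩ := h'
  exact ⟨m + m', dvd_add h1 h1', by omega⟩

theorem cl_of_abs {a b m : ℤ} (hm : (N : ℤ) ∣ m) (h : (b - a - m).natAbs ≤ B) : Cl N B a b :=
  ⟨m, hm, h⟩

theorem jp_mod (z a b : ℤ) : (N : ℤ) ∣ b - a - Jp N B z a b := by
  unfold Jp
  split_ifs with h
  · simpa using (Classical.choose_spec h).1
  · have h1 := Int.mul_ediv_add_emod (b - z) N
    have h2 := Int.mul_ediv_add_emod (a - z) N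
    exact ⟨(b - z) / N - (a - z) / N, by rw [mul_sub]; omega⟩

theorem jp_le {B' : ℕ} (hN : 2 * B < N) (hB : B' ≤ B) (z : ℤ) {a b : ℤ} (h : Cl N B' a b) :
    (Jp N B z a b).natAbs ≤ B' := by
  have h' := h.mono hB
  obtain ⟨m, h1, h2⟩ := h
  unfold Jp
  rw [dif_pos h']
  obtain ⟨h3, h4⟩ := Classical.choose_spec h'
  have := dvd_small (dvd_sub h1 h3) (by omega)
  omega

theorem jp_anti (hN : 2 * B < N) (z a b : ℤ) : Jp N B z a b = -Jp N B z b a := by
  by_cases h : Cl N B a b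
  · have h1 := jp_le hN le_rfl z h
    have h2 := jp_le hN le_rfl z h.symm
    have := dvd_small (dvd_neg.2 (dvd_add (jp_mod (N := N) (B := B) z a b)
      (jp_mod (N := N) (B := B) z b a))) (by omega)
    omega
  · have h' : ¬ Cl N B b a := fun h' => h h'.symm
    unfold Jp
    rw [dif_neg h, dif_neg h']; ring

theorem jp_val (hN : 2 * B < N) {z a : ℤ} (ha : ¬ Cl N B z a) (b : ℤ) :
    Jp N B z a b = (b - z) % N - (a - z) % N := by
  by_cases h : Cl N B a b
  swap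
  · unfold Jp; rw [dif_neg h]
  have h1 := jp_le hN le_rfl z h
  have h2 := jp_mod (N := N) (B := B) z a b
  have e1 := Int.mul_ediv_add_emod (b - z) N
  have e2 := Int.mul_ediv_add_emod (a - z) N
  have b1 : 0 ≤ (b - z) % N := Int.emod_nonneg _ (by omega)
  have b2 : (b - z) % N < N := Int.emod_lt_of_pos _ (by omega)
  have a1 : 0 ≤ (a - z) % N := Int.emod_nonneg _ (by omega)
  have a2 : (a - z) % N < N := Int.emod_lt_of_pos _ (by omega)
  have d1 : (N : ℤ) ∣ N * ((b - z) / N) := dvd_mul_right _ _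
  have d2 : (N : ℤ) ∣ N * ((a - z) / N) := dvd_mul_right _ _
  have c1 : ¬ (a - z - N * ((a - z) / N)).natAbs ≤ B := fun h => ha ⟨_, d2, h⟩
  have c2 : ¬ (a - z - (N * ((a - z) / N) + N)).natAbs ≤ B :=
    fun h => ha ⟨_, dvd_add d2 dvd_rfl, h⟩
  have := dvd_small (dvd_sub h2 (dvd_sub d1 d2)) (by omega)
  omega

theorem exists_cut (vs : List ℤ) (h : vs.length * (2 * B + 1) < N) :
    ∃ z : ℤ, ∀ v ∈ vs, ¬ Cl N B z v := by
  classical
  let bad : Finset ℤ := (vs.toFinset ×ˢ Finset.Icc (-(B : ℤ)) B).image fun p => (p.1 - p.2) % N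
  have hc : bad.card < (Finset.Ico (0 : ℤ) N).card := by
    have h1 : bad.card ≤ _ := Finset.card_image_le
    rw [Finset.card_product, Int.card_Icc] at h1
    have h2 := List.toFinset_card_le vs
    rw [Int.card_Ico]
    have h3 : ((B : ℤ) + 1 - -B).toNat = 2 * B + 1 := by omega
    rw [h3] at h1
    have := Nat.mul_le_mul_right (2 * B + 1) h2
    omega
  obtain ⟨z, hz, hz'⟩ := Finset.exists_mem_notMem_of_card_lt_card hc
  refine ⟨z, fun v hv ⟨m, h1, h2⟩ => hz' ?_⟩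
  rw [Finset.mem_Ico] at hz
  refine Finset.mem_image.2 ⟨(v, v - z - m), Finset.mem_product.2 ⟨List.mem_toFinset.2 hv,
    Finset.mem_Icc.2 ⟨by omega, by omega⟩⟩, ?_⟩
  obtain ⟨t, rfl⟩ := h1
  simp only
  rw [show v - (v - z - N * t) = z + N * t by ring, Int.add_mul_emod_self_left]
  exact Int.emod_eq_of_lt hz.1 hz.2

/-- The closing count. -/
theorem close_count {U : ℕ} (hN : 100 * U < N) (z : ℤ) {a0 a1 a2 a3 p0 p1 p2 m : ℤ}
    {S1 S2 S3 : Prop}
    (n1 : ¬ S1 → (a1 - a0).natAbs ≤ 2 * U) (n2 : ¬ S2 → (a2 - a1).natAbs ≤ 2 * U)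
    (n3 : ¬ S3 → (a3 - a2).natAbs ≤ 2 * U)
    (s1 : S1 → (a1 - a0 - Jp N (10 * U) z p0 p1).natAbs ≤ 2 * U ∧ Cl N U a0 p0 ∧ Cl N U a1 p1)
    (s2 : S2 → (a2 - a1 - Jp N (10 * U) z p1 p2).natAbs ≤ 2 * U ∧ Cl N U a1 p1 ∧ Cl N U a2 p2)
    (s3 : S3 → (a3 - a2 - Jp N (10 * U) z p2 p0).natAbs ≤ 2 * U ∧ Cl N U a2 p2 ∧ Cl N U a3 p0)
    (t1 : S1 → S2 → Cl N (8 * U) p0 p2 →
      (Jp N (10 * U) z p0 p1 + Jp N (10 * U) z p1 p2).natAbs ≤ 20 * U)
    (t2 : S2 → S3 → Cl N (8 * U) p1 p0 →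
      (Jp N (10 * U) z p1 p2 + Jp N (10 * U) z p2 p0).natAbs ≤ 20 * U)
    (t3 : S3 → S1 → Cl N (8 * U) p2 p1 →
      (Jp N (10 * U) z p2 p0 + Jp N (10 * U) z p0 p1).natAbs ≤ 20 * U)
    (t4 : S1 → S2 → S3 →
      (Jp N (10 * U) z p0 p1 + Jp N (10 * U) z p1 p2 + Jp N (10 * U) z p2 p0).natAbs ≤ 20 * U)
    (hm : (N : ℤ) ∣ m) (h : (a3 - a0 - m).natAbs ≤ 4 * U) : m = 0 := by
  refine dvd_small hm ?_
  have z0 : (N : ℤ) ∣ 0 := dvd_zero _
  have hm' := dvd_neg.2 hm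
  by_cases h1 : S1 <;> by_cases h2 : S2 <;> by_cases h3 : S3
  · have := t4 h1 h2 h3
    have := (s1 h1).1; have := (s2 h2).1; have := (s3 h3).1
    omega
  · obtain ⟨e1, e2, -⟩ := s1 h1
    obtain ⟨e3, -, e4⟩ := s2 h2
    have := n3 h3
    have := t1 h1 h2 (((e2.symm.trans (cl_of_abs (B := 6 * U) hm (by omega))).trans e4).mono
      (by omega))
    omega
  · obtain ⟨e1, -, e2⟩ := s1 h1
    obtain ⟨e3, e4, -⟩ := s3 h3
    have := n2 h2
    have := t3 h3 h1 (((e4.symm.trans (cl_of_abs (B := 2 * U) z0 (by omega))).trans e2).mono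
      (by omega))
    omega
  · obtain ⟨e1, e2, e3⟩ := s1 h1
    have := n2 h2; have := n3 h3
    have := jp_le (B := 10 * U) (by omega) le_rfl z
      (((e2.symm.trans (cl_of_abs (B := 8 * U) hm (by omega))).trans e3).mono (by omega))
    omega
  · obtain ⟨e1, e2, -⟩ := s2 h2
    obtain ⟨e3, -, e4⟩ := s3 h3
    have := n1 h1
    have := t2 h2 h3 (((e2.symm.trans (cl_of_abs (B := 6 * U) hm (by omega))).trans e4).mono
      (by omega))
    omega
  · obtain ⟨e1, e2, e3⟩ := s2 h2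
    have := n1 h1; have := n3 h3
    have := jp_le (B := 10 * U) (by omega) le_rfl z
      (((e2.symm.trans (cl_of_abs (B := 8 * U) hm (by omega))).trans e3).mono (by omega))
    omega
  · obtain ⟨e1, e2, e3⟩ := s3 h3
    have := n1 h1; have := n2 h2
    have := jp_le (B := 10 * U) (by omega) le_rfl z
      (((e2.symm.trans (cl_of_abs (B := 8 * U) hm (by omega))).trans e3).mono (by omega))
    omega
  · have := n1 h1; have := n2 h2; have := n3 h3
    omega

section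
variable {Y : Type} [GSp Y]

theorem fs_of_two_sep {a b c c1 c2 : Y} (h1 : Sep c1 a b) (h2 : Sep c1 a c) (h3 : Sep c2 a b)
    (h4 : Sep c2 a c) (hd : d a c1 < d a c2) {u : Y} (hu : FS c1 b u) : FS c1 c u := by
  have b1 := h1.btw; have b2 := h2.btw; have b3 := h3.btw; have b4 := h4.btw
  have b5 : Btw a c1 c2 := by
    rcases h1 c2 b3 with h | h
    · exact h
    · have := (b3.trans_right h).2
      unfold Btw at this; omega
  have b6 := (b5.trans_left b4).2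
  obtain ⟨b7, b8⟩ := b1.trans_right hu.2
  have := hu.1
  rcases h3 u b7 with h | h
  · have : c2 = u := by
      unfold Btw at h b8
      exact eq_of_d _ _ (by omega)
    subst this
    exact ⟨hu.1, b6⟩
  · exact ⟨hu.1, ((hu.2.trans_right h).2.trans_left b6).1⟩

theorem risky_unique {a b c c1 c2 : Y} (h1 : Sep c1 a b) (h2 : Sep c1 a c) (h3 : Sep c2 a b)
    (h4 : Sep c2 a c) (n1 : ¬ ∀ u, FS c1 b u ↔ FS c1 c u) (n2 : ¬ ∀ u, FS c2 b u ↔ FS c2 c u) :
    c1 = c2 := by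
  rcases lt_trichotomy (d a c1) (d a c2) with h | h | h
  · exact absurd (fun u => ⟨fs_of_two_sep h1 h2 h3 h4 h, fs_of_two_sep h2 h1 h4 h3 h⟩) n1
  · exact h3.eq_of_d h1.btw h
  · exact absurd (fun u => ⟨fs_of_two_sep h3 h4 h1 h2 h, fs_of_two_sep h4 h3 h2 h1 h⟩) n2

theorem fs_ne_of_btw {b c w : Y} (h : Btw b w c) (hb : b ≠ w) : ¬ ∀ u, FS w b u ↔ FS w c u := by
  intro hh
  obtain ⟨u, hu⟩ := exists_fs hb
  have hu' := (hh u).1 hu
  have := hu.1; have := hu.2; have := hu'.2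
  have := d_tri b u c; have := d_comm b u; have := d_comm b w
  unfold Btw at *
  omega

theorem sep_transfer {p w w' c c' : Y} (h : Sep c p w) (hb : Btw p c w') (h' : Sep c' p w')
    (hd : d p c' < d p c) : Sep c' p w ∧ Btw p c' c := by
  have b1 := h.btw
  have b2 : Btw p c' c := by
    rcases h' c hb with h1 | h1
    · exact h1
    · have := (hb.trans_right h1).2
      unfold Btw at this; omega
  refine ⟨fun z hz => ?_, b2⟩
  rcases h.cases hz with h1 | h1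
  · rcases h' z (h1.trans_left hb).1 with h2 | h2
    · exact Or.inl h2
    · right
      have := (h1.trans_left hb).2
      have := (b2.trans_left hb).2
      have := (h1.trans_left b1).2
      have := (b2.trans_left b1).2
      unfold Btw at *
      omega
  · exact Or.inl (b2.trans_left (b1.trans_right h1).2).1

end

end Pool.Agent.QIB
end

-- merged part: Pool.Agent.Work.MP_9628a2_al.Lift
section
set_option autoImplicit false

namespace Pool.Agent.QIB

variable {X : Type} [GSp X]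

/-- Positions of the neighbours of the apices. -/
structure PosD (G : Type) [Group G] [MulAction G X] (A : Set X) (pos : X → X → ℤ) (N Λ : ℕ) :
    Prop where
  equi : ∀ (g : G), ∀ c ∈ A, ∃ t : ℤ, ∀ u, d c u = 1 → pos (g • c) (g • u) = pos c u + N * t
  faith : ∀ c ∈ A, ∀ κ : G, κ • c = c → ∀ u, d c u = 1 → pos c (κ • u) = pos c u → κ = 1
  full : ∀ c ∈ A, ∀ t : ℤ, ∃ κ : G, κ • c = c ∧ ∀ u, d c u = 1 → pos c (κ • u) = pos c u + N * t
  lip : ∀ c ∈ A, ∀ (u w : X) (t : ℕ), d c u = 1 → d c w = 1 → Reach c t u w →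
    (pos c u - pos c w).natAbs ≤ t * Λ

variable {G : Type} [Group G] [MulAction G X] [Iso G X] {A : Set X} {δ sp : ℕ}

namespace Lf

variable (G)

/-- Positions of first steps in the quotient. -/
def Val (A : Set X) (pos : X → X → ℤ) (cb yb : QX (rotK G A) X) : Set ℤ :=
  {n | ∃ c ∈ A, ∃ u, qm (rotK G A) c = cb ∧ d c u = 1 ∧ FS cb yb (qm (rotK G A) u) ∧ pos c u = n}

/-- The chosen position. -/
noncomputable def Pi (A : Set X) (pos : X → X → ℤ) (cb yb : QX (rotK G A) X) : ℤ :=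
  Classical.epsilon fun n => n ∈ Val G A pos cb yb

/-- The jump of a geodesic at an apex is the prescribed one. -/
def Good (A : Set X) (pos : X → X → ℤ) (N U : ℕ) (z : ℤ) (c p w : X) : Prop :=
  ∀ u v, FS c p u → FS c w v → (pos c v - pos c u - Jp N (10 * U) z
    (Pi G A pos (qm _ c) (qm _ p)) (Pi G A pos (qm _ c) (qm _ w))).natAbs ≤ 2 * U

/-- Risky apices of a triangle at a vertex. -/
def Risky (A : Set X) (ya yb yc cb : QX (rotK G A) X) : Prop :=
  Sep cb ya yb ∧ Sep cb ya yc ∧ ¬ ∀ u, FS cb yb u ↔ FS cb yc u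

variable {G} {pos : X → X → ℤ} {N Λ : ℕ}

theorem val_smul [(rotK G A).Normal] (H : Spin G A δ sp) (hP : PosD G A pos N Λ)
    (g : G ⧸ rotK G A) {cb yb : QX (rotK G A) X} {n : ℤ} (h : n ∈ Val G A pos cb yb) :
    n ∈ Val G A pos (g • cb) (g • yb) := by
  obtain ⟨a, rfl⟩ := QuotientGroup.mk_surjective g
  obtain ⟨c, hc, u, rfl, h1, h2, rfl⟩ := h
  obtain ⟨t, ht⟩ := hP.equi a c hc
  obtain ⟨κ, hκ, hκ'⟩ := hP.full _ (H.inv a c hc) (-t)
  have e : d (a • c) (a • u) = 1 := by rw [d_smul, h1]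
  refine ⟨a • c, H.inv a c hc, κ • a • u, rfl, ?_, ?_, ?_⟩
  · conv_lhs => rw [← hκ, d_smul, e]
  · rw [qm_smul_mem (mem_rotK (H.inv a c hc) hκ), ← mk_smul, fs_smul]; exact h2
  · rw [hκ' _ e, ht u h1]; ring

theorem pi_smul [(rotK G A).Normal] (H : Spin G A δ sp) (hP : PosD G A pos N Λ)
    (g : G ⧸ rotK G A) (cb yb : QX (rotK G A) X) :
    Pi G A pos (g • cb) (g • yb) = Pi G A pos cb yb := by
  unfold Pi
  congr 1
  funext n
  exact propext ⟨fun h => by simpa using val_smul H hP g⁻¹ h, val_smul H hP g⟩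

theorem pi_mem {c : X} (hc : c ∈ A) {yb : QX (rotK G A) X} (hy : yb ≠ qm _ c) :
    Pi G A pos (qm _ c) yb ∈ Val G A pos (qm _ c) yb := by
  obtain ⟨ub, hu⟩ := exists_fs hy
  obtain ⟨u, rfl, h⟩ := exists_lift c ub
  exact Classical.epsilon_spec (p := fun n => n ∈ Val G A pos (qm _ c) yb)
    ⟨_, c, hc, u, rfl, h.trans hu.1, hu, rfl⟩

theorem val_close (H : Spin G A δ sp) (hP : PosD G A pos N Λ) {cb yb yb' : QX (rotK G A) X}
    {n n' : ℤ} (h : n ∈ Val G A pos cb yb) (h' : n' ∈ Val G A pos cb yb') {t : ℕ}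
    (ha : Ang cb t yb yb') (ht : t + 2 < sp) : Cl N (t * Λ) n n' := by
  obtain ⟨c, hc, u, rfl, h1, h2, rfl⟩ := h
  obtain ⟨c', hc', u', e, h1', h2', rfl⟩ := h'
  obtain ⟨w, hw, hr⟩ := reach_lift (ha _ _ h2 h2')
  obtain ⟨k, hk, rfl⟩ := qm_eq.1 hw
  have e1 : d (k • c') (k • u') = 1 := by rw [d_smul, h1']
  have e2 : c = k • c' := by
    by_contra hne
    have := H.sep c hc _ (H.inv k c' hc') hne
    have := hr.d_le
    have := d_tri c u (k • c'); have := d_tri u (k • u') (k • c')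
    have := d_comm (k • u') (k • c')
    omega
  obtain ⟨s, hs⟩ := hP.equi k c' hc'
  have e3 := hs u' h1'
  rw [← e2] at e1 e3
  have := hP.lip c hc u _ t h1 e1 hr
  exact ⟨-(N * s), dvd_neg.2 (dvd_mul_right _ _), by omega⟩

theorem mem_val {c p u : X} (hc : c ∈ A) (hu : FS c p u)
    (hd : d c p = d (qm (rotK G A) c) (qm (rotK G A) p)) :
    pos c u ∈ Val G A pos (qm _ c) (qm _ p) := by
  obtain ⟨h1, h2, -⟩ := btw_qm hu.2 hd
  exact ⟨c, hc, u, rfl, hu.1, ⟨h2 ▸ hu.1, h1⟩, rfl⟩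

theorem cl_pi (H : Spin G A δ sp) (hq : Hyp (QX (rotK G A) X) δ) (hP : PosD G A pos N Λ)
    {c p u : X} (hc : c ∈ A) (hu : FS c p u)
    (hd : d c p = d (qm (rotK G A) c) (qm (rotK G A) p)) :
    Cl N (20 * δ * Λ) (pos c u) (Pi G A pos (qm _ c) (qm _ p)) := by
  have h := mem_val (pos := pos) hc hu hd
  have hne : qm (rotK G A) p ≠ qm _ c := by
    obtain ⟨_, _, _, _, _, h2, _⟩ := h
    exact h2.ne'
  have := H.hsp; have := H.hδ
  exact val_close H hP h (pi_mem hc hne) (ang_self hq H.hδ _ _) (by omega)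

omit [Iso G X] in
theorem pos_ang (hP : PosD G A pos N Λ) {c p w u v : X} (hc : c ∈ A) {t : ℕ} (h : Ang c t p w)
    (hu : FS c p u) (hv : FS c w v) : (pos c v - pos c u).natAbs ≤ t * Λ := by
  have := hP.lip c hc u v t hu.1 hv.1 (h u v hu hv)
  omega

theorem side_d {p c w : X} (hb : Btw p c w)
    (hd : d p w = d (qm (rotK G A) p) (qm (rotK G A) w)) :
    d c p = d (qm (rotK G A) c) (qm (rotK G A) p) ∧ d c w = d (qm (rotK G A) c) (qm (rotK G A) w) := by
  obtain ⟨-, h1, h2⟩ := btw_qm hb hd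
  exact ⟨by rw [d_comm, h1, d_comm], h2⟩

theorem good_of_one (H : Spin G A δ sp) (hq : Hyp (QX (rotK G A) X) δ) (hP : PosD G A pos N Λ)
    (hN : 100 * (20 * δ * Λ) < N) {z : ℤ} {c p w u v : X} (hc : c ∈ A) (hb : Btw p c w)
    (hd : d p w = d (qm (rotK G A) p) (qm (rotK G A) w)) (hu : FS c p u) (hv : FS c w v)
    (h : 2 * (pos c v - pos c u - Jp N (10 * (20 * δ * Λ)) z
      (Pi G A pos (qm _ c) (qm _ p)) (Pi G A pos (qm _ c) (qm _ w))).natAbs ≤ N) :
    Good G A pos N (20 * δ * Λ) z c p w := by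
  intro u' v' hu' hv'
  obtain ⟨d1, d2⟩ := side_d hb hd
  obtain ⟨m1, a1, a2⟩ := cl_pi H hq hP hc hu' d1
  obtain ⟨m2, b1, b2⟩ := cl_pi H hq hP hc hv' d2
  have c1 := pos_ang hP hc (ang_self H.hyp H.hδ c p) hu hu'
  have c2 := pos_ang hP hc (ang_self H.hyp H.hδ c w) hv hv'
  have j := jp_mod (N := N) (B := 10 * (20 * δ * Λ)) z (Pi G A pos (qm _ c) (qm _ p))
    (Pi G A pos (qm _ c) (qm _ w))
  have := dvd_small (dvd_add (dvd_sub a1 b1) j) (by omega)
  omega

theorem lift_good (H : Spin G A δ sp) (hq : Hyp (QX (rotK G A) X) δ) (hP : PosD G A pos N Λ)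
    (hN : 100 * (20 * δ * Λ) < N) (z : ℤ) {p : X} (hp : p ∉ A) {w0 : X} (h0 : w0 ∉ A) :
    ∃ k ∈ rotK G A, d p (k • w0) = d (qm (rotK G A) p) (qm (rotK G A) w0) ∧
      ∀ c ∈ A, Sep c p (k • w0) → Good G A pos N (20 * δ * Λ) z c p (k • w0) := by
  have key : ∀ t : ℕ, ∃ k ∈ rotK G A, d p (k • w0) = d (qm (rotK G A) p) (qm (rotK G A) w0) ∧
      ∀ c ∈ A, Sep c p (k • w0) → d p c < t → Good G A pos N (20 * δ * Λ) z c p (k • w0) := by
    intro t
    induction t with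
    | zero =>
      obtain ⟨k, hk, h⟩ := exists_lift_k (K := rotK G A) p w0
      exact ⟨k, hk, h, fun c _ _ h => absurd h (by omega)⟩
    | succ t ih =>
      obtain ⟨k, hk, h1, h2⟩ := ih
      by_cases hex : ∃ c ∈ A, Sep c p (k • w0) ∧ d p c = t
      swap
      · refine ⟨k, hk, h1, fun c hc hs hd => h2 c hc hs ?_⟩
        have : d p c ≠ t := fun e => hex ⟨c, hc, hs, e⟩
        omega
      obtain ⟨c, hc, hs, hd⟩ := hex
      have hw : k • w0 ∉ A := fun h => h0 (by simpa using H.inv k⁻¹ _ h)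
      obtain ⟨u, hu⟩ := exists_fs (show p ≠ c from fun e => hp (e ▸ hc))
      obtain ⟨v, hv⟩ := exists_fs (show k • w0 ≠ c from fun e => hw (e ▸ hc))
      obtain ⟨s, hs'⟩ : ∃ s : ℤ, 2 * (pos c v + N * s - pos c u - Jp N (10 * (20 * δ * Λ)) z
          (Pi G A pos (qm _ c) (qm _ p)) (Pi G A pos (qm _ c) (qm _ w0))).natAbs ≤ N := by
        generalize Jp N (10 * (20 * δ * Λ)) z (Pi G A pos (qm _ c) (qm _ p))
          (Pi G A pos (qm _ c) (qm _ w0)) = J
        have e1 := Int.mul_ediv_add_emod (pos c v - pos c u - J) N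
        have b1 : 0 ≤ (pos c v - pos c u - J) % N := Int.emod_nonneg _ (by omega)
        have b2 : (pos c v - pos c u - J) % N < N := Int.emod_lt_of_pos _ (by omega)
        by_cases hh : 2 * ((pos c v - pos c u - J) % N) ≤ N
        · exact ⟨-((pos c v - pos c u - J) / N), by rw [mul_neg]; omega⟩
        · exact ⟨-((pos c v - pos c u - J) / N) - 1, by rw [mul_sub, mul_neg]; omega⟩
      obtain ⟨κ, hκ, hκ'⟩ := hP.full c hc s
      have hκK : κ * k ∈ rotK G A := Subgroup.mul_mem _ (mem_rotK hc hκ) hk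
      have e0 : qm (rotK G A) ((κ * k) • w0) = qm _ w0 := qm_smul_mem hκK w0
      have e0' : qm (rotK G A) (k • w0) = qm _ w0 := qm_smul_mem hk w0
      have e1 : d c ((κ * k) • w0) = d c (k • w0) := by
        conv_lhs => rw [mul_smul, ← hκ, d_smul]
      have e2 := d_qm_le (K := rotK G A) p ((κ * k) • w0)
      rw [e0] at e2
      have e3 := d_tri p c ((κ * k) • w0)
      have e4 := hs.btw
      have hb : Btw p c ((κ * k) • w0) := by unfold Btw at *; omega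
      have hd' : d p ((κ * k) • w0) = d (qm (rotK G A) p) (qm (rotK G A) w0) := by
        unfold Btw at *; omega
      refine ⟨κ * k, hκK, hd', fun c' hc' hs2 hd2 => ?_⟩
      by_cases hlt : d p c' < t
      · obtain ⟨a1, a2⟩ := sep_transfer hs hb hs2 (by omega)
        obtain ⟨u', hu'⟩ := exists_fs (show p ≠ c' from fun e => hp (e ▸ hc'))
        obtain ⟨v', hv'⟩ := exists_fs (show c ≠ c' from fun e => by subst e; omega)
        refine good_of_one H hq hP hN hc' hs2.btw (by rw [e0]; exact hd') hu'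
          (hv'.of_btw (a2.trans_left hb).2) ?_
        have := h2 c' hc' a1 hlt u' v' hu' (hv'.of_btw (a2.trans_left e4).2)
        rw [e0'] at this
        rw [e0]; omega
      · obtain rfl : c = c' := hs2.eq_of_d hb (by omega)
        refine good_of_one H hq hP hN hc hb (by rw [e0]; exact hd') hu (v := κ • v) ?_ ?_
        · have := (fs_smul κ c _ v).2 hv
          rwa [hκ, ← mul_smul] at this
        · rw [hκ' v hv.1, e0]; exact hs'
  obtain ⟨k, hk, h1, h2⟩ := key (d (qm (rotK G A) p) (qm (rotK G A) w0) + 1)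
  refine ⟨k, hk, h1, fun c hc hs => h2 c hc hs ?_⟩
  have := hs.btw
  unfold Btw at this
  omega

theorem Good.smul [(rotK G A).Normal] (H : Spin G A δ sp) (hP : PosD G A pos N Λ) {U : ℕ} {z : ℤ}
    {c p w : X} (g : G) (hc : g⁻¹ • c ∈ A) (h : Good G A pos N U z (g⁻¹ • c) p w) :
    Good G A pos N U z c (g • p) (g • w) := by
  obtain ⟨c, rfl⟩ : ∃ c', c = g • c' := ⟨g⁻¹ • c, by simp⟩
  rw [inv_smul_smul] at hc h
  intro u v hu hv
  obtain ⟨u, rfl⟩ : ∃ c', u = g • c' := ⟨g⁻¹ • u, by simp⟩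
  obtain ⟨v, rfl⟩ : ∃ c', v = g • c' := ⟨g⁻¹ • v, by simp⟩
  rw [fs_smul] at hu hv
  obtain ⟨t, ht⟩ := hP.equi g c hc
  rw [ht u hu.1, ht v hv.1, ← mk_smul, ← mk_smul, ← mk_smul, pi_smul H hP, pi_smul H hP]
  have := h u v hu hv
  omega

theorem Good.symm {U : ℕ} (hN : 100 * U < N) {z : ℤ} {c p w : X} (h : Good G A pos N U z c p w) :
    Good G A pos N U z c w p := by
  intro u v hu hv
  have := h v u hv hu
  rw [jp_anti (by omega)]
  omega

variable (G) in
/-- The cut avoids the positions at the risky apices of a triangle. -/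
def TriOK (A : Set X) (pos : X → X → ℤ) (N U : ℕ) (z : ℤ) (y0 y1 y2 : QX (rotK G A) X) : Prop :=
  ∀ cb, (Risky G A y0 y1 y2 cb ∨ Risky G A y1 y2 y0 cb ∨ Risky G A y2 y0 y1 cb) →
    ¬ Cl N (10 * U) z (Pi G A pos cb y0) ∧ ¬ Cl N (10 * U) z (Pi G A pos cb y1) ∧
      ¬ Cl N (10 * U) z (Pi G A pos cb y2)

theorem TriOK.rot {U : ℕ} {z : ℤ} {y0 y1 y2 : QX (rotK G A) X}
    (h : TriOK G A pos N U z y0 y1 y2) : TriOK G A pos N U z y1 y2 y0 := fun cb hc => by
  have := h cb (by tauto)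
  tauto

theorem exists_vals (y0 y1 y2 : QX (rotK G A) X) : ∃ vs : List ℤ, vs.length = 9 ∧
    ∀ (N U : ℕ) (z : ℤ), (∀ v ∈ vs, ¬ Cl N (10 * U) z v) → TriOK G A pos N U z y0 y1 y2 := by
  have key : ∀ a b c : QX (rotK G A) X, ∃ r, ∀ cb, Risky G A a b c cb → cb = r := by
    intro a b c
    by_cases h : ∃ r, Risky G A a b c r
    · obtain ⟨r, hr⟩ := h
      exact ⟨r, fun cb hc => risky_unique hc.1 hc.2.1 hr.1 hr.2.1 hc.2.2 hr.2.2⟩
    · exact ⟨a, fun cb hc => absurd ⟨cb, hc⟩ h⟩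
  obtain ⟨r0, h0⟩ := key y0 y1 y2
  obtain ⟨r1, h1⟩ := key y1 y2 y0
  obtain ⟨r2, h2⟩ := key y2 y0 y1
  refine ⟨[Pi G A pos r0 y0, Pi G A pos r0 y1, Pi G A pos r0 y2, Pi G A pos r1 y0, Pi G A pos r1 y1,
    Pi G A pos r1 y2, Pi G A pos r2 y0, Pi G A pos r2 y1, Pi G A pos r2 y2], rfl, ?_⟩
  intro N U z hz cb hc
  rcases hc with hc | hc | hc
  · rw [h0 cb hc]; exact ⟨hz _ (by simp), hz _ (by simp), hz _ (by simp)⟩
  · rw [h1 cb hc]; exact ⟨hz _ (by simp), hz _ (by simp), hz _ (by simp)⟩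
  · rw [h2 cb hc]; exact ⟨hz _ (by simp), hz _ (by simp), hz _ (by simp)⟩

theorem cl_not_sep (H : Spin G A δ sp) (hq : Hyp (QX (rotK G A) X) δ) (hP : PosD G A pos N Λ)
    {c : X} (hc : c ∈ A) {y y' : QX (rotK G A) X} (hy : y ≠ qm _ c) (hy' : y' ≠ qm _ c)
    (h : ¬ Sep (qm _ c) y y') :
    Cl N (2 * (20 * δ * Λ)) (Pi G A pos (qm _ c) y) (Pi G A pos (qm _ c) y') := by
  have := H.hsp; have := H.hδ
  exact (val_close H hP (pi_mem hc hy) (pi_mem hc hy') (ang_of_not_sep hq H.hδ h)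
    (by omega)).mono (le_of_eq (by ring))

theorem j_two (H : Spin G A δ sp) (hq : Hyp (QX (rotK G A) X) δ) (hP : PosD G A pos N Λ)
    (hN : 100 * (20 * δ * Λ) < N) {z : ℤ} {c : X} (hc : c ∈ A) {y0 y1 y2 : QX (rotK G A) X}
    (hT : TriOK G A pos N (20 * δ * Λ) z y0 y1 y2) (h0 : y0 ≠ qm _ c) (h1 : y1 ≠ qm _ c)
    (h2 : y2 ≠ qm _ c)
    (h : Cl N (8 * (20 * δ * Λ)) (Pi G A pos (qm _ c) y0) (Pi G A pos (qm _ c) y2)) :
    (Jp N (10 * (20 * δ * Λ)) z (Pi G A pos (qm _ c) y0) (Pi G A pos (qm _ c) y1) +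
      Jp N (10 * (20 * δ * Λ)) z (Pi G A pos (qm _ c) y1) (Pi G A pos (qm _ c) y2)).natAbs ≤
      20 * (20 * δ * Λ) := by
  have hN' : 2 * (10 * (20 * δ * Λ)) < N := by omega
  by_cases s1 : Sep (qm _ c) y1 y0
  swap
  · have a := cl_not_sep H hq hP hc h1 h0 s1
    have := jp_le hN' (by omega) z a.symm
    have := jp_le hN' (by omega) z (a.trans h)
    omega
  by_cases s2 : Sep (qm _ c) y1 y2
  swap
  · have a := cl_not_sep H hq hP hc h1 h2 s2
    have := jp_le hN' (by omega) z a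
    have := jp_le hN' (by omega) z (h.trans a.symm)
    omega
  by_cases hf : ∀ u, FS (qm (rotK G A) c) y2 u ↔ FS (qm _ c) y0 u
  · have : Pi G A pos (qm _ c) y2 = Pi G A pos (qm _ c) y0 := by
      unfold Pi Val
      simp only [hf]
    rw [this, jp_anti hN']
    omega
  · obtain ⟨a0, a1, -⟩ := hT _ (Or.inr (Or.inl ⟨s2, s1, hf⟩))
    have := jp_le hN' (by omega) z h
    rw [jp_val hN' a0] at this
    rw [jp_val hN' a0, jp_val hN' a1]
    omega

theorem j_three (H : Spin G A δ sp) (hq : Hyp (QX (rotK G A) X) δ) (hP : PosD G A pos N Λ)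
    (hN : 100 * (20 * δ * Λ) < N) {z : ℤ} {c : X} (hc : c ∈ A) {y0 y1 y2 : QX (rotK G A) X}
    (hT : TriOK G A pos N (20 * δ * Λ) z y0 y1 y2) (h0 : y0 ≠ qm _ c) (h1 : y1 ≠ qm _ c)
    (h2 : y2 ≠ qm _ c) (b1 : Btw y0 (qm _ c) y1) (b2 : Btw y1 (qm _ c) y2)
    (b3 : Btw y2 (qm _ c) y0) :
    (Jp N (10 * (20 * δ * Λ)) z (Pi G A pos (qm _ c) y0) (Pi G A pos (qm _ c) y1) +
      Jp N (10 * (20 * δ * Λ)) z (Pi G A pos (qm _ c) y1) (Pi G A pos (qm _ c) y2) +
      Jp N (10 * (20 * δ * Λ)) z (Pi G A pos (qm _ c) y2) (Pi G A pos (qm _ c) y0)).natAbs ≤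
      20 * (20 * δ * Λ) := by
  have hN' : 2 * (10 * (20 * δ * Λ)) < N := by omega
  by_cases hr : Risky G A y0 y1 y2 (qm _ c) ∨ Risky G A y1 y2 y0 (qm _ c) ∨
      Risky G A y2 y0 y1 (qm _ c)
  · obtain ⟨a0, a1, a2⟩ := hT _ hr
    rw [jp_val hN' a0, jp_val hN' a1, jp_val hN' a2]
    omega
  have fin : ∀ {B1 B2 B3 : ℕ}, B1 ≤ 4 * (20 * δ * Λ) → B2 ≤ 4 * (20 * δ * Λ) →
      B3 ≤ 4 * (20 * δ * Λ) → Cl N B1 (Pi G A pos (qm _ c) y0) (Pi G A pos (qm _ c) y1) →
      Cl N B2 (Pi G A pos (qm _ c) y1) (Pi G A pos (qm _ c) y2) →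
      Cl N B3 (Pi G A pos (qm _ c) y2) (Pi G A pos (qm _ c) y0) →
      (Jp N (10 * (20 * δ * Λ)) z (Pi G A pos (qm _ c) y0) (Pi G A pos (qm _ c) y1) +
      Jp N (10 * (20 * δ * Λ)) z (Pi G A pos (qm _ c) y1) (Pi G A pos (qm _ c) y2) +
      Jp N (10 * (20 * δ * Λ)) z (Pi G A pos (qm _ c) y2) (Pi G A pos (qm _ c) y0)).natAbs ≤
      20 * (20 * δ * Λ) := by
    intro B1 B2 B3 e1 e2 e3 c1 c2 c3
    have := jp_le hN' (by omega) z c1
    have := jp_le hN' (by omega) z c2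
    have := jp_le hN' (by omega) z c3
    omega
  have r0 : ¬ (Sep (qm _ c) y0 y1 ∧ Sep (qm _ c) y2 y0) := fun h =>
    hr (Or.inl ⟨h.1, h.2.symm, fs_ne_of_btw b2 h1⟩)
  have r1 : ¬ (Sep (qm _ c) y1 y2 ∧ Sep (qm _ c) y0 y1) := fun h =>
    hr (Or.inr (Or.inl ⟨h.1, h.2.symm, fs_ne_of_btw b3 h2⟩))
  have r2 : ¬ (Sep (qm _ c) y2 y0 ∧ Sep (qm _ c) y1 y2) := fun h =>
    hr (Or.inr (Or.inr ⟨h.1, h.2.symm, fs_ne_of_btw b1 h0⟩))
  by_cases s1 : Sep (qm _ c) y0 y1
  · have c2 := cl_not_sep H hq hP hc h1 h2 fun h => r1 ⟨h, s1⟩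
    have c3 := cl_not_sep H hq hP hc h2 h0 fun h => r0 ⟨s1, h⟩
    exact fin (by omega) (by omega) (by omega) (c2.trans c3).symm c2 c3
  have c1 := cl_not_sep H hq hP hc h0 h1 s1
  by_cases s2 : Sep (qm _ c) y1 y2
  · have c3 := cl_not_sep H hq hP hc h2 h0 fun h => r2 ⟨h, s2⟩
    exact fin (by omega) (by omega) (by omega) c1 (c3.trans c1).symm c3
  have c2 := cl_not_sep H hq hP hc h1 h2 s2
  exact fin (by omega) (by omega) (by omega) c1 c2 (c1.trans c2).symm

theorem side (H : Spin G A δ sp) (hq : Hyp (QX (rotK G A) X) δ) (hP : PosD G A pos N Λ)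
    {z : ℤ} {c p w u v : X} (hc : c ∈ A) (hd : d p w = d (qm (rotK G A) p) (qm (rotK G A) w))
    (hg : Sep c p w → Good G A pos N (20 * δ * Λ) z c p w) (hu : FS c p u) (hv : FS c w v) :
    (¬ Sep c p w → (pos c v - pos c u).natAbs ≤ 2 * (20 * δ * Λ)) ∧
    (Sep c p w → (pos c v - pos c u - Jp N (10 * (20 * δ * Λ)) z
      (Pi G A pos (qm _ c) (qm _ p)) (Pi G A pos (qm _ c) (qm _ w))).natAbs ≤ 2 * (20 * δ * Λ) ∧
      Cl N (20 * δ * Λ) (pos c u) (Pi G A pos (qm _ c) (qm _ p)) ∧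
      Cl N (20 * δ * Λ) (pos c v) (Pi G A pos (qm _ c) (qm _ w))) ∧
    (Sep c p w → Btw (qm (rotK G A) p) (qm _ c) (qm _ w)) := by
  refine ⟨fun h => ?_, fun h => ?_, fun h => (btw_qm h.btw hd).1⟩
  · exact (pos_ang hP hc (ang_of_not_sep H.hyp H.hδ h) hu hv).trans (le_of_eq (by ring))
  · obtain ⟨d1, d2⟩ := side_d h.btw hd
    exact ⟨hg h u v hu hv, cl_pi H hq hP hc hu d1, cl_pi H hq hP hc hv d2⟩

end Lf

open Lf in
/-- Small patterns lift through the quotient. -/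
theorem Spin.lift (H : Spin G A δ sp) [(rotK G A).Normal] (hq : Hyp (QX (rotK G A) X) δ)
    {pos : X → X → ℤ} {N Λ T : ℕ} (hP : PosD G A pos N Λ) (hΛ : 1 ≤ Λ)
    (hN : (200 * T + 200) * (20 * δ * Λ) ≤ N) (x : X) (hx : x ∉ A)
    (tri : List (ℕ × ℕ × ℕ)) (hT : tri.length ≤ T) (f : ℕ → G ⧸ rotK G A) (hf : Sat f tri) :
    ∃ f' : ℕ → G, (∀ i, (f' i : G ⧸ rotK G A) = f i) ∧ Sat f' tri := by
  have hU : 1 ≤ 20 * δ * Λ := Nat.mul_pos (by have := H.hδ; omega) hΛ
  have hN1 : 100 * (20 * δ * Λ) < N := by nlinarith [Nat.zero_le (T * (20 * δ * Λ))]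
  have hA : ∀ g : G, g • x ∉ A := fun g h => hx (by simpa using H.inv g⁻¹ _ h)
  obtain ⟨z, hz⟩ : ∃ z : ℤ, ∀ t ∈ tri, TriOK G A pos N (20 * δ * Λ) z (qm _ x) (f t.1 • qm _ x)
      (f t.2.2 • qm _ x) := by
    choose vs hv1 hv2 using fun t : ℕ × ℕ × ℕ =>
      exists_vals (pos := pos) (qm (rotK G A) x) (f t.1 • qm _ x) (f t.2.2 • qm _ x)
    have hl : (tri.flatMap vs).length = 9 * tri.length := by
      clear hT hf
      induction tri with
      | nil => simp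
      | cons t l ih => rw [List.flatMap_cons, List.length_append, ih, hv1, List.length_cons]; ring
    obtain ⟨z, hz⟩ := exists_cut (N := N) (B := 10 * (20 * δ * Λ)) (tri.flatMap vs) (by
      rw [hl]
      have : 9 * tri.length * (2 * (10 * (20 * δ * Λ)) + 1) ≤ 9 * T * (21 * (20 * δ * Λ)) :=
        Nat.mul_le_mul (by omega) (by omega)
      nlinarith [Nat.zero_le (T * (20 * δ * Λ))])
    exact ⟨z, fun t ht => hv2 t _ _ z fun v hv => hz v (List.mem_flatMap.2 ⟨t, ht, hv⟩)⟩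
  have hl : ∀ i, ∃ g : G, (g : G ⧸ rotK G A) = f i ∧
      d x (g • x) = d (qm (rotK G A) x) (qm (rotK G A) (g • x)) ∧
      ∀ c ∈ A, Sep c x (g • x) → Good G A pos N (20 * δ * Λ) z c x (g • x) := by
    intro i
    obtain ⟨a, ha⟩ := QuotientGroup.mk_surjective (f i)
    obtain ⟨k, hk, h1, h2⟩ := lift_good H hq hP hN1 z hx (hA a)
    refine ⟨k * a, ?_, ?_, ?_⟩
    · rw [QuotientGroup.mk_mul, (QuotientGroup.eq_one_iff k).2 hk, one_mul, ha]
    · rw [mul_smul, h1, qm_smul_mem hk]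
    · rw [mul_smul]; exact h2
  choose f' h1 h2 h3 using hl
  refine ⟨f', h1, fun t ht => ?_⟩
  have tr : ∀ (g : G) (i : ℕ), d (g • x) (g • f' i • x) =
      d (qm (rotK G A) (g • x)) (qm (rotK G A) (g • f' i • x)) ∧
      ∀ c ∈ A, Sep c (g • x) (g • f' i • x) →
        Good G A pos N (20 * δ * Λ) z c (g • x) (g • f' i • x) := by
    intro g i
    refine ⟨by rw [← mk_smul g, ← mk_smul g, d_smul, d_smul, h2], fun c hc hs => ?_⟩
    refine Good.smul H hP g (H.inv _ _ hc) (h3 i _ (H.inv _ _ hc) ?_)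
    rw [← sep_smul g, smul_inv_smul]; exact hs
  obtain ⟨k, hk⟩ : ∃ k, k = f' t.1 * f' t.2.1 * (f' t.2.2)⁻¹ := ⟨_, rfl⟩
  have hkK : k ∈ rotK G A := by
    rw [← QuotientGroup.eq_one_iff, hk, QuotientGroup.mk_mul, QuotientGroup.mk_mul,
      QuotientGroup.mk_inv, h1, h1, h1, hf t ht, mul_inv_cancel]
  rw [← mul_inv_eq_one, ← hk]
  by_contra hk1
  obtain ⟨r, -, hr⟩ := H.gp x
  obtain ⟨c, hc, κ, κ1, κ2, -, hcx | ⟨-, -, ha⟩⟩ := hr k hkK hk1
  · exact hx (hcx ▸ hc)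
  have ne : ∀ g : G, g • x ≠ c := fun g e => hA g (e ▸ hc)
  have neq : ∀ g : G, qm (rotK G A) (g • x) ≠ qm _ c := fun g e => by
    obtain ⟨a, -, ha⟩ := qm_eq.1 e
    exact hA g (ha ▸ H.inv a c hc)
  have e2 : f' t.1 • f' t.2.1 • x = k • f' t.2.2 • x := by
    rw [← mul_smul, ← mul_smul, hk]; simp
  obtain ⟨u0, hu0⟩ := exists_fs (show x ≠ c by simpa using ne 1)
  obtain ⟨u1, hu1⟩ := exists_fs (ne (f' t.1))
  obtain ⟨u2, hu2⟩ := exists_fs (show k • f' t.2.2 • x ≠ c by rw [← mul_smul]; exact ne _)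
  obtain ⟨u3, hu3⟩ := exists_fs (ne k)
  obtain ⟨a1, a2, a3⟩ := side H hq hP hc (h2 t.1) (h3 t.1 c hc) hu0 hu1
  obtain ⟨b0, b0'⟩ := tr (f' t.1) t.2.1
  rw [e2] at b0 b0'
  obtain ⟨b1, b2, b3⟩ := side H hq hP hc b0 (b0' c hc) hu1 hu2
  obtain ⟨c0, c0'⟩ := tr k t.2.2
  obtain ⟨c1, c2, c3⟩ := side H hq hP hc (by rw [d_comm, c0, d_comm])
    (fun h => (c0' c hc h.symm).symm hN1) hu2 hu3
  have q3 : qm (rotK G A) (k • x) = qm _ x := qm_smul_mem hkK x
  have q2 : qm (rotK G A) (k • f' t.2.2 • x) = qm _ (f' t.2.2 • x) := qm_smul_mem hkK _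
  rw [q3, q2] at c2 c3
  rw [q2] at b2 b3
  have hT' := hz t ht
  rw [← h1, ← h1, mk_smul, mk_smul] at hT'
  have n0 : qm (rotK G A) x ≠ qm _ c := by simpa using neq 1
  have n1 := neq (f' t.1)
  have n2 := neq (f' t.2.2)
  obtain ⟨j, hj⟩ := hP.equi κ c hc
  have e5 := hj u0 hu0.1
  rw [κ2] at e5
  have e6 : FS c (κ • x) (κ • u0) := by
    have := (fs_smul κ c x u0).2 hu0
    rwa [κ2] at this
  have e7 := pos_ang hP hc ha e6 hu3
  have := close_count hN1 z a1 b1 c1 a2 b2 c2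
    (fun _ _ h => j_two H hq hP hN1 hc hT' n0 n1 n2 h)
    (fun _ _ h => j_two H hq hP hN1 hc hT'.rot n1 n2 n0 h)
    (fun _ _ h => j_two H hq hP hN1 hc hT'.rot.rot n2 n0 n1 h)
    (fun s1 s2 s3 => j_three H hq hP hN1 hc hT' n0 n1 n2 (a3 s1) (b3 s2) (c3 s3))
    (m := N * j) (dvd_mul_right _ _) (by
      rw [show 80 * δ * Λ = 4 * (20 * δ * Λ) by ring] at e7
      omega)
  exact κ1 (hP.faith c hc κ κ2 u0 hu0.1 (by omega))

end Pool.Agent.QIB
end

-- merged part: Pool.Agent.Work.MP_9628a2_al.Cover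
section
set_option autoImplicit false

namespace Pool.Agent.QIB

/-- The word `w` is a law of the group. -/
def IsLaw (G : Type) [Group G] (w : FreeGroup Bool) : Prop := ∀ a b : G, ev a b w = 1

/-- All words of the list vanish. -/
def Hold {G : Type} [Group G] (x : ℕ → G) (l : List (FreeGroup ℕ)) : Prop :=
  ∀ r ∈ l, FreeGroup.lift x r = 1

/-- What the construction gives for a nontrivial word `w0` and a size `T`. -/
structure Cover (w0 : FreeGroup Bool) (T : ℕ) : Type 1 where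
  H : Type
  [grp : Group H]
  rl : List (FreeGroup ℕ)
  ω : FreeGroup ℕ
  v : ℕ → FreeGroup Bool
  fin : ∀ (Q : Type) [Group Q] [Finite Q] (x : ℕ → Q), Hold x rl → FreeGroup.lift x ω = 1
  fail : ∃ x : ℕ → H, Hold x rl ∧ FreeGroup.lift x ω ≠ 1
  law_ω : ∀ (G : Type) [Group G], IsLaw G w0 → ∀ x : ℕ → G, FreeGroup.lift x ω = 1
  law_v : ∀ (G : Type) [Group G], IsLaw G w0 → ∀ i, IsLaw G (v i)
  small : ∀ (tri : List (ℕ × ℕ × ℕ)) (i0 : ℕ) (f : ℕ → H), tri.length ≤ T → Sat f tri →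
    f i0 ≠ 1 → FinReal tri i0
  law : ∃ w, w ≠ 1 ∧ IsLaw H w
  relv : ∀ a b : H, Hold (fun i => ev a b (v i)) rl
  key : ∀ (tri : List (ℕ × ℕ × ℕ)) (i0 : ℕ), ¬ FinReal tri i0 →
    ∃ tests : List (FreeGroup ℕ × FreeGroup ℕ),
      (∀ t ∈ tests, t.1 ∈ Subgroup.normalClosure {FreeGroup.of i0} ∧
        t.2 ∈ Subgroup.normalClosure {FreeGroup.of i0}) ∧
      ∀ f : ℕ → H, Sat f tri → f i0 ≠ 1 → ∃ t ∈ tests,
        FreeGroup.lift (fun i => ev (FreeGroup.lift f t.1) (FreeGroup.lift f t.2) (v i)) ω ≠ 1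

attribute [instance] Cover.grp

end Pool.Agent.QIB
end

-- merged part: Pool.Agent.Work.MP_9628a2_al.LogicA
section
set_option autoImplicit false

namespace Pool.Agent.QIB

/-- Horn sentences in the variables indexed by natural numbers. -/
abbrev Hn : Type := List (FreeGroup ℕ) × FreeGroup ℕ

/-- The group satisfies the Horn sentence. -/
def HMod (G : Type) [Group G] (h : Hn) : Prop :=
  ∀ x : ℕ → G, Hold x h.1 → FreeGroup.lift x h.2 = 1

/-- Horn sentences in finitely many variables. -/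
abbrev Qi : Type := (n : ℕ) × (List (FreeGroup (Fin n)) × FreeGroup (Fin n))

/-- The group satisfies the Horn sentence in finitely many variables. -/
def QMod (G : Type) [Group G] (q : Qi) : Prop :=
  ∀ x : Fin q.1 → G, (∀ w ∈ q.2.1, FreeGroup.lift x w = 1) → FreeGroup.lift x q.2.2 = 1

theorem lift_lift {α β G : Type} [Group G] (x : β → G) (s : α → FreeGroup β) (w : FreeGroup α) :
    FreeGroup.lift x (FreeGroup.lift s w) = FreeGroup.lift (fun i => FreeGroup.lift x (s i)) w := by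
  have : (FreeGroup.lift x).comp (FreeGroup.lift s) =
      FreeGroup.lift (fun i => FreeGroup.lift x (s i)) := by
    ext t; simp
  exact DFunLike.congr_fun this w

theorem lift_one' {α G : Type} [Group G] (w : FreeGroup α) :
    FreeGroup.lift (fun _ => (1 : G)) w = 1 := by
  have : FreeGroup.lift (fun _ : α => (1 : G)) = 1 := by
    ext t; simp
  rw [this]; rfl

theorem hmod_conj (h h' : Hn) :
    ∃ h'' : Hn, ∀ (G : Type) [Group G], HMod G h'' ↔ HMod G h ∧ HMod G h' := by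
  let a : FreeGroup ℕ →* FreeGroup ℕ := FreeGroup.lift fun i => FreeGroup.of (2 * i)
  let b : FreeGroup ℕ →* FreeGroup ℕ := FreeGroup.lift fun i => FreeGroup.of (2 * i + 1)
  refine ⟨(h.1.map a ++ h'.1.map b, a h.2 * b h'.2), fun G _ => ?_⟩
  have ha : ∀ (x : ℕ → G) w, FreeGroup.lift x (a w) = FreeGroup.lift (fun i => x (2 * i)) w := by
    intro x w; simp only [a, lift_lift, FreeGroup.lift_apply_of]
  have hb : ∀ (x : ℕ → G) w,
      FreeGroup.lift x (b w) = FreeGroup.lift (fun i => x (2 * i + 1)) w := by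
    intro x w; simp only [b, lift_lift, FreeGroup.lift_apply_of]
  have key : HMod G (h.1.map a ++ h'.1.map b, a h.2 * b h'.2) → ∀ y z : ℕ → G,
      Hold y h.1 → Hold z h'.1 → FreeGroup.lift y h.2 * FreeGroup.lift z h'.2 = 1 := by
    intro H y z hy hz
    let x : ℕ → G := fun i => if i % 2 = 0 then y (i / 2) else z (i / 2)
    have e1 : (fun i => x (2 * i)) = y := by
      funext i
      have : 2 * i % 2 = 0 := by omega
      have h2 : 2 * i / 2 = i := by omega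
      simp only [x, this, h2, if_true]
    have e2 : (fun i => x (2 * i + 1)) = z := by
      funext i
      have : ¬ (2 * i + 1) % 2 = 0 := by omega
      have h2 : (2 * i + 1) / 2 = i := by omega
      simp only [x, this, h2, if_false]
    have := H x (by
      intro r hr
      rcases List.mem_append.1 hr with hr | hr
      · obtain ⟨w, hw, rfl⟩ := List.mem_map.1 hr
        rw [ha, e1]; exact hy w hw
      · obtain ⟨w, hw, rfl⟩ := List.mem_map.1 hr
        rw [hb, e2]; exact hz w hw)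
    rwa [map_mul, ha, hb, e1, e2] at this
  constructor
  · intro H
    refine ⟨fun y hy => ?_, fun z hz => ?_⟩
    · have := key H y (fun _ => 1) hy (fun r _ => lift_one' r)
      rwa [lift_one', mul_one] at this
    · have := key H (fun _ => 1) z (fun r _ => lift_one' r) hz
      rwa [lift_one', one_mul] at this
  · rintro ⟨H1, H2⟩ x hx
    show FreeGroup.lift x (a h.2 * b h'.2) = 1
    rw [map_mul, ha, hb, H1 _ ?_, H2 _ ?_, one_mul]
    · intro r hr
      rw [← hb]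
      exact hx _ (List.mem_append_right _ (List.mem_map_of_mem hr))
    · intro r hr
      rw [← ha]
      exact hx _ (List.mem_append_left _ (List.mem_map_of_mem hr))

theorem exists_hn_of_qi (q : Qi) : ∃ h : Hn, ∀ (G : Type) [Group G], HMod G h ↔ QMod G q := by
  obtain ⟨n, rl, ω⟩ := q
  let a : FreeGroup (Fin n) →* FreeGroup ℕ := FreeGroup.lift fun i => FreeGroup.of i.1
  refine ⟨(rl.map a, a ω), fun G _ => ?_⟩
  have ha : ∀ (x : ℕ → G) w, FreeGroup.lift x (a w) = FreeGroup.lift (fun i => x i.1) w := by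
    intro x w; simp only [a, lift_lift, FreeGroup.lift_apply_of]
  constructor
  · intro H y hy
    let x : ℕ → G := fun i => if h : i < n then y ⟨i, h⟩ else 1
    have e : (fun i : Fin n => x i.1) = y := by
      funext i; simp only [x, i.2, dif_pos]
    have := H x (by
      intro r hr
      obtain ⟨w, hw, rfl⟩ := List.mem_map.1 hr
      rw [ha, e]; exact hy w hw)
    rwa [ha, e] at this
  · intro H x hx
    show FreeGroup.lift x (a ω) = 1
    rw [ha]
    refine H _ fun w hw => ?_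
    rw [← ha]
    exact hx _ (List.mem_map_of_mem hw)

theorem exists_supp (w : FreeGroup ℕ) : ∃ n : ℕ, ∀ (G : Type) [Group G] (x y : ℕ → G),
    (∀ i < n, x i = y i) → FreeGroup.lift x w = FreeGroup.lift y w := by
  induction w using FreeGroup.induction_on with
  | C1 => exact ⟨0, fun G _ x y _ => by simp⟩
  | of i => exact ⟨i + 1, fun G _ x y h => by simpa using h i (Nat.lt_succ_self i)⟩
  | inv_of i ih =>
    obtain ⟨n, hn⟩ := ih
    exact ⟨n, fun G _ x y h => by rw [map_inv, map_inv, hn G x y h]⟩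
  | mul u v ihu ihv =>
    obtain ⟨n, hn⟩ := ihu
    obtain ⟨m, hm⟩ := ihv
    refine ⟨n + m, fun G _ x y h => ?_⟩
    rw [map_mul, map_mul, hn G x y fun i hi => h i (by omega), hm G x y fun i hi => h i (by omega)]

theorem exists_supp_list (l : List (FreeGroup ℕ)) : ∃ n : ℕ, ∀ w ∈ l,
    ∀ (G : Type) [Group G] (x y : ℕ → G),
    (∀ i < n, x i = y i) → FreeGroup.lift x w = FreeGroup.lift y w := by
  induction l with
  | nil => exact ⟨0, fun w hw => by simp at hw⟩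
  | cons u l ih =>
    obtain ⟨n, hn⟩ := ih
    obtain ⟨m, hm⟩ := exists_supp u
    refine ⟨n + m, fun w hw G _ x y h => ?_⟩
    rcases List.mem_cons.1 hw with rfl | hw
    · exact hm G x y fun i hi => h i (by omega)
    · exact hn w hw G x y fun i hi => h i (by omega)

theorem exists_qi_of_hn (h : Hn) : ∃ q : Qi, ∀ (G : Type) [Group G], QMod G q ↔ HMod G h := by
  obtain ⟨n, hn⟩ := exists_supp_list (h.2 :: h.1)
  let a : FreeGroup ℕ →* FreeGroup (Fin n) :=
    FreeGroup.lift fun i => if hi : i < n then FreeGroup.of ⟨i, hi⟩ else 1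
  refine ⟨⟨n, h.1.map a, a h.2⟩, fun G _ => ?_⟩
  have ha : ∀ (y : Fin n → G) w, FreeGroup.lift y (a w) =
      FreeGroup.lift (fun i => if hi : i < n then y ⟨i, hi⟩ else 1) w := by
    intro y w
    simp only [a, lift_lift]
    congr 2
    funext i
    split_ifs <;> simp
  constructor
  · intro H x hx
    have e : ∀ w ∈ h.2 :: h.1, FreeGroup.lift (fun i : Fin n => x i.1) (a w) =
        FreeGroup.lift x w := by
      intro w hw
      rw [ha]
      exact hn w hw G _ _ fun i hi => by simp [hi]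
    have := H (fun i : Fin n => x i.1) (by
      intro r hr
      obtain ⟨w, hw, rfl⟩ := List.mem_map.1 hr
      rw [e w (List.mem_cons_of_mem _ hw)]
      exact hx w hw)
    rwa [e _ (List.mem_cons_self ..)] at this
  · intro H y hy
    show FreeGroup.lift y (a h.2) = 1
    rw [ha]
    refine H _ fun w hw => ?_
    rw [← ha]
    exact hy _ (List.mem_map_of_mem hw)

theorem exists_tri_word (w : FreeGroup ℕ) :
    ∃ L : List (FreeGroup ℕ × FreeGroup ℕ × FreeGroup ℕ), (∀ t ∈ L, t.1 * t.2.1 = t.2.2) ∧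
      ∀ (G : Type) [Group G] (f : FreeGroup ℕ → G), (∀ t ∈ L, f t.1 * f t.2.1 = f t.2.2) →
        f w = FreeGroup.lift (fun i => f (FreeGroup.of i)) w := by
  induction w using FreeGroup.induction_on with
  | C1 =>
    refine ⟨[(1, 1, 1)], by simp, fun G _ f h => ?_⟩
    have := h (1, 1, 1) (by simp)
    simpa using this
  | of i => exact ⟨[], by simp, fun G _ f _ => by simp⟩
  | inv_of i _ =>
    refine ⟨[(1, 1, 1), (FreeGroup.of i, (FreeGroup.of i)⁻¹, 1)], by simp, fun G _ f h => ?_⟩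
    have h1 := h (1, 1, 1) (by simp)
    have h2 := h (FreeGroup.of i, (FreeGroup.of i)⁻¹, 1) (by simp)
    have h3 : f 1 = 1 := by simpa using h1
    simp only [h3] at h2
    rw [map_inv, FreeGroup.lift_apply_of]
    exact (inv_eq_of_mul_eq_one_right h2).symm
  | mul u v ihu ihv =>
    obtain ⟨L, hL, hL'⟩ := ihu
    obtain ⟨M, hM, hM'⟩ := ihv
    refine ⟨(u, v, u * v) :: (L ++ M), ?_, fun G _ f h => ?_⟩
    · intro t ht
      rcases List.mem_cons.1 ht with rfl | ht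
      · rfl
      · rcases List.mem_append.1 ht with ht | ht
        · exact hL t ht
        · exact hM t ht
    · have h1 := h (u, v, u * v) (List.mem_cons_self ..)
      rw [map_mul, ← hL' G f fun t ht => h t (List.mem_cons_of_mem _ (List.mem_append_left _ ht)),
        ← hM' G f fun t ht => h t (List.mem_cons_of_mem _ (List.mem_append_right _ ht))]
      exact h1.symm

theorem exists_tri_list (l : List (FreeGroup ℕ)) :
    ∃ L : List (FreeGroup ℕ × FreeGroup ℕ × FreeGroup ℕ), (∀ t ∈ L, t.1 * t.2.1 = t.2.2) ∧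
      ∀ (G : Type) [Group G] (f : FreeGroup ℕ → G), (∀ t ∈ L, f t.1 * f t.2.1 = f t.2.2) →
        ∀ w ∈ l, f w = FreeGroup.lift (fun i => f (FreeGroup.of i)) w := by
  induction l with
  | nil => exact ⟨[], by simp, fun G _ f _ w hw => by simp at hw⟩
  | cons u l ih =>
    obtain ⟨L, hL, hL'⟩ := exists_tri_word u
    obtain ⟨M, hM, hM'⟩ := ih
    refine ⟨L ++ M, ?_, fun G _ f h w hw => ?_⟩
    · intro t ht
      rcases List.mem_append.1 ht with ht | ht
      · exact hL t ht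
      · exact hM t ht
    · rcases List.mem_cons.1 hw with rfl | hw
      · exact hL' G f fun t ht => h t (List.mem_append_left _ ht)
      · exact hM' G f (fun t ht => h t (List.mem_append_right _ ht)) w hw

/-- Triangulation of a Horn sentence. -/
theorem exists_tri (h : Hn) : ∃ p : List (ℕ × ℕ × ℕ) × ℕ, ∀ (G : Type) [Group G],
    HMod G h ↔ ∀ f : ℕ → G, Sat f p.1 → f p.2 = 1 := by
  classical
  obtain ⟨enc, henc⟩ := Countable.exists_injective_nat (FreeGroup ℕ)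
  obtain ⟨L, hL, hL'⟩ := exists_tri_list (h.2 :: h.1)
  refine ⟨((L ++ h.1.map fun r => (r, r, r)).map fun t => (enc t.1, enc t.2.1, enc t.2.2), enc h.2),
    fun G _ => ⟨fun H f hf => ?_, fun H x hx => ?_⟩⟩
  · have h1 : ∀ t ∈ L ++ h.1.map (fun r => (r, r, r)),
        f (enc t.1) * f (enc t.2.1) = f (enc t.2.2) := fun t ht =>
      hf (enc t.1, enc t.2.1, enc t.2.2) (List.mem_map.2 ⟨t, ht, rfl⟩)
    have h2 := hL' G (fun w => f (enc w)) fun t ht => h1 t (List.mem_append_left _ ht)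
    show f (enc h.2) = 1
    rw [h2 _ (List.mem_cons_self ..)]
    refine H _ fun r hr => ?_
    rw [← h2 r (List.mem_cons_of_mem _ hr)]
    have := h1 (r, r, r) (List.mem_append_right _ (List.mem_map.2 ⟨r, hr, rfl⟩))
    simpa using this
  · have hinv := Function.leftInverse_invFun henc
    have := H (fun i => FreeGroup.lift x (Function.invFun enc i)) (by
      intro t ht
      obtain ⟨s, hs, rfl⟩ := List.mem_map.1 ht
      simp only [hinv _]
      rcases List.mem_append.1 hs with hs | hs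
      · rw [← map_mul, hL s hs]
      · obtain ⟨r, hr, rfl⟩ := List.mem_map.1 hs
        simp only [hx r hr, mul_one])
    simpa only [hinv _] using this

/-- A common nontrivial consequence of a law and the laws of a group. -/
theorem exists_next_law (w : FreeGroup Bool) (hw : w ≠ 1) (H : Type) [Group H]
    (hH : ∃ u, u ≠ 1 ∧ IsLaw H u) :
    ∃ u, u ≠ 1 ∧ IsLaw H u ∧ ∀ (G : Type) [Group G], IsLaw G w → IsLaw G u := by
  let N : Subgroup (FreeGroup Bool) :=
    { carrier := {u | ∀ (G : Type) [Group G], IsLaw G w → IsLaw G u}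
      one_mem' := fun G _ _ a b => map_one _
      mul_mem' := fun {x y} hx hy G _ hG a b => by rw [map_mul, hx G hG a b, hy G hG a b, mul_one]
      inv_mem' := fun {x} hx G _ hG a b => by rw [map_inv, hx G hG a b, inv_one] }
  let M : Subgroup (FreeGroup Bool) :=
    { carrier := {u | IsLaw H u}
      one_mem' := fun a b => map_one _
      mul_mem' := fun {x y} hx hy a b => by rw [map_mul, hx a b, hy a b, mul_one]
      inv_mem' := fun {x} hx a b => by rw [map_inv, hx a b, inv_one] }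
  have : N.Normal := ⟨fun x hx g G _ hG a b => by
    rw [map_mul, map_mul, hx G hG a b, mul_one, ← map_mul, mul_inv_cancel, map_one]⟩
  have : M.Normal := ⟨fun x hx g a b => by
    rw [map_mul, map_mul, hx a b, mul_one, ← map_mul, mul_inv_cancel, map_one]⟩
  obtain ⟨u0, h1, h2⟩ := hH
  obtain ⟨u, hN, hM, hu⟩ := normal_inf_ne N M ⟨w, fun G _ hG => hG, hw⟩ ⟨u0, h2, h1⟩
  exact ⟨u, hu, hM, hN⟩

end Pool.Agent.QIB
end

-- merged part: Pool.Agent.Work.MP_9628a2_al.Logic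
section
set_option autoImplicit false

namespace Pool.Agent.QIB

/-- A cover together with its parameters. -/
structure CovSt : Type 1 where
  w : FreeGroup Bool
  hw : w ≠ 1
  T : ℕ
  C : Cover w T

theorem exists_cover_seq (hc : ∀ (w0 : FreeGroup Bool), w0 ≠ 1 → ∀ T : ℕ, Nonempty (Cover w0 T))
    (sz : Hn → ℕ) : ∃ s : ℕ → CovSt, (∀ j, j ≤ (s j).T) ∧
      ∀ i j, i < j → IsLaw (s i).C.H (s j).w ∧ sz ((s i).C.rl, (s i).C.ω) ≤ (s j).T := by
  have step : ∀ s : CovSt, ∃ s' : CovSt, IsLaw s.C.H s'.w ∧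
      (∀ (G : Type) [Group G], IsLaw G s.w → IsLaw G s'.w) ∧
      s.T + 1 + sz (s.C.rl, s.C.ω) ≤ s'.T := by
    intro s
    obtain ⟨u, hu, h1, h2⟩ := exists_next_law s.w s.hw s.C.H s.C.law
    obtain ⟨C⟩ := hc u hu (s.T + 1 + sz (s.C.rl, s.C.ω))
    exact ⟨⟨u, hu, _, C⟩, h1, h2, le_rfl⟩
  choose nx h1 h2 h3 using step
  obtain ⟨C0⟩ := hc (FreeGroup.of true) (FreeGroup.of_ne_one _) 0
  let s : ℕ → CovSt := fun j => Nat.rec ⟨_, FreeGroup.of_ne_one _, 0, C0⟩ (fun _ t => nx t) j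
  have hs : ∀ j, s (j + 1) = nx (s j) := fun _ => rfl
  refine ⟨s, fun j => ?_, fun i j hij => ?_⟩
  · induction j with
    | zero => exact Nat.zero_le _
    | succ j ih => have := h3 (s j); rw [hs]; omega
  · induction j, hij using Nat.le_induction with
    | base =>
      have := h3 (s i)
      rw [hs]
      exact ⟨h1 _, by omega⟩
    | succ j _ ih =>
      have := h3 (s j)
      rw [hs]
      exact ⟨h2 _ _ ih.1, by omega⟩

theorem lift_ev {G : Type} [Group G] (g : ℕ → G) (a b : FreeGroup ℕ) (v : ℕ → FreeGroup Bool)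
    (r : FreeGroup ℕ) : FreeGroup.lift g (FreeGroup.lift (fun i => ev a b (v i)) r) =
      FreeGroup.lift (fun i => ev (FreeGroup.lift g a) (FreeGroup.lift g b) (v i)) r := by
  rw [lift_lift]
  simp only [map_ev]

theorem lift_eq_one_of_mem {G : Type} [Group G] (g : ℕ → G) (i0 : ℕ) (h : g i0 = 1)
    {a : FreeGroup ℕ} (ha : a ∈ Subgroup.normalClosure {FreeGroup.of i0}) :
    FreeGroup.lift g a = 1 := by
  have : Subgroup.normalClosure {FreeGroup.of i0} ≤ (FreeGroup.lift g).ker := by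
    apply Subgroup.normalClosure_le_normal
    intro x hx
    rw [Set.mem_singleton_iff.1 hx]
    simpa using h
  exact this ha

/-- A group that satisfies all covering sentences and all sentences true in finite groups and in
all covers satisfies every pattern that is not realised in a finite group. -/
theorem pattern_holds (s : ℕ → CovSt) (hT : ∀ j, j ≤ (s j).T)
    (hl : ∀ i j, i < j → IsLaw (s i).C.H (s j).w) (G : Type) [Group G]
    (hD : ∀ h : Hn, (∀ (Q : Type) [Group Q] [Finite Q], HMod Q h) → (∀ i, HMod (s i).C.H h) →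
      HMod G h)
    (hρ : ∀ j, HMod G ((s j).C.rl, (s j).C.ω))
    (tri : List (ℕ × ℕ × ℕ)) (i0 : ℕ) (hn : ¬ FinReal tri i0) (f : ℕ → G) (hf : Sat f tri) :
    f i0 = 1 := by
  classical
  choose ts hts1 hts2 using fun j => (s j).C.key tri i0 hn
  let e : ℕ → FreeGroup ℕ × FreeGroup ℕ → FreeGroup ℕ := fun j t =>
    FreeGroup.lift (fun i => ev t.1 t.2 ((s j).C.v i)) (s j).C.ω
  have A : ∀ (j : ℕ) (c : FreeGroup ℕ),
      (∀ k, j ≤ k → k < tri.length → ∀ t ∈ ts k, FreeGroup.lift f (e k t) = 1) →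
      (∀ (K : Type) [Group K] (g : ℕ → K), g i0 = 1 → FreeGroup.lift g c = 1) →
      (∀ i < j, ∀ g : ℕ → (s i).C.H, FreeGroup.lift g c = 1) → FreeGroup.lift f c = 1 := by
    intro j c h1 h2 h3
    let P : List (FreeGroup ℕ) :=
      (tri.map fun t => FreeGroup.of t.1 * FreeGroup.of t.2.1 * (FreeGroup.of t.2.2)⁻¹) ++
        ((List.range tri.length).filter fun k => j ≤ k).flatMap fun k => (ts k).map (e k)
    have hP : ∀ (K : Type) [Group K] (g : ℕ → K), Hold g P ↔ Sat g tri ∧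
        ∀ k, j ≤ k → k < tri.length → ∀ t ∈ ts k, FreeGroup.lift g (e k t) = 1 := by
      intro K _ g
      constructor
      · intro H
        refine ⟨fun t ht => ?_, fun k hk hk' t ht => ?_⟩
        · have := H _ (List.mem_append_left _ (List.mem_map.2 ⟨t, ht, rfl⟩))
          simpa [mul_inv_eq_one] using this
        · refine H _ (List.mem_append_right _ (List.mem_flatMap.2 ⟨k, ?_, ?_⟩))
          · simp [hk, hk']
          · exact List.mem_map.2 ⟨t, ht, rfl⟩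
      · rintro ⟨H1, H2⟩ r hr
        rcases List.mem_append.1 hr with hr | hr
        · obtain ⟨t, ht, rfl⟩ := List.mem_map.1 hr
          simpa [mul_inv_eq_one] using H1 t ht
        · obtain ⟨k, hk, hr⟩ := List.mem_flatMap.1 hr
          obtain ⟨t, ht, rfl⟩ := List.mem_map.1 hr
          have hk' : k < tri.length ∧ j ≤ k := by simpa using hk
          exact H2 k hk'.2 hk'.1 t ht
    refine hD (P, c) (fun Q _ _ g hg => ?_) (fun i g hg => ?_) f ((hP G f).2 ⟨hf, h1⟩)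
    · refine h2 Q g ?_
      by_contra h
      exact hn ⟨Q, inferInstance, inferInstance, g, ((hP Q g).1 hg).1, h⟩
    · obtain ⟨g1, g2⟩ := (hP _ g).1 hg
      rcases Nat.lt_or_ge i j with hij | hij
      · exact h3 i hij g
      · refine h2 _ g ?_
        by_contra h
        rcases Nat.lt_or_ge i tri.length with hi | hi
        · obtain ⟨t, ht, hne⟩ := hts2 i g g1 h
          exact hne (by rw [← lift_ev]; exact g2 i hij hi t ht)
        · exact hn ((s i).C.small tri i0 g (hi.trans (hT i)) g1 h)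
  have B : ∀ m j, j + m = tri.length →
      ∀ k, j ≤ k → k < tri.length → ∀ t ∈ ts k, FreeGroup.lift f (e k t) = 1 := by
    intro m
    induction m with
    | zero => intro j hj k h1 h2; omega
    | succ m ih =>
      intro j hj k h1 h2 t ht
      have ih' := ih (j + 1) (by omega)
      rcases Nat.lt_or_ge j k with hk | hk
      · exact ih' k hk h2 t ht
      obtain rfl : j = k := le_antisymm h1 hk
      show FreeGroup.lift f (FreeGroup.lift _ _) = 1
      rw [lift_ev]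
      refine hρ j _ fun r hr => ?_
      rw [← lift_ev]
      refine A (j + 1) _ ih' (fun K _ g hg => ?_) (fun i hi g => ?_)
      · rw [lift_ev, lift_eq_one_of_mem g i0 hg (hts1 j t ht).1,
          lift_eq_one_of_mem g i0 hg (hts1 j t ht).2]
        simp only [ev_one, lift_one']
      · rw [lift_ev]
        rcases Nat.lt_or_ge i j with hij | hij
        · have := (s j).C.law_v _ (hl i j hij)
          simp only [this _ _ _, lift_one']
        · obtain rfl : i = j := by omega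
          exact (s i).C.relv _ _ r hr
  have := A 0 (FreeGroup.of i0) (B tri.length 0 (by omega)) (fun K _ g hg => by simpa using hg)
    (fun i hi => absurd hi (Nat.not_lt_zero i))
  simpa using this

theorem exists_hn_basis
    (hc : ∀ (w0 : FreeGroup Bool), w0 ≠ 1 → ∀ T : ℕ, Nonempty (Cover w0 T)) :
    ∃ σ : ℕ → Hn, (∀ j (Q : Type) [Group Q] [Finite Q], HMod Q (σ j)) ∧
      (∀ h : Hn, (∀ (Q : Type) [Group Q] [Finite Q], HMod Q h) →
        ∀ (G : Type) [Group G], (∀ j, HMod G (σ j)) → HMod G h) ∧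
      ∀ j, ∃ (G : Type) (_ : Group G), ¬ HMod G (σ j) ∧ ∀ i, i ≠ j → HMod G (σ i) := by
  classical
  choose tr htr using exists_tri
  obtain ⟨s, hT, hs⟩ := exists_cover_seq hc fun h => (tr h).1.length
  choose cj hcj using hmod_conj
  obtain ⟨en, hen⟩ := exists_surjective_nat Hn
  let D : Hn → Prop := fun h =>
    (∀ (Q : Type) [Group Q] [Finite Q], HMod Q h) ∧ ∀ i, HMod (s i).C.H h
  let ψ : ℕ → Hn := fun j => if D (en j) then en j else ([], 1)
  have hψ : ∀ j, D (ψ j) := by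
    intro j
    by_cases h : D (en j)
    · simp only [ψ, h, if_true]
    · simp only [ψ, h, if_false]
      exact ⟨fun Q _ _ x _ => map_one _, fun i x _ => map_one _⟩
  have hnf : ∀ h : Hn, (∀ (Q : Type) [Group Q] [Finite Q], HMod Q h) →
      ¬ FinReal (tr h).1 (tr h).2 := by
    rintro h hh ⟨Q, _, _, f, h1, h2⟩
    exact h2 ((htr h Q).1 (hh Q) f h1)
  refine ⟨fun j => cj ((s j).C.rl, (s j).C.ω) (ψ j), fun j Q _ _ => ?_, fun h hh G _ hG => ?_,
    fun j => ⟨(s j).C.H, inferInstance, fun H => ?_, fun i hij => ?_⟩⟩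
  · exact (hcj _ _ Q).2 ⟨(s j).C.fin Q, (hψ j).1 Q⟩
  · refine (htr h G).2 fun f hf => ?_
    refine pattern_holds s hT (fun i j hij => (hs i j hij).1) G (fun k k1 k2 => ?_)
      (fun j => ((hcj _ _ G).1 (hG j)).1) _ _ (hnf h hh) f hf
    obtain ⟨j, rfl⟩ := hen k
    have hd : D (en j) := ⟨k1, k2⟩
    have := ((hcj _ _ G).1 (hG j)).2
    simpa only [ψ, hd, if_true] using this
  · obtain ⟨x, h1, h2⟩ := (s j).C.fail
    exact h2 (((hcj _ _ _).1 H).1 x h1)
  · refine (hcj _ _ _).2 ⟨?_, (hψ i).2 j⟩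
    rcases Nat.lt_or_gt_of_ne hij with h | h
    · refine (htr _ _).2 fun f hf => ?_
      by_contra hne
      exact hnf ((s i).C.rl, (s i).C.ω) (fun Q _ _ => (s i).C.fin Q)
        ((s j).C.small _ _ f (hs i j h).2 hf hne)
    · exact fun x _ => (s i).C.law_ω _ (hs j i h).1 x

theorem basis_of_cover (hc : ∀ (w0 : FreeGroup Bool), w0 ≠ 1 → ∀ T : ℕ, Nonempty (Cover w0 T)) :
    ∃ S : Set ((n : ℕ) × (List (FreeGroup (Fin n)) × FreeGroup (Fin n))),
      (∀ q : (n : ℕ) × (List (FreeGroup (Fin n)) × FreeGroup (Fin n)),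
        (∀ (G : Type) [Group G] [Finite G], ∀ x : Fin q.1 → G,
            (∀ w ∈ q.2.1, FreeGroup.lift x w = 1) → FreeGroup.lift x q.2.2 = 1) ↔
        (∀ (G : Type) [Group G],
            (∀ p ∈ S, ∀ y : Fin p.1 → G,
              (∀ w ∈ p.2.1, FreeGroup.lift y w = 1) → FreeGroup.lift y p.2.2 = 1) →
            ∀ x : Fin q.1 → G,
              (∀ w ∈ q.2.1, FreeGroup.lift x w = 1) → FreeGroup.lift x q.2.2 = 1)) ∧
      (∀ p ∈ S, ¬ (∀ (G : Type) [Group G],
            (∀ r ∈ S, r ≠ p → ∀ y : Fin r.1 → G,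
              (∀ w ∈ r.2.1, FreeGroup.lift y w = 1) → FreeGroup.lift y r.2.2 = 1) →
            ∀ x : Fin p.1 → G,
              (∀ w ∈ p.2.1, FreeGroup.lift x w = 1) → FreeGroup.lift x p.2.2 = 1)) := by
  obtain ⟨σ, h1, h2, h3⟩ := exists_hn_basis hc
  choose τ hτ using exists_qi_of_hn
  refine ⟨Set.range fun j => τ (σ j), fun q => ⟨fun H G _ hG => ?_, fun H G _ _ => ?_⟩, ?_⟩
  · obtain ⟨h, hh⟩ := exists_hn_of_qi q
    refine (hh G).1 (h2 h (fun Q _ _ => (hh Q).2 (H Q)) G fun j => (hτ _ G).1 ?_)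
    exact hG _ ⟨j, rfl⟩
  · refine H G ?_
    rintro p ⟨j, rfl⟩
    exact (hτ _ G).2 (h1 j G)
  · rintro p ⟨j, rfl⟩ H
    obtain ⟨G, _, g1, g2⟩ := h3 j
    refine g1 ((hτ _ G).1 (H G ?_))
    rintro r ⟨i, rfl⟩ hr
    exact (hτ _ G).2 (g2 i fun e => hr (by rw [e]))

end Pool.Agent.QIB
end
end

-- merged part: Pool.Agent.Work.MP_9628a2_al.Step
section
-- merged part: Pool.Agent.Work.MP_9628a2_al.EFam
section
set_option autoImplicit false

namespace Pool.Agent.QIB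

variable {G0 T G X : Type} [Group G0] [Group G] [MulAction G X] [GSp X] [Iso G X] [MulAction G0 T]
  {P : Par} {v0 : T} {γ : ℕ → G0} {e : G0} {S : SD G0 T G X}

/-- The centraliser of an element, as a set. -/
def ECent (κ : G) : Set G := {h | h * κ = κ * h}

/-- Conjugate of a set. -/
def EConj (g : G) (E : Set G) : Set G := {h | g⁻¹ * h * g ∈ E}

theorem econj_cent (g κ : G) : EConj g (ECent κ) = ECent (g * κ * g⁻¹) := by
  ext h
  show g⁻¹ * h * g * κ = κ * (g⁻¹ * h * g) ↔ h * (g * κ * g⁻¹) = g * κ * g⁻¹ * h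
  constructor
  · intro e
    calc h * (g * κ * g⁻¹) = g * (g⁻¹ * h * g * κ) * g⁻¹ := by group
      _ = g * κ * g⁻¹ * h := by rw [e]; group
  · intro e
    calc g⁻¹ * h * g * κ = g⁻¹ * (h * (g * κ * g⁻¹)) * g := by group
      _ = κ * (g⁻¹ * h * g) := by rw [e]; group

/-- Centralisers of short loxodromic elements. -/
def ECone (P : Par) (S : SD G0 T G X) : Type :=
  {E : Set G // ∃ κ : G, ¬ S.Ell κ ∧ (∃ x : X, d x (κ • x) ≤ 7 * P.δ) ∧ E = ECent κ}

theorem efam_d_conj (g h : G) (x : X) : d (g • x) (h • g • x) = d x ((g⁻¹ * h * g) • x) := by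
  rw [mul_smul, mul_smul, d_inv_smul]

/-- The conjugation action. -/
@[reducible] def Inv.econeAct (I : Inv P v0 γ e S) : MulAction G (ECone P S) where
  smul g E := ⟨EConj g E.1, by
    obtain ⟨κ, hκ, ⟨x, hx⟩, hE⟩ := E.2
    refine ⟨g * κ * g⁻¹, I.elem_nonell_conj hκ g, ⟨g • x, ?_⟩, by rw [hE, econj_cent]⟩
    rwa [efam_d_conj, show g⁻¹ * (g * κ * g⁻¹) * g = κ by group]⟩
  one_smul E := Subtype.ext (by
    show EConj 1 E.1 = E.1
    ext h; simp [EConj])
  mul_smul g g' E := Subtype.ext (by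
    show EConj (g * g') E.1 = EConj g (EConj g' E.1)
    ext h; simp [EConj, mul_assoc])

/-- Points of almost minimal displacement for all elements of a set. -/
def ECore (X : Type) [MulAction G X] [GSp X] (δ : ℕ) (E : Set G) : Set X :=
  {x | ∀ h ∈ E, ∀ y : X, d x (h • x) ≤ d y (h • y) + 8 * δ}

/-- The hull of the core. -/
def EHull (X : Type) [MulAction G X] [GSp X] (δ : ℕ) (E : Set G) : Set X :=
  {p | ∃ a ∈ ECore X δ E, ∃ b ∈ ECore X δ E, Btw a p b}

theorem ecore_smul {δ : ℕ} {E : Set G} {a : X} (g : G) (ha : a ∈ ECore X δ E) :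
    g • a ∈ ECore X δ (EConj g E) := by
  intro h hh y
  have := ha _ hh (g⁻¹ • y)
  rw [← efam_d_conj, ← efam_d_conj, smul_inv_smul] at this
  exact this

theorem ehull_smul {δ : ℕ} {E : Set G} {p : X} (g : G) (hp : p ∈ EHull X δ E) :
    g • p ∈ EHull X δ (EConj g E) := by
  obtain ⟨a, ha, b, hb, h⟩ := hp
  exact ⟨g • a, ecore_smul g ha, g • b, ecore_smul g hb, (btw_smul g a p b).2 h⟩

omit [Iso G X] in
theorem ehull_qc {δ : ℕ} (hy : Hyp X δ) (E : Set G) : QC (EHull X δ E) (4 * δ) := by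
  rintro y ⟨a, ha, b, hb, h⟩ y' ⟨a', ha', b', hb', h'⟩ p hp
  obtain ⟨q, hq, hq'⟩ := slim_of_hyp hy y y' a p hp
  rcases hq with hq | hq
  · exact ⟨q, ⟨a, ha, b, hb, (hq.symm.trans_left h).1⟩, by omega⟩
  · obtain ⟨r, hr, hr'⟩ := slim_of_hyp hy a y' a' q hq
    have := d_tri p q r
    rcases hr with hr | hr
    · exact ⟨r, ⟨a, ha, a', ha', hr⟩, by omega⟩
    · exact ⟨r, ⟨a', ha', b', hb', (hr.trans_left h').1⟩, by omega⟩

theorem ehull_mv {δ : ℕ} (hy : Hyp X δ) {κ : G} {x : X} (hx : d x (κ • x) ≤ 7 * δ) {y : X}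
    (h : y ∈ EHull X δ (ECent κ)) : d y (κ • y) ≤ 16 * δ := by
  obtain ⟨a, ha, b, hb, h⟩ := h
  have e1 := ha κ rfl x
  have e2 := hb κ rfl x
  have := cv hy κ (κ := 0) (D := 15 * δ) (p := a) (q := b) (z := y) (by unfold Btw at h; omega)
    (by omega) (by omega)
  omega

theorem Inv.ecore_ne (I : Inv P v0 γ e S) {κ : G} (hκ : ¬ S.Ell κ) :
    ∃ x, x ∈ ECore X P.δ (ECent κ) := by
  have hδ := P.one_le
  have : Nonempty X := ⟨S.ι v0⟩
  obtain ⟨J, hJ⟩ : ∃ J : ℕ, ∀ z : X, 5 * P.δ + 2 ≤ d z (κ ^ J • z) := ⟨_, I.elem_big hκ⟩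
  obtain ⟨x, hx⟩ := exists_min_disp (X := X) (κ ^ J)
  refine ⟨x, fun f hf y => ?_⟩
  have hc : Commute f (κ ^ J) := Commute.pow_right hf J
  generalize κ ^ J = h at *
  have t0 := tl_min I.hyp x hx (by have := hJ x; omega)
  obtain ⟨i, hi⟩ : ∃ i, i = d x y + 3 * P.δ + 2 := ⟨_, rfl⟩
  have t1 := tl_btw I.hyp hJ x _ t0 i i
  have t2 := tl_lox I.hyp hJ x i
  have a1 : d (h ^ i • x) (h ^ (i + i) • x) = d x (h ^ i • x) := by
    rw [pow_add, mul_smul, d_smul]
  have a2 : d (h ^ (i + i) • x) (h ^ (i + i) • y) = d x y := d_smul _ _ _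
  have a3 := elem_d_comm (hc.pow_right i) x
  have a4 := elem_d_comm (hc.pow_right (i + i)) y
  generalize h ^ i • x = w at *
  generalize h ^ (i + i) • x = x2 at *
  generalize h ^ (i + i) • y = q at *
  have f1 := I.hyp x x2 y w
  have f2 := I.hyp y x2 q w
  have u1 := d_tri x y w
  have u2 := d_tri x2 q w
  have := d_comm x2 w; have := d_comm x2 y; have := d_comm q w
  have := cv I.hyp f (κ := 6 * P.δ + 1) (D := d y (f • y)) (p := y) (q := q) (z := w) (by omega)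
    le_rfl a4.le
  omega

omit [Group G] [MulAction G X] [Iso G X] in
theorem efam_btw {δ K : ℕ} (hy : Hyp X δ) {y1 y2 z1 z2 w : X} (hw : Btw y1 w y2)
    (h1 : d y1 z1 ≤ K) (h2 : d y2 z2 ≤ K) (h3 : K + 2 * δ < d y1 w) (h4 : K + 2 * δ < d w y2) :
    d z1 w + d w z2 ≤ d z1 z2 + 2 * δ := by
  unfold Btw at hw
  have f1 := hy y1 y2 z1 w
  have f2 := hy z1 y2 z2 w
  have := d_comm y2 w; have := d_comm y2 z1; have := d_comm z2 w
  omega

theorem Inv.ecent_eq (I : Inv P v0 γ e S) {κ κ' : G} (hκ : ¬ S.Ell κ) (hκ' : ¬ S.Ell κ')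
    (h : κ * κ' = κ' * κ) : ECent κ = ECent κ' :=
  Set.ext fun _ => ⟨fun hh => I.cent_comm hκ hh h.symm, fun hh => I.cent_comm hκ' hh h⟩

theorem Inv.estab (I : Inv P v0 γ e S) {κ g : G} (hκ : ¬ S.Ell κ)
    (h : EConj g (ECent κ) = ECent κ) : g * κ = κ * g := by
  rw [econj_cent] at h
  have : g * κ * g⁻¹ ∈ ECent κ := by rw [← h]; exact rfl
  exact I.norm_comm hκ this

theorem Inv.exists_efam (I : Inv P v0 γ e S) :
    ∃ (C : Type) (_ : MulAction G C), Nonempty (EFam P S C) := by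
  have hδ := P.one_le
  have hσ := P.hσ
  have hΔ := P.hΔ
  refine ⟨ECone P S, I.econeAct, ⟨?_⟩⟩
  letI := I.econeAct
  refine
    { Y := fun c => EHull X P.δ c.1
      equi := fun g c y hy => ehull_smul g hy
      ne := ?_
      qc := fun c => (ehull_qc I.hyp c.1).mono (by omega)
      ovl := ?_
      nonell := ?_
      comm := ?_
      short := ?_
      mv := ?_ }
  · rintro ⟨E, κ, hκ, -, rfl⟩
    obtain ⟨x, hx⟩ := I.ecore_ne hκ
    exact ⟨x, x, hx, x, hx, btw_left x x⟩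
  · rintro ⟨E, κ, hκ, ⟨x, hx⟩, rfl⟩ ⟨E', κ', hκ', ⟨x', hx'⟩, rfl⟩ hne y1 hy1 y2 hy2 z1 hz1 z2 hz2
      h1 h2
    by_contra hc
    obtain ⟨w1, w2, b1, b2, c1, c2, c3, c4, c5⟩ :=
      elem_mid_pts y1 y2 (100 * (P.δ + P.σ + 1) + 2 * P.δ) P.A (by omega)
    have m1 := ehull_mv I.hyp hx hy1
    have m2 := ehull_mv I.hyp hx hy2
    have m3 := ehull_mv I.hyp hx' hz1
    have m4 := ehull_mv I.hyp hx' hz2
    have n1 := cv I.hyp κ (κ := 0) (z := w1) (by unfold Btw at b1; omega) m1 m2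
    have n2 := cv I.hyp κ (κ := 0) (z := w2) (by unfold Btw at b2; omega) m1 m2
    have n3 := cv I.hyp κ' (efam_btw I.hyp b1 h1 h2 c1 c2) m3 m4
    have n4 := cv I.hyp κ' (efam_btw I.hyp b2 h1 h2 c3 c4) m3 m4
    exact hne (Subtype.ext (I.ecent_eq hκ hκ' (I.i5b κ κ' hκ hκ' w1 w2 (by omega) (by omega)
      (by omega) (by omega) c5)))
  · rintro g ⟨E, κ, hκ, hx, rfl⟩ h h1
    exact I.cent_nonell hκ (I.estab hκ (congrArg Subtype.val h)) h1
  · rintro g h ⟨E, κ, hκ, hx, rfl⟩ h1 h2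
    exact I.cent_comm hκ (I.estab hκ (congrArg Subtype.val h1))
      (I.estab hκ (congrArg Subtype.val h2))
  · intro g x hg hx
    refine ⟨⟨ECent g, g, hg, ⟨x, hx⟩, rfl⟩, Subtype.ext ?_⟩
    show EConj g (ECent g) = ECent g
    rw [econj_cent, mul_inv_cancel_right]
  · rintro ⟨E, κ, hκ, ⟨x, hx⟩, rfl⟩
    refine ⟨κ, hκ, fun y hy y' hy' z hz => ?_⟩
    have := cv I.hyp κ (κ := 0) (z := z) (by unfold Btw at hz; omega) (ehull_mv I.hyp hx hy)
      (ehull_mv I.hyp hx hy')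
    omega

end Pool.Agent.QIB
end

-- merged part: Pool.Agent.Work.MP_9628a2_al.RFamA
section
set_option autoImplicit false

namespace Pool.Agent.QIB

variable {X : Type} [GSp X] {δ : ℕ}

/-- A bi-infinite pivot chain. -/
structure BC (δ : ℕ) (z : ℤ → X) : Prop where
  hyp : Hyp X δ
  hδ : 1 ≤ δ
  ne : ∀ n, z n ≠ z (n + 1)
  ang : ∀ n, ¬ Ang (z (n + 1)) (280 * δ + 40 * δ) (z n) (z (n + 2))

namespace BC

variable {z : ℤ → X}

theorem h0 (H : BC δ z) (a : ℤ) (n : ℕ) :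
    ∀ i : ℕ, i < n → z (a + i) ≠ z (a + (i + 1 : ℕ)) := fun i _ => by
  have := H.ne (a + i)
  rwa [show a + ((i + 1 : ℕ) : ℤ) = a + i + 1 by push_cast; ring]

theorem h1 (H : BC δ z) (a : ℤ) (n : ℕ) : ∀ i : ℕ, i + 2 ≤ n →
    ¬ Ang (z (a + (i + 1 : ℕ))) (280 * δ + 40 * δ) (z (a + i)) (z (a + (i + 2 : ℕ))) :=
  fun i _ => by
    have := H.ang (a + i)
    rwa [show a + ((i + 1 : ℕ) : ℤ) = a + i + 1 by push_cast; ring,
      show a + ((i + 2 : ℕ) : ℤ) = a + i + 2 by push_cast; ring]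

theorem not_ang (H : BC δ z) {a n b : ℤ} (h1 : a < n) (h2 : n < b) :
    ¬ Ang (z n) (280 * δ) (z a) (z b) := by
  have := (pivot_chain H.hyp H.hδ (fun i : ℕ => z (a + i)) (b - a).toNat (280 * δ) (H.h0 a _)
    (H.h1 a _) (n - a - 1).toNat (by omega)).2.2
  simp only [Nat.cast_zero, add_zero] at this
  rwa [show a + (((n - a - 1).toNat + 1 : ℕ) : ℤ) = n by omega,
    show a + (((b - a).toNat : ℕ) : ℤ) = b by omega] at this

theorem btw (H : BC δ z) {a n b : ℤ} (h1 : a ≤ n) (h2 : n ≤ b) : Btw (z a) (z n) (z b) := by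
  rcases eq_or_lt_of_le h1 with rfl | h1
  · exact btw_left _ _
  rcases eq_or_lt_of_le h2 with rfl | h2
  · exact btw_right _ _
  exact btw_of_not_ang H.hyp H.hδ (by omega) (H.not_ang h1 h2)

theorem le (H : BC δ z) (a b : ℤ) : (a - b).natAbs ≤ d (z a) (z b) := by
  have key : ∀ a b : ℤ, a ≤ b → (a - b).natAbs ≤ d (z a) (z b) := by
    intro a b h
    have := pivot_le H.hyp H.hδ (fun i : ℕ => z (a + i)) (b - a).toNat (280 * δ) (H.h0 a _)
      (H.h1 a _) (b - a).toNat le_rfl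
    simp only [Nat.cast_zero, add_zero] at this
    rw [show a + (((b - a).toNat : ℕ) : ℤ) = b by omega] at this
    omega
  rcases le_total a b with h | h
  · exact key a b h
  · have := key b a h
    rw [d_comm]; omega

theorem inj (H : BC δ z) {a b : ℤ} (h : z a = z b) : a = b := by
  have := H.le a b
  rw [h, d_self] at this
  omega

theorem cover (H : BC δ z) {a b : ℤ} (h : a < b) {w : X} (hw : Btw (z a) w (z b)) :
    ∃ n, a ≤ n ∧ n < b ∧ Btw (z n) w (z (n + 1)) := by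
  obtain ⟨i, hi, hi'⟩ := pivot_cover H.hyp H.hδ (fun i : ℕ => z (a + i)) (b - a - 1).toNat
    (280 * δ) (by omega) (H.h0 a _) (H.h1 a _) w (by
      simp only [Nat.cast_zero, add_zero]
      rwa [show a + (((b - a - 1).toNat + 1 : ℕ) : ℤ) = b by omega])
  refine ⟨a + i, by omega, by omega, ?_⟩
  rwa [show a + ((i + 1 : ℕ) : ℤ) = a + i + 1 by push_cast; ring] at hi'

theorem d_le (_ : BC δ z) {σ : ℕ} (hσ : ∀ n, d (z n) (z (n + 1)) ≤ σ) (a b : ℤ) :
    d (z a) (z b) ≤ (a - b).natAbs * σ := by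
  have key : ∀ (a : ℤ) (k : ℕ), d (z a) (z (a + k)) ≤ k * σ := by
    intro a k
    induction k with
    | zero => simp [d_self]
    | succ k ih =>
      have := hσ (a + k)
      have := d_tri (z a) (z (a + k)) (z (a + k + 1))
      rw [show a + ((k + 1 : ℕ) : ℤ) = a + k + 1 by push_cast; ring, Nat.succ_mul]
      omega
  rcases le_total a b with h | h
  · have := key a (a - b).natAbs
    rwa [show a + ((a - b).natAbs : ℤ) = b by omega] at this
  · have := key b (a - b).natAbs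
    rwa [show b + ((a - b).natAbs : ℤ) = a by omega, d_comm] at this

theorem qc (H : BC δ z) {σ : ℕ} (hσ : ∀ n, d (z n) (z (n + 1)) ≤ σ) :
    QC (Set.range z) σ := by
  have key : ∀ a b : ℤ, a < b → ∀ p, Btw (z a) p (z b) → ∃ q ∈ Set.range z, d p q ≤ σ := by
    intro a b h p hp
    obtain ⟨n, -, -, hn⟩ := H.cover h hp
    refine ⟨z (n + 1), ⟨_, rfl⟩, ?_⟩
    have := hσ n
    unfold Btw at hn
    omega
  rintro _ ⟨a, rfl⟩ _ ⟨b, rfl⟩ p hp
  rcases lt_trichotomy a b with h | rfl | h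
  · exact key a b h p hp
  · exact ⟨z a, ⟨_, rfl⟩, by rw [hp.eq_of_self, d_self]; omega⟩
  · exact key b a h p hp.symm

/-- A point off the chain that sees consecutive points under a small angle sees the whole
chain under a small angle. -/
theorem off (H : BC δ z) {w : X} (hw : ∀ n, w ≠ z n)
    (hl : ∀ n, Ang w (60 * δ) (z n) (z (n + 1))) (a b : ℤ) : Ang w (100 * δ) (z a) (z b) := by
  have key : ∀ a b : ℤ, a < b → Ang w (100 * δ) (z a) (z b) := by
    intro a b h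
    by_cases hb : Btw (z a) w (z b)
    swap
    · exact (bgi H.hyp H.hδ hb).mono (by omega)
    obtain ⟨n, h1, h2, h3⟩ := H.cover h hb
    have b1 := H.btw h1 (show n ≤ n + 1 by omega)
    have b2 := H.btw (show n ≤ n + 1 by omega) (show n + 1 ≤ b by omega)
    have p1 := d_pos (hw n)
    have p2 := d_pos (hw (n + 1))
    have c1 : ¬ Btw (z a) w (z n) := by
      have := (b1.trans_right h3).2
      unfold Btw at *
      omega
    have c2 : ¬ Btw (z (n + 1)) w (z b) := by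
      have := (h3.trans_left b2).2
      unfold Btw at *
      have := d_comm w (z (n + 1))
      omega
    exact (((bgi H.hyp H.hδ c1).trans (hl n) (hw n).symm).trans (bgi H.hyp H.hδ c2)
      (hw _).symm).mono (by omega)
  rcases lt_trichotomy a b with h | rfl | h
  · exact key a b h
  · exact (ang_self H.hyp H.hδ _ _).mono (by omega)
  · exact (key b a h).symm

/-- Inner points of the chain see nearby points under a large angle. -/
theorem inner (H : BC δ z) {a n b : ℤ} {κ : ℕ} (h1 : a + κ < n) (h2 : n + κ < b) {w w' : X}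
    (hw : d (z a) w ≤ κ) (hw' : d (z b) w' ≤ κ) : ¬ Ang (z n) (240 * δ) w w' := by
  intro h
  have e1 := H.le a n
  have e2 := H.le b n
  have c1 : ¬ Btw (z a) (z n) w := by unfold Btw; omega
  have c2 : ¬ Btw (z b) (z n) w' := by unfold Btw; omega
  exact H.not_ang (show a < n by omega) (show n < b by omega)
    ((((bgi H.hyp H.hδ c1).trans h (ne_right_of_not_btw c1)).trans (bgi H.hyp H.hδ c2).symm
      (ne_right_of_not_btw c2)).mono (by omega))

/-- Two chains with a long overlap share a long segment. -/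
theorem window (H : BC δ z) {z' : ℤ → X} (H' : BC δ z')
    (hl : ∀ m n, z' m ≠ z n → z' m ≠ z (n + 1) → Ang (z' m) (60 * δ) (z n) (z (n + 1)))
    (hl' : ∀ m n, z m ≠ z' n → z m ≠ z' (n + 1) → Ang (z m) (60 * δ) (z' n) (z' (n + 1)))
    {a b a' b' : ℤ} {κ : ℕ} (hab : a + 2 * κ + 16 ≤ b) (h1 : d (z a) (z' a') ≤ κ)
    (h2 : d (z b) (z' b') ≤ κ) :
    ∃ n m : ℤ, (∀ j : ℕ, j ≤ 14 → z (n + j) = z' (m + j)) ∨
      (∀ j : ℕ, j ≤ 14 → z (n + j) = z' (m - j)) := by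
  have mem : ∀ j : ℕ, j ≤ 14 → ∃ m, z (a + κ + 1 + j) = z' m := by
    intro j hj
    by_contra hc
    push Not at hc
    exact H.inner (by omega) (by omega) h1 h2
      ((H'.off hc (fun n => hl' _ n (hc n) (hc _)) a' b').mono (by omega))
  choose! m hm using mem
  have adj : ∀ j : ℕ, j + 1 ≤ 14 → m (j + 1) = m j + 1 ∨ m (j + 1) = m j - 1 := by
    intro j hj
    have e1 := hm j (by omega)
    have e2 := hm (j + 1) hj
    rw [show a + κ + 1 + ((j + 1 : ℕ) : ℤ) = a + κ + 1 + j + 1 by push_cast; ring] at e2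
    have hne : m j ≠ m (j + 1) := fun e => H.ne _ (e1.trans (e ▸ e2.symm))
    by_contra hc
    have key : ∀ k, k ≠ m j → k ≠ m (j + 1) → Ang (z' k) (280 * δ) (z' (m j)) (z' (m (j + 1))) := by
      intro k k1 k2
      rw [← e1, ← e2]
      exact (hl k _ (fun e => k1 (H'.inj (e.trans e1))) (fun e => k2 (H'.inj (e.trans e2)))).mono
        (by omega)
    rcases lt_or_gt_of_ne hne with h | h
    · exact H'.not_ang (show m j < m j + 1 by omega) (by omega) (key _ (by omega) (by omega))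
    · exact H'.not_ang (show m (j + 1) < m j - 1 by omega) (by omega)
        (key _ (by omega) (by omega)).symm
  have ne2 : ∀ j : ℕ, j + 2 ≤ 14 → m (j + 2) ≠ m j := by
    intro j hj e
    have := H.inj ((hm (j + 2) hj).trans (e ▸ (hm j (by omega)).symm))
    push_cast at this
    omega
  refine ⟨a + κ + 1, m 0, ?_⟩
  rcases adj 0 (by omega) with h | h
  · left
    have : ∀ j : ℕ, j + 1 ≤ 14 → m j = m 0 + j ∧ m (j + 1) = m 0 + j + 1 := by
      intro j
      induction j with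
      | zero => intro _; exact ⟨by simp, by simpa using h⟩
      | succ j ih =>
        intro hj
        obtain ⟨i1, i2⟩ := ih (by omega)
        have := adj (j + 1) hj
        have := ne2 j (by omega)
        simp only [show j + 2 = j + 1 + 1 from rfl] at this
        push_cast
        omega
    intro j hj
    rw [hm j hj]
    cases j with
    | zero => simp
    | succ j => rw [(this j hj).2]; push_cast; ring_nf
  · right
    have : ∀ j : ℕ, j + 1 ≤ 14 → m j = m 0 - j ∧ m (j + 1) = m 0 - j - 1 := by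
      intro j
      induction j with
      | zero => intro _; exact ⟨by simp, by simpa using h⟩
      | succ j ih =>
        intro hj
        obtain ⟨i1, i2⟩ := ih (by omega)
        have := adj (j + 1) hj
        have := ne2 j (by omega)
        simp only [show j + 2 = j + 1 + 1 from rfl] at this
        push_cast
        omega
    intro j hj
    rw [hm j hj]
    cases j with
    | zero => simp
    | succ j => rw [(this j hj).2]; push_cast; ring_nf

theorem smul {G : Type} [Group G] [MulAction G X] [Iso G X] (H : BC δ z) (g : G) :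
    BC δ (fun n => g • z n) where
  hyp := H.hyp
  hδ := H.hδ
  ne := fun n h => H.ne n (MulAction.injective g h)
  ang := fun n h => H.ang n ((ang_smul g _ _ _ _).1 h)

end BC

section Alg
variable {G : Type} [Group G] [MulAction G X]

omit [GSp X] in
theorem pow_fix {f : G} {c : X} (h : f • c = c) (k : ℕ) : f ^ k • c = c :=
  (MulAction.stabilizer G c).pow_mem h k

omit [GSp X] in
theorem alg_plus (tf : ∀ (g : G) (i : ℕ), i ≠ 0 → g ^ i = 1 → g = 1) {c c' : X} {f h f' h' : G}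
    (hc : ∀ a b : G, a • c = c → b • c = c → a * b = b * a)
    (ht : ∀ a : G, a • c = c → a • h • c = h • c → a = 1) (hf : f • c = c) (hf1 : f ≠ 1)
    (hf' : f' • c' = c') (H : ℕ → G) (hH : ∀ j, j ≤ 4 → H j • c' = c) (k0 α β : ℕ)
    (hr : ∀ j, j ≤ 3 → f ^ (k0 + (α + j) ^ 2) * h * H (j + 1) =
      H j * (f' ^ (k0 + (β + j) ^ 2) * h')) :
    α = β ∧ H 1 * f' * (H 1)⁻¹ = f ∧ H 1 * h' * (H 1)⁻¹ = h := by
  have hi : ∀ j, j ≤ 4 → (H j)⁻¹ • c = c' := fun j hj => inv_smul_eq_iff.2 (hH j hj).symm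
  have e : ∀ j, j ≤ 3 → H (j + 1) = H 1 := by
    intro j hj
    have r1 := hr j hj
    have r0 := hr 0 (by omega)
    generalize hA : f ^ (k0 + (α + j) ^ 2) = A at r1
    generalize hB : f' ^ (k0 + (β + j) ^ 2) = B at r1
    generalize hA0 : f ^ (k0 + (α + 0) ^ 2) = A0 at r0
    generalize hB0 : f' ^ (k0 + (β + 0) ^ 2) = B0 at r0
    have a1 : A • c = c := hA ▸ pow_fix hf _
    have a2 : A0 • c = c := hA0 ▸ pow_fix hf _
    have a3 : B • c' = c' := hB ▸ pow_fix hf' _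
    have a4 : B0 • c' = c' := hB0 ▸ pow_fix hf' _
    have key : h * (H (j + 1) * (H (0 + 1))⁻¹) * h⁻¹ = A⁻¹ * H j * B * B0⁻¹ * (H 0)⁻¹ * A0 := by
      have q1 : H (j + 1) = h⁻¹ * A⁻¹ * (H j * (B * h')) := by rw [← r1]; group
      have q0 : H (0 + 1) = h⁻¹ * A0⁻¹ * (H 0 * (B0 * h')) := by rw [← r0]; group
      rw [q1, q0]; group
    have := ht (h * (H (j + 1) * (H (0 + 1))⁻¹) * h⁻¹) (by
      rw [key]
      simp only [mul_smul]
      rw [a2, hi 0 (by omega), inv_smul_eq_iff.2 a4.symm, a3, hH j (by omega),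
        inv_smul_eq_iff.2 a1.symm]) (by
      simp only [mul_smul, inv_smul_smul]
      rw [hi _ (by omega), hH _ (by omega)])
    have h2 : H (j + 1) * (H (0 + 1))⁻¹ = 1 := by
      rw [show H (j + 1) * (H (0 + 1))⁻¹ = h⁻¹ * (h * (H (j + 1) * (H (0 + 1))⁻¹) * h⁻¹) * h by
        group, this]; group
    exact mul_inv_eq_one.1 h2
  set p := H 1 * f' * (H 1)⁻¹ with hp
  set q := H 1 * h' * (H 1)⁻¹ with hq
  have r : ∀ j, 1 ≤ j → j ≤ 3 → f ^ (k0 + (α + j) ^ 2) * h = p ^ (k0 + (β + j) ^ 2) * q := by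
    intro j h1 h3
    have := hr j h3
    rw [e j h3, show j = (j - 1) + 1 by omega, e (j - 1) (by omega),
      show (j - 1) + 1 = j by omega] at this
    rw [hp, hq, conj_pow, ← mul_left_inj (H 1), this]; group
  have dif : ∀ j, 1 ≤ j → j ≤ 2 → f ^ (2 * (α + j) + 1) = p ^ (2 * (β + j) + 1) := by
    intro j h1 h2
    have r1 := r j h1 (by omega)
    have r2 := r (j + 1) (by omega) (by omega)
    rw [show k0 + (α + (j + 1)) ^ 2 = (2 * (α + j) + 1) + (k0 + (α + j) ^ 2) by ring,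
      show k0 + (β + (j + 1)) ^ 2 = (2 * (β + j) + 1) + (k0 + (β + j) ^ 2) by ring,
      pow_add f (2 * (α + j) + 1), pow_add p (2 * (β + j) + 1), mul_assoc, mul_assoc, r1] at r2
    exact mul_right_cancel r2
  have hpc : p • c = c := by rw [hp, mul_smul, mul_smul, hi 1 (by omega), hf', hH 1 (by omega)]
  have d1 := dif 1 le_rfl (by omega)
  have d2 := dif 2 (by omega) le_rfl
  rw [show 2 * (α + 2) + 1 = (2 * (α + 1) + 1) + 2 by ring,
    show 2 * (β + 2) + 1 = (2 * (β + 1) + 1) + 2 by ring, pow_add f _ 2, pow_add p _ 2, d1] at d2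
  have d3 := mul_left_cancel d2
  have cm : Commute f p := hc f p hf hpc
  have hfp : f = p := by
    have := tf (f * p⁻¹) 2 (by omega) (by rw [cm.inv_right.mul_pow, d3]; group)
    exact mul_inv_eq_one.1 this
  rw [← hfp] at d1
  have hαβ : α = β := by
    by_contra hne
    rcases Nat.lt_or_gt_of_ne hne with hlt | hlt
    · refine hf1 (tf f (2 * (β - α)) (by omega) ?_)
      rw [show 2 * (β + 1) + 1 = (2 * (α + 1) + 1) + 2 * (β - α) by omega,
        pow_add f _ (2 * (β - α))] at d1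
      exact (left_eq_mul.1 d1)
    · refine hf1 (tf f (2 * (α - β)) (by omega) ?_)
      rw [show 2 * (α + 1) + 1 = (2 * (β + 1) + 1) + 2 * (α - β) by omega,
        pow_add f _ (2 * (α - β))] at d1
      exact (mul_eq_left.1 d1)
  refine ⟨hαβ, hfp.symm, ?_⟩
  have := r 1 le_rfl (by omega)
  rw [← hfp, hαβ] at this
  exact (mul_left_cancel this).symm

omit [GSp X] in
theorem alg_minus (tf : ∀ (g : G) (i : ℕ), i ≠ 0 → g ^ i = 1 → g = 1) {c c' : X} {f h f' h' : G}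
    (hc : ∀ a b : G, a • c = c → b • c = c → a * b = b * a)
    (ht : ∀ a : G, a • c = c → a • h • c = h • c → a = 1) (hf : f • c = c) (hf1 : f ≠ 1)
    (hf' : f' • c' = c') (H : ℕ → G) (hH : ∀ j, j ≤ 4 → H j • c' = c) (k0 α β : ℕ)
    (hr : ∀ j, j ≤ 3 → f ^ (k0 + (α + j) ^ 2) * h * H (j + 1) *
      (f' ^ (k0 + (β + (3 - j)) ^ 2) * h') = H j) : False := by
  have hi : ∀ j, j ≤ 4 → (H j)⁻¹ • c = c' := fun j hj => inv_smul_eq_iff.2 (hH j hj).symm
  have e : ∀ j, j ≤ 3 → H (j + 1) * f' ^ (k0 + (β + (3 - j)) ^ 2) =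
      H 1 * f' ^ (k0 + (β + (3 - 0)) ^ 2) ∧
      (f ^ (k0 + (α + j) ^ 2))⁻¹ * H j = (f ^ (k0 + (α + 0) ^ 2))⁻¹ * H 0 := by
    intro j hj
    have r1 := hr j hj
    have r0 := hr 0 (by omega)
    generalize hA : f ^ (k0 + (α + j) ^ 2) = A at *
    generalize hB : f' ^ (k0 + (β + (3 - j)) ^ 2) = B at *
    generalize hA0 : f ^ (k0 + (α + 0) ^ 2) = A0 at *
    generalize hB0 : f' ^ (k0 + (β + (3 - 0)) ^ 2) = B0 at *
    have a1 : A • c = c := hA ▸ pow_fix hf _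
    have a2 : A0 • c = c := hA0 ▸ pow_fix hf _
    have a3 : B • c' = c' := hB ▸ pow_fix hf' _
    have a4 : B0 • c' = c' := hB0 ▸ pow_fix hf' _
    have key : h * (H (j + 1) * B * (H (0 + 1) * B0)⁻¹) * h⁻¹ = A⁻¹ * H j * (A0⁻¹ * H 0)⁻¹ := by
      conv_rhs => rw [← r1, ← r0]
      group
    have := ht (h * (H (j + 1) * B * (H (0 + 1) * B0)⁻¹) * h⁻¹) (by
      rw [key]
      simp only [mul_inv_rev, inv_inv, mul_smul]
      rw [a2, hi 0 (by omega), hH j (by omega), inv_smul_eq_iff.2 a1.symm]) (by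
      simp only [mul_inv_rev, mul_smul, inv_smul_smul]
      rw [hi _ (by omega), inv_smul_eq_iff.2 a4.symm, a3, hH _ (by omega)])
    refine ⟨?_, ?_⟩
    · have h2 : H (j + 1) * B * (H (0 + 1) * B0)⁻¹ = 1 := by
        rw [show H (j + 1) * B * (H (0 + 1) * B0)⁻¹ =
          h⁻¹ * (h * (H (j + 1) * B * (H (0 + 1) * B0)⁻¹) * h⁻¹) * h by group, this]; group
      exact mul_inv_eq_one.1 h2
    · rw [key] at this
      exact mul_inv_eq_one.1 this
  obtain ⟨b, hb⟩ : ∃ b, b = (f ^ (k0 + (α + 0) ^ 2))⁻¹ * H 0 := ⟨_, rfl⟩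
  obtain ⟨p, hp⟩ : ∃ p, p = b * f' * b⁻¹ := ⟨_, rfl⟩
  rw [← hb] at e
  have hbc : b • c' = c := by
    rw [hb, mul_smul, hH 0 (by omega)]; exact inv_smul_eq_iff.2 (pow_fix hf _).symm
  have hpc : p • c = c := by
    rw [hp, mul_smul, mul_smul, inv_smul_eq_iff.2 hbc.symm, hf', hbc]
  have hj : ∀ j, j ≤ 3 → H j = f ^ (k0 + (α + j) ^ 2) * b := fun j hj => by
    rw [← (e j hj).2]; group
  have dif : ∀ j, j ≤ 1 → f ^ (2 * (α + j) + 3) = p ^ (2 * (β + (2 - j)) + 1) := by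
    intro j h1
    have r1 := (e j (by omega)).1
    have r2 := (e (j + 1) (by omega)).1
    rw [← r2, hj (j + 1) (by omega), hj (j + 1 + 1) (by omega),
      show k0 + (α + (j + 1 + 1)) ^ 2 = (k0 + (α + (j + 1)) ^ 2) + (2 * (α + j) + 3) by ring,
      show 3 - j = (2 - j) + 1 by omega, show 3 - (j + 1) = 2 - j by omega,
      show k0 + (β + (2 - j + 1)) ^ 2 = (2 * (β + (2 - j)) + 1) + (k0 + (β + (2 - j)) ^ 2) by ring,
      pow_add f _ (2 * (α + j) + 3), pow_add f' (2 * (β + (2 - j)) + 1), ← mul_assoc] at r1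
    have r3 := mul_right_cancel r1
    rw [mul_assoc, mul_assoc] at r3
    have r4 := mul_left_cancel r3
    rw [hp, conj_pow, r4]; group
  have d1 := dif 0 (by omega)
  have d2 := dif 1 le_rfl
  have cm : Commute f p := hc f p hf hpc
  have d3 : (f * p) ^ 2 = 1 := by
    have q1 : p ^ (2 * (β + (2 - 0)) + 1) = p ^ (2 * (β + (2 - 1)) + 1) * p ^ 2 := by
      rw [← pow_add]; congr 1
    have q2 : f ^ (2 * (α + 1) + 3) = f ^ (2 * (α + 0) + 3) * f ^ 2 := by
      rw [← pow_add]; congr 1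
    rw [q1, ← d2, q2, mul_assoc] at d1
    rw [cm.mul_pow]; exact left_eq_mul.1 d1
  have d4 : p = f⁻¹ := eq_inv_of_mul_eq_one_right (tf _ 2 (by omega) d3)
  rw [d4, inv_pow] at d2
  refine hf1 (tf f (2 * (α + 1) + 3 + (2 * (β + (2 - 1)) + 1)) (by omega) ?_)
  rw [pow_add, d2]; group

end Alg

section U
variable {G : Type} [Group G]

/-- Initial products of the steps. -/
def preW (s : ℕ → G) (l : ℕ) : G := ((List.range l).map s).prod

theorem preW_succ (s : ℕ → G) (l : ℕ) : preW s (l + 1) = preW s l * s l := by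
  simp [preW, List.range_succ]

/-- The bi-infinite periodic product. -/
def uW (s : ℕ → G) (N : ℕ) (n : ℤ) : G := preW s N ^ (n / N) * preW s (n % N).toNat

theorem uW_add (s : ℕ → G) {N : ℕ} (hN : 0 < N) (n t : ℤ) :
    uW s N (n + N * t) = preW s N ^ t * uW s N n := by
  unfold uW
  rw [Int.add_mul_ediv_left _ _ (by omega), Int.add_mul_emod_self_left, add_comm, zpow_add,
    mul_assoc]

theorem uW_succ (s : ℕ → G) {N : ℕ} (hN : 0 < N) (n : ℤ) :
    uW s N (n + 1) = uW s N n * s (n % N).toNat := by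
  have h0 : (0 : ℤ) ≤ n % N := Int.emod_nonneg _ (by omega)
  have h1 : n % N < N := Int.emod_lt_of_pos _ (by omega)
  have h2 := Int.mul_ediv_add_emod n N
  by_cases hc : n % N + 1 < N
  · obtain ⟨e1, e2⟩ := (Int.ediv_emod_unique (a := n + 1) (r := n % N + 1) (q := n / N)
      (show (0 : ℤ) < N by omega)).2 ⟨by omega, by omega, hc⟩
    unfold uW
    rw [e1, e2, show (n % N + 1).toNat = (n % N).toNat + 1 by omega, preW_succ, mul_assoc]
  · obtain ⟨e1, e2⟩ := (Int.ediv_emod_unique (a := n + 1) (r := 0) (q := n / N + 1)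
      (show (0 : ℤ) < N by omega)).2 ⟨by rw [mul_add]; omega, le_rfl, by omega⟩
    unfold uW
    rw [e1, e2, mul_assoc, ← preW_succ, show (n % N).toNat + 1 = N by omega, zpow_add_one]
    simp [preW]

theorem uW_zero (s : ℕ → G) (N : ℕ) : uW s N 0 = 1 := by simp [uW, preW]

theorem emod_step {N : ℕ} (n : ℤ) (j : ℕ) (h : (n % N).toNat + j < N) :
    ((n + j) % N).toNat = (n % N).toNat + j := by
  have h0 : (0 : ℤ) ≤ n % N := Int.emod_nonneg _ (by omega)
  have h2 := Int.mul_ediv_add_emod n N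
  obtain ⟨-, e2⟩ := (Int.ediv_emod_unique (a := n + j) (r := n % N + j) (q := n / N)
    (show (0 : ℤ) < N by omega)).2 ⟨by omega, by omega, by omega⟩
  omega

theorem emod_shift {N : ℕ} (hN : 100 ≤ N) (n : ℤ) (j : ℕ) (hj : j ≤ 20) :
    (((n + j) % N).toNat = (n % N).toNat + j ∧ (n % N).toNat + j < N) ∨
    (((n + j) % N).toNat + N = (n % N).toNat + j ∧ (n % N).toNat < N) := by
  by_cases h : (n % N).toNat + j < N
  · exact Or.inl ⟨emod_step n j h, h⟩
  · have h0 : (0 : ℤ) ≤ n % N := Int.emod_nonneg _ (by omega)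
    have h1 : n % N < N := Int.emod_lt_of_pos _ (by omega)
    have h2 := Int.mul_ediv_add_emod n N
    obtain ⟨-, e2⟩ := (Int.ediv_emod_unique (a := n + j) (r := n % N + j - N) (q := n / N + 1)
      (show (0 : ℤ) < N by omega)).2 ⟨by rw [mul_add]; omega, by omega, by omega⟩
    exact Or.inr ⟨by omega, by omega⟩

theorem reg_plus {N : ℕ} (hN : 100 ≤ N) (n m : ℤ) : ∃ j : ℕ, j ≤ 10 ∧
    ((n + j) % N).toNat + 5 ≤ N ∧ ((m + j) % N).toNat + 5 ≤ N := by
  by_contra hc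
  push Not at hc
  have a0 := hc 0 (by omega); have a5 := hc 5 (by omega); have a10 := hc 10 (by omega)
  have := emod_shift hN n 0 (by omega); have := emod_shift hN n 5 (by omega)
  have := emod_shift hN n 10 (by omega); have := emod_shift hN m 0 (by omega)
  have := emod_shift hN m 5 (by omega); have := emod_shift hN m 10 (by omega)
  omega

theorem reg_minus {N : ℕ} (hN : 100 ≤ N) (n m : ℤ) : ∃ j : ℕ, j ≤ 10 ∧
    ((n + j) % N).toNat + 5 ≤ N ∧ ((m - 14 + (10 - j : ℕ)) % N).toNat + 5 ≤ N := by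
  by_contra hc
  push Not at hc
  have a0 := hc 0 (by omega); have a5 := hc 5 (by omega); have a10 := hc 10 (by omega)
  have := emod_shift hN n 0 (by omega); have := emod_shift hN n 5 (by omega)
  have := emod_shift hN n 10 (by omega); have := emod_shift hN (m - 14) 0 (by omega)
  have := emod_shift hN (m - 14) 5 (by omega); have := emod_shift hN (m - 14) 10 (by omega)
  simp only [Nat.sub_zero, Nat.sub_self, show 10 - 5 = 5 from rfl] at *
  omega

end U

end Pool.Agent.QIB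
end

-- merged part: Pool.Agent.Work.MP_9628a2_al.RFamB
section
set_option autoImplicit false
set_option linter.unusedSectionVars false

namespace Pool.Agent.QIB

variable {G0 T G X : Type} [Group G0] [Group G] [MulAction G X] [GSp X]

/-- Normalised pairs. -/
structure Nm (P : Par) (S : SD G0 T G X) (v0 : T) (γ : ℕ → G0) (f h : G) (c : X) : Prop where
  cF : c ∈ S.F
  f1 : f ≠ 1
  fc : f • c = c
  hc : h • c ≠ c
  gc : ∀ i, i ≤ P.n → S.π (γ i) • c ≠ c
  fx : d (S.ι v0) (f • S.ι v0) ≤ P.ε4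
  hx : d (S.ι v0) (h • S.ι v0) ≤ P.ε4

/-- The translating letters of a relator. -/
def qW (P : Par) (g h : G) (l : ℕ) : G := if l = P.N - 1 then g⁻¹ else h

/-- The steps of a relator. -/
def sW (P : Par) (g f h : G) (i l : ℕ) : G := f ^ (P.k0 + (i * P.N + l) ^ 2) * qW P g h l

/-- The pivots of a relator chain. -/
def zW (P : Par) (g f h : G) (i : ℕ) (c : X) (n : ℤ) : X := uW (sW P g f h i) P.N n • c

theorem Par.N_ge (P : Par) : 100 ≤ P.N := by
  have h1 := P.hN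
  have h2 := P.one_le
  have h3 : 1 ≤ P.R := by have := P.hR; omega
  have h4 : 1 ≤ P.R * 2 ^ P.ρ := Nat.mul_pos h3 (by positivity)
  have h5 : 1 ≤ 20 * P.δ * (P.R * 2 ^ P.ρ) := Nat.mul_pos (by omega) h4
  nlinarith

theorem preW_sW (P : Par) (g f h : G) (i : ℕ) :
    preW (sW P g f h i) P.N = vw P.N P.k0 i f h * g⁻¹ := by
  have hN := P.N_ge
  conv_lhs => rw [show P.N = (P.N - 1) + 1 by omega]
  rw [preW_succ, vw, mul_assoc]
  congr 1
  · unfold preW
    congr 1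
    refine List.map_congr_left fun l hl => ?_
    have := List.mem_range.1 hl
    rw [sW, qW, if_neg (by omega)]
  · rw [sW, qW, if_pos rfl]

variable [Iso G X] [MulAction G0 T] {P : Par} {v0 : T} {γ : ℕ → G0} {e : G0} {S : SD G0 T G X}
  {f h : G} {c : X}

theorem Nm.eq_of_fix (I : Inv P v0 γ e S) (H : Nm P S v0 γ f h c) {w : X} (hw : w ∈ S.F)
    (hd : d w (f • w) < 2 * P.ρ) : w = c := by
  have : f • w = w := by
    by_contra hne
    have := I.F_sep w hw _ (I.F_smul f w hw) (Ne.symm hne)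
    omega
  exact I.k0 f H.f1 c (I.F_sub H.cF) w (S.E_mem (I.F_sub hw)) H.fc this

theorem Nm.not_btw1 (I : Inv P v0 γ e S) (H : Nm P S v0 γ f h c) {w : X} (hw : w ∈ S.F)
    (hc : w ≠ c) : ¬ Btw c w (S.ι v0) := fun hb => by
  have := cv I.hyp f (κ := 0) (D := P.ε4) (le_of_eq hb) (by rw [H.fc, d_self]; omega) H.fx
  have := P.hρ; have := P.one_le
  exact hc (H.eq_of_fix I hw (by omega))

theorem Nm.ang_loc (I : Inv P v0 γ e S) (H : Nm P S v0 γ f h c) {q : G}
    (hq : d (S.ι v0) (q • S.ι v0) ≤ P.ε4) {w : X} (hw : w ∈ S.F) (h1 : w ≠ c) (h2 : w ≠ q • c) :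
    Ang w (60 * P.δ) c (q • c) := by
  have c1 := H.not_btw1 I hw h1
  have c2 : ¬ Btw (S.ι v0) w (q • S.ι v0) := fun hb => by
    have := d_move_le f w (S.ι v0)
    have := H.fx
    have := P.hρ; have := P.one_le
    have := d_comm w (S.ι v0)
    unfold Btw at hb
    exact h1 (H.eq_of_fix I hw (by omega))
  have c3 : ¬ Btw (q • S.ι v0) w (q • c) := fun hb =>
    H.not_btw1 I (I.F_smul q⁻¹ w hw) (fun e => h2 (inv_smul_eq_iff.1 e)) (by
      rw [← btw_smul q]; simpa using hb.symm)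
  exact (((bgi I.hyp P.one_le c1).trans (bgi I.hyp P.one_le c2) (ne_left_of_not_btw c2)).trans
    (bgi I.hyp P.one_le c3) (ne_left_of_not_btw c3)).mono (by omega)

theorem Nm.ang_x (I : Inv P v0 γ e S) (H : Nm P S v0 γ f h c) {q : G}
    (hq : d (S.ι v0) (q • S.ι v0) ≤ P.ε4) (hc : q • c ≠ c) :
    Ang c (40 * P.δ) (S.ι v0) (q • c) ∧ S.ι v0 ≠ c := by
  have e1 := I.F_sep c H.cF _ (I.F_smul q c H.cF) hc.symm
  have e2 := d_move_le q c (S.ι v0)
  have := P.hρ; have := P.one_le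
  have := d_comm c (S.ι v0)
  have c1 : ¬ Btw (S.ι v0) c (q • S.ι v0) := by unfold Btw; omega
  have c2 : ¬ Btw (q • S.ι v0) c (q • c) := by
    unfold Btw
    rw [d_smul]
    have := d_tri (S.ι v0) (q • S.ι v0) c
    omega
  exact ⟨((bgi I.hyp P.one_le c1).trans (bgi I.hyp P.one_le c2) (ne_left_of_not_btw c2)).mono
    (by omega), ne_left_of_not_btw c1⟩

theorem Nm.d_le (I : Inv P v0 γ e S) (H : Nm P S v0 γ f h c) {q : G}
    (hq : d (S.ι v0) (q • S.ι v0) ≤ P.ε4) : d c (q • c) ≤ P.σ := by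
  obtain ⟨z, h1, h2, h3⟩ := exists_mid I.hyp f H.fc (S.ι v0)
  have := I.i5a f H.f1 c (S.E_mem (I.F_sub H.cF)) H.fc z (by omega)
  have := d_move_le q c (S.ι v0)
  have := H.fx; have := P.hσ; have := P.one_le
  have := d_comm c (S.ι v0)
  unfold Btw at h1
  omega

theorem Nm.q_ok (I : Inv P v0 γ e S) (H : Nm P S v0 γ f h c) {i : ℕ} (hi : i ≤ P.n) (l : ℕ) :
    d (S.ι v0) (qW P (S.π (γ i)) h l • S.ι v0) ≤ P.ε4 ∧ qW P (S.π (γ i)) h l • c ≠ c := by
  unfold qW
  split_ifs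
  · refine ⟨?_, fun e => H.gc i hi (inv_smul_eq_iff.1 e).symm⟩
    rw [d_smul_inv]
    have := (I.gam i hi).2; have := P.hε4; have := P.hB0
    omega
  · exact ⟨H.hx, H.hc⟩

theorem zW_eq (P : Par) (g f h : G) (i : ℕ) {c : X} (hf : f • c = c) (n : ℤ) : ∃ (u : G) (l : ℕ),
    zW P g f h i c n = u • c ∧ zW P g f h i c (n + 1) = u • qW P g h l • c ∧
    uW (sW P g f h i) P.N (n + 1) = u * qW P g h l := by
  have hN := P.N_ge
  refine ⟨uW (sW P g f h i) P.N n * f ^ (P.k0 + (i * P.N + (n % P.N).toNat) ^ 2),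
    (n % P.N).toNat, ?_, ?_, ?_⟩
  · rw [mul_smul, pow_fix hf, zW]
  · rw [zW, uW_succ _ (by omega), sW, ← mul_assoc, mul_smul]
  · rw [uW_succ _ (by omega), sW, ← mul_assoc]

theorem Nm.bc (I : Inv P v0 γ e S) (H : Nm P S v0 γ f h c) {i : ℕ} (hi : i ≤ P.n) :
    BC P.δ (zW P (S.π (γ i)) f h i c) where
  hyp := I.hyp
  hδ := P.one_le
  ne := fun n => by
    obtain ⟨u, l, h1, h2, -⟩ := zW_eq P (S.π (γ i)) f h i H.fc n
    rw [h1, h2]
    exact fun e => (H.q_ok I hi l).2 (MulAction.injective u e).symm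
  ang := fun n => by
    have hN := P.N_ge
    obtain ⟨u, l, h1, h2, h3⟩ := zW_eq P (S.π (γ i)) f h i H.fc n
    have h4 : zW P (S.π (γ i)) f h i c (n + 2) = (u * qW P (S.π (γ i)) h l) •
        f ^ (P.k0 + (i * P.N + ((n + 1) % P.N).toNat) ^ 2) •
          qW P (S.π (γ i)) h ((n + 1) % P.N).toNat • c := by
      rw [zW, show n + 2 = (n + 1) + 1 by ring, uW_succ _ (by omega), h3, sW, mul_smul (u * _), mul_smul (f ^ _)]
    obtain ⟨a1, a2⟩ := H.q_ok I hi l
    obtain ⟨b1, b2⟩ := H.q_ok I hi ((n + 1) % P.N).toNat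
    generalize qW P (S.π (γ i)) h ((n + 1) % P.N).toNat = q' at *
    generalize qW P (S.π (γ i)) h l = q at *
    rw [h1, h2, h4, ← mul_smul, show u • c = (u * q) • q⁻¹ • c by rw [mul_smul, smul_inv_smul],
      ang_smul]
    intro ha
    have a3 : q⁻¹ • c ≠ c := fun e => a2 (inv_smul_eq_iff.1 e).symm
    obtain ⟨c1, c2⟩ := H.ang_x I (q := q⁻¹) (by rw [d_smul_inv]; exact a1) a3
    obtain ⟨c3, -⟩ := H.ang_x I b1 b2
    exact not_ang_of_rot (pow_fix H.fc _)
      (I.F_rot c H.cF f H.f1 H.fc _ (Nat.le_add_right _ _)) b2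
      (((c3.symm.trans c1 c2).trans ha a3).mono (by omega))

theorem Nm.z_step (I : Inv P v0 γ e S) (H : Nm P S v0 γ f h c) {i : ℕ} (hi : i ≤ P.n) (n : ℤ) :
    d (zW P (S.π (γ i)) f h i c n) (zW P (S.π (γ i)) f h i c (n + 1)) ≤ P.σ := by
  obtain ⟨u, l, h1, h2, -⟩ := zW_eq P (S.π (γ i)) f h i H.fc n
  rw [h1, h2, d_smul]
  exact H.d_le I (H.q_ok I hi l).1

theorem Nm.z_loc (I : Inv P v0 γ e S) (H : Nm P S v0 γ f h c) {i : ℕ} (hi : i ≤ P.n) (g : G)
    (n : ℤ) {w : X} (hw : w ∈ S.F) (h1 : w ≠ g • zW P (S.π (γ i)) f h i c n)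
    (h2 : w ≠ g • zW P (S.π (γ i)) f h i c (n + 1)) :
    Ang w (60 * P.δ) (g • zW P (S.π (γ i)) f h i c n) (g • zW P (S.π (γ i)) f h i c (n + 1)) := by
  obtain ⟨u, l, a1, a2, -⟩ := zW_eq P (S.π (γ i)) f h i H.fc n
  rw [a1, ← mul_smul] at h1
  rw [a2, ← mul_smul g u] at h2
  rw [a1, a2, ← mul_smul, ← mul_smul g u]
  have := (H.ang_loc I (H.q_ok I hi l).1 (I.F_smul (g * u)⁻¹ w hw)
    (fun e => h1 (inv_smul_eq_iff.1 e)) (fun e => h2 (inv_smul_eq_iff.1 e))).smul (g * u)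
  rwa [smul_inv_smul] at this

theorem Nm.z_mem (I : Inv P v0 γ e S) (H : Nm P S v0 γ f h c) (g : G) (i : ℕ) (n : ℤ) :
    zW P g f h i c n ∈ S.F := I.F_smul _ c H.cF

theorem Nm.triv (I : Inv P v0 γ e S) (H : Nm P S v0 γ f h c) (a : G) (h1 : a • c = c)
    (h2 : a • h • c = h • c) : a = 1 := by
  by_contra hne
  exact H.hc (I.k0 a hne c (I.F_sub H.cF) _ (S.E_mem (I.F_sub (I.F_smul h c H.cF))) h1 h2)

theorem Nm.unique (I : Inv P v0 γ e S) (H : Nm P S v0 γ f h c) {c' : X}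
    (H' : Nm P S v0 γ f h c') : c' = c :=
  I.k0 f H.f1 c (I.F_sub H.cF) c' (S.E_mem (I.F_sub H'.cF)) H.fc H'.fc

theorem uW_reg (P : Par) (g f h : G) (i : ℕ) (n : ℤ) (hn : (n % P.N).toNat + 5 ≤ P.N) (j : ℕ)
    (hj : j ≤ 3) : uW (sW P g f h i) P.N (n + (j + 1 : ℕ)) = uW (sW P g f h i) P.N (n + j) *
      (f ^ (P.k0 + (i * P.N + (n % P.N).toNat + j) ^ 2) * h) := by
  rw [show n + ((j + 1 : ℕ) : ℤ) = n + j + 1 by push_cast; ring, uW_succ _ (by omega),
    emod_step n j (by omega), sW, qW, if_neg (by omega), add_assoc]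

/-- Rigidity: long overlaps of relator chains come from the relator. -/
theorem Nm.rigid (I : Inv P v0 γ e S) (H : Nm P S v0 γ f h c) {f' h' : G} {c' : X}
    (H' : Nm P S v0 γ f' h' c') {i i' : ℕ} (hi : i ≤ P.n) (hi' : i' ≤ P.n)
    (hrep : ∀ u : G, u * f' * u⁻¹ = f → u * h' * u⁻¹ = h → f' = f ∧ h' = h) (g : G) {a b a' b' : ℤ}
    {κ : ℕ} (hab : a + 2 * κ + 16 ≤ b)
    (h1 : d (zW P (S.π (γ i)) f h i c a) (g • zW P (S.π (γ i')) f' h' i' c' a') ≤ κ)
    (h2 : d (zW P (S.π (γ i)) f h i c b) (g • zW P (S.π (γ i')) f' h' i' c' b') ≤ κ) :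
    f' = f ∧ h' = h ∧ i' = i ∧ g ∈ Subgroup.zpowers (preW (sW P (S.π (γ i)) f h i) P.N) := by
  have hN := P.N_ge
  have hcm := I.E_comm c (I.F_sub H.cF)
  obtain ⟨n, m, hw | hw⟩ := (H.bc I hi).window ((H'.bc I hi').smul g)
    (fun m n a1 a2 => by
      simpa using H.z_loc I hi 1 n (I.F_smul g _ (H'.z_mem I _ _ m)) (by simpa using a1)
        (by simpa using a2))
    (fun m n a1 a2 => H'.z_loc I hi' g n (H.z_mem I _ _ m) a1 a2) hab h1 h2
  · obtain ⟨j0, j1, j2, j3⟩ := reg_plus hN n m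
    obtain ⟨r1, r2, r3⟩ := alg_plus (h' := h') I.tf hcm (H.triv I) H.fc H.f1 H'.fc
      (fun j => (uW (sW P (S.π (γ i)) f h i) P.N (n + j0 + j))⁻¹ * g *
        uW (sW P (S.π (γ i')) f' h' i') P.N (m + j0 + j))
      (fun j hj => by
        have := hw (j0 + j) (by omega)
        simp only [zW] at this
        push_cast at this
        rw [mul_smul, mul_smul, inv_smul_eq_iff, add_assoc, add_assoc, this])
      P.k0 (i * P.N + ((n + j0) % P.N).toNat) (i' * P.N + ((m + j0) % P.N).toNat)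
      (fun j hj => by
        rw [uW_reg P _ _ _ _ _ j2 j hj, uW_reg P _ _ _ _ _ j3 j hj]; group)
    obtain ⟨rfl, rfl⟩ := hrep _ r2 r3
    obtain rfl := H.unique I H'
    have e1 : i = i' ∧ ((n + j0) % P.N).toNat = ((m + j0) % P.N).toNat := by
      have q1 : (i * P.N + ((n + j0) % P.N).toNat) / P.N = i := by
        rw [mul_comm, Nat.mul_add_div (by omega), Nat.div_eq_of_lt (by omega)]; simp
      have q2 : (i' * P.N + ((m + j0) % P.N).toNat) / P.N = i' := by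
        rw [mul_comm, Nat.mul_add_div (by omega), Nat.div_eq_of_lt (by omega)]; simp
      have : i = i' := by rw [← q1, r1, q2]
      subst this
      exact ⟨rfl, by omega⟩
    obtain ⟨rfl, e2⟩ := e1
    refine ⟨rfl, rfl, rfl, ?_⟩
    have hfix : ((uW (sW P (S.π (γ i)) f' h' i) P.N (n + j0 + (1 : ℕ)))⁻¹ * g *
        uW (sW P (S.π (γ i)) f' h' i) P.N (m + j0 + (1 : ℕ))) • c' = c' := by
      have := hw (j0 + 1) (by omega)
      simp only [zW] at this
      push_cast at this ⊢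
      rw [mul_smul, mul_smul, inv_smul_eq_iff, add_assoc, add_assoc, this]
    have h0 := H.triv I _ hfix (by
      rw [← mul_smul, mul_inv_eq_iff_eq_mul.1 r3, mul_smul, hfix])
    have e3 : ∃ t : ℤ, n + j0 + (1 : ℕ) = m + j0 + (1 : ℕ) + P.N * t := by
      have a1 := Int.mul_ediv_add_emod (n + j0) P.N
      have a2 := Int.mul_ediv_add_emod (m + j0) P.N
      have a3 : (0 : ℤ) ≤ (n + j0) % P.N := Int.emod_nonneg _ (by omega)
      have a4 : (0 : ℤ) ≤ (m + j0) % P.N := Int.emod_nonneg _ (by omega)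
      exact ⟨(n + j0) / P.N - (m + j0) / P.N, by rw [mul_sub]; omega⟩
    obtain ⟨t, ht⟩ := e3
    rw [ht, uW_add _ (by omega)] at h0
    refine ⟨t, ?_⟩
    simp only
    rw [← mul_left_inj (uW (sW P (S.π (γ i)) f' h' i) P.N (m + j0 + (1 : ℕ)))]
    rw [mul_assoc, inv_mul_eq_one] at h0
    exact h0
  · obtain ⟨j0, j1, j2, j3⟩ := reg_minus hN n m
    exfalso
    refine alg_minus (h' := h') I.tf hcm (H.triv I) H.fc H.f1 H'.fc
      (fun j => (uW (sW P (S.π (γ i)) f h i) P.N (n + j0 + j))⁻¹ * g *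
        uW (sW P (S.π (γ i')) f' h' i') P.N (m - 14 + (10 - j0 : ℕ) + (4 - j : ℕ)))
      (fun j hj => by
        have := hw (j0 + j) (by omega)
        simp only [zW] at this
        rw [mul_smul, mul_smul, inv_smul_eq_iff,
          show m - 14 + ((10 - j0 : ℕ) : ℤ) + ((4 - j : ℕ) : ℤ) = m - ((j0 + j : ℕ) : ℤ) by omega,
          show n + (j0 : ℤ) + j = n + ((j0 + j : ℕ) : ℤ) by omega, this])
      P.k0 (i * P.N + ((n + j0) % P.N).toNat) (i' * P.N + ((m - 14 + (10 - j0 : ℕ)) % P.N).toNat)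
      (fun j hj => by
        rw [uW_reg P _ _ _ _ _ j2 j hj, show 4 - j = (3 - j) + 1 by omega,
          uW_reg P _ _ _ _ _ j3 (3 - j) (by omega), show 4 - (j + 1) = 3 - j by omega]
        group)

/-- Every ready pair is conjugate to a normalised pair. -/
theorem Inv.exists_nm (I : Inv P v0 γ e S) (hr : S.Ready P f h) :
    ∃ (u : G) (c : X), Nm P S v0 γ (u⁻¹ * f * u) (u⁻¹ * h * u) c := by
  obtain ⟨c, hc, f1, fc, hc', x, fx, hx⟩ := hr
  have hE := I.F_sub hc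
  rcases I.dich x with ⟨g, hg⟩ | hcm
  swap
  · exfalso
    refine hc' (I.k0 f f1 c hE _ (S.E_mem (I.E_smul h c hE)) fc ?_)
    rw [← mul_smul, hcm f h fx hx, mul_smul, fc]
  have ell : ∀ (a : G0) (v : T), a ≠ 1 → a • v = v → ∀ w ∈ S.E, S.π a • w ≠ w := by
    intro a v a1 av w hw h
    have := I.k0 (S.π a) (fun e => a1 (I.s2 a v av e)) w hw (S.ι v) (S.ι_mem v) h
      (by rw [← I.ι_smul, av])
    exact I.ι_not v (this ▸ hw)
  have key : ∀ u : G, u • S.ι v0 = g • S.ι v0 → S.π (γ 0) • u⁻¹ • c ≠ u⁻¹ • c →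
      Nm P S v0 γ (u⁻¹ * f * u) (u⁻¹ * h * u) (u⁻¹ • c) := by
    intro u hu h0
    have mv : ∀ a : G, d x (a • x) ≤ P.ε3 → d (S.ι v0) ((u⁻¹ * a * u) • S.ι v0) ≤ P.ε4 := by
      intro a ha
      rw [mul_smul, mul_smul, d_inv_smul, hu]
      have := d_move_le a (g • S.ι v0) x
      have := d_comm x (g • S.ι v0)
      have := P.hε4
      omega
    refine ⟨I.F_smul _ c hc, fun e => f1 ?_, by rw [mul_smul, mul_smul, smul_inv_smul, fc],
      fun e => hc' ?_, fun i hi => ?_, mv f fx, mv h hx⟩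
    · rw [show f = u * (u⁻¹ * f * u) * u⁻¹ by group, e]; group
    · rw [mul_smul, mul_smul, smul_inv_smul] at e
      exact MulAction.injective _ e
    · by_cases h0' : i = 0
      · rw [h0']; exact h0
      · obtain ⟨v, hv⟩ := I.gam_ell i hi h0'
        exact ell (γ i) v (fun e => (I.gam i hi).1 (by rw [e, map_one])) hv _ (I.E_smul _ c hE)
  by_cases h0 : S.π (γ 0) • g⁻¹ • c = g⁻¹ • c
  · refine ⟨g * (S.π e)⁻¹, _, key _ ?_ fun h1 => ?_⟩
    · rw [mul_smul, inv_smul_eq_iff.2 (show S.ι v0 = S.π e • S.ι v0 by rw [← I.ι_smul, I.e_fix])]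
    · rw [mul_inv_rev, inv_inv, mul_smul] at h1
      have hE' := I.E_smul g⁻¹ c hE
      exact ell e v0 I.e_ne I.e_fix _ hE' (I.k0 _ (I.gam 0 (by omega)).1 _ hE' _
        (S.E_mem (I.E_smul _ _ hE')) h0 h1)
  · exact ⟨g, _, key g rfl h0⟩

end Pool.Agent.QIB
end

-- merged part: Pool.Agent.Work.MP_9628a2_al.RFam
section
set_option autoImplicit false
set_option linter.unusedSectionVars false

namespace Pool.Agent.QIB

section
variable {G0 T G X : Type} [Group G0] [Group G] [MulAction G X] [GSp X]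
  (P : Par) (S : SD G0 T G X) (v0 : T) (γ : ℕ → G0)

/-- The chosen normalised conjugate of a pair. -/
noncomputable def chN (p : G × G) : G × G :=
  Classical.epsilon fun q : G × G =>
    (∃ c, Nm P S v0 γ q.1 q.2 c) ∧ ∃ u : G, u * q.1 * u⁻¹ = p.1 ∧ u * q.2 * u⁻¹ = p.2

/-- Indices of the relators. -/
structure RI where
  f : G
  h : G
  c : X
  i : ℕ
  nm : Nm P S v0 γ f h c
  hi : i ≤ P.n
  rep : chN P S v0 γ (f, h) = (f, h)

variable {P S v0 γ}

theorem chN_conj {p q : G × G} (u : G) (h1 : u * q.1 * u⁻¹ = p.1) (h2 : u * q.2 * u⁻¹ = p.2) :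
    chN P S v0 γ q = chN P S v0 γ p := by
  unfold chN
  congr 1
  funext r
  congr 1
  refine propext ⟨?_, ?_⟩
  · rintro ⟨a, a1, a2⟩
    exact ⟨u * a, by rw [← h1, ← a1]; group, by rw [← h2, ← a2]; group⟩
  · rintro ⟨a, a1, a2⟩
    refine ⟨u⁻¹ * a, ?_, ?_⟩
    · rw [show q.1 = u⁻¹ * (u * q.1 * u⁻¹) * u by group, h1, ← a1]; group
    · rw [show q.2 = u⁻¹ * (u * q.2 * u⁻¹) * u by group, h2, ← a2]; group

/-- The relator. -/
def RI.r (x : RI P S v0 γ) : G := preW (sW P (S.π (γ x.i)) x.f x.h x.i) P.N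

/-- The pivots. -/
def RI.z (x : RI P S v0 γ) : ℤ → X := zW P (S.π (γ x.i)) x.f x.h x.i x.c

theorem RI.z_add (x : RI P S v0 γ) (n t : ℤ) : x.z (n + P.N * t) = x.r ^ t • x.z n := by
  have := P.N_ge
  rw [RI.z, zW, uW_add _ (by omega), mul_smul]; rfl

/-- The cones of relator type. -/
abbrev RC (P : Par) (S : SD G0 T G X) (v0 : T) (γ : ℕ → G0) : Type :=
  Σ x : RI P S v0 γ, G ⧸ Subgroup.zpowers x.r

/-- The chain of a cone. -/
noncomputable def RC.z (c : RC P S v0 γ) (n : ℤ) : X := c.2.out • c.1.z n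

theorem RC.exists_t (x : RI P S v0 γ) (g : G) (q : G ⧸ Subgroup.zpowers x.r)
    (h : (g : G ⧸ Subgroup.zpowers x.r) = q) : ∃ t : ℤ, q.out = g * x.r ^ t := by
  rw [← QuotientGroup.out_eq' q, QuotientGroup.eq] at h
  obtain ⟨t, ht⟩ := h
  exact ⟨t, by simp only at ht; rw [ht]; group⟩

theorem RC.smul_z (g : G) (c : RC P S v0 γ) :
    ∃ t : ℤ, ∀ n, RC.z (g • c) n = g • RC.z c (n + P.N * t) := by
  obtain ⟨x, q⟩ := c
  obtain ⟨t, ht⟩ := RC.exists_t x (g * q.out) (g • q) (by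
    conv_rhs => rw [← QuotientGroup.out_eq' q]
    rfl)
  refine ⟨t, fun n => ?_⟩
  show (g • q).out • x.z n = g • q.out • x.z (n + P.N * t)
  rw [ht, x.z_add, mul_smul, mul_smul]

theorem RC.fix_iff (g : G) (c : RC P S v0 γ) :
    g • c = c ↔ ∃ t : ℤ, g = c.2.out * c.1.r ^ t * c.2.out⁻¹ := by
  obtain ⟨x, q⟩ := c
  constructor
  · intro h
    have h' : g • q = q := eq_of_heq (Sigma.mk.inj h).2
    obtain ⟨t, ht⟩ := RC.exists_t x (g * q.out) q (by
      conv_rhs => rw [← h', ← QuotientGroup.out_eq' q]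
      rfl)
    refine ⟨-t, ?_⟩
    simp only
    conv_rhs => enter [1, 1]; rw [ht]
    group
  · rintro ⟨t, rfl⟩
    simp only
    show (⟨x, _ • q⟩ : RC P S v0 γ) = ⟨x, q⟩
    congr 1
    conv_lhs => enter [2]; rw [← QuotientGroup.out_eq' q]
    conv_rhs => rw [← QuotientGroup.out_eq' q]
    show ((q.out * x.r ^ t * q.out⁻¹ * q.out : G) : G ⧸ Subgroup.zpowers x.r) = _
    rw [QuotientGroup.eq]
    exact ⟨-t, by simp only; group⟩

theorem RC.conj_z (c : RC P S v0 γ) (t n : ℤ) :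
    (c.2.out * c.1.r ^ t * c.2.out⁻¹) • c.z n = c.z (n + P.N * t) := by
  rw [RC.z, RC.z, RI.z_add, mul_smul, mul_smul, inv_smul_smul]

end

variable {G0 T G X : Type} [Group G0] [Group G] [MulAction G X] [GSp X] [Iso G X] [MulAction G0 T]
  {P : Par} {v0 : T} {γ : ℕ → G0} {e : G0} {S : SD G0 T G X}

theorem RC.bc (I : Inv P v0 γ e S) (c : RC P S v0 γ) : BC P.δ c.z :=
  (c.1.nm.bc I c.1.hi).smul _

theorem RC.step (I : Inv P v0 γ e S) (c : RC P S v0 γ) (n : ℤ) :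
    d (c.z n) (c.z (n + 1)) ≤ P.σ := by
  rw [RC.z, RC.z, d_smul]; exact c.1.nm.z_step I c.1.hi n

theorem RC.far (I : Inv P v0 γ e S) (c : RC P S v0 γ) {a b : ℤ} {k : ℕ}
    (h : k * P.σ < d (c.z a) (c.z b)) : k < (a - b).natAbs := by
  by_contra hc
  have := (c.bc I).d_le (c.step I) a b
  have := Nat.mul_le_mul_right P.σ (show (a - b).natAbs ≤ k by omega)
  omega

theorem RC.eq_of (I : Inv P v0 γ e S) (c c' : RC P S v0 γ) {a b a' b' : ℤ} {κ : ℕ}
    (hab : a + 2 * κ + 16 ≤ b) (h1 : d (c.z a) (c'.z a') ≤ κ) (h2 : d (c.z b) (c'.z b') ≤ κ) :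
    c = c' := by
  obtain ⟨⟨f, h, c, i, nm, hi, rep⟩, q⟩ := c
  obtain ⟨⟨f', h', c', i', nm', hi', rep'⟩, q'⟩ := c'
  simp only [RC.z, RI.z] at h1 h2
  rw [← d_inv_smul, ← mul_smul] at h1 h2
  obtain ⟨rfl, rfl, rfl, hg⟩ := nm.rigid I nm' hi hi' (fun u a1 a2 => by
    have := chN_conj (P := P) (S := S) (v0 := v0) (γ := γ) (p := (f, h)) (q := (f', h')) u a1 a2
    rw [rep, rep'] at this
    exact Prod.mk.inj this) _ hab h1 h2
  obtain rfl := nm.unique I nm'
  congr 1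
  rw [← QuotientGroup.out_eq' q, ← QuotientGroup.out_eq' q', QuotientGroup.eq]
  exact hg

theorem Inv.exists_rfam (I : Inv P v0 γ e S) :
    ∃ (C : Type) (_ : MulAction G C), Nonempty (RFam P S γ C) := by
  have hN := P.N_ge
  have hpos : ∀ (c : RC P S v0 γ) (n : ℤ),
      (Classical.epsilon fun m : ℤ => c.z m = c.z n) = n := fun c n =>
    (c.bc I).inj (Classical.epsilon_spec (p := fun m : ℤ => c.z m = c.z n) ⟨n, rfl⟩)
  refine ⟨RC P S v0 γ, inferInstance, ⟨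
    { Y := fun c => Set.range c.z
      pos := fun c y => Classical.epsilon fun m : ℤ => c.z m = y
      equi := ?_, ne := fun c => ⟨_, 0, rfl⟩, qc := fun c => (c.bc I).qc (c.step I), ovl := ?_,
      nonell := ?_, comm := ?_, ready := ?_, piv := ?_, pos_equi := ?_, pos_faith := ?_,
      pos_full := ?_, pos_lip := ?_ }⟩⟩
  · rintro g c _ ⟨n, rfl⟩
    obtain ⟨t, ht⟩ := RC.smul_z g c
    exact ⟨n - P.N * t, by rw [ht]; simp⟩
  · rintro c c' hc _ ⟨a, rfl⟩ _ ⟨b, rfl⟩ _ ⟨a', rfl⟩ _ ⟨b', rfl⟩ h1 h2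
    by_contra hd
    have := c.far I (a := a) (b := b) (k := 200 * (P.δ + P.σ + 1) + 20) (by
      have := P.hΔ; omega)
    rcases le_total a b with hab | hab
    · exact hc (RC.eq_of I c c' (by omega) h1 h2)
    · exact hc (RC.eq_of I c c' (by omega) h2 h1)
  · rintro g c hg h1 ⟨s, -, hs⟩
    obtain ⟨t, rfl⟩ := (RC.fix_iff g c).1 hg
    have ht : t ≠ 0 := by rintro rfl; simp at h1
    have e1 := d_move_le ((c.2.out * c.1.r ^ t * c.2.out⁻¹) ^ (2 * d (c.z 0) s + 1)) (c.z 0) s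
    rw [pow_fix hs, d_self, conj_pow, ← zpow_natCast, ← zpow_mul, RC.conj_z] at e1
    have e2 := (c.bc I).le 0 (0 + P.N * (t * (2 * d (c.z 0) s + 1 : ℕ)))
    rw [zero_sub, Int.natAbs_neg, zero_add, Int.natAbs_mul, Int.natAbs_mul, Int.natAbs_natCast,
      Int.natAbs_natCast] at e2
    rw [zero_add] at e1
    have : 1 ≤ t.natAbs := by omega
    have : 1 * (1 * (2 * d (c.z 0) s + 1)) ≤ P.N * (t.natAbs * (2 * d (c.z 0) s + 1)) :=
      Nat.mul_le_mul (by omega) (Nat.mul_le_mul_right _ this)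
    omega
  · intro g h c hg hh
    obtain ⟨t, rfl⟩ := (RC.fix_iff g c).1 hg
    obtain ⟨t', rfl⟩ := (RC.fix_iff h c).1 hh
    group
  · intro g h hr
    obtain ⟨u, c, hn⟩ := I.exists_nm hr
    obtain ⟨⟨c', hc'⟩, w, w1, w2⟩ := Classical.epsilon_spec (p := fun q : G × G =>
      (∃ c, Nm P S v0 γ q.1 q.2 c) ∧ ∃ u : G, u * q.1 * u⁻¹ = g ∧ u * q.2 * u⁻¹ = h)
      ⟨(u⁻¹ * g * u, u⁻¹ * h * u), ⟨c, hn⟩, u, by simp only; group, by simp only; group⟩
    have hrep := chN_conj (P := P) (S := S) (v0 := v0) (γ := γ) (p := (g, h))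
      (q := chN P S v0 γ (g, h)) w w1 w2
    refine ⟨w, fun i hi => ?_⟩
    let x : RI P S v0 γ := ⟨(chN P S v0 γ (g, h)).1, (chN P S v0 γ (g, h)).2, c', i, hc', hi, hrep⟩
    refine ⟨⟨x, (w : G ⧸ Subgroup.zpowers x.r)⟩, ?_⟩
    obtain ⟨t, ht⟩ := RC.exists_t x w _ rfl
    refine (RC.fix_iff _ _).2 ⟨1, ?_⟩
    simp only
    rw [ht]
    have e1 : vw P.N P.k0 i g h = w * vw P.N P.k0 i x.f x.h * w⁻¹ := by
      have := map_vw P.N P.k0 i (MulAut.conj w).toMonoidHom x.f x.h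
      simp only [MulEquiv.coe_toMonoidHom, MulAut.conj_apply] at this
      rw [this]
      congr 1
      · exact w1.symm
      · exact w2.symm
    have e2 : x.r = vw P.N P.k0 i x.f x.h * (S.π (γ i))⁻¹ := preW_sW _ _ _ _ _
    rw [e1, show w * x.r ^ t * x.r ^ (1 : ℤ) * (w * x.r ^ t)⁻¹ = w * x.r * w⁻¹ by group, e2]
    group
  · rintro c _ ⟨a, rfl⟩ _ ⟨b, rfl⟩ hd w w' h1 h2
    have := c.far I hd
    have hF : ∀ n, c.z n ∈ S.F := fun n => I.F_smul _ _ (c.1.nm.z_mem I _ _ n)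
    rcases le_total a b with hab | hab
    · exact ⟨_, hF (a + (100 * (P.δ + P.σ + 1) : ℕ) + 1), btw_of_not_ang I.hyp P.one_le (by omega)
        ((c.bc I).inner (by omega) (by omega) h1 h2)⟩
    · exact ⟨_, hF (b + (100 * (P.δ + P.σ + 1) : ℕ) + 1), (btw_of_not_ang I.hyp P.one_le (by omega)
        ((c.bc I).inner (by omega) (by omega) h2 h1)).symm⟩
  · intro g c
    obtain ⟨t, ht⟩ := RC.smul_z g c
    refine ⟨-t, ?_⟩
    rintro _ ⟨n, rfl⟩
    rw [hpos, show g • c.z n = RC.z (g • c) (n + P.N * -t) by rw [ht]; simp, hpos]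
  · rintro g c hg _ ⟨n, rfl⟩ h
    obtain ⟨t, rfl⟩ := (RC.fix_iff g c).1 hg
    rw [RC.conj_z, hpos, hpos] at h
    have : t = 0 := by
      have : (P.N : ℤ) * t = 0 := by omega
      rcases mul_eq_zero.1 this with h | h <;> omega
    subst this
    simp
  · intro c t
    refine ⟨_, (RC.fix_iff _ c).2 ⟨t, rfl⟩, ?_⟩
    rintro _ ⟨n, rfl⟩
    rw [RC.conj_z, hpos, hpos]
  · rintro c _ ⟨a, rfl⟩ _ ⟨b, rfl⟩
    rw [hpos, hpos]
    exact (c.bc I).le a b

end Pool.Agent.QIB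
end

-- merged part: Pool.Agent.Work.MP_9628a2_al.Fam
section
set_option autoImplicit false

namespace Pool.Agent.QIB

variable {G0 T G X : Type} [Group G0] [Group G] [MulAction G X] [GSp X] [Iso G X] [MulAction G0 T]
  {P : Par} {v0 : T} {γ : ℕ → G0} {e : G0} {S : SD G0 T G X}

theorem Inv.exists_fam (I : Inv P v0 γ e S) :
    ∃ (C : Type) (_ : MulAction G C), Nonempty (Fam P S γ C) := by
  obtain ⟨C1, i1, ⟨E⟩⟩ := I.exists_efam
  obtain ⟨C2, i2, ⟨R⟩⟩ := I.exists_rfam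
  have cross : ∀ c1 c2, ∀ y ∈ R.Y c2, ∀ y' ∈ R.Y c2, ∀ w ∈ E.Y c1, ∀ w' ∈ E.Y c1,
      d y w ≤ 100 * (P.δ + P.σ + 1) → d y' w' ≤ 100 * (P.δ + P.σ + 1) →
      d y y' ≤ (200 * (P.δ + P.σ + 1) + 20) * P.σ := by
    intro c1 c2 y hy y' hy' w hw w' hw' h1 h2
    by_contra hc
    obtain ⟨z, hz, hb⟩ := R.piv c2 y hy y' hy' (by omega) w w' h1 h2
    obtain ⟨κ, hκ, hκ'⟩ := E.mv c1
    have := hκ' w hw w' hw' z hb
    refine hκ ⟨z, S.E_mem (I.F_sub hz), ?_⟩
    by_contra hne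
    have := I.F_sep z hz _ (I.F_smul κ z hz) (Ne.symm hne)
    have := P.hρ; have := P.one_le
    omega
  have hΔ := P.hΔ
  refine ⟨C1 ⊕ C2, inferInstance, ⟨
    { Y := Sum.elim E.Y R.Y
      isR := fun c => c.isRight = true
      pos := Sum.elim (fun _ _ => 0) R.pos
      equi := ?_, isR_smul := ?_, ne := ?_, qc := ?_, ovl := ?_, nonell := ?_, comm := ?_,
      short := ?_, ready := ?_, pos_equi := ?_, pos_faith := ?_, pos_full := ?_, pos_lip := ?_ }⟩⟩
  · rintro g (c | c) y hy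
    · exact E.equi g c y hy
    · exact R.equi g c y hy
  · rintro g (c | c) <;> simp
  · rintro (c | c)
    · exact E.ne c
    · exact R.ne c
  · rintro (c | c)
    · exact E.qc c
    · exact R.qc c
  · rintro (c | c) (c' | c') hc y1 h1 y2 h2 z1 h3 z2 h4 a b
    · exact E.ovl c c' (fun h => hc (h ▸ rfl)) y1 h1 y2 h2 z1 h3 z2 h4 a b
    · have := cross c c' z1 h3 z2 h4 y1 h1 y2 h2 (by rw [d_comm]; exact a) (by rw [d_comm]; exact b)
      have := d_tri y1 z1 y2; have := d_tri z1 z2 y2; have := d_comm y2 z2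
      omega
    · have := cross c' c y1 h1 y2 h2 z1 h3 z2 h4 a b
      omega
    · exact R.ovl c c' (fun h => hc (h ▸ rfl)) y1 h1 y2 h2 z1 h3 z2 h4 a b
  · rintro g (c | c) h
    · exact E.nonell g c (Sum.inl.inj h)
    · exact R.nonell g c (Sum.inr.inj h)
  · rintro g h (c | c) h1 h2
    · exact E.comm g h c (Sum.inl.inj h1) (Sum.inl.inj h2)
    · exact R.comm g h c (Sum.inr.inj h1) (Sum.inr.inj h2)
  · intro g x h1 h2
    obtain ⟨c, hc⟩ := E.short g x h1 h2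
    exact ⟨Sum.inl c, by simp, congrArg Sum.inl hc⟩
  · intro g h hr
    obtain ⟨u, hu⟩ := R.ready g h hr
    refine ⟨u, fun i hi => ?_⟩
    obtain ⟨c, hc⟩ := hu i hi
    exact ⟨Sum.inr c, rfl, congrArg Sum.inr hc⟩
  · rintro g (c | c) h
    · simp at h
    · exact R.pos_equi g c
  · rintro g (c | c) h h'
    · simp at h
    · exact R.pos_faith g c (Sum.inr.inj h')
  · rintro (c | c) t h
    · simp at h
    · obtain ⟨g, h1, h2⟩ := R.pos_full c t
      exact ⟨g, congrArg Sum.inr h1, h2⟩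
  · rintro (c | c) h
    · simp at h
    · exact R.pos_lip c

end Pool.Agent.QIB
end

-- merged part: Pool.Agent.Work.MP_9628a2_al.Step
section
set_option autoImplicit false

namespace Pool.Agent.QIB

variable {G0 T G X C : Type} [Group G0] [Group G] [MulAction G X] [GSp X] [MulAction G C]
  {P : Par} {γ : ℕ → G0} {S : SD G0 T G X} [MulAction G0 T] {v0 : T} {e : G0} [Iso G X]

namespace Fam

variable (F : Fam P S γ C)

/-- Positions of the neighbours of an apex. -/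
noncomputable def posH (a u : F.D.V) : ℤ :=
  match a.cone with
  | some c => F.pos c u.bs
  | none => 0

theorem posD (I : Inv P v0 γ e S) : PosD G F.Ap F.posH P.N (P.R * 2 ^ P.ρ) := by
  have hρ : 1 ≤ F.D.ρ := (F.good I).hρ
  refine ⟨?_, ?_, ?_, ?_⟩
  · rintro g _ ⟨c, hc, rfl⟩
    obtain ⟨t, ht⟩ := F.pos_equi g c hc
    refine ⟨t, fun u hu => ?_⟩
    obtain ⟨h1, h2⟩ := CD.nbr_apex hρ hu
    show F.pos (g • c) (g • u).bs = F.pos c u.bs + _
    rw [CD.bs_smul g u h2.le]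
    exact ht _ (CD.bs_mem h1)
  · rintro _ ⟨c, hc, rfl⟩ κ hκ u hu h
    obtain ⟨h1, h2⟩ := CD.nbr_apex hρ hu
    have h' : F.pos c (κ • u).bs = F.pos c u.bs := h
    rw [CD.bs_smul κ u h2.le] at h'
    exact F.pos_faith κ c hc (CD.V.apex.inj (D := F.D) hκ) _ (CD.bs_mem h1) h'
  · rintro _ ⟨c, hc, rfl⟩ t
    obtain ⟨κ, h3, h4⟩ := F.pos_full c t hc
    refine ⟨κ, by rw [CD.smul_apex, h3], fun u hu => ?_⟩
    obtain ⟨h1, h2⟩ := CD.nbr_apex hρ hu
    show F.pos c (κ • u).bs = F.pos c u.bs + _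
    rw [CD.bs_smul κ u h2.le]
    exact h4 _ (CD.bs_mem h1)
  · rintro _ ⟨c, hc, rfl⟩ u w t hu hw hr
    obtain ⟨h1, -⟩ := CD.nbr_apex hρ hu
    obtain ⟨h2, -⟩ := CD.nbr_apex hρ hw
    exact (F.pos_lip c hc _ (CD.bs_mem h1) _ (CD.bs_mem h2)).trans ((F.good I).reach h1 h2 hr)

theorem inv' (I : Inv P v0 γ e S) : Inv P v0 γ e F.S' where
  e_ne := I.e_ne
  e_fix := I.e_fix
  gam_ell := I.gam_ell
  hyp := F.hyp' I
  surj := F.φ_surj.comp I.surj
  ι_smul := fun g v => by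
    show F.q (CD.V.base (S.ι (g • v))) = F.q (CD.V.base (S.π g • S.ι v))
    rw [I.ι_smul]
  E_smul := F.E_smul' I
  F_sub := fun _ h => Or.inr h
  F_smul := F.F_smul'
  ι_not := F.ι_not' I
  s1 := F.s1' I
  s2 := F.s2' I
  s3 := F.s3' I
  k0 := F.k0' I
  E_comm := F.E_comm' I
  tf := F.tf' I
  F_sep := F.F_sep'
  F_rot := F.F_rot' I
  i4 := F.i4' I
  i5a := F.i5a' I
  i5b := F.i5b' I
  i7 := F.i7' I
  i3 := F.i3' I
  cob := F.cob' I
  dich := F.dich' I
  gam := F.gam' I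

theorem trans' (I : Inv P v0 γ e S) : Trans P v0 γ S F.S' F.φ where
  comp := fun _ => rfl
  ready := F.ready'
  short := F.short'
  elem := F.elem'
  inj := F.inj' I
  shrink := F.shrink'
  lift := fun tri hT f hf =>
    (F.spin I).lift (F.hyp' I) (F.posD I) (Nat.mul_pos F.D.hR (by positivity)) P.hN
      (CD.V.base (S.ι v0)) (by rintro ⟨c, -, h⟩; cases h) tri hT f hf

end Fam

/-- A bundled stage. -/
structure Stg (P : Par) {G0 T : Type} [Group G0] [MulAction G0 T] (v0 : T) (γ : ℕ → G0)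
    (e : G0) : Type 1 where
  G : Type
  X : Type
  [grp : Group G]
  [act : MulAction G X]
  [gs : GSp X]
  [iso : Iso G X]
  S : SD G0 T G X
  inv : Inv P v0 γ e S

attribute [instance] Stg.grp Stg.act Stg.gs Stg.iso

theorem Stg.step (A : Stg P v0 γ e) :
    ∃ (B : Stg P v0 γ e) (φ : A.G →* B.G), Trans P v0 γ A.S B.S φ := by
  obtain ⟨C, _, ⟨F⟩⟩ := A.inv.exists_fam
  exact ⟨{ G := F.G', X := F.X', S := F.S', inv := F.inv' A.inv }, F.φ, F.trans' A.inv⟩

end Pool.Agent.QIB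
end
end
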