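import Pool.Agent.Work.MP_9628a2_al.Geo
import Pool.Agent.Work.MP_9628a2_al.Hyp

-- merged part: Pool.Agent.Work.MP_9628a2_al.Words
section
set_option autoImplicit false

namespace Pool.Agent.QIB

/-- Alternating lists of syllables with nonzero exponents. -/
def Alt (l : List (Bool × ℤ)) : Prop :=
  l.IsChain (fun p q => p.1 ≠ q.1) ∧ ∀ p ∈ l, p.2 ≠ 0

/-- Value of a list of syllables. -/
def evl {G : Type} [Group G] (a b : G) (l : List (Bool × ℤ)) : G :=
  (l.map fun p => (cond p.1 a b) ^ p.2).prod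

/-- Total length of a list of syllables. -/
def wlen (l : List (Bool × ℤ)) : ℕ := (l.map fun p => p.2.natAbs).sum

/-- The list starts with a syllable in `a` and ends with a syllable in `b`. -/
def AB (l : List (Bool × ℤ)) : Prop :=
  l.head?.map Prod.fst = some true ∧ l.getLast?.map Prod.fst = some false

/-- Evaluation of two-letter words. -/
def ev {G : Type} [Group G] (a b : G) : FreeGroup Bool →* G :=
  FreeGroup.lift fun t => cond t a b

/-- The element of the free group given by a list of syllables. -/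
def wd (l : List (Bool × ℤ)) : FreeGroup Bool := evl (FreeGroup.of true) (FreeGroup.of false) l

/-- The words that are set equal to the witness generators. -/
def vw (N k0 i : ℕ) {G : Type} [Group G] (P Q : G) : G :=
  ((List.range (N - 1)).map fun l => P ^ (k0 + (i * N + l) ^ 2) * Q).prod *
    P ^ (k0 + (i * N + (N - 1)) ^ 2)

/-- Commutator. -/
def cm {G : Type} [Group G] (a b : G) : G := a * b * a⁻¹ * b⁻¹

/-- A triangular pattern holds. -/
def Sat {G : Type} [Group G] (f : ℕ → G) (tri : List (ℕ × ℕ × ℕ)) : Prop :=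
  ∀ t ∈ tri, f t.1 * f t.2.1 = f t.2.2

/-- A triangular pattern is realised in a finite group with `i0` nontrivial. -/
def FinReal (tri : List (ℕ × ℕ × ℕ)) (i0 : ℕ) : Prop :=
  ∃ (Q : Type) (_ : Group Q) (_ : Finite Q) (f : ℕ → Q), Sat f tri ∧ f i0 ≠ 1

section
variable {G H : Type} [Group G] [Group H]

@[simp] theorem evl_nil (a b : G) : evl a b [] = 1 := rfl

@[simp] theorem evl_cons (a b : G) (p : Bool × ℤ) (l : List (Bool × ℤ)) :
    evl a b (p :: l) = (cond p.1 a b) ^ p.2 * evl a b l := by simp [evl]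

theorem evl_append (a b : G) (l l' : List (Bool × ℤ)) :
    evl a b (l ++ l') = evl a b l * evl a b l' := by simp [evl]

theorem map_evl (φ : G →* H) (a b : G) (l : List (Bool × ℤ)) :
    φ (evl a b l) = evl (φ a) (φ b) l := by
  induction l with
  | nil => simp
  | cons p l ih => rcases p with ⟨_ | _, i⟩ <;> simp [ih]

@[simp] theorem ev_true (a b : G) : ev a b (FreeGroup.of true) = a := by simp [ev]

@[simp] theorem ev_false (a b : G) : ev a b (FreeGroup.of false) = b := by simp [ev]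

theorem ev_wd (a b : G) (l : List (Bool × ℤ)) : ev a b (wd l) = evl a b l := by
  rw [wd, map_evl]; simp

theorem map_ev (φ : G →* H) (a b : G) (w : FreeGroup Bool) : φ (ev a b w) = ev (φ a) (φ b) w := by
  have : φ.comp (ev a b) = ev (φ a) (φ b) := by
    ext t; cases t <;> simp
  exact DFunLike.congr_fun this w

theorem ev_one (w : FreeGroup Bool) : ev (1 : G) 1 w = 1 := by
  have : ev (1 : G) 1 = 1 := by ext t; cases t <;> simp
  rw [this]; rfl

theorem ev_of (w : FreeGroup Bool) : ev (FreeGroup.of true) (FreeGroup.of false) w = w := by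
  have : ev (FreeGroup.of true) (FreeGroup.of false) = MonoidHom.id _ := by
    ext t; cases t <;> simp
  rw [this]; rfl

theorem map_vw (N k0 i : ℕ) (φ : G →* H) (P Q : G) :
    φ (vw N k0 i P Q) = vw N k0 i (φ P) (φ Q) := by
  simp [vw, map_list_prod, Function.comp_def]

theorem map_cm (φ : G →* H) (a b : G) : φ (cm a b) = cm (φ a) (φ b) := by simp [cm]

theorem vw_one (N k0 i : ℕ) : vw N k0 i (1 : G) 1 = 1 := by simp [vw]

theorem Sat.map {f : ℕ → G} {tri : List (ℕ × ℕ × ℕ)} (h : Sat f tri) (φ : G →* H) :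
    Sat (fun i => φ (f i)) tri := fun t ht => by rw [← map_mul, h t ht]

end

section
variable {G X : Type} [Group G] [MulAction G X] [GSp X] [Iso G X]

theorem d_evl_le (a b : G) (x : X) (B : ℕ) (ha : d x (a • x) ≤ B) (hb : d x (b • x) ≤ B)
    (l : List (Bool × ℤ)) : d x (evl a b l • x) ≤ wlen l * B := by
  induction l with
  | nil => simp [d_self]
  | cons p l ih =>
    have h1 := d_mul_le ((cond p.1 a b) ^ p.2) (evl a b l) x
    have h2 := d_pow_le (cond p.1 a b) x p.2.natAbs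
    have h3 : d x (cond p.1 a b • x) ≤ B := by cases p.1 <;> assumption
    have h4 := Nat.mul_le_mul_left p.2.natAbs h3
    rw [d_zpow_eq] at h1
    rw [evl_cons]
    simp only [wlen, List.map_cons, List.sum_cons, Nat.add_mul] at *
    omega

theorem d_evl_le' (a b : G) (x : X) (B : ℕ) (ha : ∀ i : ℤ, d x (a ^ i • x) ≤ B)
    (hb : ∀ i : ℤ, d x (b ^ i • x) ≤ B) (l : List (Bool × ℤ)) :
    d x (evl a b l • x) ≤ l.length * B := by
  induction l with
  | nil => simp [d_self]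
  | cons p l ih =>
    have h1 := d_mul_le ((cond p.1 a b) ^ p.2) (evl a b l) x
    have h3 : d x ((cond p.1 a b) ^ p.2 • x) ≤ B := by cases p.1 <;> simp [ha, hb]
    rw [evl_cons, List.length_cons, Nat.succ_mul]
    omega

end

theorem Alt.length_le {l : List (Bool × ℤ)} (h : Alt l) : l.length ≤ wlen l := by
  have h2 := h.2
  clear h
  induction l with
  | nil => simp
  | cons p l ih =>
    have := ih (fun q hq => h2 q (List.mem_cons_of_mem _ hq))
    have := h2 p (List.mem_cons_self ..)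
    simp only [wlen, List.map_cons, List.sum_cons, List.length_cons] at *
    omega

end Pool.Agent.QIB
end

-- merged part: Pool.Agent.Work.MP_9628a2_al.BaseW
section
set_option autoImplicit false

namespace Pool.Agent.QIB

/-- The word for the `k`-th torus generator. -/
def wE (n k : ℕ) : FreeGroup ℕ :=
  if k < n then FreeGroup.of (k + 1) else FreeGroup.of 0 * FreeGroup.of 1 * (FreeGroup.of 0)⁻¹

/-- The word for the `k`-th translation. -/
def wT (n k : ℕ) : FreeGroup ℕ := wE n (k + 1) ^ 9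

/-- The word for the second generator of the `k`-th torus. -/
def wG (n k : ℕ) : FreeGroup ℕ := (wE n k)⁻¹ ^ 2 * (wT n k * wE n k * (wT n k)⁻¹)

/-- The relators of the witness. -/
def rels (n : ℕ) : List (FreeGroup ℕ) :=
  (List.range n).map (fun k => wE n k * wG n k * (wE n k)⁻¹ * (wG n k)⁻¹) ++
  (List.range n).map (fun k => wT n k * wG n k * (wT n k)⁻¹ * (wE n k ^ 3 * wG n k ^ 2)⁻¹)

/-- First word of the conclusion. -/
def wY (n : ℕ) : FreeGroup ℕ := wG n 0

/-- Second word of the conclusion. -/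
def wY' (n : ℕ) : FreeGroup ℕ := wE n 1 ^ 3 * wG n 0 * (wE n 1 ^ 3)⁻¹

theorem rels_congr {G : Type} [Group G] (n : ℕ) (hn : 2 ≤ n) (x y : ℕ → G)
    (h : ∀ i, i ≤ n → x i = y i) :
    (∀ r ∈ rels n, FreeGroup.lift x r = FreeGroup.lift y r) ∧
    FreeGroup.lift x (wY n) = FreeGroup.lift y (wY n) ∧
    FreeGroup.lift x (wY' n) = FreeGroup.lift y (wY' n) := by
  have hE : ∀ k, FreeGroup.lift x (wE n k) = FreeGroup.lift y (wE n k) := fun k => by
    unfold wE
    split_ifs with hk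
    · simpa using h (k + 1) hk
    · simp [h 0 (by omega), h 1 (by omega)]
  refine ⟨fun r hr => ?_, ?_, ?_⟩
  · simp only [rels, List.mem_append, List.mem_map] at hr
    rcases hr with ⟨k, -, rfl⟩ | ⟨k, -, rfl⟩ <;> simp [wG, wT, hE]
  · simp [wY, wG, wT, hE]
  · simp [wY', wG, wT, hE]

namespace BW

variable {Q : Type} [Group Q]

/-- The relations of the vertex group. -/
structure Rel (e g t : Q) : Prop where
  c : Commute e g
  te : t * e * t⁻¹ = e ^ 2 * g
  tg : t * g * t⁻¹ = e ^ 3 * g ^ 2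

/-- The torus element with given coordinates. -/
def tor (e g : Q) (a : ℤ√3) : Q := e ^ a.re * g ^ a.im

/-- The order is `3 ^ j` times a number prime to three, at most. -/
def A (j : ℕ) (y : Q) : Prop := ∃ m : ℕ, ¬3 ∣ m ∧ y ^ (3 ^ j * m) = 1

theorem A.succ {j : ℕ} {y : Q} (h : A j y) : A (j + 1) y := by
  obtain ⟨m, hm, h⟩ := h
  exact ⟨m, hm, by rw [pow_succ, mul_right_comm, pow_mul, h, one_pow]⟩

theorem exists_A [Finite Q] (y : Q) : ∃ j, A j y := by
  obtain ⟨j, m, hm, h⟩ := Nat.exists_eq_pow_mul_and_not_dvd (orderOf_pos y).ne' 3 (by omega)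
  exact ⟨j, m, hm, by rw [← h, pow_orderOf_eq_one]⟩

theorem A.cube {y : Q} (h : A 1 y) : ∃ c : ℕ, y ^ 3 = (y ^ 9) ^ c := by
  obtain ⟨m, hm, h⟩ := h
  obtain ⟨c, d, hc⟩ : ∃ c d : ℕ, 9 * c = 3 + 3 ^ 1 * m * d := by
    obtain h1 | h1 : m % 3 = 1 ∨ m % 3 = 2 := by omega
    · exact ⟨(1 + 2 * m) / 3, 2, by omega⟩
    · exact ⟨(1 + m) / 3, 1, by omega⟩
  exact ⟨c, by rw [← pow_mul, hc, pow_add, pow_mul, h, one_pow, mul_one]⟩

theorem norm_pow (N : ℕ) :
    ((⟨2, 1⟩ : ℤ√3) ^ N).re ^ 2 - 3 * ((⟨2, 1⟩ : ℤ√3) ^ N).im ^ 2 = 1 := by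
  induction N with
  | zero => simp
  | succ N ih =>
    rw [pow_succ _ N, Zsqrtd.re_mul, Zsqrtd.im_mul]
    linear_combination ih

theorem not_dvd_re (N : ℕ) : ¬(3 : ℤ) ∣ ((⟨2, 1⟩ : ℤ√3) ^ N).re := by
  rintro ⟨c, hc⟩
  have := norm_pow N
  rw [hc] at this
  have : 3 * (3 * c ^ 2 - ((⟨2, 1⟩ : ℤ√3) ^ N).im ^ 2) = 1 := by linear_combination this
  omega

theorem dvd_im_add (N : ℕ) :
    (3 : ℤ) ∣ ((⟨2, 1⟩ : ℤ√3) ^ N).im + N * ((⟨2, 1⟩ : ℤ√3) ^ N).re := by
  induction N with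
  | zero => simp
  | succ N ih =>
    obtain ⟨c, hc⟩ := ih
    refine ⟨2 * c + ((⟨2, 1⟩ : ℤ√3) ^ N).re + (N + 1) * ((⟨2, 1⟩ : ℤ√3) ^ N).im, ?_⟩
    rw [pow_succ, Zsqrtd.re_mul, Zsqrtd.im_mul]
    push_cast
    linear_combination 2 * hc

theorem val_im (j m : ℕ) (hm : ¬3 ∣ m) :
    ∃ u : ℤ, ¬3 ∣ u ∧ ((⟨2, 1⟩ : ℤ√3) ^ (3 ^ j * m)).im = 3 ^ j * u := by
  induction j with
  | zero =>
    refine ⟨_, fun h => ?_, (one_mul _).symm⟩
    rw [pow_zero, one_mul] at h
    rcases Int.prime_three.dvd_or_dvd ((dvd_add_right h).1 (dvd_im_add m)) with h1 | h1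
    · exact hm (by exact_mod_cast h1)
    · exact not_dvd_re m h1
  | succ j ih =>
    obtain ⟨u, hu, h⟩ := ih
    have h1 := norm_pow (3 ^ j * m)
    rw [pow_succ, mul_right_comm, pow_mul]
    generalize (⟨2, 1⟩ : ℤ√3) ^ (3 ^ j * m) = z at h h1
    refine ⟨u * (z.re ^ 2 + z.im ^ 2), fun h2 => ?_, ?_⟩
    · obtain ⟨c, hc⟩ := (Int.prime_three.dvd_or_dvd h2).resolve_left hu
      have h3 : z.im ^ 2 % 3 = 0 ∨ z.im ^ 2 % 3 = 1 := by
        obtain h4 | h4 | h4 : z.im % 3 = 0 ∨ z.im % 3 = 1 ∨ z.im % 3 = 2 := by omega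
        all_goals simp [pow_two, Int.mul_emod, h4]
      omega
    · simp only [pow_succ, pow_zero, one_mul, Zsqrtd.re_mul, Zsqrtd.im_mul]
      linear_combination 3 * (z.re ^ 2 + z.im ^ 2) * h

namespace Rel

variable {e g t : Q} (h : Rel e g t)
include h

theorem mul (a b c d : ℤ) : e ^ a * g ^ b * (e ^ c * g ^ d) = e ^ (a + c) * g ^ (b + d) := by
  rw [zpow_add, zpow_add, (h.c.symm.zpow_zpow b c).mul_mul_mul_comm]

theorem zpow (a b c : ℤ) : (e ^ a * g ^ b) ^ c = e ^ (a * c) * g ^ (b * c) := by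
  rw [(h.c.zpow_zpow a b).mul_zpow, zpow_mul, zpow_mul]

theorem conj (a : ℤ√3) : t * tor e g a * t⁻¹ = tor e g (⟨2, 1⟩ * a) := by
  have e1 : t * tor e g a * t⁻¹ = (e ^ (2 : ℤ) * g ^ (1 : ℤ)) ^ a.re *
      (e ^ (3 : ℤ) * g ^ (2 : ℤ)) ^ a.im := by
    rw [zpow_one, zpow_ofNat, zpow_ofNat, zpow_ofNat, ← h.te, ← h.tg, conj_zpow, conj_zpow, tor]
    group
  rw [e1, h.zpow, h.zpow, h.mul, tor, Zsqrtd.re_mul, Zsqrtd.im_mul]
  congr 2
  ring

theorem conj_pow (N : ℕ) (a : ℤ√3) :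
    t ^ N * tor e g a * (t ^ N)⁻¹ = tor e g (⟨2, 1⟩ ^ N * a) := by
  induction N with
  | zero => simp
  | succ N ih =>
    rw [pow_succ' (⟨2, 1⟩ : ℤ√3), mul_assoc _ _ a, ← h.conj, ← ih, pow_succ']
    group

theorem comm (N : ℕ) : g * (t ^ N * g * (t ^ N)⁻¹) = t ^ N * g * (t ^ N)⁻¹ * g := by
  have := h.conj_pow N ⟨0, 1⟩
  rw [tor, zpow_zero, zpow_one, one_mul] at this
  rw [this]
  exact ((h.c.symm.zpow_right _).mul_right ((Commute.refl g).zpow_right _)).eq

theorem kill {N : ℕ} (hN : t ^ N = 1) : e ^ (6 * ((⟨2, 1⟩ : ℤ√3) ^ N).im) = 1 := by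
  have h1 := h.conj_pow N
  have h2 := norm_pow N
  simp only [hN, one_mul, inv_one, mul_one] at h1
  generalize (⟨2, 1⟩ : ℤ√3) ^ N = z at h1 h2
  have h3 : tor e g ⟨-3 * z.im, z.re⟩ = tor e g ⟨3 * z.im, z.re⟩ := by
    rw [h1, h1]
    congr 1
    ext
    · simp only [Zsqrtd.re_mul, Zsqrtd.im_mul]
      linear_combination 3 * z.im * h2
    · simp only [Zsqrtd.re_mul, Zsqrtd.im_mul]
      linear_combination z.re * h2
  rw [show 6 * z.im = 3 * z.im - -3 * z.im by ring, zpow_sub, ← mul_right_cancel h3,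
    mul_inv_cancel]

end Rel

theorem Rel.step {e g y : Q} (h : Rel e g (y ^ 9)) {j : ℕ} (hy : A (j + 2) y) : A (j + 1) e := by
  obtain ⟨m, hm, h1⟩ := hy
  obtain ⟨u, hu, h2⟩ := val_im j m hm
  have h3 := h.kill (N := 3 ^ j * m) (by rw [← pow_mul, ← h1]; congr 1; ring)
  refine ⟨2 * u.natAbs, by omega, ?_⟩
  rw [← orderOf_dvd_iff_zpow_eq_one, h2, Int.natCast_dvd, Int.natAbs_mul, Int.natAbs_mul,
    Int.natAbs_pow] at h3
  rw [← orderOf_dvd_iff_pow_eq_one]
  convert h3 using 1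
  simp only [Int.reduceAbs]
  ring

end BW

/-- In finite groups the relators force the two words to commute. -/
theorem rels_fin {Q : Type} [Group Q] [Finite Q] (n : ℕ) (hn : 2 ≤ n) (x : ℕ → Q)
    (h : ∀ r ∈ rels n, FreeGroup.lift x r = 1) :
    FreeGroup.lift x (wY n) * FreeGroup.lift x (wY' n) =
      FreeGroup.lift x (wY' n) * FreeGroup.lift x (wY n) := by
  obtain ⟨e, he⟩ : ∃ e : ℕ → Q, ∀ k, FreeGroup.lift x (wE n k) = e k := ⟨_, fun _ => rfl⟩
  obtain ⟨g, hg⟩ : ∃ g : ℕ → Q, ∀ k, FreeGroup.lift x (wG n k) = g k := ⟨_, fun _ => rfl⟩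
  have ht : ∀ k, FreeGroup.lift x (wT n k) = e (k + 1) ^ 9 := fun k => by rw [wT, map_pow, he]
  have R : ∀ k, k < n → BW.Rel (e k) (g k) (e (k + 1) ^ 9) := fun k hk => by
    have h1 := h _ (List.mem_append_left _ (List.mem_map.2 ⟨k, List.mem_range.2 hk, rfl⟩))
    have h2 := h _ (List.mem_append_right _ (List.mem_map.2 ⟨k, List.mem_range.2 hk, rfl⟩))
    have h3 := hg k
    rw [wG] at h3
    simp only [map_mul, map_inv, map_pow, he, hg, ht] at h1 h2 h3
    refine ⟨?_, ?_, mul_inv_eq_one.1 h2⟩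
    · rwa [mul_inv_eq_one, mul_inv_eq_iff_eq_mul] at h1
    · rw [← h3, ← mul_assoc, inv_pow, mul_inv_cancel, one_mul]
  have hc : ∀ j, BW.A j (e 0) → BW.A j (e n) := fun j ⟨m, hm, h0⟩ => ⟨m, hm, by
    rw [← he, wE, if_pos (by omega)] at h0
    rw [← he, wE, if_neg (lt_irrefl n), map_mul, map_mul, map_inv, conj_pow, h0]
    simp⟩
  have down : ∀ j, BW.A (j + 2) (e n) → ∀ i k, k + i + 1 = n → BW.A (j + 1) (e k) :=
    fun j hj i => by
      induction i with
      | zero => exact fun k hk => (R k (by omega)).step (by rwa [← hk] at hj)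
      | succ i ih => exact fun k hk => (R k (by omega)).step (ih (k + 1) (by omega)).succ
  have h1 : ∀ j, BW.A (j + 1) (e 0) → BW.A 1 (e 0) := fun j => by
    induction j with
    | zero => exact id
    | succ j ih => exact fun hj => ih (down j (hc _ hj) (n - 1) 0 (by omega))
  obtain ⟨j, hj⟩ := BW.exists_A (e 0)
  obtain ⟨c, hc'⟩ := (down 0 (hc _ (h1 j hj.succ)).succ (n - 2) 1 (by omega)).cube
  simp only [wY, wY', map_mul, map_inv, map_pow, he, hg]
  rw [hc']
  exact (R 0 (by omega)).comm c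

end Pool.Agent.QIB
end

-- merged part: Pool.Agent.Work.MP_9628a2_al.Bowditch
section
set_option autoImplicit false

namespace Pool.Agent.QIB

/-- Hypotheses of the guessing geodesics criterion. -/
structure Guess (X : Type) [GSp X] (L : X → X → Set X) (h : ℕ) : Prop where
  thin : ∀ x y z, ∀ p ∈ L x y, ∃ q, (q ∈ L x z ∨ q ∈ L z y) ∧ d p q ≤ h
  edge : ∀ x y, d x y ≤ 1 → ∀ p ∈ L x y, d x p ≤ h
  conn : ∀ x y, Relation.ReflTransGen (fun p q => p ∈ L x y ∧ q ∈ L x y ∧ d p q ≤ h) x y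

section Aux
variable {X : Type} [GSp X] {L : X → X → Set X} {h : ℕ}

theorem sq_le_two_pow (k : ℕ) (hk : 4 ≤ k) : k * k ≤ 2 ^ k := by
  induction k, hk using Nat.le_induction with
  | base => norm_num
  | succ k hk ih => rw [pow_succ]; nlinarith

/-- Logarithmic bound along a path with unit steps. -/
theorem Guess.log_bd (G : Guess X L h) (j : ℕ) (y : ℕ → X)
    (hy : ∀ i, d (y i) (y (i + 1)) ≤ 1) (w : X) (hw : w ∈ L (y 0) (y (2 ^ j))) :
    ∃ i, d w (y i) ≤ h * (j + 1) := by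
  induction j generalizing y w with
  | zero =>
    refine ⟨0, ?_⟩
    have := G.edge _ _ (hy 0) w (by simpa using hw)
    have := d_comm w (y 0)
    omega
  | succ j ih =>
    obtain ⟨q, hq, hq'⟩ := G.thin _ _ (y (2 ^ j)) w hw
    have e : 2 ^ (j + 1) = 2 ^ j + 2 ^ j := by rw [pow_succ]; omega
    rcases hq with hq | hq
    · obtain ⟨i, hi⟩ := ih y hy q hq
      refine ⟨i, ?_⟩
      have := d_tri w q (y i)
      rw [Nat.mul_succ]; omega
    · obtain ⟨i, hi⟩ := ih (fun i => y (2 ^ j + i)) (fun i => hy (2 ^ j + i)) q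
        (by simpa [e] using hq)
      refine ⟨2 ^ j + i, ?_⟩
      have := d_tri w q (y (2 ^ j + i))
      rw [Nat.mul_succ]; omega

/-- Logarithmic bound for a piece of a geodesic. -/
theorem Guess.log_geod (G : Guess X L h) {γ : ℕ → X} {x y : X} (hγ : IsGeod γ x y) (j a b : ℕ)
    (hab : a ≤ b) (hj : b ≤ a + 2 ^ j) (w : X) (hw : w ∈ L (γ a) (γ b)) :
    ∃ i, a ≤ i ∧ i ≤ b ∧ d w (γ i) ≤ h * (j + 1) := by
  obtain ⟨i, hi⟩ := G.log_bd j (fun i => γ (min (a + i) b)) (by
    intro i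
    by_cases hb : a + i < b
    · rw [show min (a + i) b = a + i by omega, show min (a + (i + 1)) b = a + i + 1 by omega]
      exact hγ.d_succ _
    · rw [show min (a + i) b = b by omega, show min (a + (i + 1)) b = b by omega, d_self]
      omega) w (by
    rw [show min (a + 0) b = a by omega, show min (a + 2 ^ j) b = b by omega]
    exact hw)
  exact ⟨min (a + i) b, by omega, by omega, hi⟩

/-- Guessed lines between points of the geodesic `γ` stay `F` close to it. -/
def NearG (L : X → X → Set X) (γ : ℕ → X) (n F : ℕ) : Prop :=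
  ∀ a b, a ≤ b → b ≤ n → ∀ w ∈ L (γ a) (γ b), ∃ i, a ≤ i ∧ i ≤ b ∧ d w (γ i) ≤ F

theorem NearG.mono {γ : ℕ → X} {n F F' : ℕ} (H : NearG L γ n F) (hF : F ≤ F') :
    NearG L γ n F' := fun a b hab hb w hw => by
  obtain ⟨i, h1, h2, h3⟩ := H a b hab hb w hw
  exact ⟨i, h1, h2, by omega⟩

theorem Guess.improve (G : Guess X L h) {γ : ℕ → X} {x y : X} (hγ : IsGeod γ x y) (F j : ℕ)
    (hj : 4 * F + 4 * h + 2 ≤ 2 ^ j) (H : NearG L γ (d x y) F) :
    NearG L γ (d x y) (h * (j + 3)) := by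
  intro a b hab hb w hw
  obtain ⟨i, hi1, hi2, hi⟩ := H a b hab hb w hw
  -- left end
  have A : ∃ a', a ≤ a' ∧ a' ≤ i ∧ i ≤ a' + (2 * F + 2 * h + 1) ∧
      ∃ w' ∈ L (γ a') (γ b), d w w' ≤ h := by
    by_cases hc : i ≤ a + (2 * F + 2 * h + 1)
    · exact ⟨a, le_rfl, hi1, hc, w, hw, by rw [d_self]; omega⟩
    · obtain ⟨q, hq, hq'⟩ := G.thin _ _ (γ (i - (2 * F + 2 * h + 1))) w hw
      rcases hq with hq | hq
      · exfalso
        obtain ⟨k, hk1, hk2, hk⟩ := H a _ (by omega) (by omega) q hq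
        have e := hγ.2.2 k i (by omega) (by omega)
        have := d_tri (γ k) q (γ i); have := d_tri q w (γ i)
        have := d_comm (γ k) q; have := d_comm q w
        omega
      · exact ⟨_, by omega, by omega, by omega, q, hq, hq'⟩
  obtain ⟨a', ha1, ha2, ha3, w1, hw1, hd1⟩ := A
  have B : ∃ b', b' ≤ b ∧ i ≤ b' ∧ b' ≤ i + (2 * F + 2 * h + 1) ∧
      ∃ w' ∈ L (γ a') (γ b'), d w1 w' ≤ h := by
    by_cases hc : b ≤ i + (2 * F + 2 * h + 1)
    · exact ⟨b, le_rfl, hi2, hc, w1, hw1, by rw [d_self]; omega⟩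
    · obtain ⟨q, hq, hq'⟩ := G.thin _ _ (γ (i + (2 * F + 2 * h + 1))) w1 hw1
      rcases hq with hq | hq
      · exact ⟨_, by omega, by omega, le_rfl, q, hq, hq'⟩
      · exfalso
        obtain ⟨k, hk1, hk2, hk⟩ := H _ b (by omega) hb q hq
        have e := hγ.2.2 i k (by omega) (by omega)
        have := d_tri (γ i) w (γ k); have := d_tri w w1 (γ k); have := d_tri w1 q (γ k)
        have := d_comm (γ i) w
        omega
  obtain ⟨b', hb1, hb2, hb3, w2, hw2, hd2⟩ := B
  obtain ⟨k, hk1, hk2, hk⟩ := G.log_geod hγ j a' b' (by omega) (by omega) w2 hw2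
  refine ⟨k, by omega, by omega, ?_⟩
  have := d_tri w w1 (γ k); have := d_tri w1 w2 (γ k)
  rw [show h * (j + 3) = h * (j + 1) + h + h by ring]
  omega

theorem Guess.nearG (G : Guess X L h) {γ : ℕ → X} {x y : X} (hγ : IsGeod γ x y) :
    NearG L γ (d x y) (h * (8 * h + 13)) := by
  have key : ∀ k, NearG L γ (d x y) (h * (8 * h + 10 + k + 3)) →
      NearG L γ (d x y) (h * (8 * h + 13)) := by
    intro k
    induction k with
    | zero => exact fun H => H
    | succ k ih =>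
      intro H
      refine ih (G.improve hγ _ (8 * h + 10 + k) ?_ H)
      have := sq_le_two_pow (8 * h + 10 + k) (by omega)
      nlinarith [Nat.zero_le (h * k), Nat.zero_le (k * k), Nat.zero_le (h * h)]
  refine key (d x y) fun a b hab hb w hw => ?_
  have : d x y < 2 ^ (d x y) := Nat.lt_two_pow_self
  obtain ⟨i, h1, h2, h3⟩ := G.log_geod hγ (d x y) a b hab (by omega) w hw
  exact ⟨i, h1, h2, h3.trans (Nat.mul_le_mul_left _ (by omega))⟩

theorem Guess.near_geod (G : Guess X L h) {γ : ℕ → X} {x y : X} (hγ : IsGeod γ x y) (w : X)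
    (hw : w ∈ L x y) : ∃ i, i ≤ d x y ∧ d w (γ i) ≤ h * (8 * h + 13) := by
  obtain ⟨i, -, h2, h3⟩ := G.nearG hγ 0 (d x y) (by omega) le_rfl w
    (by rw [hγ.1, hγ.2.1 _ le_rfl]; exact hw)
  exact ⟨i, h2, h3⟩

theorem Guess.near_line (G : Guess X L h) {x y p : X} (hp : Btw x p y) (hxy : x ≠ y) :
    ∃ q ∈ L x y, d p q ≤ 3 * (h * (8 * h + 13)) + h := by
  obtain ⟨γ, hγ, hγp⟩ := exists_geod_through hp
  have hi : d x p ≤ d x y := by unfold Btw at hp; omega
  have hnear := G.near_geod hγ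
  generalize h * (8 * h + 13) = k at *
  have key : ∀ z, Relation.ReflTransGen (fun p q => p ∈ L x y ∧ q ∈ L x y ∧ d p q ≤ h) x z →
      (∃ a, a ≤ d x p ∧ d z (γ a) ≤ k) ∨ ∃ q ∈ L x y, d p q ≤ 3 * k + h := by
    intro z hz
    induction hz with
    | refl => exact Or.inl ⟨0, by omega, by rw [hγ.1, d_self]; omega⟩
    | @tail u v _ huv ih =>
      rcases ih with ⟨a, ha, hu⟩ | ih
      · obtain ⟨b, hb, hv⟩ := hnear v huv.2.1
        by_cases hc : b ≤ d x p
        · exact Or.inl ⟨b, hc, hv⟩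
        · refine Or.inr ⟨u, huv.1, ?_⟩
          have e1 := hγ.2.2 a b (by omega) hb
          have e2 := hγ.2.2 a (d x p) ha hi
          rw [hγp] at e2
          have := huv.2.2
          have := d_tri (γ a) u (γ b); have := d_tri u v (γ b)
          have := d_tri p (γ a) u
          have := d_comm (γ a) u; have := d_comm p (γ a)
          omega
      · exact Or.inr ih
  rcases key y (G.conn x y) with ⟨a, ha, hy⟩ | H
  · rcases (G.conn x y).cases_tail with e | ⟨c, -, hc⟩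
    · exact absurd e.symm hxy
    · refine ⟨y, hc.2.1, ?_⟩
      have e := hγ.d_right (i := a) (by omega)
      have := d_comm y (γ a)
      unfold Btw at hp
      omega
  · exact H

end Aux

theorem bowditch (h : ℕ) : ∃ k : ℕ, ∀ (X : Type) [GSp X] (L : X → X → Set X), Guess X L h →
    Slim X k ∧ ∀ x y p : X, Btw x p y → x ≠ y → ∃ q ∈ L x y, d p q ≤ k := by
  refine ⟨4 * (h * (8 * h + 13)) + 2 * h, fun X _ L G => ⟨?_, ?_⟩⟩
  · intro x y z p hp
    by_cases hxy : x = y
    · subst hxy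
      obtain rfl := hp.eq_of_self
      exact ⟨p, Or.inl (btw_left p z), by rw [d_self]; omega⟩
    · obtain ⟨q, hq, hd⟩ := G.near_line hp hxy
      obtain ⟨r, hr, hd'⟩ := G.thin x y z q hq
      rcases hr with hr | hr
      · obtain ⟨γ, hγ⟩ := exists_geod x z
        obtain ⟨i, -, hi⟩ := G.near_geod hγ r hr
        refine ⟨γ i, Or.inl (hγ.btw i), ?_⟩
        have := d_tri p q (γ i); have := d_tri q r (γ i)
        omega
      · obtain ⟨γ, hγ⟩ := exists_geod z y
        obtain ⟨i, -, hi⟩ := G.near_geod hγ r hr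
        refine ⟨γ i, Or.inr (hγ.btw i), ?_⟩
        have := d_tri p q (γ i); have := d_tri q r (γ i)
        omega
  · intro x y p hp hxy
    obtain ⟨q, hq, hd⟩ := G.near_line hp hxy
    exact ⟨q, hq, by omega⟩

/-- The absolute slimness constant. -/
noncomputable def kB : ℕ := Classical.choose (bowditch 20)

theorem kB_spec (X : Type) [GSp X] (L : X → X → Set X) (h : Guess X L 20) :
    Slim X kB ∧ ∀ x y p : X, Btw x p y → x ≠ y → ∃ q ∈ L x y, d p q ≤ kB :=
  Classical.choose_spec (bowditch 20) X L h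

end Pool.Agent.QIB
end

-- merged part: Pool.Agent.Work.MP_9628a2_al.Stage
section
set_option autoImplicit false

namespace Pool.Agent.QIB

/-- The parameters of the construction. -/
structure Par where
  δ : ℕ
  W1 : List (Bool × ℤ)
  W2 : List (Bool × ℤ)
  n : ℕ
  T : ℕ
  ε2 : ℕ
  ε0 : ℕ
  ε3 : ℕ
  B0 : ℕ
  ε4 : ℕ
  ρ : ℕ
  A' : ℕ
  A : ℕ
  σ : ℕ
  Δ : ℕ
  R : ℕ
  ν : ℕ
  kk : ℕ
  m : ℕ
  k0 : ℕ
  N : ℕ
  hδ : 6 * kB + 2 ≤ δ
  hW1 : Alt W1
  hAB : AB W1
  hW : wd W1 * wd W2 ≠ wd W2 * wd W1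
  hn : T + 2 ≤ n
  hε2 : 30 * δ * 2 ^ (60 * δ) + 200 * δ ≤ ε2
  hε0 : ε2 + 10 * δ ≤ ε0
  hε3 : 4 * (wlen W1 + wlen W2 + 1) * ε0 ≤ ε3
  hB0 : ε3 + n + 1 ≤ B0
  hε4 : ε3 + 2 * B0 ≤ ε4
  hρ : 10 * ε4 + 1000 * δ ≤ ρ
  hA' : ρ + 2 * ε2 + 10 ≤ A'
  hA : 31 * ε2 + 2 * A' ≤ A
  hσ : 2 * A' + 2 * ε4 + 20 * δ ≤ σ
  hΔ : (200 * (δ + σ + 1) + 20) * σ + 200 * (δ + σ + 1) + A + 20 * δ ≤ Δ
  hR : 1000 * (δ + σ + Δ + A + 1) ≤ R
  hν : R * (14 * δ * 2 ^ (14 * δ) + 3) ≤ ν
  hkk : ν * (10 * (δ + σ + 1)) ≤ 2 ^ kk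
  hkk' : 2 * δ * kk ≤ R
  hm9 : 9 ∣ m
  hm : ν * (ε0 * (R * 2 ^ (2 * ε0)) + 7 * δ) < m
  hk0 : ν * (400 * δ * (R * 2 ^ ρ)) < k0
  hN : (200 * T + 200) * (20 * δ * (R * 2 ^ ρ)) ≤ N

/-- The data of a stage besides the group and the space. -/
structure SD (G0 T G X : Type) [Group G0] [Group G] where
  π : G0 →* G
  ι : T → X
  E : Set X
  F : Set X

/-- A pair whose words are conjugate to the witness generators. -/
def Treated (P : Par) {G : Type} [Group G] (γ : ℕ → G) (g h : G) : Prop :=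
  ∃ u : G, ∀ i, i ≤ P.n → vw P.N P.k0 i g h = u * γ i * u⁻¹

section
variable {G0 T G X : Type} [Group G0] [Group G] [MulAction G X]

/-- Special points. -/
def SD.Sp (S : SD G0 T G X) : Set X := Set.range S.ι ∪ S.E

/-- Elliptic elements. -/
def SD.Ell (S : SD G0 T G X) (g : G) : Prop := ∃ s ∈ S.Sp, g • s = s

/-- Elementary pairs. -/
def SD.Elem (S : SD G0 T G X) (g h : G) : Prop := ∃ s ∈ S.Sp, g • s = s ∧ h • s = s

variable [GSp X]

/-- Pairs that are ready for a relator. -/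
def SD.Ready (P : Par) (S : SD G0 T G X) (g h : G) : Prop :=
  ∃ c ∈ S.F, g ≠ 1 ∧ g • c = c ∧ h • c ≠ c ∧ ∃ x : X, d x (g • x) ≤ P.ε3 ∧ d x (h • x) ≤ P.ε3

variable [MulAction G0 T]

/-- The invariants of a stage. -/
structure Inv (P : Par) (v0 : T) (γ : ℕ → G0) (e : G0) (S : SD G0 T G X) : Prop where
  e_ne : e ≠ 1
  e_fix : e • v0 = v0
  gam_ell : ∀ i, i ≤ P.n → i ≠ 0 → ∃ v : T, γ i • v = v
  hyp : Hyp X P.δ
  surj : Function.Surjective S.π
  ι_smul : ∀ (g : G0) (v : T), S.ι (g • v) = S.π g • S.ι v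
  E_smul : ∀ (g : G), ∀ c ∈ S.E, g • c ∈ S.E
  F_sub : S.F ⊆ S.E
  F_smul : ∀ (g : G), ∀ c ∈ S.F, g • c ∈ S.F
  ι_not : ∀ v, S.ι v ∉ S.E
  s1 : ∀ (g : G0) (v v' : T), S.π g • S.ι v = S.ι v' → ∃ k : G0, S.π k = 1 ∧ (k * g) • v = v'
  s2 : ∀ (g : G0) (v : T), g • v = v → S.π g = 1 → g = 1
  s3 : ∀ (g : G0) (v v' : T), g • v = v → g ≠ 1 → S.π g • S.ι v' = S.ι v' →
    ∃ k : G0, S.π k = 1 ∧ g • k • v' = k • v'
  k0 : ∀ (g : G), g ≠ 1 → ∀ c ∈ S.E, ∀ s ∈ S.Sp, g • c = c → g • s = s → s = c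
  E_comm : ∀ c ∈ S.E, ∀ g h : G, g • c = c → h • c = c → g * h = h * g
  tf : ∀ (g : G) (i : ℕ), i ≠ 0 → g ^ i = 1 → g = 1
  F_sep : ∀ c ∈ S.F, ∀ c' ∈ S.F, c ≠ c' → 2 * P.ρ ≤ d c c'
  F_rot : ∀ c ∈ S.F, ∀ g : G, g ≠ 1 → g • c = c → ∀ i : ℕ, P.k0 ≤ i → ∀ u, d c u = 1 →
    ¬ Reach c (400 * P.δ) u (g ^ i • u)
  i4 : ∀ g : G, S.Ell g ∨ Lox X P.ν g
  i5a : ∀ g : G, g ≠ 1 → ∀ s ∈ S.Sp, g • s = s → ∀ x : X, d x (g • x) ≤ 30 * P.δ → d x s ≤ P.A'
  i5b : ∀ g h : G, ¬ S.Ell g → ¬ S.Ell h → ∀ x y : X, d x (g • x) ≤ 30 * P.δ →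
    d y (g • y) ≤ 30 * P.δ → d x (h • x) ≤ 30 * P.δ → d y (h • y) ≤ 30 * P.δ → P.A < d x y →
    g * h = h * g
  i7 : ∀ (a : G) (i : ℤ) (x : X), i ≠ 0 → d x ((a ^ P.m) ^ i • x) ≤ 30 * P.δ →
    d x (a ^ P.m • x) ≤ P.ε2
  i3 : ∀ (a b : G) (x : X), d x (a ^ P.m • x) ≤ P.ε0 → d x (b ^ P.m • x) ≤ P.ε0 →
    S.Elem (a ^ P.m) (b ^ P.m) ∨
    Treated P (fun i => S.π (γ i)) (evl (a ^ P.m) (b ^ P.m) P.W1) (evl (a ^ P.m) (b ^ P.m) P.W2) ∨
    S.Ready P (evl (a ^ P.m) (b ^ P.m) P.W1) (evl (a ^ P.m) (b ^ P.m) P.W2) ∨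
    (¬ S.Ell (evl (a ^ P.m) (b ^ P.m) P.W1) ∧
      evl (a ^ P.m) (b ^ P.m) P.W1 * evl (a ^ P.m) (b ^ P.m) P.W2 ≠
        evl (a ^ P.m) (b ^ P.m) P.W2 * evl (a ^ P.m) (b ^ P.m) P.W1)
  cob : ∀ x : X, ∃ g : G, d x (g • S.ι v0) ≤ P.R
  dich : ∀ x : X, (∃ g : G, d x (g • S.ι v0) ≤ P.B0) ∨
    ∀ g h : G, d x (g • x) ≤ P.ε3 → d x (h • x) ≤ P.ε3 → g * h = h * g
  gam : ∀ i, i ≤ P.n → S.π (γ i) ≠ 1 ∧ d (S.ι v0) (S.π (γ i) • S.ι v0) ≤ 2 * P.n

/-- The family of axes of short loxodromic elements. -/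
structure EFam (P : Par) (S : SD G0 T G X) (C : Type) [MulAction G C] where
  Y : C → Set X
  equi : ∀ (g : G) (c : C) (y : X), y ∈ Y c → g • y ∈ Y (g • c)
  ne : ∀ c, (Y c).Nonempty
  qc : ∀ c, QC (Y c) P.σ
  ovl : Ovl Y (100 * (P.δ + P.σ + 1)) P.Δ
  nonell : ∀ (g : G) (c : C), g • c = c → g ≠ 1 → ¬ S.Ell g
  comm : ∀ (g h : G) (c : C), g • c = c → h • c = c → g * h = h * g
  short : ∀ (g : G) (x : X), ¬ S.Ell g → d x (g • x) ≤ 7 * P.δ → ∃ c : C, g • c = c
  mv : ∀ c, ∃ κ : G, ¬ S.Ell κ ∧ ∀ y ∈ Y c, ∀ y' ∈ Y c, ∀ z, Btw y z y' → d z (κ • z) ≤ 20 * P.δ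

/-- The family of relator chains. -/
structure RFam (P : Par) (S : SD G0 T G X) (γ : ℕ → G0) (C : Type) [MulAction G C] where
  Y : C → Set X
  pos : C → X → ℤ
  equi : ∀ (g : G) (c : C) (y : X), y ∈ Y c → g • y ∈ Y (g • c)
  ne : ∀ c, (Y c).Nonempty
  qc : ∀ c, QC (Y c) P.σ
  ovl : Ovl Y (100 * (P.δ + P.σ + 1)) P.Δ
  nonell : ∀ (g : G) (c : C), g • c = c → g ≠ 1 → ¬ S.Ell g
  comm : ∀ (g h : G) (c : C), g • c = c → h • c = c → g * h = h * g
  ready : ∀ g h : G, S.Ready P g h → ∃ u : G, ∀ i, i ≤ P.n → ∃ c : C,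
    (vw P.N P.k0 i g h * (u * S.π (γ i) * u⁻¹)⁻¹) • c = c
  piv : ∀ c, ∀ y ∈ Y c, ∀ y' ∈ Y c, (200 * (P.δ + P.σ + 1) + 20) * P.σ < d y y' →
    ∀ w w' : X, d y w ≤ 100 * (P.δ + P.σ + 1) → d y' w' ≤ 100 * (P.δ + P.σ + 1) →
    ∃ z ∈ S.F, Btw w z w'
  pos_equi : ∀ (g : G) (c : C), ∃ t : ℤ, ∀ y ∈ Y c, pos (g • c) (g • y) = pos c y + P.N * t
  pos_faith : ∀ (g : G) (c : C), g • c = c → ∀ y ∈ Y c, pos c (g • y) = pos c y → g = 1
  pos_full : ∀ (c : C) (t : ℤ), ∃ g : G, g • c = c ∧ ∀ y ∈ Y c, pos c (g • y) = pos c y + P.N * t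
  pos_lip : ∀ c, ∀ y ∈ Y c, ∀ y' ∈ Y c, (pos c y - pos c y').natAbs ≤ d y y'

/-- The whole family of sets that is coned off at a step. -/
structure Fam (P : Par) (S : SD G0 T G X) (γ : ℕ → G0) (C : Type) [MulAction G C] where
  Y : C → Set X
  isR : C → Prop
  pos : C → X → ℤ
  equi : ∀ (g : G) (c : C) (y : X), y ∈ Y c → g • y ∈ Y (g • c)
  isR_smul : ∀ (g : G) (c : C), isR (g • c) ↔ isR c
  ne : ∀ c, (Y c).Nonempty
  qc : ∀ c, QC (Y c) P.σ
  ovl : Ovl Y (100 * (P.δ + P.σ + 1)) P.Δ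
  nonell : ∀ (g : G) (c : C), g • c = c → g ≠ 1 → ¬ S.Ell g
  comm : ∀ (g h : G) (c : C), g • c = c → h • c = c → g * h = h * g
  short : ∀ (g : G) (x : X), ¬ S.Ell g → d x (g • x) ≤ 7 * P.δ → ∃ c : C, ¬ isR c ∧ g • c = c
  ready : ∀ g h : G, S.Ready P g h → ∃ u : G, ∀ i, i ≤ P.n → ∃ c : C, isR c ∧
    (vw P.N P.k0 i g h * (u * S.π (γ i) * u⁻¹)⁻¹) • c = c
  pos_equi : ∀ (g : G) (c : C), isR c →
    ∃ t : ℤ, ∀ y ∈ Y c, pos (g • c) (g • y) = pos c y + P.N * t
  pos_faith : ∀ (g : G) (c : C), isR c → g • c = c → ∀ y ∈ Y c, pos c (g • y) = pos c y → g = 1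
  pos_full : ∀ (c : C) (t : ℤ), isR c →
    ∃ g : G, g • c = c ∧ ∀ y ∈ Y c, pos c (g • y) = pos c y + P.N * t
  pos_lip : ∀ c, isR c → ∀ y ∈ Y c, ∀ y' ∈ Y c, (pos c y - pos c y').natAbs ≤ d y y'

/-- The relation between two consecutive stages. -/
structure Trans (P : Par) (v0 : T) (γ : ℕ → G0) (S : SD G0 T G X) {G' X' : Type} [Group G']
    [MulAction G' X'] [GSp X'] (S' : SD G0 T G' X') (φ : G →* G') : Prop where
  comp : ∀ g, S'.π g = φ (S.π g)
  ready : ∀ g h : G, S.Ready P g h → Treated P (fun i => S'.π (γ i)) (φ g) (φ h)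
  short : ∀ g : G, d (S.ι v0) (g • S.ι v0) ≤ 1 → S'.Ell (φ g)
  elem : ∀ g h : G, S.Elem g h → S'.Elem (φ g) (φ h)
  inj : ∀ g : G, g ≠ 1 → d (S.ι v0) (g • S.ι v0) ≤ P.R → φ g ≠ 1
  shrink : ∀ (g : G) (t : ℕ), d (S.ι v0) (g • S.ι v0) ≤ t * P.R →
    d (S'.ι v0) (φ g • S'.ι v0) ≤ t
  lift : ∀ (tri : List (ℕ × ℕ × ℕ)), tri.length ≤ P.T → ∀ f : ℕ → G', Sat f tri →
    ∃ f' : ℕ → G, (∀ i, φ (f' i) = f i) ∧ Sat f' tri

end

section
variable {G0 T G X : Type} [Group G0] [Group G] [MulAction G X] [GSp X] [MulAction G0 T]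
  {P : Par} {v0 : T} {γ : ℕ → G0} {e : G0} {S : SD G0 T G X}

theorem Par.one_le (P : Par) : 1 ≤ P.δ := by have := P.hδ; omega

omit [GSp X] [MulAction G0 T] [MulAction G X] in
theorem SD.ι_mem (S : SD G0 T G X) (v : T) : S.ι v ∈ S.Sp := Or.inl ⟨v, rfl⟩

omit [GSp X] [MulAction G0 T] [MulAction G X] in
theorem SD.E_mem (S : SD G0 T G X) {c : X} (h : c ∈ S.E) : c ∈ S.Sp := Or.inr h

theorem Inv.Sp_smul (I : Inv P v0 γ e S) (g : G) {s : X} (h : s ∈ S.Sp) : g • s ∈ S.Sp := by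
  rcases h with ⟨v, rfl⟩ | h
  · obtain ⟨a, rfl⟩ := I.surj g
    exact Or.inl ⟨a • v, I.ι_smul a v⟩
  · exact Or.inr (I.E_smul g s h)

theorem Inv.ell_one (_ : Inv P v0 γ e S) : S.Ell (1 : G) := ⟨S.ι v0, S.ι_mem v0, one_smul _ _⟩

theorem Inv.ell_conj (I : Inv P v0 γ e S) {g : G} (h : S.Ell g) (u : G) : S.Ell (u * g * u⁻¹) := by
  obtain ⟨s, hs, h⟩ := h
  exact ⟨u • s, I.Sp_smul u hs, by rw [mul_smul, mul_smul, inv_smul_smul, h]⟩

theorem Inv.lox (I : Inv P v0 γ e S) {g : G} (h : ¬ S.Ell g) : Lox X P.ν g :=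
  (I.i4 g).resolve_left h

theorem Inv.not_ell_of_lox (_ : Inv P v0 γ e S) {g : G} {ν : ℕ} (h : Lox X ν g) : ¬ S.Ell g := by
  rintro ⟨s, -, hs⟩
  have := h s 1
  rw [pow_one, hs, d_self] at this
  omega

theorem Inv.tf_z (I : Inv P v0 γ e S) {g : G} {i : ℤ} (hi : i ≠ 0) (h : g ^ i = 1) : g = 1 := by
  refine I.tf g i.natAbs (by omega) ?_
  rcases Int.natAbs_eq i with h' | h'
  · rw [← zpow_natCast, ← h', h]
  · rw [h', zpow_neg, inv_eq_one, zpow_natCast] at h; exact h

theorem Treated.map {H : Type} [Group H] {γ : ℕ → G} {g h : G} (t : Treated P γ g h)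
    (φ : G →* H) : Treated P (fun i => φ (γ i)) (φ g) (φ h) := by
  obtain ⟨u, hu⟩ := t
  exact ⟨φ u, fun i hi => by rw [← map_vw, hu i hi]; simp⟩

end

end Pool.Agent.QIB
end

-- merged part: Pool.Agent.Work.MP_9628a2_al.Proj
section
set_option autoImplicit false

namespace Pool.Agent.QIB

variable {X : Type} [GSp X] {δ σ : ℕ}

theorem IsProj.eq_of_mem {Y : Set X} {x a : X} (ha : IsProj Y x a) (hx : x ∈ Y) : a = x := by
  have := ha.2 x hx
  rw [d_self] at this
  exact (eq_of_d x a (by omega)).symm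

theorem isProj_self {Y : Set X} {x : X} (hx : x ∈ Y) : IsProj Y x x :=
  ⟨hx, fun _ _ => by rw [d_self]; omega⟩

/-- A nearest point is coarsely between the point and any point of the set. -/
theorem proj_btw (h : Hyp X δ) {Y : Set X} (hY : QC Y σ) {x a y : X} (ha : IsProj Y x a)
    (hy : y ∈ Y) : d x a + d a y ≤ d x y + (4 * δ + 2 * σ + 1) := by
  have t1 := d_tri x a y; have t2 := d_tri a x y; have t3 := d_tri x y a
  have c1 := d_comm x a; have c2 := d_comm y a
  obtain ⟨p, hp, hp'⟩ := exists_btw a y ((d x a + d a y - d x y) / 2) (by omega)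
  obtain ⟨q, hq, hq'⟩ := exists_btw a x ((d x a + d a y - d x y) / 2) (by omega)
  obtain ⟨r, hr, hr'⟩ := hY a ha.1 y hy p hp
  have := tripod h hq hp (by omega) (by omega)
  have := ha.2 r hr
  have := d_tri x q r; have := d_tri q p r; have := d_comm q x
  unfold Btw at hq
  omega

theorem proj_far (h : Hyp X δ) {Y : Set X} (hY : QC Y σ) {x x' a a' : X} (ha : IsProj Y x a)
    (ha' : IsProj Y x' a') (hf : 5 * δ + 2 * σ + 1 < d a a') :
    d x a + d a x' ≤ d x x' + (5 * δ + 2 * σ + 1) ∧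
    d x a' + d a' x' ≤ d x x' + (5 * δ + 2 * σ + 1) ∧
    d x a + d a a' + d a' x' ≤ d x x' + (9 * δ + 4 * σ + 2) := by
  have e1 := proj_btw h hY ha ha'.1
  have e2 := proj_btw h hY ha' ha.1
  have e3 := h x a' x' a
  have e4 := h x' a x a'
  have := d_comm a a'; have := d_comm x' a; have := d_comm x' a'; have := d_comm x x'
  have := d_comm x a; have := d_comm x a'
  have := d_tri x a a'; have := d_tri x' a' a
  omega

theorem proj_lip (h : Hyp X δ) {Y : Set X} (hY : QC Y σ) {x x' a a' : X} (ha : IsProj Y x a)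
    (ha' : IsProj Y x' a') : d a a' ≤ d x x' + (9 * δ + 4 * σ + 2) := by
  by_cases hf : 5 * δ + 2 * σ + 1 < d a a'
  · have := (proj_far h hY ha ha' hf).2.2; omega
  · omega

/-- A point coarsely between two points of a quasiconvex set is close to the set. -/
theorem near_qc (h : Hyp X δ) {Y : Set X} (hY : QC Y σ) {a b w : X} (ha : a ∈ Y) (hb : b ∈ Y)
    {κ : ℕ} (hw : d a w + d w b ≤ d a b + κ) : ∃ q ∈ Y, 2 * d w q ≤ κ + 4 * δ + 2 * σ + 1 := by
  obtain ⟨p, hp, hp'⟩ := near_btw h hw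
  obtain ⟨q, hq, hq'⟩ := hY a ha b hb p hp
  exact ⟨q, hq, by have := d_tri w p q; omega⟩

/-- Bounded projections. -/
theorem proj_bdd (h : Hyp X δ) {C : Type} {Y : C → Set X} (hY : ∀ c, QC (Y c) σ) {κ Δ : ℕ}
    (hO : Ovl Y κ Δ) (hκ : 5 * δ + 2 * σ + 1 ≤ κ) {c c' : C} (hc : c ≠ c') {y y' a a' : X}
    (hy : y ∈ Y c') (hy' : y' ∈ Y c') (ha : IsProj (Y c) y a) (ha' : IsProj (Y c) y' a') :
    d a a' ≤ Δ + (5 * δ + 2 * σ + 1) := by
  by_contra hf
  obtain ⟨e1, e2, -⟩ := proj_far h (hY c) ha ha' (by omega)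
  obtain ⟨q, hq, hq1⟩ := near_qc h (hY c') hy hy' e1
  obtain ⟨q', hq', hq2⟩ := near_qc h (hY c') hy hy' e2
  have := hO c c' hc a ha.1 a' ha'.1 q hq q' hq' (by omega) (by omega)
  omega

section
variable {G : Type} [Group G] [MulAction G X] [Iso G X]

theorem IsProj.smul {Y Y' : Set X} {g : G} (h1 : ∀ y ∈ Y, g • y ∈ Y') (h2 : ∀ y ∈ Y', g⁻¹ • y ∈ Y)
    {x a : X} (ha : IsProj Y x a) : IsProj Y' (g • x) (g • a) :=
  ⟨h1 a ha.1, fun b hb => by
    rw [d_smul, ← d_inv_smul]; exact ha.2 _ (h2 b hb)⟩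

/-- Two points moved little by `g` have close projections to a set that `g` does not preserve. -/
theorem proj_move (h : Hyp X δ) {C : Type} {Y : C → Set X} (hY : ∀ c, QC (Y c) σ) {κ Δ : ℕ}
    (hO : Ovl Y κ Δ) (hκ : 3 * δ + 2 * σ ≤ κ) {c c' : C} (hc : c ≠ c') {g : G}
    (hg : ∀ y ∈ Y c, g • y ∈ Y c') {x x' a a' : X} {M : ℕ} (hx : d x (g • x) ≤ M)
    (hx' : d x' (g • x') ≤ M) (ha : IsProj (Y c) x a) (ha' : IsProj (Y c) x' a') :
    d a a' ≤ 2 * M + Δ + 20 * (δ + σ + 1) := by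
  by_contra hf
  obtain ⟨e1, e2, -⟩ := proj_far h (hY c) ha ha' (by omega)
  have m1 := cv h g e1 hx hx'
  have m2 := cv h g e2 hx hx'
  obtain ⟨γ, hγ⟩ := exists_geod a a'
  have key : ∀ i, M + (5 * δ + 2 * σ + 1) + δ + δ < i →
      i + (M + (5 * δ + 2 * σ + 1) + δ + δ) < d a a' →
      ∃ q ∈ Y c, ∃ z ∈ Y c', d q z ≤ κ ∧ d (g • γ i) q ≤ 3 * δ + σ := by
    intro i h1 h2
    have b1 := hγ.d_left (i := i) (by omega)
    have b2 := hγ.d_right (i := i) (by omega)
    have := par_btw h g m1 m2 (hγ.btw i) (by omega) (by omega)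
    obtain ⟨q, hq, hq'⟩ := near_qc h (hY c) ha.1 ha'.1 this
    obtain ⟨y, hy, hy'⟩ := hY c a ha.1 a' ha'.1 _ (hγ.btw i)
    refine ⟨q, hq, g • y, hg y hy, ?_, by omega⟩
    have := d_tri q (g • γ i) (g • y)
    rw [d_smul] at this
    have := d_comm q (g • γ i)
    omega
  obtain ⟨q1, a1, z1, a2, a3, a4⟩ := key (M + (5 * δ + 2 * σ + 1) + δ + δ + 1) (by omega) (by omega)
  obtain ⟨q2, b1, z2, b2, b3, b4⟩ := key (d a a' - (M + (5 * δ + 2 * σ + 1) + δ + δ + 1))
    (by omega) (by omega)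
  have := hO c c' hc q1 a1 q2 b1 z1 a2 z2 b2 a3 b3
  have e := hγ.2.2 (M + (5 * δ + 2 * σ + 1) + δ + δ + 1)
    (d a a' - (M + (5 * δ + 2 * σ + 1) + δ + δ + 1)) (by omega) (by omega)
  rw [← d_smul g] at e
  generalize g • γ (M + (5 * δ + 2 * σ + 1) + δ + δ + 1) = u at *
  generalize g • γ (d a a' - (M + (5 * δ + 2 * σ + 1) + δ + δ + 1)) = v at *
  have := d_tri u q1 v; have := d_tri q1 q2 v; have := d_comm v q2
  omega

omit [GSp X] [Iso G X] in
theorem pow_mem_of {Y : Set X} {g : G} (h1 : ∀ y ∈ Y, g • y ∈ Y) (j : ℕ) :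
    ∀ y ∈ Y, g ^ j • y ∈ Y := by
  induction j with
  | zero => intro y hy; simpa using hy
  | succ j ih => intro y hy; rw [pow_succ, mul_smul]; exact ih _ (h1 y hy)

/-- Margulis radius: points moved little by a loxodromic are close to its invariant set. -/
theorem marg (h : Hyp X δ) {Y : Set X} (hY : QC Y σ) (hne : Y.Nonempty) {g : G}
    (h1 : ∀ y ∈ Y, g • y ∈ Y) (h2 : ∀ y ∈ Y, g⁻¹ • y ∈ Y) {ν k M : ℕ} (hg : Lox X ν g)
    (hk : ν * (10 * (δ + σ + 1)) ≤ 2 ^ k) {x : X} (hx : d x (g • x) ≤ M) :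
    ∃ y ∈ Y, d x y ≤ M + 2 * δ * k + 10 * (δ + σ + 1) := by
  obtain ⟨a, ha⟩ := exists_proj hne x
  have hν : 1 ≤ ν := by
    have := hg x 1
    rcases Nat.eq_zero_or_pos ν with rfl | h0
    · simp at this
    · exact h0
  have ha' : IsProj Y (g ^ (2 ^ k) • x) (g ^ (2 ^ k) • a) :=
    ha.smul (pow_mem_of h1 _) (by rw [← inv_pow]; exact pow_mem_of h2 _)
  have hf : 5 * δ + 2 * σ + 1 < d a (g ^ (2 ^ k) • a) := hg.lt a (by nlinarith)
  obtain ⟨e1, -, -⟩ := proj_far h hY ha ha' hf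
  obtain ⟨p, hp, hp'⟩ := near_btw h e1
  obtain ⟨i, -, hi⟩ := bisect (slim_of_hyp h) k M (fun i => g ^ i • x) (fun i _ => by
    rw [pow_succ, mul_smul, d_smul]; exact hx) p (by simpa using hp)
  refine ⟨(g ^ i)⁻¹ • a, by rw [← inv_pow]; exact pow_mem_of h2 _ _ ha.1, ?_⟩
  rw [d_inv_smul]
  have := d_tri (g ^ i • x) p a
  have := d_comm p a; have := d_comm p (g ^ i • x)
  omega

/-- A loxodromic element preserves at most one set of the family. -/
theorem cone_unique (h : Hyp X δ) {C : Type} {Y : C → Set X} (hY : ∀ c, QC (Y c) σ)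
    (hne : ∀ c, (Y c).Nonempty) {κ Δ : ℕ} (hO : Ovl Y κ Δ) (hκ : 5 * δ + 2 * σ + 1 ≤ κ) {c c' : C}
    {g : G} (h1 : ∀ y ∈ Y c, g • y ∈ Y c) (h2 : ∀ y ∈ Y c, g⁻¹ • y ∈ Y c)
    (h3 : ∀ y ∈ Y c', g • y ∈ Y c') {ν : ℕ} (hg : Lox X ν g) : c = c' := by
  by_contra hc
  obtain ⟨y, hy⟩ := hne c'
  obtain ⟨a, ha⟩ := exists_proj (hne c) y
  refine hg.not_bdd (Δ + (5 * δ + 2 * σ + 1)) fun j => ⟨a, ?_⟩
  exact proj_bdd h hY hO hκ hc hy (pow_mem_of h3 j y hy) ha
    (ha.smul (pow_mem_of h1 _) (by rw [← inv_pow]; exact pow_mem_of h2 _))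

end

end Pool.Agent.QIB
end

-- merged part: Pool.Agent.Work.MP_9628a2_al.Ang
section
set_option autoImplicit false

namespace Pool.Agent.QIB

variable {X : Type} [GSp X] {δ : ℕ}

theorem Reach.ne_left {c u w : X} {t : ℕ} (h : Reach c t u w) : u ≠ c := by
  cases h <;> assumption

theorem Reach.ne_right {c u w : X} {t : ℕ} (h : Reach c t u w) : w ≠ c := by
  induction h <;> assumption

theorem Reach.mono {c u w : X} {t t' : ℕ} (h : Reach c t u w) (hh : t ≤ t') :
    Reach c t' u w := by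
  induction h generalizing t' with
  | refl t u hu => exact Reach.refl _ u hu
  | step t u v w hu hv _ ih =>
    obtain ⟨k, rfl⟩ : ∃ k, t' = k + 1 := ⟨t' - 1, by omega⟩
    exact Reach.step k u v w hu hv (ih (by omega))

theorem Reach.trans {c u v w : X} {t t' : ℕ} (h : Reach c t u v) (h' : Reach c t' v w) :
    Reach c (t + t') u w := by
  induction h with
  | refl t u hu => exact h'.mono (by omega)
  | step t u v v' hu hv _ ih =>
    rw [show t + 1 + t' = (t + t') + 1 by omega]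
    exact Reach.step _ u v w hu hv (ih h')

theorem Reach.symm {c u w : X} {t : ℕ} (h : Reach c t u w) : Reach c t w u := by
  induction h with
  | refl t u hu => exact Reach.refl _ u hu
  | step t u v w hu hv hr ih =>
    exact ih.trans (Reach.step 0 v u u hr.ne_left (by rw [d_comm]; exact hv) (Reach.refl 0 u hu))

theorem Reach.d_le {c u w : X} {t : ℕ} (h : Reach c t u w) : d u w ≤ t := by
  induction h with
  | refl t u hu => rw [d_self]; omega
  | step t u v w hu hv _ ih => have := d_tri u v w; omega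

theorem reach_of_not_btw {c u w : X} (h : ¬ Btw u c w) : Reach c (d u w) u w := by
  suffices H : ∀ n, ∀ u : X, d u w = n → ¬ Btw u c w → Reach c n u w from H _ u rfl h
  intro n
  induction n with
  | zero =>
    intro u h0 h
    obtain rfl := eq_of_d u w h0
    exact Reach.refl 0 u (fun e => h (e ▸ btw_left _ _))
  | succ n ih =>
    intro u h0 h
    obtain ⟨z, hz1, hz2⟩ := GSp.step u w n h0
    refine Reach.step n u z w (fun e => h (e ▸ btw_left _ _)) (by omega) (ih z hz2 fun hb => h ?_)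
    exact (Btw.trans_right (show Btw u z w by unfold Btw; omega) hb).1

theorem exists_fs {c x : X} (h : x ≠ c) : ∃ u, FS c x u := by
  obtain ⟨u, h1, h2⟩ := exists_btw c x 1 (d_pos h.symm)
  exact ⟨u, h2, h1⟩

theorem FS.ne {c x u : X} (h : FS c x u) : u ≠ c := fun e => by
  have := h.1; rw [e, d_self] at this; omega

theorem FS.ne' {c x u : X} (h : FS c x u) : x ≠ c := fun e => by
  have := h.2; have := h.1; unfold Btw at *; rw [e, d_self] at *; omega

theorem FS.of_btw {c x y u : X} (h : FS c x u) (hb : Btw c x y) : FS c y u :=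
  ⟨h.1, (h.2.trans_left hb).1⟩

theorem Ang.mono {c x y : X} {t t' : ℕ} (h : Ang c t x y) (hh : t ≤ t') : Ang c t' x y :=
  fun u v hu hv => (h u v hu hv).mono hh

theorem Ang.symm {c x y : X} {t : ℕ} (h : Ang c t x y) : Ang c t y x :=
  fun u v hu hv => (h v u hv hu).symm

theorem Ang.trans {c x y z : X} {t t' : ℕ} (h : Ang c t x y) (h' : Ang c t' y z) (hy : y ≠ c) :
    Ang c (t + t') x z := fun u v hu hv => by
  obtain ⟨w, hw⟩ := exists_fs hy
  exact (h u w hu hw).trans (h' w v hw hv)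

theorem ne_left_of_not_btw {c x y : X} (h : ¬ Btw x c y) : x ≠ c :=
  fun e => h (e ▸ btw_left _ _)

theorem ne_right_of_not_btw {c x y : X} (h : ¬ Btw x c y) : y ≠ c :=
  fun e => h (e ▸ btw_right _ _)

theorem reach_out {c x u : X} (hu : FS c x u) (t : ℕ) (h1 : 1 ≤ t) (ht : t ≤ d c x) :
    ∃ a, Btw c a x ∧ d c a = t ∧ Reach c t u a := by
  have := hu.1
  have h2 := hu.2
  unfold Btw at h2
  obtain ⟨a, ha, ha'⟩ := exists_btw u x (t - 1) (by omega)
  obtain ⟨b1, b2⟩ := hu.2.trans_right ha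
  refine ⟨a, b1, by unfold Btw at b2; omega, (reach_of_not_btw ?_).mono (by omega)⟩
  unfold Btw at *
  have := d_comm u c
  omega

/-- Bounded geodesic image. -/
theorem bgi (h : Hyp X δ) (hδ : 1 ≤ δ) {c x y : X} (hc : ¬ Btw x c y) : Ang c (20 * δ) x y := by
  intro u v hu hv
  have hx := d_pos (ne_left_of_not_btw hc).symm
  have hy := d_pos (ne_right_of_not_btw hc).symm
  have t1 := d_tri c x y; have t2 := d_tri c y x; have t3 := d_tri x c y
  have c1 := d_comm x y; have c2 := d_comm x c; have c3 := d_comm y c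
  by_cases hbig : 2 * (δ + 1) + d x y ≤ d c x + d c y
  · obtain ⟨a, a1, a2, a3⟩ := reach_out hu (δ + 1) (by omega) (by omega)
    obtain ⟨b, b1, b2, b3⟩ := reach_out hv (δ + 1) (by omega) (by omega)
    have := tripod h a1 b1 (by omega) (by omega)
    have r : Reach c (d a b) a b := reach_of_not_btw (by
      unfold Btw; have := d_comm a c; omega)
    exact ((a3.trans r).trans b3.symm).mono (by omega)
  · obtain ⟨γ, hγ⟩ := exists_geod x y
    have side : ∀ {x y u : X} {γ : ℕ → X}, FS c x u → ¬ 2 * (δ + 1) + d x y ≤ d c x + d c y →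
        (∀ i, i ≤ d x y → Btw x (γ i) y ∧ d x (γ i) = i) → γ 0 = x →
        ∃ i, i ≤ d x y ∧ i ≤ d c x ∧ d c x ≤ i + (2 * δ + 1) ∧ Reach c (4 * δ + 1) u (γ i) := by
      intro x y u γ hu hbig hγ h0
      have hx := d_pos hu.ne'.symm
      have t3 := d_tri c y x
      have t4 := d_tri c x y
      have c1 := d_comm x y; have c2 := d_comm x c
      by_cases hs : d c x ≤ 2 * δ + 1
      · obtain ⟨a, a1, a2, a3⟩ := reach_out hu (d c x) (by omega) le_rfl
        have : a = x := by unfold Btw at a1; exact eq_of_d _ _ (by omega)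
        refine ⟨0, by omega, by omega, by omega, ?_⟩
        rw [h0, ← this]; exact a3.mono (by omega)
      · obtain ⟨a, a1, a2, a3⟩ := reach_out hu (2 * δ + 1) (by omega) (by omega)
        have a1' := a1
        unfold Btw at a1'
        obtain ⟨g1, g2⟩ := hγ (d c x - (2 * δ + 1)) (by omega)
        have c3 := d_comm x a
        have := tripod h a1.symm g1 (by omega) (by omega)
        refine ⟨d c x - (2 * δ + 1), by omega, by omega, by omega, ?_⟩
        have r : Reach c (d a (γ (d c x - (2 * δ + 1)))) a _ := reach_of_not_btw (by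
          unfold Btw; have := d_comm a c; omega)
        exact (a3.trans r).mono (by omega)
    obtain ⟨i, i1, i2, i3, i4⟩ := side (γ := γ) hu hbig
      (fun i hi => ⟨hγ.btw i, hγ.d_left hi⟩) hγ.1
    obtain ⟨j, j1, j2, j3, j4⟩ := side (x := y) (y := x) (γ := fun i => γ (d x y - i)) hv
      (by omega) (fun i hi => ⟨(hγ.btw _).symm, by
        have := hγ.d_right (i := d x y - i) (by omega)
        rw [d_comm]; omega⟩) (hγ.2.1 _ (by simp))
    have key : ∀ a b, a ≤ b → b ≤ d x y → Reach c (b - a) (γ a) (γ b) := by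
      intro a b hab hb
      rw [← hγ.2.2 a b hab hb]
      refine reach_of_not_btw fun hb' => hc ?_
      have e1 := hγ.d_left (i := a) (by omega)
      have e2 := hγ.d_right hb
      have e3 := hγ.2.2 a b hab hb
      have := d_tri x (γ a) c; have := d_tri c (γ b) y
      unfold Btw at *
      omega
    have hc' := hc
    unfold Btw at hc'
    rcases Nat.le_total i (d x y - j) with hij | hij
    · exact ((i4.trans (key _ _ hij (by omega))).trans j4.symm).mono (by omega)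
    · exact ((i4.trans (key _ _ hij (by omega)).symm).trans j4.symm).mono (by omega)

theorem ang_self (h : Hyp X δ) (hδ : 1 ≤ δ) (c x : X) : Ang c (20 * δ) x x := by
  by_cases hx : x = c
  · intro u v hu; exact absurd hx hu.ne'
  · exact bgi h hδ fun hb => hx hb.eq_of_self.symm

theorem Sep.btw {c x y : X} (h : Sep c x y) : Btw x c y := by
  rcases h x (btw_left x y) with h1 | h1
  · rw [h1.eq_of_self]; exact btw_left x y
  · exact h1

theorem Sep.symm {c x y : X} (h : Sep c x y) : Sep c y x := fun p hp => by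
  rcases h p hp.symm with h1 | h1
  · exact Or.inr h1.symm
  · exact Or.inl h1.symm

theorem Sep.eq_of_d {c x y p : X} (h : Sep c x y) (hp : Btw x p y) (hd : d x p = d x c) :
    p = c := by
  have hb := h.btw
  rcases h p hp with h1 | h1
  · unfold Btw at *; exact (GSp.eq_of_d c p (by omega)).symm
  · unfold Btw at *; exact GSp.eq_of_d p c (by omega)

/-- A point of the interval lies before or after a separating point. -/
theorem Sep.cases {c x y p : X} (h : Sep c x y) (hp : Btw x p y) : Btw x p c ∨ Btw c p y := by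
  rcases h p hp with h1 | h1
  · exact Or.inr (h1.trans_left hp).2
  · exact Or.inl (hp.trans_right h1).2

theorem ang_of_not_sep (h : Hyp X δ) (hδ : 1 ≤ δ) {c x y : X} (hc : ¬ Sep c x y) :
    Ang c (40 * δ) x y := by
  unfold Sep at hc
  push Not at hc
  obtain ⟨p, -, h1, h2⟩ := hc
  have := (bgi h hδ h1).trans (bgi h hδ h2) (ne_right_of_not_btw h1)
  exact this.mono (by omega)

theorem btw_of_not_ang (h : Hyp X δ) (hδ : 1 ≤ δ) {c x y : X} {θ : ℕ} (hθ : 20 * δ ≤ θ)
    (hc : ¬ Ang c θ x y) : Btw x c y := by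
  by_contra hb
  exact hc ((bgi h hδ hb).mono hθ)

theorem sep_of_not_ang (h : Hyp X δ) (hδ : 1 ≤ δ) {c x y : X} {θ : ℕ} (hθ : 40 * δ ≤ θ)
    (hc : ¬ Ang c θ x y) : Sep c x y := by
  by_contra hb
  exact hc ((ang_of_not_sep h hδ hb).mono hθ)

theorem ne_of_not_ang {c x y : X} {θ : ℕ} (hc : ¬ Ang c θ x y) : x ≠ c ∧ y ≠ c :=
  ⟨fun e => hc fun _ _ hu _ => absurd e hu.ne', fun e => hc fun _ _ _ hv => absurd e hv.ne'⟩

theorem pivot_fwd (h : Hyp X δ) (hδ : 1 ≤ δ) (p : ℕ → X) (n θ : ℕ)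
    (h0 : ∀ i, i < n → p i ≠ p (i + 1))
    (h1 : ∀ i, i + 2 ≤ n → ¬ Ang (p (i + 1)) (θ + 40 * δ) (p i) (p (i + 2))) :
    ∀ i, i < n → Btw (p 0) (p i) (p (i + 1)) ∧ ¬ Btw (p 0) (p (i + 1)) (p i) := by
  have B : ∀ i, i < n → Btw (p 0) (p i) (p (i + 1)) →
      Btw (p 0) (p i) (p (i + 1)) ∧ ¬ Btw (p 0) (p (i + 1)) (p i) := fun i hi hb => by
    refine ⟨hb, fun hb' => ?_⟩
    have := d_pos (h0 i hi)
    unfold Btw at *
    omega
  intro i
  induction i with
  | zero => intro hi; exact B 0 hi (btw_left _ _)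
  | succ i ih =>
    intro hi
    obtain ⟨-, b2⟩ := ih (by omega)
    refine B _ hi ?_
    by_contra hb
    exact h1 i (by omega) (((bgi h hδ b2).symm.trans (bgi h hδ hb)
      (ne_left_of_not_btw b2)).mono (by omega))

/-- Pivot chain: large local angles give large global angles. -/
theorem pivot_chain (h : Hyp X δ) (hδ : 1 ≤ δ) (p : ℕ → X) (n θ : ℕ)
    (h0 : ∀ i, i < n → p i ≠ p (i + 1))
    (h1 : ∀ i, i + 2 ≤ n → ¬ Ang (p (i + 1)) (θ + 40 * δ) (p i) (p (i + 2)))
    (i : ℕ) (hi : i + 2 ≤ n) :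
    ¬ Btw (p 0) (p (i + 1)) (p i) ∧ ¬ Btw (p (i + 2)) (p (i + 1)) (p n) ∧
      ¬ Ang (p (i + 1)) θ (p 0) (p n) := by
  have F := (pivot_fwd h hδ p n θ h0 h1 i (by omega)).2
  have B := (pivot_fwd h hδ (fun k => p (n - k)) n θ (fun k hk => by
    have := h0 (n - (k + 1)) (by omega)
    rw [show n - (k + 1) + 1 = n - k by omega] at this
    exact this.symm) (fun k hk ha => by
    have := h1 (n - (k + 2)) (by omega)
    rw [show n - (k + 2) + 1 = n - (k + 1) by omega, show n - (k + 2) + 2 = n - k by omega] at this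
    exact this ha.symm) (n - (i + 2)) (by omega)).2
  simp only [Nat.sub_zero] at B
  rw [show n - (n - (i + 2) + 1) = i + 1 by omega, show n - (n - (i + 2)) = i + 2 by omega] at B
  refine ⟨F, fun hb => B hb.symm, fun ha => h1 i hi ?_⟩
  exact (((bgi h hδ F).symm.trans ha (ne_left_of_not_btw F)).trans (bgi h hδ B)
    (ne_left_of_not_btw B)).mono (by omega)

/-- Along a pivot chain the distance grows at least linearly. -/
theorem pivot_le (h : Hyp X δ) (hδ : 1 ≤ δ) (p : ℕ → X) (n θ : ℕ)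
    (h0 : ∀ i, i < n → p i ≠ p (i + 1))
    (h1 : ∀ i, i + 2 ≤ n → ¬ Ang (p (i + 1)) (θ + 40 * δ) (p i) (p (i + 2))) :
    ∀ i, i ≤ n → i ≤ d (p 0) (p i) := by
  intro i
  induction i with
  | zero => intro _; omega
  | succ i ih =>
    intro hi
    have := (pivot_fwd h hδ p n θ h0 h1 i (by omega)).1
    have := d_pos (h0 i (by omega))
    have := ih (by omega)
    unfold Btw at *
    omega

/-- A point between the ends of a pivot chain lies between two consecutive pivots. -/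
theorem pivot_cover (h : Hyp X δ) (hδ : 1 ≤ δ) (p : ℕ → X) (n θ : ℕ) (hθ : 40 * δ ≤ θ)
    (h0 : ∀ i, i < n + 1 → p i ≠ p (i + 1))
    (h1 : ∀ i, i + 2 ≤ n + 1 → ¬ Ang (p (i + 1)) (θ + 40 * δ) (p i) (p (i + 2)))
    (z : X) (hz : Btw (p 0) z (p (n + 1))) : ∃ i, i ≤ n ∧ Btw (p i) z (p (i + 1)) := by
  induction n with
  | zero => exact ⟨0, le_rfl, hz⟩
  | succ n ih =>
    have := (pivot_chain h hδ p (n + 1 + 1) θ h0 h1 n le_rfl).2.2
    rcases (sep_of_not_ang h hδ hθ this).cases hz with hb | hb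
    · obtain ⟨i, hi, hi'⟩ := ih (fun i hi => h0 i (by omega)) (fun i hi => h1 i (by omega)) hb
      exact ⟨i, by omega, hi'⟩
    · exact ⟨n + 1, le_rfl, hb⟩

section
variable {G : Type} [Group G] [MulAction G X] [Iso G X]

theorem not_ang_of_rot {c x : X} {θ : ℕ} {κ : G} (hκ : κ • c = c)
    (hr : ∀ u, d c u = 1 → ¬ Reach c θ u (κ • u)) (hx : x ≠ c) : ¬ Ang c θ x (κ • x) := by
  intro ha
  obtain ⟨u, hu⟩ := exists_fs hx
  refine hr u hu.1 (ha u _ hu ?_)
  have := (fs_smul κ c x u).2 hu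
  rwa [hκ] at this

end

end Pool.Agent.QIB
end

-- merged part: Pool.Agent.Work.MP_9628a2_al.Cone
section
set_option autoImplicit false

namespace Pool.Agent.QIB

/-- Data of a cone-off: the sets to cone, the rescaling factor and the depth. -/
structure CD (X C : Type) where
  Y : C → Set X
  R : ℕ
  ρ : ℕ
  ne : ∀ c, (Y c).Nonempty
  hR : 1 ≤ R

namespace CD

variable {X C : Type}

/-- Vertices of the cone-off. -/
inductive V (D : CD X C) : Type
  | base (x : X) : V D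
  | pt (c : C) (y : X) (hy : y ∈ D.Y c) (k : ℕ) (h1 : 1 ≤ k) (h2 : k ≤ D.ρ) : V D
  | apex (c : C) : V D

variable (D : CD X C)

/-- The point of level `k` over `y` in the cone `c`. -/
def col (c : C) (y : X) (hy : y ∈ D.Y c) (k : ℕ) : D.V :=
  if h0 : k = 0 then V.base y
  else if h : k ≤ D.ρ then V.pt c y hy k (Nat.pos_of_ne_zero h0) h else V.apex c

variable {D}

/-- Level of a vertex. -/
def V.lev : D.V → ℕ
  | V.base _ => 0
  | V.pt _ _ _ k _ _ => k
  | V.apex _ => D.ρ + 1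

/-- The cone of a vertex. -/
def V.cone : D.V → Option C
  | V.base _ => none
  | V.pt c _ _ _ _ _ => some c
  | V.apex c => some c

/-- The base point under a vertex. -/
noncomputable def V.bs : D.V → X
  | V.base x => x
  | V.pt _ y _ _ _ _ => y
  | V.apex c => (D.ne c).some

theorem col_zero (c : C) (y : X) (hy : y ∈ D.Y c) : D.col c y hy 0 = V.base y := by
  simp [col]

theorem col_mid (c : C) (y : X) (hy : y ∈ D.Y c) (k : ℕ) (h1 : 1 ≤ k) (h2 : k ≤ D.ρ) :
    D.col c y hy k = V.pt c y hy k h1 h2 := by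
  unfold col
  rw [dif_neg (by omega), dif_pos h2]

theorem col_top (c : C) (y : X) (hy : y ∈ D.Y c) (k : ℕ) (h : D.ρ < k) :
    D.col c y hy k = V.apex c := by
  unfold col
  rw [dif_neg (by omega), dif_neg (by omega)]

theorem lev_col (c : C) (y : X) (hy : y ∈ D.Y c) (k : ℕ) (h : k ≤ D.ρ + 1) :
    (D.col c y hy k).lev = k := by
  rcases Nat.eq_zero_or_pos k with rfl | h1
  · rw [col_zero]; rfl
  · by_cases h2 : k ≤ D.ρ
    · rw [col_mid c y hy k h1 h2]; rfl
    · rw [col_top c y hy k (by omega)]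
      show D.ρ + 1 = k
      omega

theorem cone_col (c : C) (y : X) (hy : y ∈ D.Y c) (k : ℕ) (h1 : 1 ≤ k) :
    (D.col c y hy k).cone = some c := by
  by_cases h2 : k ≤ D.ρ
  · rw [col_mid c y hy k h1 h2]; rfl
  · rw [col_top c y hy k (by omega)]; rfl

theorem bs_col (c : C) (y : X) (hy : y ∈ D.Y c) (k : ℕ) (h2 : k ≤ D.ρ) :
    (D.col c y hy k).bs = y := by
  rcases Nat.eq_zero_or_pos k with rfl | h1
  · rw [col_zero]; rfl
  · rw [col_mid c y hy k h1 h2]; rfl

theorem bs_col_mem (c : C) (y : X) (hy : y ∈ D.Y c) (k : ℕ) :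
    (D.col c y hy k).bs ∈ D.Y c := by
  by_cases h2 : k ≤ D.ρ
  · rw [bs_col c y hy k h2]; exact hy
  · rw [col_top c y hy k (by omega)]; exact (D.ne c).some_mem

theorem eq_base_or_col (u : D.V) :
    (∃ x, u = V.base x) ∨ ∃ c y hy k, 1 ≤ k ∧ k ≤ D.ρ + 1 ∧ u = D.col c y hy k ∧ u.bs = y := by
  cases u with
  | base x => exact Or.inl ⟨x, rfl⟩
  | pt c y hy k h1 h2 =>
    exact Or.inr ⟨c, y, hy, k, h1, by omega, (col_mid c y hy k h1 h2).symm, rfl⟩
  | apex c =>
    exact Or.inr ⟨c, _, (D.ne c).some_mem, D.ρ + 1, by omega, le_rfl,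
      (col_top c _ _ _ (by omega)).symm, rfl⟩

variable (D) [GSp X]

/-- Oriented edges. -/
inductive Adj0 : D.V → D.V → Prop
  | bb (x y : X) : d x y ≤ D.R → Adj0 (V.base x) (V.base y)
  | hor (c : C) (y : X) (hy : y ∈ D.Y c) (y' : X) (hy' : y' ∈ D.Y c) (k : ℕ) (h1 : 1 ≤ k)
      (h2 : k ≤ D.ρ) : d y y' ≤ D.R * 2 ^ k → Adj0 (V.pt c y hy k h1 h2) (V.pt c y' hy' k h1 h2)
  | ver (c : C) (y : X) (hy : y ∈ D.Y c) (k : ℕ) :
      k ≤ D.ρ → Adj0 (D.col c y hy k) (D.col c y hy (k + 1))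

/-- The cone-off graph. -/
def graph : SimpleGraph D.V := SimpleGraph.fromRel D.Adj0

theorem reach_of_adj0 {u w : D.V} (h : D.Adj0 u w) : D.graph.Reachable u w := by
  by_cases huw : u = w
  · rw [huw]
  · exact SimpleGraph.Adj.reachable (by
      unfold graph
      rw [SimpleGraph.fromRel_adj]
      exact ⟨huw, Or.inl h⟩)

theorem reach_col (c : C) (y : X) (hy : y ∈ D.Y c) (k : ℕ) (hk : k ≤ D.ρ + 1) :
    D.graph.Reachable (V.base y) (D.col c y hy k) := by
  induction k with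
  | zero => rw [col_zero]
  | succ k ih => exact (ih (by omega)).trans (D.reach_of_adj0 (Adj0.ver c y hy k (by omega)))

theorem reach_base (x y : X) : D.graph.Reachable (V.base x) (V.base y) := by
  suffices H : ∀ n, ∀ x : X, d x y = n → D.graph.Reachable (V.base x) (V.base y) from H _ x rfl
  intro n
  induction n with
  | zero =>
    intro x h
    rw [eq_of_d x y h]
  | succ n ih =>
    intro x h
    obtain ⟨z, hz1, hz2⟩ := GSp.step x y n h
    exact (D.reach_of_adj0 (Adj0.bb x z (by have := D.hR; omega))).trans (ih z hz2)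

theorem reach_bs (u : D.V) : D.graph.Reachable (V.base u.bs) u := by
  rcases eq_base_or_col u with ⟨x, rfl⟩ | ⟨c, y, hy, k, -, h2, h3, h4⟩
  · exact SimpleGraph.Reachable.refl _
  · rw [h4, h3]; exact D.reach_col c y hy k h2

theorem preconn : D.graph.Preconnected := fun u w =>
  (D.reach_bs u).symm.trans ((D.reach_base _ _).trans (D.reach_bs w))

noncomputable instance : GSp D.V where
  d := D.graph.dist
  d_self := fun _ => SimpleGraph.dist_self
  d_comm := fun _ _ => SimpleGraph.dist_comm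
  d_tri := fun x y z => by
    exact (D.preconn x y).dist_triangle_left z
  eq_of_d := fun x y h => by
    exact (D.preconn x y).dist_eq_zero_iff.mp h
  step := fun x y n h => by
    obtain ⟨p, hp⟩ := (D.preconn x y).exists_walk_length_eq_dist
    cases p with
    | nil => rw [h] at hp; simp at hp
    | @cons _ z _ hxz q =>
      have h1 : D.graph.dist x z = 1 := SimpleGraph.dist_eq_one_iff_adj.mpr hxz
      have h2 : D.graph.dist z y ≤ q.length := SimpleGraph.dist_le q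
      have h3 : D.graph.dist x y ≤ D.graph.dist x z + D.graph.dist z y :=
        (D.preconn x z).dist_triangle_left y
      rw [SimpleGraph.Walk.length_cons] at hp
      exact ⟨z, h1, by omega⟩

theorem d_le_one_iff (u w : D.V) : d u w ≤ 1 ↔ u = w ∨ D.Adj0 u w ∨ D.Adj0 w u := by
  have key : d u w = 1 ↔ u ≠ w ∧ (D.Adj0 u w ∨ D.Adj0 w u) := by
    show D.graph.dist u w = 1 ↔ _
    rw [SimpleGraph.dist_eq_one_iff_adj]
    unfold graph
    rw [SimpleGraph.fromRel_adj]
  constructor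
  · intro h
    by_cases h0 : d u w = 0
    · exact Or.inl (eq_of_d u w h0)
    · exact Or.inr (key.mp (by omega)).2
  · intro h
    by_cases h0 : u = w
    · rw [h0, d_self]; omega
    · rcases h with h | h
      · exact absurd h h0
      · exact (key.mpr ⟨h0, h⟩).le

variable {D}

theorem Adj0.d_le {u w : D.V} (h : D.Adj0 u w) : d u w ≤ 1 :=
  (D.d_le_one_iff u w).mpr (Or.inr (Or.inl h))

/-- A function with bounded variation on edges is Lipschitz. -/
theorem lip (f : D.V → ℕ) (K : ℕ) (hf : ∀ u w, D.Adj0 u w → f u ≤ f w + K ∧ f w ≤ f u + K)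
    (u w : D.V) : f u ≤ f w + d u w * K := by
  suffices H : ∀ n, ∀ u : D.V, d u w = n → f u ≤ f w + n * K from H _ u rfl
  intro n
  induction n with
  | zero =>
    intro u h
    rw [eq_of_d u w h]; omega
  | succ n ih =>
    intro u h
    obtain ⟨z, hz1, hz2⟩ := GSp.step u w n h
    have h1 := ih z hz2
    have h2 : f u ≤ f z + K := by
      rcases (D.d_le_one_iff u z).mp hz1.le with h | h | h
      · rw [h]; omega
      · exact (hf u z h).1
      · exact (hf z u h).2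
    rw [Nat.succ_mul]; omega

theorem d_col_succ (c : C) (y : X) (hy : y ∈ D.Y c) (k : ℕ) :
    d (D.col c y hy k) (D.col c y hy (k + 1)) ≤ 1 := by
  by_cases h : k ≤ D.ρ
  · exact (Adj0.ver c y hy k h).d_le
  · rw [col_top c y hy k (by omega), col_top c y hy (k + 1) (by omega), d_self]; omega

theorem d_col_add (c : C) (y : X) (hy : y ∈ D.Y c) (k j : ℕ) :
    d (D.col c y hy k) (D.col c y hy (k + j)) ≤ j := by
  induction j with
  | zero => rw [Nat.add_zero, d_self]
  | succ j ih =>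
    have h1 := d_col_succ c y hy (k + j)
    have h2 := d_tri (D.col c y hy k) (D.col c y hy (k + j)) (D.col c y hy (k + j + 1))
    rw [← Nat.add_assoc]; omega

omit [GSp X] in
theorem bs_mem {u : D.V} {c : C} (h : u.cone = some c) : u.bs ∈ D.Y c := by
  cases u with
  | base x => cases h
  | pt c' y hy k h1 h2 =>
    obtain rfl : c' = c := Option.some.inj h
    exact hy
  | apex c' =>
    obtain rfl : c' = c := Option.some.inj h
    exact (D.ne c').some_mem

omit [GSp X] in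
theorem eq_col {u : D.V} {c : C} (h : u.cone = some c) :
    u = D.col c u.bs (bs_mem h) u.lev := by
  cases u with
  | base x => cases h
  | pt c' y hy k h1 h2 =>
    obtain rfl : c' = c := Option.some.inj h
    exact (col_mid c' y hy k h1 h2).symm
  | apex c' =>
    obtain rfl : c' = c := Option.some.inj h
    exact (col_top c' _ _ _ (Nat.lt_succ_self _)).symm

omit [GSp X] in
theorem lev_le (u : D.V) : u.lev ≤ D.ρ + 1 := by
  cases u with
  | base x => exact Nat.zero_le _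
  | pt c y hy k h1 h2 => exact Nat.le_succ_of_le h2
  | apex c => exact le_rfl

omit [GSp X] in
theorem eq_base {u : D.V} (h : u.lev = 0) : u = V.base u.bs := by
  cases u with
  | base x => rfl
  | pt c y hy k h1 h2 =>
    have : k = 0 := h
    omega
  | apex c =>
    have : D.ρ + 1 = 0 := h
    omega

omit [GSp X] in
theorem exists_cone {u : D.V} (h : u.lev ≠ 0) : ∃ c, u.cone = some c := by
  cases u with
  | base x => exact absurd rfl h
  | pt c y hy k h1 h2 => exact ⟨c, rfl⟩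
  | apex c => exact ⟨c, rfl⟩

omit [GSp X] in
theorem eq_apex {u : D.V} {c : C} (h : u.cone = some c) (hl : D.ρ < u.lev) : u = V.apex c := by
  rw [eq_col h]
  exact col_top c _ _ _ hl

omit [GSp X] in
theorem lev_eq_zero {u : D.V} (h : u.cone = none) : u.lev = 0 := by
  by_contra h0
  obtain ⟨c, hc⟩ := exists_cone h0
  rw [h] at hc
  cases hc

theorem d_base_le (x y : X) (t : ℕ) (h : d x y ≤ t * D.R) :
    d (V.base x : D.V) (V.base y) ≤ t := by
  induction t generalizing x with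
  | zero =>
    rw [eq_of_d x y (by omega), d_self]
  | succ t ih =>
    by_cases hx : d x y ≤ D.R
    · have := (Adj0.bb (D := D) x y hx).d_le
      omega
    · obtain ⟨p, hp, hp'⟩ := exists_btw x y D.R (by omega)
      unfold Btw at hp
      rw [Nat.succ_mul] at h
      have h1 := ih p (by omega)
      have h2 := (Adj0.bb (D := D) x p hp'.le).d_le
      have h3 := d_tri (V.base x : D.V) (V.base p) (V.base y)
      omega

theorem d_bs (u : D.V) : d u (V.base u.bs) ≤ u.lev := by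
  by_cases h0 : u.lev = 0
  · rw [← eq_base h0, d_self]; omega
  · obtain ⟨c, hc⟩ := exists_cone h0
    have h1 := d_col_add c u.bs (bs_mem hc) 0 u.lev
    rw [col_zero, Nat.zero_add, ← eq_col hc, d_comm] at h1
    exact h1

theorem d_apex_le {u : D.V} {c : C} (h : u.cone = some c) :
    d u (V.apex c) + u.lev ≤ D.ρ + 1 := by
  have h1 := d_col_add c u.bs (bs_mem h) u.lev (D.ρ + 1 - u.lev)
  have h2 := lev_le u
  rw [← eq_col h, col_top c _ _ _ (by omega)] at h1
  omega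

theorem d_base_apex {y : X} {c : C} (hy : y ∈ D.Y c) :
    d (V.base y : D.V) (V.apex c) ≤ D.ρ + 1 := by
  have h1 := d_col_add c y hy 0 (D.ρ + 1)
  rw [col_zero, col_top c _ _ _ (by omega)] at h1
  exact h1

theorem lev_lip (u w : D.V) : u.lev ≤ w.lev + d u w := by
  have := lip (D := D) V.lev 1 (fun u w h => by
    cases h with
    | bb x y h => exact ⟨Nat.zero_le _, Nat.zero_le _⟩
    | hor c y hy y' hy' k h1 h2 h => exact ⟨Nat.le_succ _, Nat.le_succ _⟩
    | ver c y hy k h =>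
      rw [lev_col c y hy k (by omega), lev_col c y hy (k + 1) (by omega)]
      omega) u w
  omega

open Classical in
/-- The level inside a given cone. -/
noncomputable def levc (c : C) (u : D.V) : ℕ := if u.cone = some c then u.lev else 0

omit [GSp X] in
theorem levc_of_eq {c : C} {u : D.V} (h : u.cone = some c) : levc c u = u.lev := by
  unfold levc; rw [if_pos h]

omit [GSp X] in
theorem levc_of_ne {c : C} {u : D.V} (h : u.cone ≠ some c) : levc c u = 0 := by
  unfold levc; rw [if_neg h]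

omit [GSp X] in
theorem levc_col_self (c : C) (y : X) (hy : y ∈ D.Y c) (k : ℕ) (h : k ≤ D.ρ + 1) :
    levc c (D.col c y hy k) = k := by
  rcases Nat.eq_zero_or_pos k with rfl | h1
  · rw [col_zero]; exact levc_of_ne (by simp [V.cone])
  · rw [levc_of_eq (cone_col c y hy k h1), lev_col c y hy k h]

omit [GSp X] in
theorem levc_col_ne {c c' : C} (hc : c' ≠ c) (y : X) (hy : y ∈ D.Y c') (k : ℕ) :
    levc c (D.col c' y hy k) = 0 := by
  rcases Nat.eq_zero_or_pos k with rfl | h1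
  · rw [col_zero]; exact levc_of_ne (by simp [V.cone])
  · apply levc_of_ne
    rw [cone_col c' y hy k h1]
    exact fun h => hc (Option.some.inj h)

theorem lev_add_le {u w : D.V} (h : u.cone ≠ w.cone) : u.lev + w.lev ≤ d u w := by
  by_cases hu : u.lev = 0
  · have := lev_lip w u
    have := d_comm u w
    omega
  by_cases hw : w.lev = 0
  · have := lev_lip u w
    omega
  obtain ⟨c, hc⟩ := exists_cone hu
  obtain ⟨c', hc'⟩ := exists_cone hw
  have hcc : c ≠ c' := by
    rintro rfl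
    exact h (hc.trans hc'.symm)
  have key := lip (D := D) (fun v => levc c v + (D.ρ + 1 - levc c' v)) 1 (fun u w h => by
    cases h with
    | bb x y h =>
      simp only [levc_of_ne (show (V.base x : D.V).cone ≠ some _ by simp [V.cone]),
        levc_of_ne (show (V.base y : D.V).cone ≠ some _ by simp [V.cone])]
      omega
    | hor e y hy y' hy' k h1 h2 h =>
      rw [← col_mid e y hy k h1 h2, ← col_mid e y' hy' k h1 h2]
      by_cases e1 : e = c
      · subst e1
        simp only [levc_col_self (D := D) e _ _ k (by omega), levc_col_ne hcc]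
        omega
      · by_cases e2 : e = c'
        · subst e2
          simp only [levc_col_self (D := D) e _ _ k (by omega), levc_col_ne e1]
          omega
        · simp only [levc_col_ne e1, levc_col_ne e2]
          omega
    | ver e y hy k h =>
      by_cases e1 : e = c
      · subst e1
        simp only [levc_col_self (D := D) e _ _ k (by omega), levc_col_self (D := D) e _ _ (k + 1) (by omega),
          levc_col_ne hcc]
        omega
      · by_cases e2 : e = c'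
        · subst e2
          simp only [levc_col_self (D := D) e _ _ k (by omega), levc_col_self (D := D) e _ _ (k + 1) (by omega),
            levc_col_ne e1]
          omega
        · simp only [levc_col_ne e1, levc_col_ne e2]
          omega) u w
  have a1 : levc c u = u.lev := levc_of_eq hc
  have a2 : levc c' w = w.lev := levc_of_eq hc'
  have a3 : levc c' u = 0 := levc_of_ne (by rw [hc]; exact fun h => hcc (Option.some.inj h))
  have a4 : levc c w = 0 := levc_of_ne (by rw [hc']; exact fun h => hcc (Option.some.inj h).symm)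
  have := lev_le w
  simp only [a1, a2, a3, a4] at key
  omega

theorem Adj0.d_bs_le {u w : D.V} (h : D.Adj0 u w) (hu : u.lev ≤ D.ρ) (hw : w.lev ≤ D.ρ) :
    d u.bs w.bs ≤ D.R * 2 ^ u.lev ∧ d u.bs w.bs ≤ D.R * 2 ^ w.lev := by
  cases h with
  | bb x y h =>
    have : d x y ≤ D.R * 2 ^ 0 := by simpa using h
    exact ⟨this, this⟩
  | hor c y hy y' hy' k h1 h2 h => exact ⟨h, h⟩
  | ver c y hy k h =>
    rw [lev_col c y hy (k + 1) (by omega)] at hw
    rw [bs_col c y hy k h, bs_col c y hy (k + 1) hw, d_self]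
    exact ⟨Nat.zero_le _, Nat.zero_le _⟩

/-- Short paths that start low stay away from the apices. -/
theorem d_bs_le (u w : D.V) (h : u.lev + d u w ≤ D.ρ) :
    d u.bs w.bs ≤ d u w * (D.R * 2 ^ (u.lev + d u w)) := by
  suffices H : ∀ n, ∀ u : D.V, d u w = n → u.lev + n ≤ D.ρ →
      d u.bs w.bs ≤ n * (D.R * 2 ^ (u.lev + n)) from H _ u rfl h
  intro n
  induction n with
  | zero =>
    intro u h _
    rw [eq_of_d u w h, d_self]; omega
  | succ n ih =>
    intro u h hl
    obtain ⟨z, hz1, hz2⟩ := GSp.step u w n h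
    have l1 := lev_lip z u
    rw [d_comm, hz1] at l1
    have h1 := ih z hz2 (by omega)
    have h2 : d u.bs z.bs ≤ D.R * 2 ^ u.lev := by
      rcases (D.d_le_one_iff u z).mp hz1.le with h | h | h
      · rw [h, d_self]; omega
      · exact (h.d_bs_le (by omega) (by omega)).1
      · rw [d_comm]; exact (h.d_bs_le (by omega) (by omega)).2
    have h3 : D.R * 2 ^ (z.lev + n) ≤ D.R * 2 ^ (u.lev + (n + 1)) :=
      Nat.mul_le_mul_left _ (Nat.pow_le_pow_right (by omega) (by omega))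
    have h4 : D.R * 2 ^ u.lev ≤ D.R * 2 ^ (u.lev + (n + 1)) :=
      Nat.mul_le_mul_left _ (Nat.pow_le_pow_right (by omega) (by omega))
    have h5 := Nat.mul_le_mul_left n h3
    have h6 := d_tri u.bs z.bs w.bs
    rw [Nat.succ_mul]; omega

theorem d_col_le (c : C) (y : X) (hy : y ∈ D.Y c) (y' : X) (hy' : y' ∈ D.Y c) (k j : ℕ)
    (h : d y y' ≤ D.R * 2 ^ (k + j)) : d (D.col c y hy k) (D.col c y' hy' k) ≤ 2 * j + 1 := by
  have top : d (D.col c y hy (k + j)) (D.col c y' hy' (k + j)) ≤ 1 := by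
    generalize k + j = m at h
    rcases Nat.eq_zero_or_pos m with rfl | h1
    · rw [col_zero, col_zero]
      exact (Adj0.bb y y' (by simpa using h)).d_le
    · by_cases h2 : m ≤ D.ρ
      · rw [col_mid c y hy m h1 h2, col_mid c y' hy' m h1 h2]
        exact (Adj0.hor c y hy y' hy' m h1 h2 h).d_le
      · rw [col_top c y hy m (by omega), col_top c y' hy' m (by omega), d_self]; omega
  have a1 := d_col_add c y hy k j
  have a2 := d_col_add c y' hy' k j
  have a3 := d_tri (D.col c y hy k) (D.col c y hy (k + j)) (D.col c y' hy' k)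
  have a4 := d_tri (D.col c y hy (k + j)) (D.col c y' hy' (k + j)) (D.col c y' hy' k)
  have a5 := d_comm (D.col c y' hy' (k + j)) (D.col c y' hy' k)
  omega

theorem nbr_apex {c : C} {u : D.V} (hρ : 1 ≤ D.ρ) (h : d (V.apex c) u = 1) :
    u.cone = some c ∧ u.lev = D.ρ := by
  have l1 := lev_lip (V.apex c : D.V) u
  have l0 : (V.apex c : D.V).lev = D.ρ + 1 := rfl
  have hc : u.cone = some c := by
    by_contra hc
    have := lev_add_le (u := V.apex c) (w := u) (fun h => hc h.symm)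
    omega
  refine ⟨hc, ?_⟩
  by_contra hl
  have := eq_apex hc (by omega)
  rw [this, d_self] at h
  omega

/-- The group preserves the family. -/
class Equi (D : CD X C) (G : Type) [Group G] [MulAction G X] [MulAction G C] : Prop where
  smul_mem : ∀ (g : G) (c : C) (y : X), y ∈ D.Y c → g • y ∈ D.Y (g • c)

section Act
variable {G : Type} [Group G] [MulAction G X] [MulAction G C] [D.Equi G]

instance : MulAction G D.V where
  smul g u := match u with
    | V.base x => V.base (g • x)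
    | V.pt c y hy k h1 h2 => V.pt (g • c) (g • y) (Equi.smul_mem g c y hy) k h1 h2
    | V.apex c => V.apex (g • c)
  one_smul u := by
    cases u with
    | base x => show V.base ((1 : G) • x) = _; rw [one_smul]
    | pt c y hy k h1 h2 =>
      show V.pt ((1 : G) • c) ((1 : G) • y) _ k h1 h2 = _
      congr 1 <;> simp
    | apex c => show V.apex ((1 : G) • c) = _; rw [one_smul]
  mul_smul g h u := by
    cases u with
    | base x => show V.base ((g * h) • x) = V.base (g • h • x); rw [mul_smul]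
    | pt c y hy k h1 h2 =>
      show V.pt ((g * h) • c) ((g * h) • y) _ k h1 h2 = V.pt (g • h • c) (g • h • y) _ k h1 h2
      congr 1 <;> simp [mul_smul]
    | apex c => show V.apex ((g * h) • c) = V.apex (g • h • c); rw [mul_smul]

omit [GSp X] in
theorem smul_base (g : G) (x : X) : g • (V.base x : D.V) = V.base (g • x) := rfl

omit [GSp X] in
theorem smul_apex (g : G) (c : C) : g • (V.apex c : D.V) = V.apex (g • c) := rfl

omit [GSp X] in
theorem smul_col (g : G) (c : C) (y : X) (hy : y ∈ D.Y c) (k : ℕ) :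
    g • D.col c y hy k = D.col (g • c) (g • y) (Equi.smul_mem g c y hy) k := by
  rcases Nat.eq_zero_or_pos k with rfl | h1
  · rw [col_zero, col_zero]; rfl
  · by_cases h2 : k ≤ D.ρ
    · rw [col_mid c y hy k h1 h2, col_mid _ _ _ k h1 h2]; rfl
    · rw [col_top c y hy k (by omega), col_top _ _ _ k (by omega)]; rfl

omit [GSp X] in
theorem lev_smul (g : G) (u : D.V) : (g • u).lev = u.lev := by
  cases u <;> rfl

omit [GSp X] in
theorem cone_smul (g : G) (u : D.V) : (g • u).cone = u.cone.map (g • ·) := by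
  cases u <;> rfl

omit [GSp X] in
theorem bs_smul (g : G) (u : D.V) (h : u.lev ≤ D.ρ) : (g • u).bs = g • u.bs := by
  cases u with
  | base x => rfl
  | pt c y hy k h1 h2 => rfl
  | apex c =>
    have : D.ρ + 1 ≤ D.ρ := h
    omega

theorem Adj0.smul [Iso G X] (g : G) {u w : D.V} (h : D.Adj0 u w) : D.Adj0 (g • u) (g • w) := by
  cases h with
  | bb x y h => exact Adj0.bb (g • x) (g • y) (by rw [d_smul]; exact h)
  | hor c y hy y' hy' k h1 h2 h =>
    exact Adj0.hor (g • c) (g • y) _ (g • y') _ k h1 h2 (by rw [d_smul]; exact h)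
  | ver c y hy k h =>
    rw [smul_col, smul_col]
    exact Adj0.ver _ _ _ k h

theorem d_smul_le [Iso G X] (g : G) (u w : D.V) : d (g • u) (g • w) ≤ d u w := by
  have := lip (D := D) (fun v => d (g • v) (g • w)) 1 (fun a b h => by
    have h1 := (h.smul g).d_le
    have h2 := d_tri (g • a) (g • b) (g • w)
    have h3 := d_tri (g • b) (g • a) (g • w)
    have h4 := d_comm (g • a) (g • b)
    omega) u w
  simp only [d_self] at this
  omega

instance [Iso G X] : Iso G D.V where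
  d_smul := by
    intro g u w
    have h1 := d_smul_le g u w
    have h2 := d_smul_le g⁻¹ (g • u) (g • w)
    rw [inv_smul_smul, inv_smul_smul] at h2
    omega

/-- A vertex moved by less than twice its level has its cone fixed. -/
theorem deep (g : G) (u : D.V) (h : d u (g • u) < 2 * u.lev) :
    ∃ c, u.cone = some c ∧ g • c = c := by
  obtain ⟨c, hc⟩ := exists_cone (u := u) (by omega)
  refine ⟨c, hc, ?_⟩
  by_contra hg
  have h1 := lev_add_le (u := u) (w := g • u) (by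
    rw [cone_smul, hc]
    exact fun h => hg (Option.some.inj h).symm)
  rw [lev_smul] at h1
  omega

end Act

/-- Geometric hypotheses on the cone-off data. -/
structure Good (D : CD X C) (δ σ Δ : ℕ) : Prop where
  hyp : Hyp X δ
  qc : ∀ c, QC (D.Y c) σ
  ovl : Ovl D.Y (100 * (δ + σ + 1)) Δ
  hR : 1000 * (δ + σ + Δ + 1) ≤ D.R
  hρ : 1 ≤ D.ρ

variable {δ σ Δ : ℕ}

/-- Projections of the base points of the ends of an edge that avoids an apex are close. -/
theorem Good.adj_proj (H : D.Good δ σ Δ) {c : C} {u w : D.V} (h : D.Adj0 u w)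
    (hw : w ≠ V.apex c) {a b : X} (ha : IsProj (D.Y c) u.bs a) (hb : IsProj (D.Y c) w.bs b) :
    d a b ≤ D.R * 2 ^ D.ρ := by
  have hR := H.hR
  have h2R : D.R * 2 ^ 1 ≤ D.R * 2 ^ D.ρ :=
    Nat.mul_le_mul_left _ (Nat.pow_le_pow_right (by omega) H.hρ)
  have other : ∀ e, c ≠ e → u.bs ∈ D.Y e → w.bs ∈ D.Y e → d a b ≤ D.R * 2 ^ D.ρ := by
    intro e he h1 h2
    have := proj_bdd H.hyp H.qc H.ovl (by omega) he h1 h2 ha hb
    omega
  cases h with
  | bb x y h =>
    have := proj_lip H.hyp (H.qc c) ha hb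
    have e : d (V.base x : D.V).bs (V.base y : D.V).bs = d x y := rfl
    omega
  | hor e y hy y' hy' k h1 h2 h =>
    by_cases he : c = e
    · subst he
      rw [ha.eq_of_mem hy, hb.eq_of_mem hy']
      exact h.trans (Nat.mul_le_mul_left _ (Nat.pow_le_pow_right (by omega) h2))
    · exact other e he hy hy'
  | ver e y hy k h =>
    by_cases he : c = e
    · subst he
      have hk : k + 1 ≤ D.ρ := by
        by_contra hk
        exact hw (col_top c y hy (k + 1) (by omega))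
      rw [bs_col c y hy k h] at ha
      rw [bs_col c y hy (k + 1) hk] at hb
      rw [ha.eq_of_mem hy, hb.eq_of_mem hy, d_self]
      exact Nat.zero_le _
    · exact other e he (bs_col_mem _ _ _ _) (bs_col_mem _ _ _ _)

theorem Good.reach_proj (H : D.Good δ σ Δ) {c : C} {t : ℕ} {u w : D.V}
    (h : Reach (V.apex c) t u w) (pr : X → X) (hpr : ∀ x, IsProj (D.Y c) x (pr x)) :
    d (pr u.bs) (pr w.bs) ≤ t * (D.R * 2 ^ D.ρ) := by
  have start : ∀ {t : ℕ} {u w : D.V}, Reach (V.apex c) t u w → u ≠ V.apex c := by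
    intro t u w h
    cases h with
    | refl _ _ hu => exact hu
    | step _ _ _ _ hu _ _ => exact hu
  induction h with
  | refl t u hu => rw [d_self]; exact Nat.zero_le _
  | step t u v w hu hv hr ih =>
    have h1 : d (pr u.bs) (pr v.bs) ≤ D.R * 2 ^ D.ρ := by
      rcases (D.d_le_one_iff u v).mp hv with h | h | h
      · rw [h, d_self]; exact Nat.zero_le _
      · exact H.adj_proj h (start hr) (hpr _) (hpr _)
      · rw [d_comm]; exact H.adj_proj h hu (hpr _) (hpr _)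
    have h2 := d_tri (pr u.bs) (pr v.bs) (pr w.bs)
    rw [Nat.succ_mul]; omega

/-- Paths that avoid an apex change the base point slowly. -/
theorem Good.reach (H : D.Good δ σ Δ) {c : C} {t : ℕ} {u w : D.V} (hu : u.cone = some c)
    (hw : w.cone = some c) (h : Reach (V.apex c) t u w) : d u.bs w.bs ≤ t * (D.R * 2 ^ D.ρ) := by
  choose pr hpr using exists_proj (D.ne c)
  have := H.reach_proj h pr hpr
  rwa [(hpr _).eq_of_mem (bs_mem hu), (hpr _).eq_of_mem (bs_mem hw)] at this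

/-- Lower bound for the distance of base points without long shortcuts. -/
theorem Good.d_le_mul (H : D.Good δ σ Δ) {x y : X} {B : ℕ}
    (hB : ∀ c a b, IsProj (D.Y c) x a → IsProj (D.Y c) y b → d a b ≤ B) :
    d x y ≤ d (V.base x : D.V) (V.base y) * (2 * D.R + B) := by
  have hR := H.hR
  have same : ∀ c, ∀ a ∈ D.Y c, ∀ a' ∈ D.Y c,
      d x a + d x y - d y a ≤ d x a' + d x y - d y a' + 2 * (2 * D.R + B) := by
    intro c a ha a' ha'
    obtain ⟨g, hg⟩ := exists_proj (D.ne c) x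
    obtain ⟨g', hg'⟩ := exists_proj (D.ne c) y
    have b0 := hB c g g' hg hg'
    have b1 := proj_btw H.hyp (H.qc c) hg ha'
    have b2 := proj_btw H.hyp (H.qc c) hg' ha
    have b3 := d_tri x g a
    have b4 := d_tri y g' a'
    have b5 := d_tri g g' a
    have b6 := d_tri g' g a'
    have b7 := d_comm g g'
    omega
  have key := lip (D := D) (fun v => d x v.bs + d x y - d y v.bs) (2 * (2 * D.R + B))
    (fun u w h => by
      cases h with
      | bb a a' h =>
        show d x a + d x y - d y a ≤ d x a' + d x y - d y a' + _ ∧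
          d x a' + d x y - d y a' ≤ d x a + d x y - d y a + _
        have := d_tri x a a'; have := d_tri x a' a; have := d_tri y a a'; have := d_tri y a' a
        have := d_comm a a'
        omega
      | hor c a ha a' ha' k h1 h2 h => exact ⟨same c a ha a' ha', same c a' ha' a ha⟩
      | ver c a ha k h =>
        exact ⟨same c _ (bs_col_mem _ _ _ _) _ (bs_col_mem _ _ _ _),
          same c _ (bs_col_mem _ _ _ _) _ (bs_col_mem _ _ _ _)⟩) (V.base y) (V.base x)
  have e1 : (V.base x : D.V).bs = x := rfl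
  have e2 : (V.base y : D.V).bs = y := rfl
  simp only [e1, e2, d_self] at key
  rw [d_comm (V.base y : D.V) (V.base x), Nat.mul_left_comm] at key
  have := d_comm x y
  omega

end CD

end Pool.Agent.QIB
end

-- merged part: Pool.Agent.Work.MP_9628a2_al.ConeHypA
section
set_option autoImplicit false

namespace Pool.Agent.QIB

namespace CD

namespace CH

variable {X C : Type} {D : CD X C} {δ σ Δ : ℕ}

theorem col_zero (c : C) (y : X) (hy : y ∈ D.Y c) : D.col c y hy 0 = V.base y := by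
  simp [col]

theorem col_apex (c : C) (y : X) (hy : y ∈ D.Y c) {k : ℕ} (hk : D.ρ < k) :
    D.col c y hy k = V.apex c := by
  rw [col, dif_neg (by omega), dif_neg (by omega)]

theorem col_pt (c : C) (y : X) (hy : y ∈ D.Y c) {k : ℕ} (h1 : 1 ≤ k) (h2 : k ≤ D.ρ) :
    D.col c y hy k = V.pt c y hy k h1 h2 := by
  rw [col, dif_neg (by omega), dif_pos h2]

theorem col_cone (c : C) (y : X) (hy : y ∈ D.Y c) {k : ℕ} (h1 : 1 ≤ k) :
    (D.col c y hy k).cone = some c := by
  by_cases h : k ≤ D.ρ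
  · rw [col_pt c y hy h1 h]; rfl
  · rw [col_apex c y hy (by omega)]; rfl

theorem col_lev (c : C) (y : X) (hy : y ∈ D.Y c) (k : ℕ) :
    (D.col c y hy k).lev = min k (D.ρ + 1) := by
  rcases Nat.eq_zero_or_pos k with rfl | h1
  · rw [col_zero]; rfl
  by_cases h : k ≤ D.ρ
  · rw [col_pt c y hy h1 h]; show k = _; omega
  · rw [col_apex c y hy (by omega)]; show D.ρ + 1 = _; omega

theorem col_bs (c : C) (y : X) (hy : y ∈ D.Y c) {k : ℕ} (h : k ≤ D.ρ) :
    (D.col c y hy k).bs = y := by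
  rcases Nat.eq_zero_or_pos k with rfl | h1
  · rw [col_zero]; rfl
  · rw [col_pt c y hy h1 h]; rfl

theorem col_congr (c : C) {y y' : X} (hy : y ∈ D.Y c) (hy' : y' ∈ D.Y c) (h : y = y') (k : ℕ) :
    D.col c y hy k = D.col c y' hy' k := by
  subst h; rfl

open Classical in
/-- The level of a vertex inside the cone `c`. -/
noncomputable def levc (c : C) (u : D.V) : ℕ := if u.cone = some c then u.lev else 0

theorem levc_of {c : C} {u : D.V} (h : u.cone = some c) : levc c u = u.lev := if_pos h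

theorem levc_pos {c : C} {u : D.V} (h : levc c u ≠ 0) : u.cone = some c := by
  by_contra hc
  exact h (if_neg hc)

theorem levc_le (c : C) (u : D.V) : levc c u ≤ u.lev := by
  unfold levc; split_ifs <;> omega

theorem levc_uniq {c c' : C} {u : D.V} (h : levc c u ≠ 0) (h' : levc c' u ≠ 0) : c = c' :=
  Option.some.inj ((levc_pos h).symm.trans (levc_pos h'))

theorem exists_levc {u : D.V} (h : u.lev ≠ 0) : ∃ c, levc c u ≠ 0 := by
  obtain ⟨c, hc⟩ := exists_cone h
  exact ⟨c, by rwa [levc_of hc]⟩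

variable [GSp X]

variable (D) in
/-- A chosen nearest point. -/
noncomputable def pr (c : C) (x : X) : X := (exists_proj (D.ne c) x).choose

theorem pr_spec (c : C) (x : X) : IsProj (D.Y c) x (pr D c x) :=
  (exists_proj (D.ne c) x).choose_spec

theorem pr_mem (c : C) (x : X) : pr D c x ∈ D.Y c := (pr_spec c x).1

theorem pr_le (c : C) (x : X) {y : X} (hy : y ∈ D.Y c) : d x (pr D c x) ≤ d x y :=
  (pr_spec c x).2 y hy

theorem pr_bs {c : C} {u : D.V} (h : levc c u ≠ 0) : pr D c u.bs = u.bs :=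
  (pr_spec c u.bs).eq_of_mem (bs_mem (levc_pos h))

variable (D) in
/-- The point of level `k` over the nearest point. -/
noncomputable def cl (c : C) (x : X) (k : ℕ) : D.V := D.col c (pr D c x) (pr_mem c x) k

theorem eq_cl {c : C} {u : D.V} (h : levc c u ≠ 0) : cl D c u.bs (levc c u) = u := by
  rw [cl, col_congr c _ (bs_mem (levc_pos h)) (pr_bs h), levc_of (levc_pos h)]
  exact (eq_col (levc_pos h)).symm

theorem d_cl_succ (c : C) (x : X) (k : ℕ) : d (cl D c x k) (cl D c x (k + 1)) ≤ 1 := by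
  by_cases h : k ≤ D.ρ
  · exact (D.d_le_one_iff _ _).2 (Or.inr (Or.inl (Adj0.ver c _ _ k h)))
  · rw [cl, cl, col_apex c _ _ (by omega), col_apex c _ _ (by omega), d_self]; omega

theorem d_cl_cl (c : C) (x y : X) (k j : ℕ) (h : d (pr D c x) (pr D c y) ≤ D.R * 2 ^ (k + j)) :
    d (cl D c x k) (cl D c y k) ≤ 2 * j + 1 := d_col_le c _ _ _ _ k j h

theorem d_base_cl (c : C) (x z : X) (t : ℕ) (h : d z (pr D c x) ≤ t * D.R) :
    d (V.base z : D.V) (cl D c x 1) ≤ t + 1 := by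
  have h1 := d_base_le (D := D) z _ t h
  have h2 := d_cl_succ (D := D) c x 0
  rw [cl, col_zero] at h2
  have := d_tri (V.base z : D.V) (V.base (pr D c x)) (cl D c x 1)
  simp only [Nat.zero_add] at h2
  omega

theorem levc_lip (c : C) (u w : D.V) : levc c w ≤ levc c u + d u w := by
  by_cases hw : levc c w = 0
  · omega
  have h1 := levc_pos hw
  rw [levc_of h1]
  by_cases hu : u.cone = some c
  · rw [levc_of hu, d_comm]; exact lev_lip w u
  · have := lev_add_le (u := u) (w := w) (by rwa [h1])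
    omega

/-- The three kinds of edges. -/
def Kind (u w : D.V) : Prop :=
  (u.lev = 0 ∧ w.lev = 0 ∧ d u.bs w.bs ≤ D.R) ∨ (u.bs = w.bs ∧ u.lev ≤ 1 ∧ w.lev ≤ 1) ∨
    ∃ c, levc c u ≠ 0 ∧ levc c w ≠ 0 ∧
      (D.ρ < levc c u ∨ D.ρ < levc c w ∨ d u.bs w.bs ≤ D.R * 2 ^ min (levc c u) (levc c w))

theorem Kind.symm {u w : D.V} (h : Kind u w) : Kind w u := by
  rcases h with ⟨a, b, c⟩ | ⟨a, b, c⟩ | ⟨c, a, b, h⟩
  · exact Or.inl ⟨b, a, by rwa [d_comm]⟩
  · exact Or.inr (Or.inl ⟨a.symm, c, b⟩)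
  · refine Or.inr (Or.inr ⟨c, b, a, ?_⟩)
    rw [d_comm, min_comm]; tauto

theorem kind_of_adj (hρ : 1 ≤ D.ρ) {u w : D.V} (h : D.Adj0 u w) : Kind u w := by
  cases h with
  | bb x y h => exact Or.inl ⟨rfl, rfl, h⟩
  | hor c y hy y' hy' k h1 h2 h =>
    have e1 : levc c (V.pt c y hy k h1 h2) = k := levc_of rfl
    have e2 : levc c (V.pt c y' hy' k h1 h2) = k := levc_of rfl
    refine Or.inr (Or.inr ⟨c, by omega, by omega, Or.inr (Or.inr ?_)⟩)
    rw [e1, e2, min_self]; exact h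
  | ver c y hy k h =>
    have l1 := col_lev c y hy k
    have l2 := col_lev c y hy (k + 1)
    rcases Nat.eq_zero_or_pos k with rfl | h1
    · exact Or.inr (Or.inl ⟨by rw [col_bs c y hy h, col_bs c y hy hρ], by omega, by omega⟩)
    have e1 := levc_of (col_cone c y hy h1)
    have e2 := levc_of (col_cone c y hy (k := k + 1) (by omega))
    refine Or.inr (Or.inr ⟨c, by omega, by omega, ?_⟩)
    by_cases h2 : k + 1 ≤ D.ρ
    · rw [col_bs c y hy h, col_bs c y hy h2, d_self]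
      exact Or.inr (Or.inr (Nat.zero_le _))
    · exact Or.inr (Or.inl (by omega))

theorem kind_of_le (hρ : 1 ≤ D.ρ) {u w : D.V} (h : d u w ≤ 1) : Kind u w := by
  rcases (D.d_le_one_iff u w).1 h with rfl | h | h
  · by_cases h0 : u.lev = 0
    · exact Or.inl ⟨h0, h0, by rw [d_self]; omega⟩
    · obtain ⟨c, hc⟩ := exists_levc h0
      exact Or.inr (Or.inr ⟨c, hc, hc, Or.inr (Or.inr (by rw [d_self]; omega))⟩)
  · exact kind_of_adj hρ h
  · exact (kind_of_adj hρ h).symm

/-- The point `z` projects near the foot of `u`, which is outside the cone. -/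
def Sd (c : C) (u : D.V) (z : X) : Prop := levc c u = 0 ∧ d (pr D c z) (pr D c u.bs) ≤ D.R

/-- Base points of the guessed geodesic. -/
def Aa (u w : D.V) (z : X) : Prop := Btw u.bs z w.bs ∧ ∀ c, Sd c u z ∨ Sd c w z

theorem Aa.symm {u w : D.V} {z : X} (h : Aa u w z) : Aa w u z :=
  ⟨h.1.symm, fun c => (h.2 c).symm⟩

theorem not_sd (H : D.Good δ σ Δ) {c : C} {u : D.V} {z : X} (h : ¬ Sd c u z) :
    d u.bs (pr D c u.bs) + d (pr D c u.bs) z ≤ d u.bs z + (5 * δ + 2 * σ + 1) := by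
  by_cases h0 : levc c u = 0
  · have h1 : ¬ d (pr D c z) (pr D c u.bs) ≤ D.R := fun hh => h ⟨h0, hh⟩
    have := H.hR
    have := d_comm (pr D c z) (pr D c u.bs)
    exact (proj_far H.hyp (H.qc c) (pr_spec c u.bs) (pr_spec c z) (by omega)).1
  · rw [pr_bs h0, d_self]; omega

theorem fail (H : D.Good δ σ Δ) {c : C} {u w : D.V} {z : X} (hb : Btw u.bs z w.bs)
    (hu : ¬ Sd c u z) (hw : ¬ Sd c w z) : d z (pr D c z) ≤ 7 * (δ + σ + 1) ∧
    (levc c u = 0 → levc c w = 0 → D.R ≤ d (pr D c u.bs) (pr D c w.bs)) := by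
  have e1 := not_sd H hu
  have e2 := not_sd H hw
  unfold Btw at hb
  have e3 : d (pr D c u.bs) z + d z (pr D c w.bs) ≤
      d (pr D c u.bs) (pr D c w.bs) + (10 * δ + 4 * σ + 2) := by
    have := d_tri u.bs (pr D c u.bs) w.bs
    have := d_tri (pr D c u.bs) (pr D c w.bs) w.bs
    have := d_comm w.bs z; have := d_comm w.bs (pr D c w.bs); have := d_comm z (pr D c w.bs)
    omega
  obtain ⟨q, hq, hq'⟩ := near_qc H.hyp (H.qc c) (pr_mem c u.bs) (pr_mem c w.bs) e3
  have e4 := pr_le (D := D) c z hq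
  refine ⟨by omega, fun h1 h2 => ?_⟩
  have a1 : ¬ d (pr D c z) (pr D c u.bs) ≤ D.R := fun hh => hu ⟨h1, hh⟩
  have a2 : ¬ d (pr D c z) (pr D c w.bs) ≤ D.R := fun hh => hw ⟨h2, hh⟩
  have := d_tri (pr D c z) z (pr D c u.bs); have := d_tri (pr D c z) z (pr D c w.bs)
  have := d_comm z (pr D c z); have := d_comm z (pr D c u.bs)
  have := H.hR
  omega

theorem behr (H : D.Good δ σ Δ) {c c' : C} (hc : c ≠ c') {g m : X} (hg : g ∈ D.Y c)
    (hm : m ∈ D.Y c') (h : d g m ≤ 12 * (δ + σ + 1)) (x : X) :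
    d (pr D c x) g ≤ Δ ∨ d (pr D c' x) m ≤ Δ := by
  have e1 := proj_btw H.hyp (H.qc c) (pr_spec c x) hg
  have e2 := proj_btw H.hyp (H.qc c') (pr_spec c' x) hm
  have e3 := H.hyp (pr D c x) (pr D c' x) x g
  have hf := pr_mem (D := D) c x
  have hp := pr_mem (D := D) c' x
  generalize pr D c x = f at *
  generalize pr D c' x = p at *
  have := d_comm g m; have := d_comm f x; have := d_comm p x; have := d_comm f p
  have := d_tri p m g; have := d_tri x g m; have := d_tri x m g; have := d_tri f g m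
  have := d_tri x p m; have := d_tri x f g
  by_cases hh : d f g + d p x ≤ d f x + d p g
  · obtain ⟨q, hq, hq'⟩ := near_qc H.hyp (H.qc c') hp hm (w := f) (κ := 60 * (δ + σ + 1))
      (by omega)
    exact Or.inl (H.ovl c c' hc f hf g hg q hq m hm (by omega) (by omega))
  · obtain ⟨q, hq, hq'⟩ := near_qc H.hyp (H.qc c) hf hg (w := p) (κ := 60 * (δ + σ + 1))
      (by omega)
    exact Or.inr (H.ovl c' c hc.symm p hp m hm q hq g hg (by omega) (by omega))

theorem behr' (H : D.Good δ σ Δ) {c c' : C} (hc : c ≠ c') {g m x : X} (hg : g ∈ D.Y c)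
    (hm : m ∈ D.Y c') (h : d g m ≤ 12 * (δ + σ + 1)) (hx : x ∈ D.Y c') :
    d (pr D c x) g ≤ Δ + 30 * (δ + σ + 1) := by
  have e1 := proj_bdd H.hyp H.qc H.ovl (by omega) hc hx hm (pr_spec c x) (pr_spec c m)
  have e2 := pr_le (D := D) c m hg
  have := d_tri (pr D c x) (pr D c m) g; have := d_tri (pr D c m) m g
  have := d_comm g m; have := d_comm m (pr D c m)
  omega

theorem gate (H : D.Good δ σ Δ) {c : C} {u w : D.V} (hw : levc c w = 0)
    (hu : levc c u ≠ 0 ∨ D.R ≤ 4 * d (pr D c u.bs) (pr D c w.bs)) :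
    ∃ z, Aa u w z ∧ d z (pr D c w.bs) ≤ 5 * (δ + σ + 1) := by
  have hR := H.hR
  have e1 : d u.bs (pr D c w.bs) + d (pr D c w.bs) w.bs ≤ d u.bs w.bs + (5 * δ + 2 * σ + 1) := by
    rcases hu with hu | hu
    · have := proj_btw H.hyp (H.qc c) (pr_spec c w.bs) (bs_mem (levc_pos hu))
      have := d_comm u.bs w.bs; have := d_comm u.bs (pr D c w.bs)
      have := d_comm w.bs (pr D c w.bs)
      omega
    · exact (proj_far H.hyp (H.qc c) (pr_spec c u.bs) (pr_spec c w.bs) (by omega)).2.1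
  obtain ⟨z, hz, hz'⟩ := near_btw H.hyp e1
  have hg := pr_mem (D := D) c w.bs
  have c1 := d_comm z (pr D c w.bs)
  refine ⟨z, ⟨hz, fun c' => by_contra fun hf => ?_⟩, by omega⟩
  obtain ⟨f1, f2⟩ := not_or.mp hf
  by_cases hc : c = c'
  · subst hc
    have := pr_le (D := D) c z hg
    have := d_tri (pr D c z) z (pr D c w.bs); have := d_comm z (pr D c z)
    exact f2 ⟨hw, by omega⟩
  have e2 := (fail H hz f1 f2).1
  have e3 : d (pr D c w.bs) (pr D c' z) ≤ 12 * (δ + σ + 1) := by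
    have := d_tri (pr D c w.bs) z (pr D c' z); omega
  by_cases h0 : levc c' u = 0
  · have a1 : ¬ d (pr D c' z) (pr D c' u.bs) ≤ D.R := fun hh => f1 ⟨h0, hh⟩
    have c2 := d_comm (pr D c' z) (pr D c' u.bs)
    rcases hu with hu | hu
    · have := behr' H (Ne.symm hc) (pr_mem c' z) hg (by rwa [d_comm]) (bs_mem (levc_pos hu))
      omega
    · have := behr H hc hg (pr_mem c' z) e3 u.bs
      omega
  · have := behr' H hc hg (pr_mem c' z) e3 (bs_mem (levc_pos h0))
    rcases hu with hu | hu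
    · exact hc (levc_uniq hu h0)
    · omega

end CH

end CD

end Pool.Agent.QIB
end

-- merged part: Pool.Agent.Work.MP_9628a2_al.ConeHyp
section
set_option autoImplicit false

namespace Pool.Agent.QIB

namespace CD

variable {X C : Type} [GSp X] {D : CD X C} {δ σ Δ : ℕ}

namespace CH

/-- Admissible heights in the cone `c`. -/
def Tt (c : C) (u w : D.V) (k : ℕ) : Prop :=
  k ≤ levc c u ∨ k ≤ levc c w ∨ D.R * 2 ^ k ≤ d (pr D c u.bs) (pr D c w.bs)

/-- Heights of the points of the guessed geodesic over the foot of `u`. -/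
def Bc (c : C) (u w : D.V) (k : ℕ) : Prop := 1 ≤ k ∧ levc c u ≤ k ∧ Tt c u w k

/-- The guessed geodesics. -/
def LL (u w : D.V) : Set D.V := {v | (∃ z, Aa u w z ∧ v = V.base z) ∨
  (∃ c k, Bc c u w k ∧ v = cl D c u.bs k) ∨ ∃ c k, Bc c w u k ∧ v = cl D c w.bs k}

theorem Tt.symm {c : C} {u w : D.V} {k : ℕ} (h : Tt c u w k) : Tt c w u k := by
  unfold Tt at *; rw [d_comm]; tauto

theorem Tt.anti {c : C} {u w : D.V} {k i : ℕ} (h : Tt c u w k) (hi : i ≤ k) : Tt c u w i := by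
  have := Nat.mul_le_mul_left D.R (Nat.pow_le_pow_right two_pos hi)
  unfold Tt at *; omega

theorem LL_symm {u w v : D.V} (h : v ∈ LL u w) : v ∈ LL w u := by
  rcases h with ⟨z, h, e⟩ | h | h
  · exact Or.inl ⟨z, h.symm, e⟩
  · exact Or.inr (Or.inr h)
  · exact Or.inr (Or.inl h)

theorem Aa.mem {u w : D.V} {z : X} (h : Aa u w z) : V.base z ∈ LL u w := Or.inl ⟨z, h, rfl⟩

theorem Bc.mem {c : C} {u w : D.V} {k : ℕ} (h : Bc c u w k) : cl D c u.bs k ∈ LL u w :=
  Or.inr (Or.inl ⟨c, k, h, rfl⟩)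

theorem Bc.mem' {c : C} {u w : D.V} {k : ℕ} (h : Bc c w u k) : cl D c w.bs k ∈ LL u w :=
  Or.inr (Or.inr ⟨c, k, h, rfl⟩)

theorem aa_self {u : D.V} (h : u.lev = 0) (w : D.V) : Aa u w u.bs :=
  ⟨btw_left _ _, fun c => Or.inl ⟨by have := levc_le c u; omega, by rw [d_self]; omega⟩⟩

theorem bc_self {c : C} {u : D.V} (h : levc c u ≠ 0) (w : D.V) : Bc c u w (levc c u) :=
  ⟨by omega, le_rfl, Or.inl le_rfl⟩

theorem edge_b (H : D.Good δ σ Δ) {c : C} {u w : D.V} {k : ℕ} (h : d u w ≤ 1) (hb : Bc c u w k) :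
    d u (cl D c u.bs k) ≤ 1 := by
  obtain ⟨h1, h2, h3⟩ := hb
  have hR := H.hR
  have l1 := levc_lip c u w
  have near : levc c u ≠ 0 → k ≤ levc c u + 1 → d u (cl D c u.bs k) ≤ 1 := fun h0 hk => by
    have := d_cl_succ (D := D) c u.bs (levc c u)
    rw [eq_cl h0] at this
    by_cases e : k = levc c u
    · rw [e, eq_cl h0, d_self]; omega
    · rwa [show k = levc c u + 1 by omega]
  have p2 : D.R * 2 ≤ D.R * 2 ^ k := Nat.mul_le_mul_left _ (Nat.le_self_pow (by omega) 2)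
  rcases h3 with h3 | h3 | h3
  · exact near (by omega) (by omega)
  · by_cases h0 : levc c u = 0
    · rcases kind_of_le H.hρ h with ⟨-, a, -⟩ | ⟨a, -, -⟩ | ⟨c', a, b, -⟩
      · have := levc_le c w; omega
      · rwa [a, show k = levc c w by omega, eq_cl (by omega)]
      · exact absurd h0 (levc_uniq b (show levc c w ≠ 0 by omega) ▸ a)
    · exact near h0 (by omega)
  · rcases kind_of_le H.hρ h with ⟨-, -, a⟩ | ⟨a, -, -⟩ | ⟨c', a, b, e⟩
    · have := proj_lip H.hyp (H.qc c) (pr_spec c u.bs) (pr_spec c w.bs)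
      omega
    · rw [a, d_self] at h3; omega
    · by_cases hc : c = c'
      · subst hc
        by_cases hk : k ≤ levc c u + 1
        · exact near a hk
        have a1 := levc_le c u; have a2 := levc_le c w
        have a3 := lev_le u; have a4 := lev_le w
        rcases e with e | e | e
        · rw [cl, col_apex c _ _ (by omega), ← eq_apex (levc_pos a) (by omega), d_self]; omega
        · rwa [cl, col_apex c _ _ (by omega), ← eq_apex (levc_pos b) (by omega)]
        · rw [pr_bs a, pr_bs b] at h3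
          have := (Nat.pow_le_pow_iff_right one_lt_two).mp
            (Nat.le_of_mul_le_mul_left (h3.trans e) (by omega))
          omega
      · have := proj_bdd H.hyp H.qc H.ovl (by omega) hc (bs_mem (levc_pos a)) (bs_mem (levc_pos b))
          (pr_spec c u.bs) (pr_spec c w.bs)
        omega

theorem edge (H : D.Good δ σ Δ) (u w : D.V) (h : d u w ≤ 1) (v : D.V) (hv : v ∈ LL u w) :
    d u v ≤ 20 := by
  rcases hv with ⟨z, ⟨h1, h2⟩, rfl⟩ | ⟨c, k, hb, rfl⟩ | ⟨c, k, hb, rfl⟩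
  · have a1 := d_bs u
    have a2 := d_tri u (V.base u.bs) (V.base z)
    unfold Btw at h1
    rcases kind_of_le H.hρ h with ⟨a, -, b⟩ | ⟨a, b, -⟩ | ⟨c, a, b, -⟩
    · have := d_base_le (D := D) u.bs z 1 (by omega); omega
    · have e := d_self w.bs
      rw [← a] at e
      have := d_base_le (D := D) u.bs z 0 (by rw [← a] at h1; omega); omega
    · exact (h2 c).elim (fun hh => absurd hh.1 a) fun hh => absurd hh.1 b
  · have := edge_b H h hb; omega
  · have := edge_b H (by rwa [d_comm]) hb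
    have := d_tri u w (cl D c w.bs k); omega

theorem thin_b (H : D.Good δ σ Δ) {c : C} {u w : D.V} {k : ℕ} (hb : Bc c u w k) (t : D.V) :
    ∃ q, (q ∈ LL u t ∨ q ∈ LL t w) ∧ d (cl D c u.bs k) q ≤ 20 := by
  obtain ⟨h1, h2, h3⟩ := hb
  have hR := H.hR
  by_cases a1 : Tt c u t k
  · exact ⟨_, Or.inl (Bc.mem ⟨h1, h2, a1⟩), by rw [d_self]; omega⟩
  have b1 := d_cl_cl (D := D) c u.bs t.bs k 0 (by unfold Tt at a1; simp only [Nat.add_zero]; omega)
  by_cases a2 : Tt c t w k
  · exact ⟨_, Or.inr (Bc.mem ⟨h1, by unfold Tt at a1; omega, a2⟩), by omega⟩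
  obtain ⟨k, rfl⟩ : ∃ j, k = j + 1 := ⟨k - 1, by omega⟩
  unfold Tt at a1 a2 h3
  have t1 := d_tri (pr D c u.bs) (pr D c t.bs) (pr D c w.bs)
  have s1 := d_cl_succ (D := D) c u.bs k
  have s2 := d_cl_succ (D := D) c t.bs k
  rw [d_comm] at s1 s2
  rw [pow_succ, ← Nat.mul_assoc] at a1 a2 h3
  rcases Nat.eq_zero_or_pos k with rfl | hk
  · simp only [pow_zero, Nat.mul_one, Nat.zero_add] at *
    have c1 := d_comm (pr D c u.bs) (pr D c t.bs)
    have c2 := d_comm (pr D c t.bs) (pr D c w.bs)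
    by_cases a3 : D.R ≤ d (pr D c u.bs) (pr D c t.bs)
    · obtain ⟨z, hz, hz'⟩ := gate H (c := c) (u := t) (w := u) (by omega) (by omega)
      have := d_base_cl (D := D) c u.bs z 1 (by omega)
      exact ⟨_, Or.inl hz.symm.mem, by rw [d_comm]; omega⟩
    · obtain ⟨z, hz, hz'⟩ := gate H (c := c) (u := w) (w := t) (by omega) (by omega)
      have := d_base_cl (D := D) c t.bs z 1 (by omega)
      rw [d_comm] at this
      have := d_tri (cl D c u.bs 1) (cl D c t.bs 1) (V.base z)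
      exact ⟨_, Or.inr hz.symm.mem, by omega⟩
  · by_cases a3 : D.R * 2 ^ k ≤ d (pr D c u.bs) (pr D c t.bs)
    · exact ⟨_, Or.inl (Bc.mem (c := c) ⟨hk, by omega, Or.inr (Or.inr a3)⟩), by omega⟩
    · have := d_tri (cl D c u.bs (k + 1)) (cl D c t.bs (k + 1)) (cl D c t.bs k)
      exact ⟨_, Or.inr (Bc.mem (c := c) ⟨hk, by omega, Or.inr (Or.inr (by omega))⟩), by omega⟩

theorem thin_a (H : D.Good δ σ Δ) {u w t : D.V} {z z' : X} (ha : Aa u w z)
    (hb : Btw u.bs z' t.bs) (hd : d z z' ≤ 2 * δ) :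
    ∃ q, (q ∈ LL u t ∨ q ∈ LL t w) ∧ d (V.base z : D.V) q ≤ 20 := by
  have hR := H.hR
  by_cases h : ∀ c, Sd c u z' ∨ Sd c t z'
  · have := d_base_le (D := D) z z' 1 (by omega)
    exact ⟨_, Or.inl (Aa.mem ⟨hb, h⟩), by omega⟩
  obtain ⟨c, hc⟩ := not_forall.mp h
  obtain ⟨f1, f2⟩ := not_or.mp hc
  obtain ⟨e1, e2⟩ := fail H hb f1 f2
  have e3 : d z (pr D c z) ≤ 9 * (δ + σ + 1) := by
    have := pr_le (D := D) c z (pr_mem c z'); have := d_tri z z' (pr D c z'); omega
  have c1 := d_comm (pr D c u.bs) (pr D c t.bs)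
  have c2 := d_comm (pr D c t.bs) (pr D c w.bs)
  have jump : ∀ x z'' : X, d z (pr D c x) ≤ 2 * D.R → d z'' (pr D c x) ≤ 5 * (δ + σ + 1) →
      d (V.base z : D.V) (V.base z'') ≤ 20 := fun x z'' a b => by
    have := d_tri z (pr D c x) z''; have := d_comm z'' (pr D c x)
    have := d_base_le (D := D) z z'' 3 (by omega); omega
  rcases ha.2 c with ⟨a1, a2⟩ | ⟨a1, a2⟩
  · have t1 := d_tri z (pr D c z) (pr D c u.bs)
    by_cases a3 : levc c t = 0
    · obtain ⟨y, hy, hy'⟩ := gate H (c := c) (u := t) (w := u) a1 (by omega)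
      exact ⟨_, Or.inl hy.symm.mem, jump _ y (by omega) hy'⟩
    · have := d_base_cl (D := D) c u.bs z 2 (by omega)
      exact ⟨_, Or.inl (Bc.mem (c := c) ⟨le_rfl, by omega, Or.inr (Or.inl (by omega))⟩), by omega⟩
  · have t1 := d_tri z (pr D c z) (pr D c w.bs)
    by_cases a3 : levc c t = 0
    · by_cases a4 : D.R ≤ 4 * d (pr D c t.bs) (pr D c w.bs)
      · obtain ⟨y, hy, hy'⟩ := gate H (c := c) (u := t) (w := w) a1 (Or.inr a4)
        exact ⟨_, Or.inr hy.mem, jump _ y (by omega) hy'⟩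
      · obtain ⟨y, hy, hy'⟩ := gate H (c := c) (u := u) (w := t) a3 (by omega)
        have := d_tri z (pr D c w.bs) (pr D c t.bs)
        exact ⟨_, Or.inl hy.mem, jump _ y (by omega) hy'⟩
    · have := d_base_cl (D := D) c w.bs z 2 (by omega)
      exact ⟨_, Or.inr (Bc.mem' (c := c) ⟨le_rfl, by omega, Or.inr (Or.inl (by omega))⟩), by omega⟩

theorem thin (H : D.Good δ σ Δ) (u w t v : D.V) (hv : v ∈ LL u w) :
    ∃ q, (q ∈ LL u t ∨ q ∈ LL t w) ∧ d v q ≤ 20 := by
  have sw : (∃ q, (q ∈ LL w t ∨ q ∈ LL t u) ∧ d v q ≤ 20) →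
      ∃ q, (q ∈ LL u t ∨ q ∈ LL t w) ∧ d v q ≤ 20 := fun ⟨q, h1, h2⟩ =>
    ⟨q, h1.symm.imp LL_symm LL_symm, h2⟩
  rcases hv with ⟨z, ha, rfl⟩ | ⟨c, k, hb, rfl⟩ | ⟨c, k, hb, rfl⟩
  · obtain ⟨z', h1, h2⟩ := slim_of_hyp H.hyp u.bs w.bs t.bs z ha.1
    rcases h1 with h1 | h1
    · exact thin_a H ha h1 h2
    · exact sw (thin_a H ha.symm h1.symm h2)
  · exact thin_b H hb t
  · exact sw (thin_b H hb t)

/-- Coarse connectedness inside the guessed geodesic. -/
abbrev Cn (u w : D.V) : D.V → D.V → Prop :=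
  Relation.ReflTransGen fun p q => p ∈ LL u w ∧ q ∈ LL u w ∧ d p q ≤ 20

theorem cn_up {c : C} {u w : D.V} {i k : ℕ} (hi : Bc c u w i) (hik : i ≤ k) (hk : Tt c u w k) :
    Cn u w (cl D c u.bs i) (cl D c u.bs k) ∧ Cn w u (cl D c u.bs k) (cl D c u.bs i) := by
  induction k, hik using Nat.le_induction with
  | base => exact ⟨.refl, .refl⟩
  | succ k hik ih =>
    obtain ⟨a, b⟩ := ih (hk.anti (by omega))
    have b1 : Bc c u w k := ⟨hi.1.trans hik, hi.2.1.trans hik, hk.anti (by omega)⟩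
    have b2 : Bc c u w (k + 1) := ⟨by omega, by have := b1.2.1; omega, hk⟩
    have := d_cl_succ (D := D) c u.bs k
    exact ⟨a.tail ⟨b1.mem, b2.mem, by omega⟩, b.head ⟨b2.mem', b1.mem', by rw [d_comm]; omega⟩⟩

theorem cn_cone {c : C} {u w : D.V} {i j : ℕ} (hi : Bc c u w i) (hj : Bc c w u j) :
    Cn u w (cl D c u.bs i) (cl D c w.bs j) := by
  classical
  have hex : ∃ k, ¬ Tt c u w (k + 1) := by
    refine ⟨levc c u + levc c w + d (pr D c u.bs) (pr D c w.bs), ?_⟩
    generalize hk : levc c u + levc c w + d (pr D c u.bs) (pr D c w.bs) = k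
    have h1 : k + 1 < 2 ^ (k + 1) := Nat.lt_two_pow_self
    have h2 := Nat.le_mul_of_pos_left (2 ^ (k + 1)) D.hR
    unfold Tt; omega
  have h1 := Nat.find_spec hex
  have h2 : Tt c u w (Nat.find hex) := by
    rcases Nat.eq_zero_or_pos (Nat.find hex) with h | h
    · rw [h]; exact Or.inl (Nat.zero_le _)
    · have := not_not.mp (Nat.find_min hex (show Nat.find hex - 1 < _ by omega))
      rwa [Nat.sub_add_cancel h] at this
  generalize Nat.find hex = k at h1 h2
  have a1 : i ≤ k := by_contra fun h => h1 (hi.2.2.anti (by omega))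
  have a2 : j ≤ k := by_contra fun h => h1 (hj.2.2.symm.anti (by omega))
  have a3 := d_cl_cl (D := D) c u.bs w.bs k 1 (by unfold Tt at h1; omega)
  exact ((cn_up hi a1 h2).1.tail ⟨Bc.mem ⟨hi.1.trans a1, hi.2.1.trans a1, h2⟩,
    Bc.mem' ⟨hj.1.trans a2, hj.2.1.trans a2, h2.symm⟩, by omega⟩).trans (cn_up hj a2 h2.symm).2

theorem cn_end {c : C} {u w : D.V} {z : X} (ha : Aa u w z) (hw : levc c w ≠ 0)
    (hz : d z (pr D c z) ≤ D.R) : Cn u w (V.base z) w := by
  obtain ⟨a1, a2⟩ := (ha.2 c).resolve_right fun h => hw h.1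
  have b : Bc c u w 1 := ⟨le_rfl, by omega, Or.inr (Or.inl (by omega))⟩
  have t := d_tri z (pr D c z) (pr D c u.bs)
  have := d_base_cl (D := D) c u.bs z 2 (by omega)
  have e := cn_cone b (bc_self hw u)
  rw [eq_cl hw] at e
  exact e.head ⟨ha.mem, b.mem, by omega⟩

theorem cn_base (H : D.Good δ σ Δ) {u w : D.V} (n : ℕ) :
    ∀ z, d z w.bs = n → Aa u w z → Cn u w (V.base z) w := by
  have hR := H.hR
  induction n using Nat.strong_induction_on with
  | _ n ih =>
  intro z hn ha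
  cases n with
  | zero =>
    obtain rfl := eq_of_d _ _ hn
    by_cases h0 : w.lev = 0
    · rw [← eq_base h0]
    · obtain ⟨c, hc⟩ := exists_levc h0
      exact cn_end ha hc (by rw [pr_bs hc, d_self]; omega)
  | succ n =>
    obtain ⟨z1, s1, s2⟩ := GSp.step z w.bs n hn
    have hb : Btw u.bs z1 w.bs := (ha.1.trans_right (q := z1) (by unfold Btw; omega)).1
    by_cases h : ∀ c, Sd c u z1 ∨ Sd c w z1
    · have := d_base_le (D := D) z z1 1 (by omega)
      exact (ih n (by omega) z1 s2 ⟨hb, h⟩).head ⟨ha.mem, Aa.mem ⟨hb, h⟩, by omega⟩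
    obtain ⟨c, hc⟩ := not_forall.mp h
    obtain ⟨f1, f2⟩ := not_or.mp hc
    obtain ⟨e1, e2⟩ := fail H hb f1 f2
    have e3 : d z (pr D c z) ≤ 8 * (δ + σ + 1) := by
      have := pr_le (D := D) c z (pr_mem c z1); have := d_tri z z1 (pr D c z1); omega
    by_cases hw : levc c w = 0
    swap
    · exact cn_end ha hw (by omega)
    obtain ⟨y, hy, hy'⟩ := gate H (c := c) (u := u) hw (by omega)
    have e4 : d y w.bs < n + 1 := by
      have a1 : ¬ d (pr D c z1) (pr D c w.bs) ≤ D.R := fun hh => f2 ⟨hw, hh⟩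
      have := proj_btw H.hyp (H.qc c) (pr_spec c w.bs) (pr_mem c z1)
      have := d_tri w.bs z1 (pr D c z1); have := d_tri y (pr D c w.bs) w.bs
      have := d_comm w.bs z1; have := d_comm w.bs (pr D c w.bs)
      have := d_comm (pr D c z1) (pr D c w.bs)
      omega
    refine Relation.ReflTransGen.trans ?_ (ih _ e4 y rfl hy)
    have t1 := d_tri z (pr D c w.bs) y
    have c1 := d_comm y (pr D c w.bs)
    by_cases a : d z (pr D c w.bs) ≤ 4 * D.R
    · have := d_base_le (D := D) z y 5 (by omega)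
      exact .single ⟨ha.mem, hy.mem, by omega⟩
    have t2 := d_tri z (pr D c z) (pr D c w.bs)
    obtain ⟨a1, a2⟩ := (ha.2 c).resolve_right fun hh => by have := hh.2; omega
    have t3 := d_tri z (pr D c z) (pr D c u.bs)
    have t4 := d_tri z (pr D c u.bs) (pr D c w.bs)
    have tt : Tt c u w 1 := Or.inr (Or.inr (by omega))
    have b1 : Bc c u w 1 := ⟨le_rfl, by omega, tt⟩
    have b2 : Bc c w u 1 := ⟨le_rfl, by omega, tt.symm⟩
    have := d_base_cl (D := D) c u.bs z 2 (by omega)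
    have := d_base_cl (D := D) c w.bs y 1 (by omega)
    exact ((cn_cone b1 b2).head ⟨ha.mem, b1.mem, by omega⟩).tail
      ⟨b2.mem', hy.mem, by rw [d_comm]; omega⟩

theorem conn (H : D.Good δ σ Δ) (u w : D.V) : Cn u w u w := by
  have hR := H.hR
  by_cases h0 : u.lev = 0
  · have := cn_base H _ u.bs rfl (aa_self h0 w)
    rwa [← eq_base h0] at this
  obtain ⟨c, hc⟩ := exists_levc h0
  by_cases hw : levc c w = 0
  · obtain ⟨y, hy, hy'⟩ := gate H (u := u) hw (Or.inl hc)
    have b : Bc c w u 1 := ⟨le_rfl, by omega, Or.inr (Or.inl (by omega))⟩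
    have e := cn_cone (bc_self hc w) b
    rw [eq_cl hc] at e
    have := d_base_cl (D := D) c w.bs y 1 (by omega)
    exact (e.tail ⟨b.mem', hy.mem, by rw [d_comm]; omega⟩).trans (cn_base H _ y rfl hy)
  · have e := cn_cone (bc_self hc w) (bc_self hw u)
    rwa [eq_cl hc, eq_cl hw] at e

theorem guess (H : D.Good δ σ Δ) : Guess D.V LL 20 := ⟨thin H, edge H, conn H⟩

end CH

/-- The cone-off is hyperbolic with an absolute constant. -/
theorem Good.slim (H : D.Good δ σ Δ) : Slim D.V kB :=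
  (kB_spec D.V _ (CH.guess H)).1

/-- A geodesic between base points passes an apex only if the projections are far apart. -/
theorem Good.apex_btw (H : D.Good δ σ Δ) (hk : kB ≤ D.ρ) {x y : X} {c : C}
    (h : Btw (V.base x : D.V) (V.apex c) (V.base y)) :
    ∃ a b, IsProj (D.Y c) x a ∧ IsProj (D.Y c) y b ∧ D.R * 2 ^ (D.ρ + 1 - kB) ≤ d a b := by
  have hne : (V.base x : D.V) ≠ V.base y := fun e => by
    rw [← e] at h
    cases h.eq_of_self
  obtain ⟨q, hq, hd⟩ := (kB_spec D.V _ (CH.guess H)).2 _ _ _ h hne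
  have l1 : D.ρ + 1 ≤ q.lev + d (V.apex c) q := lev_lip (V.apex c) q
  have l2 : q.cone = some c := by_contra fun hc => by
    have : D.ρ + 1 + q.lev ≤ d (V.apex c) q := lev_add_le (u := V.apex c) fun e => hc e.symm
    omega
  have key : ∀ (x y : X) (c' : C) (k : ℕ), CH.Bc c' (V.base x : D.V) (V.base y) k →
      q = CH.cl D c' x k → D.R * 2 ^ (D.ρ + 1 - kB) ≤ d (CH.pr D c x) (CH.pr D c y) := by
    rintro x y c' k ⟨h1, -, h3⟩ rfl
    obtain rfl : c' = c := Option.some.inj ((CH.col_cone c' _ _ h1).symm.trans l2)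
    rw [CH.cl, CH.col_lev] at l1
    have a1 : CH.levc c' (V.base x : D.V) ≤ 0 := CH.levc_le _ _
    have a2 : CH.levc c' (V.base y : D.V) ≤ 0 := CH.levc_le _ _
    have a3 : D.R * 2 ^ k ≤ d (CH.pr D c' x) (CH.pr D c' y) :=
      (h3.resolve_left (by omega)).resolve_left (by omega)
    rw [CH.cl] at hd
    exact (Nat.mul_le_mul_left _ (Nat.pow_le_pow_right two_pos (by omega))).trans a3
  refine ⟨_, _, CH.pr_spec c x, CH.pr_spec c y, ?_⟩
  rcases hq with ⟨z, -, rfl⟩ | ⟨c', k, hb, e⟩ | ⟨c', k, hb, e⟩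
  · exact absurd l2 (by simp [V.cone])
  · exact key x y c' k hb e
  · rw [d_comm]; exact key y x c' k hb e

end CD

end Pool.Agent.QIB
end

-- merged part: Pool.Agent.Work.MP_9628a2_al.Quot
section
set_option autoImplicit false

namespace Pool.Agent.QIB

variable {G : Type} [Group G] (K : Subgroup G) (X : Type) [MulAction G X]

/-- The orbit relation of a subgroup. -/
def orbS : Setoid X where
  r x y := ∃ k ∈ K, k • y = x
  iseqv :=
    { refl := fun x => ⟨1, K.one_mem, one_smul _ _⟩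
      symm := fun {x y} ⟨k, hk, h⟩ => ⟨k⁻¹, K.inv_mem hk, by rw [← h, inv_smul_smul]⟩
      trans := fun {x y z} ⟨k, hk, h⟩ ⟨k', hk', h'⟩ =>
        ⟨k * k', K.mul_mem hk hk', by rw [mul_smul, h', h]⟩ }

/-- The quotient space. -/
def QX : Type := Quotient (orbS K X)

variable {X}

/-- The quotient map. -/
def qm (x : X) : QX K X := Quotient.mk (orbS K X) x

theorem qm_surj : Function.Surjective (qm K : X → QX K X) := Quotient.mk_surjective

variable {K}

theorem qm_eq {x y : X} : qm K x = qm K y ↔ ∃ k ∈ K, k • y = x := Quotient.eq (r := orbS K X)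

theorem qm_smul_mem {k : G} (hk : k ∈ K) (x : X) : qm K (k • x) = qm K x :=
  qm_eq.2 ⟨k, hk, rfl⟩

instance [hK : K.Normal] : MulAction (G ⧸ K) (QX K X) where
  smul g x := Quotient.liftOn₂ g x (fun g x => qm K (g • x)) (by
    rintro a x b y hab ⟨k, hk, rfl⟩
    have hab' : a⁻¹ * b ∈ K := QuotientGroup.leftRel_apply.1 hab
    refine qm_eq.2 ⟨(a * k * a⁻¹) * (a * (a⁻¹ * b)⁻¹ * a⁻¹),
      K.mul_mem (hK.conj_mem _ hk a) (hK.conj_mem _ (K.inv_mem hab') a), ?_⟩
    rw [← mul_smul, ← mul_smul]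
    congr 1
    group)
  one_smul := by
    rintro ⟨x⟩
    exact congrArg (qm K) (one_smul G x)
  mul_smul := by
    rintro ⟨a⟩ ⟨b⟩ ⟨x⟩
    exact congrArg (qm K) (mul_smul a b x)

theorem mk_smul [K.Normal] (g : G) (x : X) : (g : G ⧸ K) • qm K x = qm K (g • x) := rfl

theorem exists_lift_fix [K.Normal] {g : G ⧸ K} {s : X} (h : g • qm K s = qm K s) :
    ∃ a : G, (a : G ⧸ K) = g ∧ a • s = s := by
  obtain ⟨a, rfl⟩ := QuotientGroup.mk_surjective g
  rw [mk_smul] at h
  obtain ⟨k, hk, h⟩ := qm_eq.1 h.symm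
  refine ⟨k * a, ?_, by rw [mul_smul, h]⟩
  rw [QuotientGroup.mk_mul, (QuotientGroup.eq_one_iff k).2 hk, one_mul]

variable [GSp X]

/-- The quotient distance. -/
noncomputable def qd (x y : QX K X) : ℕ := sInf {n | ∃ a b : X, qm K a = x ∧ qm K b = y ∧ d a b = n}

theorem qd_le (x y : X) : qd (qm K x) (qm K y) ≤ d x y := Nat.sInf_le ⟨x, y, rfl, rfl, rfl⟩

theorem qd_lift [Iso G X] (x : X) (y : QX K X) : ∃ b : X, qm K b = y ∧ d x b = qd (qm K x) y := by
  obtain ⟨y, rfl⟩ := qm_surj K y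
  obtain ⟨a, b, ha, hb, h⟩ : ∃ a b : X, qm K a = qm K x ∧ qm K b = qm K y ∧
      d a b = qd (qm K x) (qm K y) :=
    Nat.sInf_mem (s := {n | ∃ a b : X, qm K a = qm K x ∧ qm K b = qm K y ∧ d a b = n})
      ⟨_, x, y, rfl, rfl, rfl⟩
  obtain ⟨k, hk, rfl⟩ := qm_eq.1 ha.symm
  exact ⟨k • b, (qm_smul_mem hk b).trans hb, by rw [d_smul, h]⟩

theorem qd_comm (x y : QX K X) : qd x y = qd y x := by
  unfold qd
  congr 1
  ext n
  constructor <;> rintro ⟨a, b, h1, h2, h3⟩ <;> exact ⟨b, a, h2, h1, by rw [d_comm, h3]⟩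

theorem qd_tri [Iso G X] (x y z : QX K X) : qd x z ≤ qd x y + qd y z := by
  obtain ⟨x, rfl⟩ := qm_surj K x
  obtain ⟨b, rfl, hb⟩ := qd_lift x y
  obtain ⟨c, rfl, hc⟩ := qd_lift b z
  have := qd_le (K := K) x c
  have := d_tri x b c
  omega

noncomputable instance [Iso G X] : GSp (QX K X) where
  d := qd
  d_self := by
    intro x
    obtain ⟨x, rfl⟩ := qm_surj K x
    have := qd_le (K := K) x x
    rw [d_self] at this; omega
  d_comm := qd_comm
  d_tri := qd_tri
  eq_of_d := by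
    intro x y h
    obtain ⟨x, rfl⟩ := qm_surj K x
    obtain ⟨b, rfl, hb⟩ := qd_lift x y
    rw [eq_of_d x b (by omega)]
  step := by
    intro x y n h
    obtain ⟨x, rfl⟩ := qm_surj K x
    obtain ⟨b, rfl, hb⟩ := qd_lift x y
    obtain ⟨z, h1, h2⟩ := GSp.step x b n (by omega)
    have := qd_le (K := K) x z
    have := qd_le (K := K) z b
    have := qd_tri (qm K x) (qm K z) (qm K b)
    exact ⟨qm K z, by omega, by omega⟩

variable [Iso G X]

theorem d_qm_le (x y : X) : d (qm K x) (qm K y) ≤ d x y := qd_le x y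

theorem exists_lift (x : X) (y : QX K X) : ∃ b : X, qm K b = y ∧ d x b = d (qm K x) y :=
  qd_lift x y

theorem exists_lift_k (x y : X) : ∃ k ∈ K, d x (k • y) = d (qm K x) (qm K y) := by
  obtain ⟨b, hb, h⟩ := exists_lift x (qm K y)
  obtain ⟨k, hk, rfl⟩ := qm_eq.1 hb
  exact ⟨k, hk, h⟩

theorem exists_lift_disp [K.Normal] (g : G ⧸ K) (x : X) :
    ∃ a : G, (a : G ⧸ K) = g ∧ d x (a • x) = d (qm K x) (g • qm K x) := by
  obtain ⟨a, rfl⟩ := QuotientGroup.mk_surjective g
  obtain ⟨k, hk, h⟩ := exists_lift_k (K := K) x (a • x)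
  refine ⟨k * a, ?_, by rw [mul_smul, h, mk_smul]⟩
  rw [QuotientGroup.mk_mul, (QuotientGroup.eq_one_iff k).2 hk, one_mul]

theorem btw_qm {x p y : X} (h : Btw x p y) (hd : d x y = d (qm K x) (qm K y)) :
    Btw (qm K x) (qm K p) (qm K y) ∧ d x p = d (qm K x) (qm K p) ∧
      d p y = d (qm K p) (qm K y) := by
  have := d_qm_le (K := K) x p
  have := d_qm_le (K := K) p y
  have := d_tri (qm K x) (qm K p) (qm K y)
  unfold Btw at *
  omega

instance [K.Normal] : Iso (G ⧸ K) (QX K X) where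
  d_smul := by
    have key : ∀ (g : G ⧸ K) (x y : QX K X), d (g • x) (g • y) ≤ d x y := by
      intro g x y
      obtain ⟨a, rfl⟩ := QuotientGroup.mk_surjective g
      obtain ⟨x, rfl⟩ := qm_surj K x
      obtain ⟨b, rfl, hb⟩ := exists_lift x y
      rw [mk_smul, mk_smul, ← hb, ← d_smul a x b]
      exact d_qm_le _ _
    intro g x y
    have := key g⁻¹ (g • x) (g • y)
    rw [inv_smul_smul, inv_smul_smul] at this
    exact le_antisymm (key g x y) this

/-- Paths that avoid a point lift. -/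
theorem reach_lift {c u : X} {w : QX K X} {t : ℕ} (h : Reach (qm K c) t (qm K u) w) :
    ∃ w' : X, qm K w' = w ∧ Reach c t u w' := by
  generalize hu : qm K u = ub at h
  induction h generalizing u with
  | refl t v hv => exact ⟨u, hu, Reach.refl t u fun e => hv (by rw [← hu, e])⟩
  | step t v v' w hv hd _ ih =>
    subst hu
    obtain ⟨b, hb, hb'⟩ := exists_lift u v'
    obtain ⟨w', h1, h2⟩ := ih hb
    exact ⟨w', h1, Reach.step t u b w' (fun e => hv (by rw [e])) (by omega) h2⟩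

end Pool.Agent.QIB
end
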