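import Pool.Agent.Work.MP_9628a2_al.BaseV
import Pool.Agent.Work.MP_9628a2_al.Hyp
import Pool.Agent.Work.MP_9628a2_al.Quot
import Pool.Agent.Work.MP_9628a2_al.Logic

-- merged part: Pool.Agent.Work.MP_9628a2_al.BaseT
section
set_option autoImplicit false

namespace Pool.Agent.QIB

/-- The HNN extension. -/
abbrev GG : Type := HNNExtension VG Cm Cp phi

/-- The inclusion of the vertex group. -/
noncomputable abbrev ofV : VG →* GG := HNNExtension.of

/-- The stable letter. -/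
noncomputable abbrev st : GG := HNNExtension.t

/-- The height homomorphism. -/
noncomputable def htM : GG →* Multiplicative ℤ :=
  HNNExtension.lift 1 (Multiplicative.ofAdd 1) (by simp)

/-- The height of a group element. -/
noncomputable def ht (g : GG) : ℤ := Multiplicative.toAdd (htM g)

theorem ht_mul (g h : GG) : ht (g * h) = ht g + ht h := by simp [ht]

theorem ht_one : ht 1 = 0 := by simp [ht]

theorem ht_inv (g : GG) : ht g⁻¹ = -ht g := by simp [ht]

theorem ht_zpow (g : GG) (i : ℤ) : ht (g ^ i) = i * ht g := by simp [ht]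

theorem ht_ofV (a : VG) : ht (ofV a) = 0 := by simp [ht, htM]

theorem ht_st : ht st = 1 := by simp [ht, htM]

theorem ofV_inj : Function.Injective ofV := HNNExtension.of_injective phi

theorem st_conj (j : ℤ) : st * ofV ⟨9 * j, 0⟩ * st⁻¹ = ofV ⟨0, j⟩ := by
  have h : (⟨9 * j, 0⟩ : VG) ∈ Cm := mem_Cm.2 ⟨j, rfl⟩
  have h1 := HNNExtension.equiv_eq_conj (φ := phi) ⟨_, h⟩
  rw [phi_spec j ⟨_, h⟩ rfl] at h1
  exact h1.symm

/-- The vertices of the tree. -/
def TT : Type := GG ⧸ ofV.range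

noncomputable instance : MulAction GG TT := inferInstanceAs (MulAction GG (GG ⧸ ofV.range))

/-- The vertex of a frame. -/
noncomputable def vx (g : GG) : TT := QuotientGroup.mk (s := ofV.range) g

theorem vx_surj : Function.Surjective vx := QuotientGroup.mk_surjective

theorem smul_vx (g h : GG) : g • vx h = vx (g * h) := rfl

theorem vx_eq {g h : GG} : vx g = vx h ↔ ∃ a : VG, h = g * ofV a := by
  refine QuotientGroup.eq.trans ⟨?_, ?_⟩
  · rintro ⟨a, ha⟩
    exact ⟨a, by rw [ha, mul_inv_cancel_left]⟩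
  · rintro ⟨a, rfl⟩
    exact ⟨a, by rw [inv_mul_cancel_left]⟩

theorem smul_vx_eq {g h : GG} : g • vx h = vx h ↔ ∃ a : VG, g = h * ofV a * h⁻¹ := by
  rw [smul_vx, eq_comm, vx_eq]
  exact exists_congr fun a => by rw [eq_mul_inv_iff_mul_eq]

theorem vx_mul_ofV (g : GG) (a : VG) : vx (g * ofV a) = vx g := (vx_eq.2 ⟨a, rfl⟩).symm

theorem zpow_conj_mem (u : ℤˣ) {a : VG} (h : a ∈ HNNExtension.toSubgroup Cm Cp u) :
    ∃ b : VG, st ^ (u : ℤ) * ofV a * st ^ ((-u : ℤˣ) : ℤ) = ofV b := by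
  rcases Int.units_eq_one_or u with rfl | rfl
  · exact ⟨_, by simpa using (HNNExtension.equiv_eq_conj (φ := phi) ⟨a, h⟩).symm⟩
  · exact ⟨_, by simpa using (HNNExtension.equiv_symm_eq_conj (φ := phi) ⟨a, h⟩).symm⟩

theorem vx_nb_eq {a : VG} (u : ℤˣ) : vx (ofV a * st ^ (u : ℤ)) = vx (st ^ (u : ℤ)) ↔
    a ∈ HNNExtension.toSubgroup Cm Cp (-u) := by
  rw [eq_comm, vx_eq]
  constructor
  · rintro ⟨b, hb⟩
    by_contra ha
    let w : HNNExtension.NormalWord.ReducedWord VG Cm Cp :=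
      ⟨1, [(-u, a), (u, 1)], by simpa using fun h => absurd h ha⟩
    have hw := HNNExtension.ReducedWord.toList_eq_nil_of_mem_of_range phi w ⟨b, by
      simp only [w, HNNExtension.NormalWord.ReducedWord.prod, List.map_cons, List.map_nil,
        List.prod_cons, List.prod_nil, map_one, mul_one, one_mul, mul_assoc]
      rw [hb, Units.val_neg, zpow_neg, inv_mul_cancel_left]⟩
    simp [w] at hw
  · intro h
    obtain ⟨b, hb⟩ := zpow_conj_mem (-u) h
    refine ⟨b, ?_⟩
    rw [← hb, neg_neg, Units.val_neg, zpow_neg, mul_assoc, mul_inv_cancel_left]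

theorem vx_up_eq {a : VG} : vx (ofV a * st) = vx st ↔ a ∈ Cp := by
  simpa using vx_nb_eq (a := a) 1

theorem vx_down_eq {a : VG} : vx (ofV a * st⁻¹) = vx st⁻¹ ↔ a ∈ Cm := by
  simpa using vx_nb_eq (a := a) (-1)

/-- `w'` is an upper neighbour of `w`. -/
def Up (w w' : TT) : Prop := ∃ g : GG, w = vx g ∧ w' = vx (g * st)

theorem Up.smul (g : GG) {w w' : TT} (h : Up w w') : Up (g • w) (g • w') := by
  obtain ⟨a, rfl, rfl⟩ := h
  exact ⟨g * a, rfl, by rw [smul_vx, mul_assoc]⟩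

/-- The height of a vertex. -/
noncomputable def hgt (w : TT) : ℤ := Quotient.liftOn w ht (by
  intro a b h
  obtain ⟨c, rfl⟩ := vx_eq.1 (Quotient.sound h)
  rw [ht_mul, ht_ofV, add_zero])

theorem hgt_vx (g : GG) : hgt (vx g) = ht g := rfl

theorem hgt_smul (g : GG) (w : TT) : hgt (g • w) = ht g + hgt w := by
  obtain ⟨h, rfl⟩ := vx_surj w
  rw [smul_vx, hgt_vx, hgt_vx, ht_mul]

theorem Up.hgt {w w' : TT} (h : Up w w') : hgt w' = hgt w + 1 := by
  obtain ⟨a, rfl, rfl⟩ := h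
  rw [hgt_vx, hgt_vx, ht_mul, ht_st]

/-- The Bass-Serre tree. -/
def tree : SimpleGraph TT := SimpleGraph.fromRel Up

theorem tree_adj {w w' : TT} : tree.Adj w w' ↔ Up w w' ∨ Up w' w := by
  rw [tree, SimpleGraph.fromRel_adj]
  refine ⟨fun h => h.2, fun h => ⟨?_, h⟩⟩
  rintro rfl
  rcases h with h | h <;> have := h.hgt <;> omega

/-- Translation as a graph homomorphism. -/
noncomputable def smulHom (g : GG) : tree →g tree :=
  ⟨fun w => g • w, fun h => tree_adj.2 ((tree_adj.1 h).imp (Up.smul g) (Up.smul g))⟩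

theorem up_frame {g : GG} {z : TT} (h : Up (vx g) z) : ∃ a : VG, z = vx (g * ofV a * st) := by
  obtain ⟨g0, h1, rfl⟩ := h
  obtain ⟨a, rfl⟩ := vx_eq.1 h1
  exact ⟨a, rfl⟩

theorem down_frame {g : GG} {z : TT} (h : Up z (vx g)) :
    ∃ a : VG, z = vx (g * ofV a * st⁻¹) := by
  obtain ⟨g0, rfl, h1⟩ := h
  obtain ⟨a, ha⟩ := vx_eq.1 h1
  exact ⟨a, by rw [← ha, mul_inv_cancel_right]⟩

theorem adj_frame {g : GG} {z : TT} (h : tree.Adj (vx g) z) :
    ∃ (a : VG) (u : ℤˣ), z = vx (g * ofV a * st ^ (u : ℤ)) := by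
  rcases tree_adj.1 h with h | h
  · obtain ⟨a, ha⟩ := up_frame h
    exact ⟨a, 1, by simpa using ha⟩
  · obtain ⟨a, ha⟩ := down_frame h
    exact ⟨a, -1, by simpa using ha⟩

/-- A path without backtracking gives a reduced word. -/
theorem exists_word (n : ℕ) : ∀ (γ : ℕ → TT) (g : GG), γ 0 = vx g →
    (∀ i, i < n → tree.Adj (γ i) (γ (i + 1))) → (∀ i, i + 2 ≤ n → γ i ≠ γ (i + 2)) →
    ∃ w : HNNExtension.NormalWord.ReducedWord VG Cm Cp, w.toList.length = n ∧
      γ n = vx (g * w.prod phi) ∧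
      ∀ x ∈ w.toList.head?, γ 1 = vx (g * ofV w.head * st ^ (x.1 : ℤ)) := by
  induction n with
  | zero =>
    intro γ g h0 _ _
    exact ⟨HNNExtension.NormalWord.ReducedWord.empty VG Cm Cp, rfl,
      by simpa [HNNExtension.NormalWord.ReducedWord.prod] using h0, by simp⟩
  | succ n ih =>
    intro γ g h0 h1 h2
    have ha := h1 0 (by omega)
    rw [h0] at ha
    obtain ⟨a, u, hz⟩ := adj_frame ha
    obtain ⟨w, hl, hp, hh⟩ := ih (fun i => γ (i + 1)) _ hz (fun i hi => h1 (i + 1) (by omega))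
      (fun i hi => h2 (i + 1) (by omega))
    refine ⟨⟨a, (u, w.head) :: w.toList, ?_⟩, by simp [hl], ?_, ?_⟩
    · refine List.isChain_cons.2 ⟨fun x hx hm => ?_, w.chain⟩
      by_contra hne
      have hx1 : x.1 = -u := by
        rcases Int.units_eq_one_or u with rfl | rfl <;>
          rcases Int.units_eq_one_or x.1 with h | h <;> simp_all
      have hn : 0 < n := by
        rw [← hl]
        exact List.length_pos_of_mem (List.mem_of_mem_head? hx)
      obtain ⟨b, hb⟩ := zpow_conj_mem u hm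
      refine h2 0 (by omega) ?_
      have h3 := hh x hx
      rw [hx1, mul_assoc (g * ofV a), mul_assoc (g * ofV a), hb, vx_mul_ofV, vx_mul_ofV] at h3
      exact h0.trans h3.symm
    · refine hp.trans ?_
      simp only [HNNExtension.NormalWord.ReducedWord.prod, List.map_cons, List.prod_cons,
        mul_assoc]
    · intro x hx
      obtain rfl : (u, w.head) = x := by simpa using hx
      exact hz

theorem tree_conn : tree.Connected := by
  have h : ∀ g : GG, tree.Reachable (vx 1) (vx g) := by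
    intro g
    induction g using HNNExtension.induction_on with
    | of a => rw [← one_mul (HNNExtension.of a), vx_mul_ofV]
    | t => exact (tree_adj.2 (Or.inl ⟨1, rfl, by rw [one_mul]⟩)).reachable
    | mul x y hx hy =>
      have h1 : tree.Reachable (x • vx 1) (x • vx y) := hy.map (smulHom x)
      rw [smul_vx, smul_vx, mul_one] at h1
      exact hx.trans h1
    | inv x hx =>
      have h1 : tree.Reachable (x⁻¹ • vx 1) (x⁻¹ • vx x) := hx.map (smulHom x⁻¹)
      rw [smul_vx, smul_vx, mul_one, inv_mul_cancel] at h1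
      exact h1.symm
  have : Nonempty TT := ⟨vx 1⟩
  refine ⟨fun x y => ?_⟩
  obtain ⟨g, rfl⟩ := vx_surj x
  obtain ⟨g', rfl⟩ := vx_surj y
  exact (h g).symm.trans (h g')

theorem tree_acyclic : tree.IsAcyclic := by
  intro v c hc
  obtain ⟨g, rfl⟩ := vx_surj v
  have h3 := hc.three_le_length
  obtain ⟨w, hl, hp, -⟩ := exists_word c.length c.getVert g c.getVert_zero
    (fun i hi => c.adj_getVert_succ hi)
    (fun i hi => hc.getVert_sub_one_ne_getVert_add_one (i := i + 1) (by omega))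
  rw [c.getVert_length] at hp
  obtain ⟨a, ha⟩ := vx_eq.1 hp
  have h := HNNExtension.ReducedWord.toList_eq_nil_of_mem_of_range phi w
    ⟨a, (mul_left_cancel ha).symm⟩
  rw [h] at hl
  simp at hl
  omega

noncomputable instance : GSp TT where
  d := tree.dist
  d_self := fun _ => SimpleGraph.dist_self
  d_comm := fun _ _ => SimpleGraph.dist_comm
  d_tri := fun _ _ _ => tree_conn.dist_triangle
  eq_of_d := fun x y h => tree_conn.dist_eq_zero_iff.1 h
  step := fun x y n h => by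
    obtain ⟨p, hp⟩ := tree_conn.exists_walk_length_eq_dist x y
    rw [h] at hp
    cases p with
    | nil => simp at hp
    | cons ha q =>
      rename_i z
      have h1 : tree.dist x z = 1 := SimpleGraph.dist_eq_one_iff_adj.2 ha
      have h2 := SimpleGraph.dist_le q
      have h3 := tree_conn.dist_triangle (u := x) (v := z) (w := y)
      rw [SimpleGraph.Walk.length_cons] at hp
      exact ⟨z, h1, by omega⟩

theorem d_eq_one_iff {w w' : TT} : d w w' = 1 ↔ Up w w' ∨ Up w' w := by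
  exact SimpleGraph.dist_eq_one_iff_adj.trans tree_adj

theorem d_smul_le (g : GG) (x y : TT) : d (g • x) (g • y) ≤ d x y := by
  obtain ⟨p, hp⟩ := tree_conn.exists_walk_length_eq_dist x y
  have h := SimpleGraph.dist_le (p.map (smulHom g))
  rw [SimpleGraph.Walk.length_map, hp] at h
  exact h

instance : Iso GG TT where
  d_smul := by
    intro g x y
    have h := d_smul_le g⁻¹ (g • x) (g • y)
    rw [inv_smul_smul, inv_smul_smul] at h
    exact le_antisymm (d_smul_le g x y) h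

instance {G X : Type} [Group G] [MulAction G X] [GSp X] [Iso G X] (H : Subgroup G) : Iso H X where
  d_smul := fun g x y => d_smul (g : G) x y

theorem tree_par (x : TT) {v w : TT} (h : d v w = 1) :
    d x v = d x w + 1 ∨ d x w = d x v + 1 :=
  tree_acyclic.dist_eq_dist_add_one_of_adj_of_reachable x (SimpleGraph.dist_eq_one_iff_adj.1 h)
    (tree_conn x v)

/-- The predecessor of a vertex toward another vertex is unique. -/
theorem tree_pred {x y u v : TT} (hu : d u y = 1) (hv : d v y = 1) (h1 : d x y = d x u + 1)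
    (h2 : d x y = d x v + 1) : u = v := by
  obtain ⟨p, hp⟩ := tree_conn.exists_walk_length_eq_dist x u
  obtain ⟨q, hq⟩ := tree_conn.exists_walk_length_eq_dist x v
  have au := SimpleGraph.dist_eq_one_iff_adj.1 hu
  have av := SimpleGraph.dist_eq_one_iff_adj.1 hv
  have hp' := (p.concat au).isPath_of_length_eq_dist (by
    rw [SimpleGraph.Walk.length_concat, hp]; exact h1.symm)
  have hq' := (q.concat av).isPath_of_length_eq_dist (by
    rw [SimpleGraph.Walk.length_concat, hq]; exact h2.symm)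
  have e := Subtype.mk.inj ((tree_acyclic.subsingleton_path x y).elim ⟨_, hp'⟩ ⟨_, hq'⟩)
  have e2 := congrArg SimpleGraph.Walk.penultimate e
  rwa [SimpleGraph.Walk.penultimate_concat, SimpleGraph.Walk.penultimate_concat] at e2

theorem tree_uniq {x : TT} (n : ℕ) : ∀ {y p q : TT}, d p y = n → Btw x p y → Btw x q y →
    d x p = d x q → p = q := by
  induction n with
  | zero =>
    intro y p q h hp hq e
    unfold Btw at *
    rw [eq_of_d p y h, eq_of_d q y (by omega)]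
  | succ n ih =>
    intro y p q h hp hq e
    unfold Btw at hp hq
    obtain ⟨u, u1, u2⟩ := GSp.step y p n (by rw [d_comm]; exact h)
    obtain ⟨v, v1, v2⟩ := GSp.step y q n (by rw [d_comm]; omega)
    have c1 := d_comm y u
    have c2 := d_comm y v
    have c3 := d_comm u p
    have c4 := d_comm v q
    have t1 := d_tri x p u
    have t2 := d_tri x u y
    have t3 := d_tri x q v
    have t4 := d_tri x v y
    obtain rfl : u = v := tree_pred (x := x) (y := y) (by omega) (by omega) (by omega) (by omega)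
    exact ih (y := u) (by omega) (by unfold Btw; omega) (by unfold Btw; omega) e

theorem tree_median (x y z : TT) : ∃ m, Btw x m y ∧ Btw y m z ∧ Btw x m z := by
  suffices H : ∀ n, ∀ z : TT, d z y = n → ∃ m, Btw x m y ∧ Btw y m z ∧ Btw x m z from H _ z rfl
  intro n
  induction n with
  | zero =>
    intro z h
    obtain rfl := eq_of_d z y h
    exact ⟨z, btw_right x z, btw_left z z, btw_right x z⟩
  | succ n ih =>
    intro z h
    obtain ⟨z', h1, h2⟩ := GSp.step z y n h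
    obtain ⟨m, m1, m2, m3⟩ := ih z' h2
    have c1 := d_comm z y
    have c2 := d_comm z' y
    have c3 := d_comm z z'
    have t1 := d_tri m z' z
    have t2 := d_tri y m z
    have t3 := d_tri x m z
    rcases tree_par x h1 with h3 | h3
    · refine ⟨m, m1, ?_, ?_⟩ <;> unfold Btw at * <;> omega
    · by_cases hm : d z' m = 0
      · obtain rfl := eq_of_d z' m hm
        refine ⟨z, ?_, btw_right y z, btw_right x z⟩
        unfold Btw at *
        omega
      · obtain ⟨u, u1, u2⟩ := GSp.step z' m (d z' m - 1) (by omega)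
        have c4 := d_comm z' m
        have c5 := d_comm u m
        have c6 := d_comm z' u
        have t4 := d_tri x m u
        have t5 := d_tri x u z'
        have t6 := d_tri y m u
        unfold Btw at *
        obtain rfl : u = z := tree_pred (x := x) (y := z') (by omega) h1 (by omega) (by omega)
        omega

theorem tree_hyp : Hyp TT 0 := by
  have key : ∀ x y z w m m' : TT, Btw x m y → Btw y m z → Btw x m' y → Btw x m' w →
      d x m ≤ d x m' → d x y + d z w ≤ d x w + d y z := by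
    intro x y z w m m' a1 a2 b1 b2 h
    obtain ⟨p, p1, p2⟩ := exists_btw x m' (d x m) h
    obtain rfl : p = m := tree_uniq _ rfl (p1.trans_left b1).1 a1 p2
    have t1 := d_tri z p w
    have t2 := d_tri p m' w
    have c1 := d_comm z p
    have c2 := d_comm y p
    unfold Btw at *
    omega
  intro x y z w
  obtain ⟨m, a1, a2, a3⟩ := tree_median x y z
  obtain ⟨m', b1, b2, b3⟩ := tree_median x y w
  rcases le_total (d x m) (d x m') with h | h
  · have := key x y z w m m' a1 a2 b1 b3 h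
    omega
  · have := key x y w z m' m b1 b2 a1 a3 h
    have := d_comm z w
    omega

theorem tree_unique {x y p q : TT} (hp : Btw x p y) (hq : Btw x q y) (h : d x p = d x q) :
    p = q :=
  eq_of_d p q (by have := tripod tree_hyp hp hq h (by unfold Btw at hp; rw [d_self]; omega); omega)

/-- A nontrivial element that fixes a path of length two fixes two lower neighbours. -/
theorem fix_path {g : GG} (h1 : g ≠ 1) {u w u' : TT} (hu : d w u = 1) (hu' : d w u' = 1)
    (hne : u ≠ u') (f1 : g • u = u) (f2 : g • w = w) (f3 : g • u' = u') : Up u w ∧ Up u' w := by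
  obtain ⟨h, rfl⟩ := vx_surj w
  obtain ⟨a, rfl⟩ := smul_vx_eq.1 f2
  have ha : a ≠ 1 := by
    rintro rfl
    exact h1 (by simp)
  have hc : ∀ b : VG, b⁻¹ * a * b ≠ 1 := fun b hb => ha (by
    have : a = b * (b⁻¹ * a * b) * b⁻¹ := by group
    rw [this, hb]; simp)
  have fr : ∀ (b : VG) (s : GG), (h * ofV a * h⁻¹) • vx (h * ofV b * s) = vx (h * ofV b * s) →
      vx (ofV (b⁻¹ * a * b) * s) = vx s := by
    intro b s hs
    have e := congrArg (fun z => (h * ofV b)⁻¹ • z) hs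
    simp only [smul_vx] at e
    rw [inv_mul_cancel_left] at e
    rw [← e]
    congr 1
    simp only [map_mul, map_inv]
    group
  have key : ∀ z z' : TT, z ≠ z' → d (vx h) z' = 1 → (h * ofV a * h⁻¹) • z = z →
      (h * ofV a * h⁻¹) • z' = z' → ¬ Up (vx h) z := by
    intro z z' hz hd g1 g2 hup
    obtain ⟨b, rfl⟩ := up_frame hup
    have m1 := vx_up_eq.1 (fr b st g1)
    rcases d_eq_one_iff.1 hd with h2 | h2
    · obtain ⟨b', rfl⟩ := up_frame h2
      have m2 := vx_up_eq.1 (fr b' st g2)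
      have m3 : b⁻¹ * b' ∈ Cp := Cp_mal m1 (hc b) (by
        have : (b⁻¹ * b')⁻¹ * (b⁻¹ * a * b) * (b⁻¹ * b') = b'⁻¹ * a * b' := by group
        rw [this]; exact m2)
      have e := congrArg (fun z => (h * ofV b) • z) (vx_up_eq.2 m3)
      simp only [smul_vx] at e
      refine hz (e.symm.trans ?_)
      congr 1
      simp only [map_mul, map_inv]
      group
    · obtain ⟨b', rfl⟩ := down_frame h2
      obtain ⟨j, hj⟩ := mem_Cm.1 (vx_down_eq.1 (fr b' st⁻¹ g2))
      have k1 := congrArg VG.k hj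
      simp only [VG.mul_k, VG.inv_k] at k1
      refine hc b (VG.ext (mem_Cp.1 m1) ?_)
      simp only [VG.mul_k, VG.inv_k, VG.one_k]
      omega
  exact ⟨(d_eq_one_iff.1 hu).resolve_left (key u u' hne hu' f1 f3),
    (d_eq_one_iff.1 hu').resolve_left (key u' u hne.symm hu f3 f1)⟩

theorem fix_btw {g : GG} {x y p : TT} (hx : g • x = x) (hy : g • y = y) (hp : Btw x p y) :
    g • p = p := by
  have h1 := (btw_smul g x p y).2 hp
  have h2 := d_smul g x p
  rw [hx] at h1 h2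
  rw [hy] at h1
  exact tree_unique h1 hp h2

theorem fix_diam {g : GG} (h1 : g ≠ 1) {x y : TT} (hx : g • x = x) (hy : g • y = y) :
    d x y ≤ 2 := by
  by_contra hc
  obtain ⟨γ, hγ⟩ := exists_geod x y
  have f : ∀ i, g • γ i = γ i := fun i => fix_btw hx hy (hγ.btw i)
  have e01 := hγ.2.2 0 1 (by omega) (by omega)
  have e12 := hγ.2.2 1 2 (by omega) (by omega)
  have e23 := hγ.2.2 2 3 (by omega) (by omega)
  have e02 := hγ.2.2 0 2 (by omega) (by omega)
  have e13 := hγ.2.2 1 3 (by omega) (by omega)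
  have a := fix_path h1 (u := γ 0) (w := γ 1) (u' := γ 2) (by rw [d_comm]; exact e01) e12
    (fun h => by rw [h, d_self] at e02; omega) (f 0) (f 1) (f 2)
  have b := fix_path h1 (u := γ 1) (w := γ 2) (u' := γ 3) (by rw [d_comm]; exact e12) e23
    (fun h => by rw [h, d_self] at e13; omega) (f 1) (f 2) (f 3)
  have := a.2.hgt
  have := b.1.hgt
  omega

/-- The subgroup of elements whose height is divisible by `n`. -/
def G0 (n : ℕ) : Subgroup GG where
  carrier := {g | (n : ℤ) ∣ ht g}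
  mul_mem' := fun {a b} ha hb => by
    show (n : ℤ) ∣ ht (a * b); rw [ht_mul]; exact dvd_add ha hb
  one_mem' := by show (n : ℤ) ∣ ht 1; rw [ht_one]; exact dvd_zero _
  inv_mem' := fun {a} ha => by show (n : ℤ) ∣ ht a⁻¹; rw [ht_inv]; exact dvd_neg.2 ha

/-- The base vertex. -/
noncomputable def vb : TT := vx 1

end Pool.Agent.QIB
end

-- merged part: Pool.Agent.Work.MP_9628a2_al.BaseI
section
set_option autoImplicit false

namespace Pool.Agent.QIB

/-- The witness generators. -/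
noncomputable def gam (n : ℕ) : ℕ → G0 n
  | 0 => ⟨st ^ n, by
      show (n : ℤ) ∣ ht _
      rw [← zpow_natCast, ht_zpow, ht_st]; simp⟩
  | i + 1 => ⟨st ^ i * ofV VG.e * (st ^ i)⁻¹, by
      show (n : ℤ) ∣ ht _
      rw [ht_mul, ht_mul, ht_inv, ht_ofV]; simp⟩

/-- The data of the first stage. -/
noncomputable def SD0 (n : ℕ) : SD (G0 n) TT (G0 n) TT where
  π := MonoidHom.id _
  ι := id
  E := ∅
  F := ∅

/-- The vertex group in the frame `h`. -/
noncomputable def cjV (h : GG) : VG →* GG := (MulAut.conj h).toMonoidHom.comp ofV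

theorem cjV_apply (h : GG) (u : VG) : cjV h u = h * ofV u * h⁻¹ := rfl

theorem cjV_inj (h : GG) : Function.Injective (cjV h) :=
  (MulAut.conj h).injective.comp ofV_inj

theorem cjV_fix (h : GG) (u : VG) : cjV h u • vx h = vx h := smul_vx_eq.2 ⟨u, rfl⟩

theorem exists_cjV {g h : GG} (hg : g • vx h = vx h) : ∃ u, g = cjV h u := smul_vx_eq.1 hg

theorem cjV_frame (h : GG) (c u : VG) : cjV h u = cjV (h * ofV c) (c⁻¹ * u * c) := by
  simp only [cjV_apply, map_mul, map_inv]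
  group

theorem cjV_up (h : GG) (u : VG) : cjV h u • vx (h * st) = vx (h * st) ↔ u ∈ Cp := by
  rw [← vx_up_eq, smul_vx, show cjV h u * (h * st) = h * (ofV u * st) by rw [cjV_apply]; group,
    ← smul_vx h, ← smul_vx h, smul_left_cancel_iff]

theorem cjV_down (h : GG) (u : VG) : cjV h u • vx (h * st⁻¹) = vx (h * st⁻¹) ↔ u ∈ Cm := by
  rw [← vx_down_eq, smul_vx,
    show cjV h u * (h * st⁻¹) = h * (ofV u * st⁻¹) by rw [cjV_apply]; group,
    ← smul_vx h, ← smul_vx h, smul_left_cancel_iff]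

theorem bi_up_frame {h : GG} {u : TT} (hu : Up (vx h) u) : ∃ c, u = vx (h * ofV c * st) := by
  obtain ⟨g, h1, rfl⟩ := hu
  obtain ⟨c, rfl⟩ := vx_eq.1 h1
  exact ⟨c, rfl⟩

theorem bi_down_frame {h : GG} {u : TT} (hu : Up u (vx h)) : ∃ c, u = vx (h * ofV c * st⁻¹) := by
  obtain ⟨g, rfl, h1⟩ := hu
  obtain ⟨c, hc⟩ := vx_eq.1 h1
  exact ⟨c, by rw [← hc, mul_inv_cancel_right]⟩

theorem G0_smul {n : ℕ} (g : G0 n) (v : TT) : g • v = (g : GG) • v := rfl

theorem d_st_pow (h : GG) (r : ℕ) : d (vx h) (vx (h * st ^ r)) ≤ r := by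
  induction r with
  | zero => simp [d_self]
  | succ r ih =>
    have h1 : d (vx (h * st ^ r)) (vx (h * st ^ (r + 1))) = 1 :=
      d_eq_one_iff.2 (Or.inl ⟨_, rfl, by rw [pow_succ, mul_assoc]⟩)
    have := d_tri (vx h) (vx (h * st ^ r)) (vx (h * st ^ (r + 1)))
    omega

theorem conj_tor (c : VG) (α : ℤ√3) : c⁻¹ * ⟨α, 0⟩ * c = (⟨xp (-c.k) * α, 0⟩ : VG) := by
  ext1
  · simp
  · simp

/-- Torus elements of negative norm fix only one vertex. -/
theorem neg_fix (h : GG) {α : ℤ√3} (hα : α.norm < 0) (u : TT) :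
    cjV h ⟨α, 0⟩ • u = u ↔ u = vx h := by
  refine ⟨fun hu => ?_, fun hu => hu ▸ cjV_fix h _⟩
  by_contra hne
  obtain ⟨p, hp, hp1⟩ := exists_btw (vx h) u 1 (d_pos (Ne.symm hne))
  have hfix := fix_btw (cjV_fix h ⟨α, 0⟩) hu hp
  have hn : ∀ c : VG, (xp (-c.k) * α).norm < 0 := fun c => by
    rw [Zsqrtd.norm_mul, norm_xp, one_mul]; exact hα
  rcases d_eq_one_iff.1 hp1 with h1 | h1
  · obtain ⟨c, rfl⟩ := bi_up_frame h1
    rw [cjV_frame h c, cjV_up, conj_tor, mem_Cp] at hfix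
    have := hn c
    rw [show xp (-c.k) * α = 0 from hfix, Zsqrtd.norm_zero] at this
    omega
  · obtain ⟨c, rfl⟩ := bi_down_frame h1
    rw [cjV_frame h c, cjV_down, conj_tor, mem_Cm] at hfix
    obtain ⟨j, hj⟩ := hfix
    have := hn c
    have e : xp (-c.k) * α = 9 * (j : ℤ√3) := congrArg VG.a hj
    rw [show xp (-c.k) * α = ((9 * j : ℤ) : ℤ√3) by
      rw [e]; push_cast; rfl, Zsqrtd.norm_intCast] at this
    nlinarith [mul_self_nonneg (9 * j)]

theorem norm_zmul_neg {α : ℤ√3} (hα : α.norm < 0) {j : ℤ} (hj : j ≠ 0) :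
    ((j : ℤ√3) * α).norm < 0 := by
  rw [Zsqrtd.norm_mul, Zsqrtd.norm_intCast]
  exact mul_neg_of_pos_of_neg (mul_self_pos.2 hj) hα

theorem neg_fix_zpow (h : GG) {α : ℤ√3} (hα : α.norm < 0) {j : ℤ} (hj : j ≠ 0) (u : TT) :
    cjV h ⟨α, 0⟩ ^ j • u = u ↔ u = vx h := by
  rw [← map_zpow, tor_zpow]
  exact neg_fix h (norm_zmul_neg hα hj) u

theorem neg_zpow_ne (h : GG) {α : ℤ√3} (hα : α.norm < 0) {j : ℤ} (hj : j ≠ 0) :
    cjV h ⟨α, 0⟩ ^ j ≠ 1 := by
  rw [← map_zpow, tor_zpow, ← map_one (cjV h)]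
  intro e
  have h1 := norm_zmul_neg hα hj
  rw [show (j : ℤ√3) * α = 0 from congrArg VG.a (cjV_inj h e), Zsqrtd.norm_zero] at h1
  omega

/-- Evaluation of words at the witness generators, in the HNN extension. -/
noncomputable def LL (n : ℕ) : FreeGroup ℕ →* GG := (G0 n).subtype.comp (FreeGroup.lift (gam n))

theorem LL_apply (n : ℕ) (w : FreeGroup ℕ) : LL n w = (FreeGroup.lift (gam n) w : G0 n) := rfl

theorem LL_of (n i : ℕ) : LL n (FreeGroup.of i) = gam n i := by simp [LL]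

theorem LL_E {n k : ℕ} (hk : k ≤ n) : LL n (wE n k) = cjV (st ^ k) VG.e := by
  unfold wE
  split_ifs with h
  · rw [LL_of]; rfl
  · obtain rfl : k = n := by omega
    simp only [map_mul, map_inv, LL_of, gam, cjV_apply]
    group

theorem LL_T {n k : ℕ} (hk : k < n) : LL n (wT n k) = cjV (st ^ k) VG.t := by
  have h1 : (VG.e ^ 9 : VG) = ⟨9 * ((1 : ℤ) : ℤ√3), 0⟩ := by
    rw [← zpow_natCast, VG.e, tor_zpow]; simp
  have h2 := st_conj 1
  rw [← h1] at h2
  rw [wT, map_pow, LL_E (by omega), ← map_pow, cjV_apply, cjV_apply, VG.t, ← h2, pow_succ]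
  group

theorem LL_G {n k : ℕ} (hk : k < n) : LL n (wG n k) = cjV (st ^ k) VG.g := by
  simp only [wG, map_mul, map_pow, map_inv, LL_E hk.le, LL_T hk]
  simp only [← map_inv, ← map_pow, ← map_mul]
  congr 1

theorem rels_hold (n : ℕ) : ∀ r ∈ rels n, FreeGroup.lift (gam n) r = 1 := by
  intro r hr
  apply Subtype.ext
  rw [← LL_apply, OneMemClass.coe_one]
  simp only [rels, List.mem_append, List.mem_map, List.mem_range] at hr
  rcases hr with ⟨k, hk, rfl⟩ | ⟨k, hk, rfl⟩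
  · simp only [map_mul, map_inv, LL_E hk.le, LL_G hk]
    simp only [← map_inv, ← map_mul]
    rw [← map_one (cjV (st ^ k))]
    congr 1
  · simp only [map_mul, map_pow, map_inv, LL_E hk.le, LL_G hk, LL_T hk]
    simp only [← map_inv, ← map_pow, ← map_mul]
    rw [← map_one (cjV (st ^ k))]
    congr 1

theorem tf_of_fix {a : GG} {v : TT} (hv : a • v = v) {i : ℤ} (hi : i ≠ 0) (h : a ^ i = 1) :
    a = 1 := by
  obtain ⟨g, rfl⟩ := vx_surj v
  obtain ⟨u, rfl⟩ := exists_cjV hv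
  rw [← map_zpow, ← map_one (cjV g)] at h
  rw [VG.tf u i hi (cjV_inj g h), map_one]

theorem fix_pow_adj {a : GG} {v : TT} (hv : a • v = v) {m : ℕ} (hm : 9 ∣ m) {i : ℤ} (hi : i ≠ 0)
    {z : TT} (hd : d v z = 1) (hz : (a ^ m) ^ i • z = z) : a ^ m • z = z := by
  obtain ⟨g, rfl⟩ := vx_surj v
  rcases d_eq_one_iff.1 hd with h1 | h1
  · obtain ⟨c, rfl⟩ := bi_up_frame h1
    obtain ⟨u, rfl⟩ := exists_cjV (h := g * ofV c) (by rwa [← vx_eq.2 ⟨c, rfl⟩])
    rw [← map_pow, ← map_zpow, cjV_up] at hz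
    rw [← map_pow, cjV_up]
    exact Cp_root hi hz
  · obtain ⟨c, rfl⟩ := bi_down_frame h1
    obtain ⟨u, rfl⟩ := exists_cjV (h := g * ofV c) (by rwa [← vx_eq.2 ⟨c, rfl⟩])
    rw [← map_pow, ← map_zpow, cjV_down] at hz
    rw [← map_pow, cjV_down]
    exact Cm_root hm hi hz

theorem bpow_fix {G X : Type} [Group G] [MulAction G X] {a : G} {v : X} (hv : a • v = v) (m : ℕ) :
    a ^ m • v = v :=
  (MulAction.stabilizer G v).pow_mem hv m

theorem zpow_fix {G X : Type} [Group G] [MulAction G X] {a : G} {v : X} (hv : a • v = v) (i : ℤ) :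
    a ^ i • v = v :=
  (MulAction.stabilizer G v).zpow_mem hv i

/-- Powers of ninth powers have the same fixed points. -/
theorem fix_pow {a : GG} {v : TT} (hv : a • v = v) {m : ℕ} (hm : 9 ∣ m) {i : ℤ} (hi : i ≠ 0)
    {z : TT} (hz : (a ^ m) ^ i • z = z) : a ^ m • z = z := by
  by_cases h1 : (a ^ m) ^ i = 1
  · rw [tf_of_fix (bpow_fix hv m) hi h1, one_smul]
  have hv' := zpow_fix (bpow_fix hv m) i
  have hd := fix_diam h1 hv' hz
  obtain h0 | h0 | h0 : d v z = 0 ∨ d v z = 1 ∨ d v z = 2 := by omega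
  · rw [← eq_of_d _ _ h0]; exact bpow_fix hv m
  · exact fix_pow_adj hv hm hi h0 hz
  · obtain ⟨w, hw1, hw2⟩ := GSp.step v z 1 h0
    have hw := fix_btw hv' hz (show Btw v w z by unfold Btw; omega)
    have hne : v ≠ z := fun e => by rw [e, d_self] at h0; omega
    obtain ⟨⟨g, rfl, rfl⟩, -⟩ := fix_path h1 (by rw [d_comm]; exact hw1) hw2 hne hv' hw hz
    refine fix_pow_adj ?_ hm hi hw2 hz
    obtain ⟨u, rfl⟩ := exists_cjV hv
    have hm0 : (m : ℤ) ≠ 0 := by
      intro e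
      obtain rfl : m = 0 := by omega
      simp at h1
    rw [← zpow_natCast, ← zpow_mul, ← map_zpow, cjV_up] at hw
    rw [cjV_up]
    exact Cp_root (mul_ne_zero hm0 hi) hw

theorem ht_ne {n : ℕ} (hn : 2 ≤ n) (g : G0 n) : ht g ≠ 1 ∧ ht g ≠ -1 := by
  have h : (n : ℤ) ∣ ht g := g.2
  constructor
  · intro e
    rw [e] at h
    have := Int.le_of_dvd one_pos h
    omega
  · intro e
    rw [e, Int.dvd_neg] at h
    have := Int.le_of_dvd one_pos h
    omega

theorem disp_two {n : ℕ} (hn : 2 ≤ n) {g : G0 n} (hg : ∀ v : TT, g • v ≠ v) (z : TT) :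
    2 ≤ d z (g • z) := by
  have h0 := d_pos (hg z).symm
  by_contra hc
  have h1 := ht_ne hn g
  have h2 := hgt_smul g z
  rcases d_eq_one_iff.1 (show d z (g • z) = 1 by omega) with h | h
  · have := h.hgt
    rw [G0_smul] at this
    omega
  · have := h.hgt
    rw [G0_smul] at this
    omega

theorem base_lox {n : ℕ} (hn : 2 ≤ n) {g : G0 n} (hg : ∀ v : TT, g • v ≠ v) (z : TT) (j : ℕ) :
    j ≤ d z (g ^ j • z) :=
  tl_lox tree_hyp (fun z => disp_two hn hg z) z j

theorem base_cob {n : ℕ} (hn : 2 ≤ n) (x : TT) : ∃ g : G0 n, d x (g • vb) ≤ n := by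
  obtain ⟨h, rfl⟩ := vx_surj x
  have hn0 : (0 : ℤ) < n := by omega
  have h1 := Int.emod_nonneg (-ht h) hn0.ne'
  have h2 := Int.emod_lt_of_pos (-ht h) hn0
  refine ⟨⟨h * st ^ (-ht h % n).toNat, ?_⟩, ?_⟩
  · show (n : ℤ) ∣ ht _
    rw [ht_mul, ← zpow_natCast, ht_zpow, ht_st, mul_one, Int.toNat_of_nonneg h1, Int.emod_def]
    exact ⟨-(-ht h / n), by ring⟩
  · have := d_st_pow h (-ht h % n).toNat
    rw [G0_smul, vb, smul_vx, mul_one]
    show d (vx h) (vx (h * st ^ (-ht h % n).toNat)) ≤ n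
    omega

theorem gam_succ (n i : ℕ) : (gam n (i + 1) : GG) = cjV (st ^ i) VG.e := rfl

theorem gam_succ_ne (n i : ℕ) : gam n (i + 1) ≠ 1 := by
  intro h
  have h1 : cjV (st ^ i) VG.e = cjV (st ^ i) 1 := by
    rw [← gam_succ n, h, map_one]; rfl
  exact one_ne_zero (congrArg VG.a (cjV_inj _ h1))

theorem SD0_ell {n : ℕ} {g : G0 n} : (SD0 n).Ell g ↔ ∃ v : TT, g • v = v :=
  ⟨fun ⟨s, _, h⟩ => ⟨s, h⟩, fun ⟨s, h⟩ => ⟨s, Or.inl ⟨s, rfl⟩, h⟩⟩

theorem base_inv (P : Par) : Inv P vb (gam P.n) (gam P.n 1) (SD0 P.n) := by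
  have hn : 2 ≤ P.n := by have := P.hn; omega
  have hδ := P.one_le
  have h1 := P.hB0; have h2 := P.hε4; have h3 := P.hρ; have h4 := P.hA'; have h5 := P.hA
  have h6 := P.hR
  have h7 : 200 * P.δ ≤ P.ε2 := le_trans (Nat.le_add_left _ _) P.hε2
  have hν : 1 ≤ P.ν := le_trans (Nat.mul_pos (by omega) (by omega)) P.hν
  have hm : P.ε0 < P.m := by
    refine lt_of_le_of_lt ?_ P.hm
    refine le_trans ?_ (Nat.le_mul_of_pos_left _ hν)
    refine le_trans ?_ (Nat.le_add_right _ _)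
    exact Nat.le_mul_of_pos_right _ (Nat.mul_pos (by omega) (by positivity))
  have fp : ∀ {a : G0 P.n} {v : TT}, a • v = v → ∀ (z : TT) (i : ℤ), i ≠ 0 →
      (a ^ P.m) ^ i • z = z → a ^ P.m • z = z := fun {a v} hv z i hi hz =>
    fix_pow (a := (a : GG)) hv P.hm9 hi hz
  have ell : ∀ (a : G0 P.n) (x : TT), d x (a ^ P.m • x) ≤ P.ε0 → ∃ v : TT, a • v = v :=
    fun a x hx => by
      by_contra hc
      have := base_lox hn (not_exists.1 hc) x P.m
      omega
  refine
    { e_ne := gam_succ_ne _ 0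
      e_fix := ?_
      gam_ell := ?_
      hyp := tree_hyp.mono (Nat.zero_le _)
      surj := Function.surjective_id
      ι_smul := fun _ _ => rfl
      E_smul := fun _ _ h => h.elim
      F_sub := fun _ h => h
      F_smul := fun _ _ h => h.elim
      ι_not := fun _ h => h
      s1 := fun g v v' h => ⟨1, rfl, by rw [one_mul]; exact h⟩
      s2 := fun _ _ _ h => h
      s3 := fun g v v' _ _ h => ⟨1, rfl, by rw [one_smul]; exact h⟩
      k0 := fun _ _ _ h => h.elim
      E_comm := fun _ h => h.elim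
      tf := ?_
      F_sep := fun _ h => h.elim
      F_rot := fun _ h => h.elim
      i4 := ?_
      i5a := ?_
      i5b := ?_
      i7 := ?_
      i3 := ?_
      cob := fun x => ?_
      dich := fun x => Or.inl ?_
      gam := ?_ }
  · have := cjV_fix (st ^ 0) VG.e
    rw [G0_smul, gam_succ, vb]
    rwa [show vx (st ^ 0) = vx 1 by rw [pow_zero]] at this
  · rintro (_ | i) _ hi
    · exact absurd rfl hi
    · exact ⟨_, cjV_fix (st ^ i) VG.e⟩
  · intro g i hi h
    by_cases hc : ∃ v : TT, g • v = v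
    · obtain ⟨v, hv⟩ := hc
      refine Subtype.ext (tf_of_fix (a := (g : GG)) hv (i := i) (by omega) ?_)
      rw [zpow_natCast]
      exact congrArg Subtype.val h
    · have := base_lox hn (not_exists.1 hc) vb i
      rw [h, one_smul, d_self] at this
      omega
  · intro g
    by_cases hc : ∃ v : TT, g • v = v
    · exact Or.inl (SD0_ell.2 hc)
    · exact Or.inr fun x j =>
        (base_lox hn (not_exists.1 hc) x j).trans (Nat.le_mul_of_pos_left _ hν)
  · intro g hg s _ hs x hx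
    obtain ⟨z, -, e1, e2⟩ := exists_mid tree_hyp g hs x
    have e3 := fix_diam (g := (g : GG)) (fun e => hg (Subtype.ext e))
      (eq_of_d z (g • z) (by omega)).symm hs
    have := d_tri x z s
    omega
  · intro g h _ _ x y a1 a2 a3 a4 hd
    obtain ⟨γ, hγ⟩ := exists_geod x y
    have key : ∀ i, 150 * P.δ < i → i ≤ 150 * P.δ + 4 → (g * h * g⁻¹ * h⁻¹) • γ i = γ i :=
      fun i i1 i2 => by
        have b1 := hγ.d_left (i := i) (by omega)
        have b2 := hγ.d_right (i := i) (by omega)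
        have := comm_small tree_hyp g h a1 a2 a3 a4 (hγ.btw i) (by omega) (by omega)
        exact (eq_of_d _ _ (by omega)).symm
    by_contra hc
    have hne : ((g * h * g⁻¹ * h⁻¹ : G0 P.n) : GG) ≠ 1 := fun e => hc (by
      have e' : g * h * g⁻¹ * h⁻¹ = 1 := Subtype.ext e
      rw [mul_inv_eq_one, mul_inv_eq_iff_eq_mul] at e'
      exact e')
    have e3 := fix_diam hne (key (150 * P.δ + 1) (by omega) (by omega))
      (key (150 * P.δ + 4) (by omega) (by omega))
    have := hγ.2.2 (150 * P.δ + 1) (150 * P.δ + 4) (by omega) (by omega)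
    omega
  · intro a i x hi hx
    by_cases hc : ∃ v : TT, a • v = v
    · obtain ⟨v, hv⟩ := hc
      obtain ⟨z, -, e1, e2⟩ := exists_mid tree_hyp _ (zpow_fix (bpow_fix hv P.m) i) x
      have e3 := fp hv z i hi (eq_of_d z _ (by omega)).symm
      have := d_move_le (a ^ P.m) x z
      rw [e3, d_self] at this
      omega
    · have hc' : ∀ v : TT, a ^ P.m • v ≠ v := fun v hv => by
        have := base_lox hn (not_exists.1 hc) v P.m
        rw [hv, d_self] at this
        omega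
      have := tl_mono_z tree_hyp (fun z => disp_two hn hc' z) x i hi
      omega
  · intro a b x ha hb
    obtain ⟨s, hs⟩ := ell a x ha
    obtain ⟨s', hs'⟩ := ell b x hb
    by_cases hc : ∃ z : TT, a ^ P.m • z = z ∧ b ^ P.m • z = z
    · obtain ⟨z, hz⟩ := hc
      exact Or.inl ⟨z, Or.inl ⟨z, rfl⟩, hz⟩
    · obtain ⟨A, B, H⟩ := pp_of_tree tree_hyp tree_median (bpow_fix hs P.m) (bpow_fix hs' P.m)
        (fp hs) (fp hs') (not_exists.1 hc)
      refine Or.inr (Or.inr (Or.inr ⟨fun h => ?_, fun h => ?_⟩))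
      · obtain ⟨v, hv⟩ := SD0_ell.1 h
        exact pp_not_fix tree_hyp H P.hW1 P.hAB v hv
      · refine pp_inj tree_hyp H (wd P.W1 * wd P.W2 * (wd P.W2 * wd P.W1)⁻¹)
          (fun e => P.hW (mul_inv_eq_one.1 e)) ?_
        simp only [map_mul, map_inv, ev_wd]
        rw [h, mul_inv_cancel]
  · obtain ⟨g, hg⟩ := base_cob hn x
    exact ⟨g, le_trans hg (by omega)⟩
  · obtain ⟨g, hg⟩ := base_cob hn x
    exact ⟨g, le_trans hg (by omega)⟩
  · rintro (_ | i) hi
    · refine ⟨fun h => ?_, ?_⟩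
      · have h' : st ^ P.n = 1 := congrArg Subtype.val h
        have := congrArg ht h'
        rw [← zpow_natCast, ht_zpow, ht_st, ht_one] at this
        omega
      · have := d_st_pow 1 P.n
        rw [one_mul] at this
        show d (vx 1) (vx (st ^ P.n * 1)) ≤ _
        rw [mul_one]
        omega
    · refine ⟨gam_succ_ne _ i, ?_⟩
      have e1 := d_st_pow 1 i
      rw [one_mul] at e1
      have e2 := d_move_le (cjV (st ^ i) VG.e) (vx 1) (vx (st ^ i))
      rw [cjV_fix, d_self] at e2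
      show d (vx 1) (cjV (st ^ i) VG.e • vx 1) ≤ _
      omega

/-- The top fixed vertex of an elliptic element. -/
theorem exists_top {a : GG} (h1 : a ≠ 1) {v : TT} (hv : a • v = v) :
    ∃ z : TT, a • z = z ∧ ∀ u : TT, a • u = u → u = z ∨ Up u z := by
  have key : ∃ z : TT, a • z = z ∧ ∀ u : TT, a • u = u → ¬ Up z u := by
    by_cases hc : ∃ u : TT, a • u = u ∧ Up v u
    · obtain ⟨u, hu, hvu⟩ := hc
      refine ⟨u, hu, fun u' hu' huu => ?_⟩
      have e1 := hvu.hgt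
      have e2 := huu.hgt
      have e3 := (fix_path h1 (d_eq_one_iff.2 (Or.inr hvu)) (d_eq_one_iff.2 (Or.inl huu))
        (fun e => by rw [e] at e1; omega) hv hu hu').2.hgt
      omega
    · exact ⟨v, hv, fun u hu h => hc ⟨u, hu, h⟩⟩
  obtain ⟨z, hz, hz'⟩ := key
  refine ⟨z, hz, fun u hu => ?_⟩
  have hd := fix_diam h1 hz hu
  obtain h0 | h0 | h0 : d z u = 0 ∨ d z u = 1 ∨ d z u = 2 := by omega
  · exact Or.inl (eq_of_d _ _ h0).symm
  · exact Or.inr ((d_eq_one_iff.1 h0).resolve_left (hz' u hu))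
  · obtain ⟨w, hw1, hw2⟩ := GSp.step z u 1 h0
    have hw := fix_btw hz hu (show Btw z w u by unfold Btw; omega)
    have hne : z ≠ u := fun e => by rw [e, d_self] at h0; omega
    exact absurd (fix_path h1 (by rw [d_comm]; exact hw1) hw2 hne hz hw hu).1 (hz' w hw)

theorem cm_Cp {u : VG} (hu : u ∈ Cp) (w : VG) : cm u w = ⟨(xp u.k - 1) * w.a, 0⟩ := by
  have h0 := mem_Cp.1 hu
  ext1
  · have e : xp w.k * xp (-w.k) = 1 := by rw [← xp_add, add_neg_cancel, xp_zero]
    simp only [cm, VG.mul_a, VG.mul_k, VG.inv_a, VG.inv_k, h0, add_neg_cancel_comm]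
    linear_combination (-w.a) * e
  · simp [cm]

/-- The dichotomy for conjugates of an elliptic element with a common fixed vertex. -/
theorem base_td {n : ℕ} (hn : 2 ≤ n) (a : G0 n) (h1 : a ≠ 1) (v : TT) (hv : a • v = v) :
    ∃ z : TT, ∀ (g : G0 n) (w : TT), a • w = w → (g * a * g⁻¹) • w = w → g • z = z ∨
      ∃ y : G0 n, (y = cm a (g * a * g⁻¹) ∨ y = cm a (cm a (g * a * g⁻¹))) ∧ ∃ p : TT,
        ∀ i : ℕ, i ≠ 0 → y ^ i ≠ 1 ∧ ∀ u : TT, y ^ i • u = u ↔ u = p := by
  have h1' : (a : GG) ≠ 1 := fun e => h1 (Subtype.ext e)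
  obtain ⟨z, hz, hz'⟩ := exists_top h1' hv
  refine ⟨z, fun g w hw hw' => ?_⟩
  have hh := ht_ne hn g
  have hg := hgt_smul g z
  have c1 := hz' w hw
  have c2 : w = (g : GG) • z ∨ Up w ((g : GG) • z) := by
    have : (a : GG) • (g : GG)⁻¹ • w = (g : GG)⁻¹ • w := by
      rw [eq_inv_smul_iff, ← mul_smul, ← mul_smul]; exact hw'
    rcases hz' _ this with h | h
    · exact Or.inl (inv_smul_eq_iff.1 h)
    · exact Or.inr (by simpa using h.smul (g : GG))
  by_cases hgz : (g : GG) • z = z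
  · exact Or.inl hgz
  right
  rcases c1 with rfl | c1
  · rcases c2 with c2 | c2
    · exact absurd c2.symm hgz
    · have := c2.hgt; omega
  rcases c2 with rfl | c2
  · have := c1.hgt; omega
  obtain ⟨h, rfl, rfl⟩ := c1
  obtain ⟨c, hc⟩ := bi_up_frame c2
  obtain ⟨u, hu⟩ := exists_cjV (g := (a : GG)) hw
  obtain ⟨u', hu'⟩ := exists_cjV (g := ((g * a * g⁻¹ : G0 n) : GG)) hw'
  have huC : u ∈ Cp := by rwa [hu, cjV_up] at hz
  have hk : u.k ≠ 0 := fun e => h1' (by
    rw [hu, show u = 1 from VG.ext (mem_Cp.1 huC) e, map_one])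
  have hu1 : u' ≠ 1 := fun e => h1 (by
    have e' : g * a * g⁻¹ = 1 := Subtype.ext (by rw [hu', e, map_one]; rfl)
    simpa using e')
  have hβ : u'.a ≠ 0 := fun e => hgz (by
    have e1 : ((g * a * g⁻¹ : G0 n) : GG) • (g : GG) • vx (h * st) = (g : GG) • vx (h * st) := by
      rw [Subgroup.coe_mul, Subgroup.coe_mul, Subgroup.coe_inv, mul_smul, mul_smul, inv_smul_smul,
        hz]
    rw [hc, hu', cjV_frame h c, cjV_up] at e1
    have e2 := (cjV_up h c).2 (Cp_mal (mem_Cp.2 e) hu1 e1)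
    rw [hc, ← e2, smul_vx, cjV_apply]
    congr 1
    group)
  have hy : ((cm a (g * a * g⁻¹) : G0 n) : GG) = cjV h ⟨(xp u.k - 1) * u'.a, 0⟩ := by
    rw [← cm_Cp huC, map_cm, ← hu, ← hu']
    exact map_cm (G0 n).subtype _ _
  have hy' : ((cm a (cm a (g * a * g⁻¹)) : G0 n) : GG) =
      cjV h ⟨(xp u.k - 1) * ((xp u.k - 1) * u'.a), 0⟩ := by
    rw [← cm_Cp huC ⟨(xp u.k - 1) * u'.a, 0⟩, map_cm, ← hu, ← hy]
    exact map_cm (G0 n).subtype _ _
  have fin : ∀ (y : G0 n) (α : ℤ√3), α.norm < 0 → (y : GG) = cjV h ⟨α, 0⟩ →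
      ∀ i : ℕ, i ≠ 0 → y ^ i ≠ 1 ∧ ∀ u : TT, y ^ i • u = u ↔ u = vx h := fun y α hα e i hi => by
    have e' : ((y ^ i : G0 n) : GG) = cjV h ⟨α, 0⟩ ^ (i : ℤ) := by
      rw [zpow_natCast, ← e]; rfl
    refine ⟨fun e1 => neg_zpow_ne h hα (j := i) (by omega) (by rw [← e', e1]; rfl), fun u => ?_⟩
    rw [G0_smul, e']
    exact neg_fix_zpow h hα (by omega) u
  have hneg := norm_xp_sub hk
  rcases lt_or_gt_of_ne (norm_ne_zero hβ) with hb | hb
  · refine ⟨_, Or.inr rfl, vx h, fin _ _ ?_ hy'⟩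
    rw [Zsqrtd.norm_mul, Zsqrtd.norm_mul]
    exact mul_neg_of_neg_of_pos hneg (mul_pos_of_neg_of_neg hneg hb)
  · refine ⟨_, Or.inl rfl, vx h, fin _ _ ?_ hy⟩
    rw [Zsqrtd.norm_mul]
    exact mul_neg_of_neg_of_pos hneg hb

theorem base_rf {n : ℕ} (z : TT) (tri : List (ℕ × ℕ × ℕ)) (i0 : ℕ) (f : ℕ → G0 n)
    (hz : ∀ i, f i • z = z) (hf : Sat f tri) (h0 : f i0 ≠ 1) : FinReal tri i0 := by
  obtain ⟨h, rfl⟩ := vx_surj z
  choose u hu using fun i => exists_cjV (g := (f i : GG)) (hz i)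
  have hs : Sat u tri := fun t ht => cjV_inj h (by
    rw [map_mul, ← hu, ← hu, ← hu]
    exact congrArg Subtype.val (hf t ht))
  obtain ⟨Q, i1, i2, φ, hφ⟩ := VG.rf (u i0) fun e => h0 (Subtype.ext (by
    rw [hu, e, map_one]; rfl))
  exact ⟨Q, i1, i2, fun i => φ (u i), hs.map φ, hφ⟩

theorem base_metab {n : ℕ} {z : TT} {a b : G0 n} (ha : a • z = z) (hb : b • z = z)
    {w : FreeGroup Bool} (hw : w ∈ derivedSeries (FreeGroup Bool) 2) : ev a b w = 1 := by
  obtain ⟨h, rfl⟩ := vx_surj z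
  obtain ⟨u, hu⟩ := exists_cjV (g := (a : GG)) ha
  obtain ⟨u', hu'⟩ := exists_cjV (g := (b : GG)) hb
  have h1 : ev u u' w = 1 := by
    have := map_derivedSeries_le_derivedSeries (ev u u') 2 ⟨w, hw, rfl⟩
    rwa [VG.metab, Subgroup.mem_bot] at this
  apply Subtype.ext
  have h2 := map_ev (G0 n).subtype a b w
  have h3 := map_ev (cjV h) u u' w
  rw [h1, map_one, ← hu, ← hu'] at h3
  exact h2.trans h3.symm

theorem base_pp {n : ℕ} (hn : 2 ≤ n) : ∃ v1 : TT, d vb v1 ≤ 2 ∧ ∀ i : ℕ, i ≠ 0 → ∃ A B,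
    PPD 0 (FreeGroup.lift (gam n) (wY n) ^ i) (FreeGroup.lift (gam n) (wY' n) ^ i) vb v1 A B := by
  set q : GG := cjV st (VG.e ^ 3) with hq
  have hg : (⟨0, 1⟩ : ℤ√3).norm < 0 := by decide
  have hY : ((FreeGroup.lift (gam n) (wY n) : G0 n) : GG) = cjV 1 ⟨⟨0, 1⟩, 0⟩ := by
    rw [← LL_apply, wY, LL_G (by omega), pow_zero]; rfl
  have hY' : ((FreeGroup.lift (gam n) (wY' n) : G0 n) : GG) = cjV q ⟨⟨0, 1⟩, 0⟩ := by
    rw [← LL_apply, wY', map_mul, map_mul, map_inv, map_pow, LL_G (by omega), LL_E (by omega),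
      pow_one, pow_zero, ← map_pow, ← hq, cjV_apply, cjV_apply q, VG.g]
    group
  have hne : vx q ≠ vx 1 := fun e => by
    have e1 := (cjV_down st (VG.e ^ 3)).1 (by rw [mul_inv_cancel, smul_vx, mul_one]; exact e)
    obtain ⟨j, hj⟩ := mem_Cm.1 e1
    rw [← zpow_natCast, VG.e, tor_zpow] at hj
    have e2 := congrArg (fun u : VG => u.a.re) hj
    simp at e2
    omega
  have fx : ∀ (y : G0 n) (h : GG), (y : GG) = cjV h ⟨⟨0, 1⟩, 0⟩ → ∀ i : ℕ, i ≠ 0 → ∀ j : ℤ,
      j ≠ 0 → ∀ u : TT, (y ^ i) ^ j • u = u ↔ u = vx h := fun y h e i hi j hj u => by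
    have e' : (((y ^ i) ^ j : G0 n) : GG) = cjV h ⟨⟨0, 1⟩, 0⟩ ^ ((i : ℤ) * j) := by
      rw [zpow_mul, zpow_natCast, ← e]; rfl
    rw [G0_smul, e']
    exact neg_fix_zpow h hg (mul_ne_zero (by omega) hj) u
  refine ⟨vx q, ?_, fun i hi => ?_⟩
  · have e1 := d_st_pow 1 1
    rw [one_mul, pow_one] at e1
    have e2 := d_move_le q (vx 1) (vx st)
    rw [hq, cjV_fix, d_self, ← hq, smul_vx, mul_one] at e2
    unfold vb
    omega
  · have f1 := fun u => fx _ _ hY i hi 1 one_ne_zero u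
    have f2 := fun u => fx _ _ hY' i hi 1 one_ne_zero u
    simp only [zpow_one] at f1 f2
    exact pp_of_tree tree_hyp tree_median ((f1 _).2 rfl) ((f2 _).2 rfl)
      (fun z j hj h => (f1 z).2 ((fx _ _ hY i hi j hj z).1 h))
      (fun z j hj h => (f2 z).2 ((fx _ _ hY' i hi j hj z).1 h))
      fun z h => hne (((f2 z).1 h.2).symm.trans ((f1 z).1 h.1))

end Pool.Agent.QIB
end

-- merged part: Pool.Agent.Work.MP_9628a2_al.BaseFWord
section
set_option autoImplicit false

namespace Pool.Agent.QIB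
namespace Cut

/-- The stable letter or its inverse. -/
noncomputable def sp (ε : Bool) : GG := cond ε st st⁻¹

/-- The change of height. -/
def sg (n : ℕ) (ε : Bool) : ZMod n := cond ε 1 (-1)

/-- Elements of the two edge groups. -/
def eg (ε : Bool) (j : ℤ) : VG := cond ε ⟨0, j⟩ ⟨9 * j, 0⟩

/-- The value of a word. -/
noncomputable def val : List (VG × Bool) → GG
  | [] => 1
  | p :: l => ofV p.1 * sp p.2 * val l

/-- Equality up to sign and powers of the unit. -/
def uRel : Setoid (ℤ√3) where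
  r a b := ∃ i : ℤ, b = xp i * a ∨ b = -(xp i * a)
  iseqv := ⟨fun a => ⟨0, Or.inl (by rw [xp_zero, one_mul])⟩,
    fun {a b} ⟨i, h⟩ => ⟨-i, by
      rcases h with rfl | rfl
      · left; rw [← mul_assoc, ← xp_add]; simp [xp_zero]
      · right; rw [mul_neg, neg_neg, ← mul_assoc, ← xp_add]; simp [xp_zero]⟩,
    fun {a b c} ⟨i, h⟩ ⟨j, h'⟩ => ⟨j + i, by
      rw [xp_add]
      rcases h with rfl | rfl <;> rcases h' with rfl | rfl
      · left; ring
      · right; ring
      · right; ring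
      · left; ring⟩⟩

/-- A symmetric set of representatives for multiplication by the unit. -/
def Rp (r : ℤ√3) : Prop := r = (Quotient.mk uRel r).out ∨ -r = (Quotient.mk uRel r).out

theorem exists_Rp (b : ℤ√3) : ∃ (i : ℤ) (r : ℤ√3), Rp r ∧ b = xp i * r := by
  obtain ⟨i, h⟩ : uRel (Quotient.mk uRel b).out b := Quotient.mk_out b
  rcases h with h | h
  · exact ⟨i, _, Or.inl (by rw [Quotient.out_eq]), h⟩
  · refine ⟨i, -(Quotient.mk uRel b).out, Or.inr ?_, by rw [mul_neg]; exact h⟩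
    have : Quotient.mk uRel (-(Quotient.mk uRel b).out) = Quotient.mk uRel b := by
      conv_rhs => rw [← Quotient.out_eq (Quotient.mk uRel b)]
      exact Quotient.sound ⟨0, Or.inr (by rw [xp_zero, one_mul, neg_neg])⟩
    rw [this, neg_neg]

theorem Rp.neg {r : ℤ√3} (h : Rp r) : Rp (-r) := by
  have : Quotient.mk uRel (-r) = Quotient.mk uRel r :=
    Quotient.sound ⟨0, Or.inr (by rw [xp_zero, one_mul, neg_neg])⟩
  unfold Rp
  rw [this, neg_neg]
  exact h.symm

theorem xp_eq_one {i : ℤ} (h : xp i = 1) : i = 0 := by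
  by_contra h0
  have := norm_xp_sub h0
  rw [h, sub_self] at this
  simp at this

theorem Rp.eq_zero {r : ℤ√3} {i : ℤ} (h : Rp r) (h' : Rp (xp i * r)) (h0 : r ≠ 0) : i = 0 := by
  have e : Quotient.mk uRel (xp i * r) = Quotient.mk uRel r :=
    (Quotient.sound (s := uRel) ⟨i, Or.inl rfl⟩).symm
  unfold Rp at h h'
  rw [e] at h'
  have h1 : (xp i - 1) * r = 0 ∨ (xp i + 1) * r = 0 := by
    rcases h with h | h <;> rcases h' with h' | h'
    · left; linear_combination h' - h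
    · right; linear_combination h - h'
    · right; linear_combination h' - h
    · left; linear_combination h - h'
  rcases h1 with h1 | h1
  · exact xp_eq_one (by linear_combination (z3_mul_eq_zero h1).resolve_right h0)
  · have h2 := (z3_mul_eq_zero h1).resolve_right h0
    have h3 : xp (i + i) = 1 := by rw [xp_add]; linear_combination (xp i - 1) * h2
    have := xp_eq_one h3
    omega

theorem eg_zero (ε : Bool) : eg ε 0 = 1 := by cases ε <;> ext1 <;> simp [eg]

theorem cross_G (ε : Bool) (j : ℤ) : ofV (eg ε j) * sp ε = sp ε * ofV (eg (!ε) j) := by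
  have h := st_conj j
  cases ε
  · show ofV ⟨9 * j, 0⟩ * st⁻¹ = st⁻¹ * ofV ⟨0, j⟩
    rw [← h]; group
  · show ofV ⟨0, j⟩ * st = st * ofV ⟨9 * j, 0⟩
    rw [← h]; group

theorem vx_mul_ofV (g : GG) (a : VG) : vx (g * ofV a) = vx g := (vx_eq.2 ⟨a, rfl⟩).symm

theorem ofV_smul_vb (a : VG) : ofV a • vb = vb := by
  rw [vb, smul_vx, mul_one, ← one_mul (ofV a), vx_mul_ofV]

theorem smul_vb (g : GG) : g • vb = vx g := by rw [vb, smul_vx, mul_one]

theorem ht_sp (ε : Bool) : ht (sp ε) = cond ε 1 (-1) := by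
  cases ε <;> simp [sp, ht_st, ht_inv]

theorem sp_not (ε : Bool) : sp (!ε) = (sp ε)⁻¹ := by cases ε <;> simp [sp]

theorem vx_sp_eq {a : VG} {ε : Bool} : vx (ofV a * sp ε) = vx (sp ε) ↔ ∃ j, a = eg ε j := by
  cases ε
  · exact vx_down_eq.trans mem_Cm
  · refine vx_up_eq.trans (mem_Cp.trans ⟨fun h => ⟨a.k, VG.ext h rfl⟩, ?_⟩)
    rintro ⟨j, rfl⟩; rfl

theorem cross {a a' : VG} {ε ε' : Bool} (h : vx (ofV a * sp ε) = vx (ofV a' * sp ε')) :
    ε = ε' ∧ ∃ j, a = a' * eg ε j := by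
  have h1 := congrArg hgt h
  rw [hgt_vx, hgt_vx, ht_mul, ht_mul, ht_ofV, ht_ofV, ht_sp, ht_sp] at h1
  obtain rfl : ε = ε' := by cases ε <;> cases ε' <;> simp_all
  have h2 := congrArg (fun w => ofV a'⁻¹ • w) h
  simp only [smul_vx, ← mul_assoc, ← map_mul, inv_mul_cancel, map_one, one_mul] at h2
  obtain ⟨j, hj⟩ := vx_sp_eq.1 h2
  exact ⟨rfl, j, by rw [← hj]; group⟩

theorem d_vx (g x : GG) : d (vx g) (vx (g * x)) = d vb (vx x) := by
  rw [← smul_vb, ← smul_vx, d_smul]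

theorem d_ofV (a : VG) (x : GG) : d vb (vx (ofV a * x)) = d vb (vx x) := by
  conv_lhs => rw [← ofV_smul_vb a, ← smul_vx, d_smul]

theorem d_inv (x : GG) : d vb (vx x⁻¹) = d vb (vx x) := by
  rw [← d_vx x, mul_inv_cancel, d_comm]; rfl

theorem d_step (a : VG) (ε : Bool) : d vb (vx (ofV a * sp ε)) = 1 := by
  rw [d_ofV, d_eq_one_iff]
  cases ε
  · exact Or.inr ⟨st⁻¹, rfl, by rw [inv_mul_cancel]; rfl⟩
  · exact Or.inl ⟨1, rfl, by rw [one_mul]; rfl⟩

theorem d_sp (ε : Bool) : d vb (vx (sp ε)) = 1 := by simpa using d_step 1 ε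

theorem exists_step {z : TT} (h : d vb z = 1) : ∃ a ε, z = vx (ofV a * sp ε) := by
  rcases d_eq_one_iff.1 h with ⟨g, h1, h2⟩ | ⟨g, h1, h2⟩
  · obtain ⟨a, rfl⟩ := vx_eq.1 h1
    exact ⟨a, true, by rw [h2, one_mul]; rfl⟩
  · obtain ⟨a, ha⟩ := vx_eq.1 h2
    refine ⟨a, false, ?_⟩
    rw [one_mul] at ha
    rw [h1, ← ha]
    simp [sp]

theorem nonback {u w v y : TT} (hu : d w u = 1) (hv : d w v = 1) (hb : Btw w v y) (hne : v ≠ u) :
    d u y = d w y + 1 := by
  obtain ⟨m, h1, h2, h3⟩ := tree_median u w y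
  have h4 := d_comm u w
  by_cases h5 : d u m = 0
  · obtain rfl := eq_of_d _ _ h5
    exact absurd (tree_unique hb h2 (by omega)) hne
  · have h6 : d m w = 0 := by unfold Btw at h1; omega
    obtain rfl := eq_of_d _ _ h6
    unfold Btw at h3; omega

theorem val_append (l l' : List (VG × Bool)) : val (l ++ l') = val l * val l' := by
  induction l with
  | nil => simp [val]
  | cons p l ih => simp [val, ih, mul_assoc]

theorem d_val_le (l : List (VG × Bool)) : d vb (vx (val l)) ≤ l.length := by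
  induction l with
  | nil => exact (d_self _).le
  | cons p l ih =>
    have h1 := d_tri vb (vx (ofV p.1 * sp p.2)) (vx (ofV p.1 * sp p.2 * val l))
    rw [d_vx, d_step] at h1
    rw [val, List.length_cons]; omega

variable {n : ℕ} (τ : ZMod n)

/-- The condition on one letter. -/
def Loc : Option Bool → ZMod n → VG → Bool → Prop
  | none, h, _, _ => h ≠ τ
  | some δ, h, a, ε => vx (ofV a * sp ε) ≠ vx (sp (!δ)) ∧
      (h = τ → (δ = false ∨ ε = true → a.k = 0) ∧ (δ = false → ε = true → Rp a.a))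

/-- Admissible words. -/
def Adm : Option Bool → ZMod n → List (VG × Bool) → Prop
  | _, h, [] => h ≠ τ
  | δ, h, p :: l => Loc τ δ h p.1 p.2 ∧ Adm (some p.2) (h + sg n p.2) l

/-- The final height. -/
def en : ZMod n → List (VG × Bool) → ZMod n
  | h, [] => h
  | h, p :: l => en (h + sg n p.2) l

variable {τ}

theorem cast_ht_sp (ε : Bool) : ((ht (sp ε) : ℤ) : ZMod n) = sg n ε := by
  rw [ht_sp]; cases ε <;> simp [sg]

theorem en_eq (h : ZMod n) (l : List (VG × Bool)) : en h l = h + (ht (val l) : ℤ) := by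
  induction l generalizing h with
  | nil => simp [en, val, ht_one]
  | cons p l ih =>
    rw [en, ih, val, ht_mul, ht_mul, ht_ofV, zero_add, Int.cast_add, cast_ht_sp, add_assoc]

theorem Adm.dist {δ : Option Bool} {h : ZMod n} {l : List (VG × Bool)} (H : Adm τ δ h l) :
    d vb (vx (val l)) = l.length ∧ ∀ ε, δ = some ε → d (vx (sp (!ε))) (vx (val l)) = l.length + 1 := by
  induction l generalizing δ h with
  | nil => exact ⟨d_self _, fun ε _ => by rw [d_comm]; exact d_sp _⟩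
  | cons p l ih =>
    obtain ⟨h1, h2⟩ := ih H.2
    have h3 : d vb (vx (val (p :: l))) = l.length + 1 := by
      rw [val, mul_assoc, d_ofV, ← h2 _ rfl, sp_not, ← d_vx (sp p.2)⁻¹, inv_mul_cancel_left]
    refine ⟨h3, ?_⟩
    rintro ε rfl
    rw [List.length_cons, ← h3]
    refine nonback (d_sp _) (d_step p.1 p.2) ?_ H.1.1
    rw [Btw, h3, val, d_vx, d_step, h1, add_comm]

theorem Adm.first {δ : Option Bool} {h : ZMod n} {p : VG × Bool} {l : List (VG × Bool)}
    (H : Adm τ δ h (p :: l)) (c a : VG) :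
    Btw vb (vx (ofV (c * p.1) * sp p.2)) (vx (ofV c * val (p :: l) * ofV a)) := by
  have h1 := H.dist.1
  rw [Btw, d_step, vx_mul_ofV, d_ofV, h1, val, ← mul_assoc, ← mul_assoc, ← map_mul, d_vx,
    H.2.dist.1, List.length_cons, add_comm]

theorem Adm.end_ne {δ : Option Bool} {h : ZMod n} {l : List (VG × Bool)} (H : Adm τ δ h l) :
    en h l ≠ τ := by
  induction l generalizing δ h with
  | nil => exact H
  | cons p l ih => exact ih H.2

theorem Adm.start_ne {h : ZMod n} {l : List (VG × Bool)} (H : Adm τ none h l) : h ≠ τ := by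
  cases l with
  | nil => exact H
  | cons p l => exact H.1

theorem Adm.to_none {δ : Option Bool} {h : ZMod n} {l : List (VG × Bool)} (H : Adm τ δ h l)
    (hne : h ≠ τ) : Adm τ none h l := by
  cases l with
  | nil => exact H
  | cons p l => exact ⟨hne, H.2⟩

theorem Adm.split {δ : Option Bool} {h : ZMod n} {l l' : List (VG × Bool)}
    (H : Adm τ δ h (l ++ l')) (hne : en h l ≠ τ) : Adm τ δ h l ∧ Adm τ none (en h l) l' := by
  induction l generalizing δ h with
  | nil => exact ⟨hne, Adm.to_none H hne⟩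
  | cons p l ih => exact ⟨⟨H.1, (ih H.2 hne).1⟩, (ih H.2 hne).2⟩

theorem sg_ne (hn : 2 ≤ n) (ε : Bool) : sg n ε ≠ 0 := by
  have : Fact (1 < n) := ⟨hn⟩
  cases ε <;> simp [sg]

theorem exists_adm_aux (hn : 2 ≤ n) (k : ℕ) : ∀ (x : GG) (δ : Option Bool) (h : ZMod n),
    d vb (vx x) = k → (∀ ε, δ = some ε → d (vx (sp (!ε))) (vx x) = k + 1) → (δ = none → h ≠ τ) →
    h + (ht x : ℤ) ≠ τ → ∃ (i : ℤ) (l : List (VG × Bool)) (a : VG),
      (i ≠ 0 → h = τ ∧ δ = some false) ∧ x = ofV (eg true i) * val l * ofV a ∧ Adm τ δ h l := by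
  induction k with
  | zero =>
    intro x δ h h1 _ _ h4
    obtain ⟨a, rfl⟩ := vx_eq.1 (eq_of_d _ _ h1)
    refine ⟨0, [], a, fun h => absurd rfl h, by simp [eg_zero, val], ?_⟩
    simpa [ht_ofV, Adm] using h4
  | succ k ih =>
    intro x δ h h1 h2 h3 h4
    obtain ⟨z, hz1, hz2⟩ := GSp.step _ _ _ h1
    have key : ∃ (i : ℤ) (b : VG) (ε : Bool), (i ≠ 0 → h = τ ∧ δ = some false) ∧
        z = vx (ofV (eg true i * b) * sp ε) ∧ (h = τ → ∀ δ0, δ = some δ0 →
          (δ0 = false ∨ ε = true → b.k = 0) ∧ (δ0 = false → ε = true → Rp b.a)) := by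
      obtain ⟨a, ε, rfl⟩ := exists_step hz1
      by_cases hτ : h = τ
      swap
      · exact ⟨0, a, ε, fun h => absurd rfl h, by rw [eg_zero, one_mul], fun h => absurd h hτ⟩
      have up : ∀ b : VG, b.a = a.a → vx (ofV a * sp true) = vx (ofV b * sp true) := by
        intro b hb
        have : a = b * eg true (a.k - b.k) := by ext1 <;> simp [eg, hb]
        rw [this, map_mul, mul_assoc, cross_G, ← mul_assoc, vx_mul_ofV]
      rcases δ with _ | δ0
      · exact absurd hτ (h3 rfl)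
      cases δ0 <;> cases ε
      · refine ⟨a.k, ⟨xp (-a.k) * a.a, 0⟩, false, fun _ => ⟨hτ, rfl⟩, ?_, by simp⟩
        congr 3
        ext1 <;> simp [eg, ← mul_assoc, ← xp_add, xp_zero]
      · obtain ⟨i, r, hr, hi⟩ := exists_Rp a.a
        exact ⟨i, ⟨r, 0⟩, true, fun _ => ⟨hτ, rfl⟩, up _ (by simp [eg, hi]), by simp [hr]⟩
      · exact ⟨0, a, false, fun h => absurd rfl h, by rw [eg_zero, one_mul], by simp⟩
      · exact ⟨0, ⟨a.a, 0⟩, true, fun h => absurd rfl h, up _ (by simp [eg, xp_zero]), by simp⟩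
    obtain ⟨i, b, ε, hi, rfl, hb⟩ := key
    obtain ⟨y, rfl⟩ : ∃ y, x = ofV (eg true i * b) * sp ε * y :=
      ⟨(ofV (eg true i * b) * sp ε)⁻¹ * x, by group⟩
    rw [d_vx] at hz2
    obtain ⟨j, l, a, hj, rfl, hl⟩ := ih y (some ε) (h + sg n ε) hz2 (by
      rintro _ ⟨⟩
      rw [← h1, mul_assoc, d_ofV, sp_not, ← d_vx (sp ε)⁻¹, inv_mul_cancel_left]) (by simp) (by
      rwa [ht_mul, ht_mul, ht_ofV, zero_add, Int.cast_add, cast_ht_sp, ← add_assoc] at h4)
    have hc : ofV (eg ε j) * sp ε = sp ε * ofV (eg true j) := by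
      by_cases hj0 : j = 0
      · simp [hj0, eg_zero]
      · obtain ⟨-, h5⟩ := hj hj0
        obtain rfl : ε = false := by simpa using h5
        exact cross_G false j
    refine ⟨i, (b * eg ε j, ε) :: l, a, hi, ?_, ?_, hl⟩
    · simp only [val, map_mul, mul_assoc]
      rw [← mul_assoc (ofV (eg ε j)), hc, mul_assoc]
    · rcases δ with _ | δ0
      · exact h3 rfl
      refine ⟨fun h5 => ?_, fun hτ => ?_⟩
      · have h6 := h2 δ0 rfl
        rw [map_mul, mul_assoc, hc, ← mul_assoc, vx_mul_ofV] at h5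
        have h7 : vx (ofV (eg true i * b) * sp ε) = vx (sp (!δ0)) := by
          by_cases hi0 : i = 0
          · rw [hi0, eg_zero, one_mul, h5]
          · obtain rfl : δ0 = false := by simpa using (hi hi0).2
            rw [map_mul, mul_assoc, ← smul_vx, h5, smul_vx]
            exact vx_sp_eq.2 ⟨i, rfl⟩
        rw [← h7, d_vx, hz2] at h6
        omega
      · have hj0 : j = 0 := by
          by_contra hj0
          have h5 := (hj hj0).1
          rw [hτ, add_eq_left] at h5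
          exact sg_ne hn ε h5
        rw [hj0, eg_zero, mul_one]
        exact hb hτ δ0 rfl

theorem exists_adm (hn : 2 ≤ n) {x : GG} {h : ZMod n} (h1 : h ≠ τ) (h2 : h + (ht x : ℤ) ≠ τ) :
    ∃ (l : List (VG × Bool)) (a : VG), Adm τ none h l ∧ x = val l * ofV a := by
  obtain ⟨i, l, a, hi, hx, hl⟩ := exists_adm_aux hn _ x none h rfl (by simp) (fun _ => h1) h2
  have : i = 0 := by
    by_contra h0
    exact h1 (hi h0).1
  exact ⟨l, a, hl, by rw [hx, this, eg_zero, map_one, one_mul]⟩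

theorem Loc.symm {δ ε : Bool} {h : ZMod n} {a : VG} (H : Loc τ (some δ) h a ε) :
    Loc τ (some (!ε)) h a⁻¹ (!δ) := by
  refine ⟨fun h1 => H.1 ?_, fun hτ => ?_⟩
  · rw [Bool.not_not] at h1
    rw [← smul_vx, ← h1, smul_vx, ← mul_assoc, ← map_mul, mul_inv_cancel, map_one, one_mul]
  · obtain ⟨h1, h2⟩ := H.2 hτ
    refine ⟨fun h3 => ?_, fun h3 h4 => ?_⟩
    · rw [VG.inv_k, h1 (by simpa using h3.symm), neg_zero]
    · have h5 : δ = false := by simpa using h4
      rw [VG.inv_a, h1 (Or.inl h5), neg_zero, xp_zero, one_mul]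
      exact (h2 h5 (by simpa using h3)).neg

end Cut
end Pool.Agent.QIB
end

-- merged part: Pool.Agent.Work.MP_9628a2_al.BaseFEval
section
set_option autoImplicit false

namespace Pool.Agent.QIB
namespace Cut

variable {n : ℕ} {P : Type} [Group P]

/-- One step across an edge. -/
def stp (S : ZMod n → P) (h : ZMod n) (ε : Bool) : P := cond ε (S h) (S (h + -1))⁻¹

/-- Evaluation of a word. -/
def evw (α : ZMod n → VG →* P) (S : ZMod n → P) : ZMod n → List (VG × Bool) → P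
  | _, [] => 1
  | h, p :: l => α h p.1 * stp S h p.2 * evw α S (h + sg n p.2) l

/-- The edge relations hold away from the cut. -/
def Rel (τ : ZMod n) (α : ZMod n → VG →* P) (S : ZMod n → P) : Prop :=
  ∀ h, h ≠ τ → ∀ j : ℤ, S h * α (h + 1) (eg false j) = α h (eg true j) * S h

open Classical in
/-- The value attached to a group element. -/
noncomputable def DD (τ : ZMod n) (α : ZMod n → VG →* P) (S : ZMod n → P) (h : ZMod n) (x : GG) :
    P :=
  if H : ∃ q : List (VG × Bool) × VG, Adm τ none h q.1 ∧ x = val q.1 * ofV q.2 then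
    evw α S h H.choose.1 * α (en h H.choose.1) H.choose.2
  else 1

variable {τ : ZMod n} {α : ZMod n → VG →* P} {S : ZMod n → P}

theorem cross_P (hS : Rel τ α S) (h : ZMod n) (ε : Bool) (j : ℤ)
    (H : cond ε h (h + -1) = τ → j = 0) :
    α h (eg ε j) * stp S h ε = stp S h ε * α (h + sg n ε) (eg (!ε) j) := by
  by_cases hj : j = 0
  · simp [hj, eg_zero]
  cases ε
  · have := hS (h + -1) (fun h0 => hj (H h0)) j
    rw [neg_add_cancel_right] at this
    show α h (eg false j) * (S (h + -1))⁻¹ = (S (h + -1))⁻¹ * α (h + -1) (eg true j)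
    rw [eq_inv_mul_iff_mul_eq, ← mul_assoc, this, mul_inv_cancel_right]
  · exact (hS h (fun h0 => hj (H h0)) j).symm

theorem evw_append (h : ZMod n) (l l' : List (VG × Bool)) :
    evw α S h (l ++ l') = evw α S h l * evw α S (en h l) l' := by
  induction l generalizing h with
  | nil => simp [evw, en]
  | cons p l ih => simp [evw, en, ih, mul_assoc]

theorem en_append (h : ZMod n) (l l' : List (VG × Bool)) : en h (l ++ l') = en (en h l) l' := by
  induction l generalizing h with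
  | nil => rfl
  | cons p l ih => exact ih _

theorem uniq_aux (hS : Rel τ α S) (l : List (VG × Bool)) : ∀ (l' : List (VG × Bool))
    (δ : Option Bool) (h : ZMod n) (c a a' : VG), Adm τ δ h l → Adm τ δ h l' →
    (∀ δ0, δ = some δ0 → ∃ i, c = eg (!δ0) i) → ofV c * val l * ofV a = val l' * ofV a' →
    (h = τ → δ = some false → c = 1) ∧
      α h c * evw α S h l * α (en h l) a = evw α S h l' * α (en h l') a' := by
  induction l with
  | nil =>
    intro l' δ h c a a' H H' _ e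
    have h1 := H'.dist.1
    rw [← vx_mul_ofV _ a', ← e, vx_mul_ofV, d_ofV, H.dist.1] at h1
    obtain rfl : l' = [] := List.length_eq_zero_iff.1 h1.symm
    refine ⟨fun h0 => absurd h0 H, ?_⟩
    simp only [val, mul_one, one_mul, ← map_mul] at e
    simp only [evw, en, mul_one, one_mul, ← map_mul, ofV_inj e]
  | cons p l ih =>
    intro l' δ h c a a' H H' hc e
    have h1 := H'.dist.1
    rw [← vx_mul_ofV _ a', ← e, vx_mul_ofV, d_ofV, H.dist.1] at h1
    obtain _ | ⟨p', l'⟩ := l'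
    · simp at h1
    have b1 := H.first c a
    have b2 := H'.first 1 a'
    rw [map_one, one_mul, one_mul, ← e] at b2
    obtain ⟨b, ε⟩ := p
    obtain ⟨b', ε'⟩ := p'
    obtain ⟨rfl, j, hj⟩ := cross (tree_unique b1 b2 (by rw [d_step, d_step]))
    simp only at hj
    have e2 : ofV (eg (!ε) j) * val l * ofV a = val l' * ofV a' := by
      simp only [val] at e
      rw [← mul_assoc, ← mul_assoc, ← map_mul, hj, map_mul, mul_assoc (ofV b'), cross_G] at e
      simp only [mul_assoc, mul_right_inj] at e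
      rw [mul_assoc, e]
    obtain ⟨i1, i2⟩ := ih l' (some ε) (h + sg n ε) _ a a' H.2 H'.2 (by
      rintro _ ⟨⟩; exact ⟨j, rfl⟩) e2
    have hk := congrArg VG.k hj
    have ha := congrArg VG.a hj
    have key : h = τ → (δ = some false → c = 1) ∧ (ε = true → j = 0) := by
      intro hτ
      rcases δ with _ | δ0
      · exact absurd hτ H.1
      obtain ⟨i, rfl⟩ := hc δ0 rfl
      obtain ⟨g1, g2⟩ := H.1.2 hτ
      obtain ⟨g3, g4⟩ := H'.1.2 hτ
      have g5 := H.1.1
      dsimp only at g1 g2 g3 g4 g5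
      cases δ0 <;> cases ε
      · simp [eg, g1 (Or.inl rfl), g3 (Or.inl rfl)] at hk
        simp [hk, eg_zero]
      · simp [eg, g1 (Or.inl rfl), g3 (Or.inl rfl)] at hk ha
        have : i = 0 := (g2 rfl rfl).eq_zero (ha ▸ g4 rfl rfl) fun h0 =>
          g5 (vx_sp_eq.2 ⟨b.k, VG.ext h0 rfl⟩)
        simp [← hk, this, eg_zero]
      · simp
      · simp [eg, g1 (Or.inr rfl), g3 (Or.inr rfl)] at hk
        simp [hk]
    refine ⟨fun hτ => (key hτ).1, ?_⟩
    have h2 := cross_P hS h ε j (by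
      cases ε
      · intro h0
        have := congrArg VG.k (i1 h0 rfl)
        simpa [eg] using this
      · exact fun h0 => (key h0).2 rfl)
    simp only [evw, en]
    rw [mul_assoc (α h b' * _), ← i2, ← mul_assoc, ← mul_assoc, ← map_mul, hj, map_mul,
      mul_assoc (α h b'), h2]
    simp only [mul_assoc]

theorem DD_eq (hS : Rel τ α S) {h : ZMod n} {l : List (VG × Bool)} (H : Adm τ none h l)
    (c a : VG) : DD τ α S h (ofV c * val l * ofV a) = α h c * evw α S h l * α (en h l) a := by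
  have hex : ∃ q : List (VG × Bool) × VG, Adm τ none h q.1 ∧
      ofV c * val l * ofV a = val q.1 * ofV q.2 := by
    obtain _ | ⟨p, l⟩ := l
    · exact ⟨([], c * a), H, by simp [val]⟩
    · exact ⟨((c * p.1, p.2) :: l, a), ⟨H.1, H.2⟩, by simp [val, mul_assoc]⟩
  rw [DD, dif_pos hex]
  exact (uniq_aux hS l _ none h c a _ H hex.choose_spec.1 (by simp) hex.choose_spec.2).2.symm

theorem DD_eq' (hS : Rel τ α S) {h : ZMod n} {l : List (VG × Bool)} (H : Adm τ none h l)
    (a : VG) : DD τ α S h (val l * ofV a) = evw α S h l * α (en h l) a := by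
  simpa using DD_eq hS H 1 a

theorem DD_mul (hn : 2 ≤ n) (hS : Rel τ α S) {h : ZMod n} {x y : GG} (h0 : h ≠ τ)
    (h1 : h + (ht x : ℤ) ≠ τ) (h2 : h + (ht (x * y) : ℤ) ≠ τ) (hb : Btw vb (vx x) (vx (x * y))) :
    DD τ α S h (x * y) = DD τ α S h x * DD τ α S (h + (ht x : ℤ)) y := by
  obtain ⟨l, a, H, e⟩ := exists_adm hn h0 h2
  have d0 : d vb (vx (x * y)) = l.length := by rw [e, vx_mul_ofV, H.dist.1]
  obtain ⟨l1, l2, rfl, hl⟩ : ∃ l1 l2, l = l1 ++ l2 ∧ l1.length = d vb (vx x) :=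
    ⟨l.take (d vb (vx x)), l.drop (d vb (vx x)), (List.take_append_drop _ _).symm, by
      rw [List.length_take]; unfold Btw at hb; omega⟩
  have d1 := d_val_le l1
  have d2 := d_val_le l2
  have d3 := d_tri vb (vx (val l1)) (vx (x * y))
  have d4 : d (vx (val l1)) (vx (x * y)) = d vb (vx (val l2)) := by
    rw [e, vx_mul_ofV, val_append, d_vx]
  rw [List.length_append] at d0
  obtain ⟨b, rfl⟩ := vx_eq.1 (tree_unique (p := vx (val l1)) (by unfold Btw; omega) hb (by omega))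
  have e1 : en h l1 = h + (ht (val l1 * ofV b) : ℤ) := by rw [en_eq, ht_mul, ht_ofV, add_zero]
  obtain ⟨H1, H2⟩ := H.split (e1 ▸ h1)
  have e2 : y = ofV b⁻¹ * val l2 * ofV a := by
    rw [val_append] at e
    rw [map_inv, mul_assoc, eq_inv_mul_iff_mul_eq, ← mul_right_inj (val l1), ← mul_assoc, e,
      mul_assoc]
  rw [e, DD_eq' hS H, DD_eq' hS H1, ← e1, e2, DD_eq hS H2, evw_append, en_append, map_inv]
  group

theorem stp_not (h : ZMod n) (ε : Bool) : stp S (h + sg n ε) (!ε) = (stp S h ε)⁻¹ := by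
  cases ε <;> simp [stp, sg]

theorem sg_not (h : ZMod n) (ε : Bool) : h + sg n ε + sg n (!ε) = h := by
  cases ε <;> simp [sg]

theorem DD_inv_aux (hn : 2 ≤ n) (hS : Rel τ α S) (k : ℕ) : ∀ (l : List (VG × Bool)) (h : ZMod n),
    l.length ≤ k → Adm τ none h l → ∀ a : VG,
      DD τ α S (en h l) (ofV a * (val l)⁻¹) = α (en h l) a * (evw α S h l)⁻¹ := by
  induction k with
  | zero =>
    intro l h hl H a
    obtain rfl : l = [] := List.length_eq_zero_iff.1 (by omega)
    simpa [val, evw, en] using DD_eq hS H a 1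
  | succ k ih =>
    intro l h hl H a
    have key : ∀ l1 l2, l = l1 ++ l2 → l1 ≠ [] → l2 ≠ [] → en h l1 ≠ τ →
        DD τ α S (en h l) (ofV a * (val l)⁻¹) = α (en h l) a * (evw α S h l)⁻¹ := by
      rintro l1 l2 rfl n1 n2 hne
      obtain ⟨H1, H2⟩ := H.split hne
      have p1 := List.length_pos_iff.2 n1
      have p2 := List.length_pos_iff.2 n2
      rw [List.length_append] at hl
      have i1 := ih l1 h (by omega) H1 1
      have i2 := ih l2 _ (by omega) H2 a
      have e1 : en (en h l1) l2 + (ht (ofV a * (val l2)⁻¹) : ℤ) = en h l1 := by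
        rw [en_eq (en h l1), ht_mul, ht_ofV, ht_inv]; simp
      rw [map_one, map_one, one_mul, one_mul] at i1
      rw [val_append, mul_inv_rev, ← mul_assoc, en_append, DD_mul hn hS H2.end_ne (by rwa [e1]) (by
        rw [ht_mul, Int.cast_add, ← add_assoc, e1, en_eq, ht_inv]
        simpa using H.start_ne) (by
        rw [Btw, d_vx, mul_assoc, d_ofV, d_ofV, ← mul_inv_rev, ← val_append, d_inv, d_inv, d_inv,
          H.dist.1, H1.dist.1, H2.dist.1, List.length_append, add_comm]), e1, i1, i2, evw_append]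
      group
    obtain _ | ⟨⟨b, ε⟩, _ | ⟨⟨b', ε'⟩, l⟩⟩ := l
    · simpa [val, evw, en] using DD_eq hS H a 1
    · have H1 : Adm τ none (h + sg n ε) [(1, !ε)] := ⟨H.2, by rw [sg_not]; exact H.1⟩
      have := DD_eq hS H1 a b⁻¹
      simpa [val, evw, en, sp_not, stp_not, sg_not, mul_assoc] using this
    · by_cases hτ : h + sg n ε = τ
      swap
      · exact key [(b, ε)] ((b', ε') :: l) rfl (by simp) (by simp) hτ
      have h2 : h + sg n ε + sg n ε' ≠ τ := by
        rw [hτ, Ne, add_eq_left]; exact sg_ne hn ε'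
      by_cases hl0 : l = []
      swap
      · exact key [(b, ε), (b', ε')] l rfl (by simp) hl0 h2
      subst hl0
      have H1 : Adm τ none (h + sg n ε + sg n ε') [(1, !ε'), (b'⁻¹, !ε)] :=
        ⟨h2, by rw [sg_not]; exact H.2.1.symm, by rw [sg_not, sg_not]; exact H.1⟩
      have := DD_eq hS H1 a b⁻¹
      simpa [val, evw, en, sp_not, stp_not, sg_not, mul_assoc] using this

theorem DD_inv (hn : 2 ≤ n) (hS : Rel τ α S) {h : ZMod n} {x : GG} (h0 : h ≠ τ)
    (h1 : h + (ht x : ℤ) ≠ τ) : DD τ α S (h + (ht x : ℤ)) x⁻¹ = (DD τ α S h x)⁻¹ := by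
  obtain ⟨l, a, H, rfl⟩ := exists_adm hn h0 h1
  have e1 : h + (ht (val l * ofV a) : ℤ) = en h l := by rw [en_eq, ht_mul, ht_ofV, add_zero]
  rw [e1, mul_inv_rev, ← map_inv, DD_inv_aux hn hS _ l h le_rfl H, DD_eq' hS H, map_inv,
    mul_inv_rev]

/-- Multiplicativity when the median avoids the cut. -/
theorem DD_tri (hn : 2 ≤ n) (hS : Rel τ α S) (h0 : (0 : ZMod n) ≠ τ) {x y : GG}
    (hx : ((ht x : ℤ) : ZMod n) = 0) (hy : ((ht y : ℤ) : ZMod n) = 0) {m : TT}
    (hm : ((hgt m : ℤ) : ZMod n) ≠ τ) (b1 : Btw vb m (vx x)) (b2 : Btw (vx x) m (vx (x * y)))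
    (b3 : Btw vb m (vx (x * y))) : DD τ α S 0 x * DD τ α S 0 y = DD τ α S 0 (x * y) := by
  obtain ⟨μ, rfl⟩ := vx_surj m
  rw [hgt_vx] at hm
  have hm' : (0 : ZMod n) + (ht μ : ℤ) ≠ τ := by rwa [zero_add]
  have e1 := DD_mul hn hS (x := μ) (y := μ⁻¹ * x) h0 hm' (by
    rwa [mul_inv_cancel_left, hx, add_zero]) (by rwa [mul_inv_cancel_left])
  have e3 := DD_mul hn hS (x := μ) (y := μ⁻¹ * (x * y)) h0 hm' (by
    rwa [mul_inv_cancel_left, ht_mul, Int.cast_add, hx, hy, add_zero, add_zero])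
    (by rwa [mul_inv_cancel_left])
  have c1 : (0 : ZMod n) + (ht (x⁻¹ * μ) : ℤ) = 0 + (ht μ : ℤ) := by
    rw [ht_mul, ht_inv, Int.cast_add, Int.cast_neg, hx, neg_zero, zero_add, zero_add]
  have c2 : x⁻¹ * μ * (μ⁻¹ * (x * y)) = y := by group
  have e2 := DD_mul hn hS (x := x⁻¹ * μ) (y := μ⁻¹ * (x * y)) h0 (by rwa [c1]) (by
    rwa [c2, hy, add_zero]) (by
    rw [c2, ← btw_smul x, smul_vb, smul_vx, smul_vx, mul_inv_cancel_left]; exact b2)
  have e4 := DD_inv hn hS (x := x⁻¹ * μ) h0 (by rwa [c1])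
  rw [mul_inv_cancel_left] at e1 e3
  rw [c2, c1] at e2
  rw [c1, mul_inv_rev, inv_inv] at e4
  rw [e1, e2, e3, e4]
  group

end Cut
end Pool.Agent.QIB
end

-- merged part: Pool.Agent.Work.MP_9628a2_al.BaseF
section
set_option autoImplicit false

namespace Pool.Agent.QIB

theorem Cut.exists_coord {Ω ι : Type} (M : ℕ) [NeZero M] (u : Equiv.Perm Ω)
    (hu : ∀ (ω : Ω) (j : ℤ), (u ^ j) ω = ω ↔ (M : ℤ) ∣ j) (p : ι → Ω)
    (hp : ∀ (l l' : ι) (j : ℤ), (u ^ j) (p l) = p l' → l = l') :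
    ∃ (O : Type) (e : O × ZMod M ≃ Ω) (i : ι → O), Function.Injective i ∧
      (∀ o j, u (e (o, j)) = e (o, j + 1)) ∧ ∀ l, e (i l, 0) = p l := by
  classical
  let s : Setoid Ω := Equiv.Perm.SameCycle.setoid u
  let r : Quotient s → Ω := fun o =>
    if H : ∃ l, Quotient.mk s (p l) = o then p H.choose else o.out
  have hr : ∀ o, Quotient.mk s (r o) = o := fun o => by
    by_cases H : ∃ l, Quotient.mk s (p l) = o
    · simp only [r, dif_pos H]; exact H.choose_spec
    · simp only [r, dif_neg H]; exact o.out_eq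
  have hi : Function.Injective fun l => Quotient.mk s (p l) := fun l l' h => by
    obtain ⟨j, hj⟩ := Quotient.exact h
    exact hp l l' j hj
  have key : ∀ (ω : Ω) (a b : ℤ), (u ^ a) ω = (u ^ b) ω ↔ (a : ZMod M) = b := fun ω a b => by
    rw [ZMod.intCast_eq_intCast_iff_dvd_sub, ← hu ω, sub_eq_neg_add, zpow_add,
      Equiv.Perm.mul_apply, zpow_neg, Equiv.Perm.inv_eq_iff_eq, eq_comm]
  let e : Quotient s × ZMod M → Ω := fun q => (u ^ (q.2.val : ℤ)) (r q.1)
  have he : ∀ q, Quotient.mk s (e q) = q.1 := fun q => by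
    rw [← hr q.1]
    exact (Quotient.sound (s := s) ⟨(q.2.val : ℤ), rfl⟩).symm
  have hb : Function.Bijective e := by
    constructor
    · rintro ⟨o, j⟩ ⟨o', j'⟩ h
      obtain rfl : o = o' := by simpa [he] using congrArg (Quotient.mk s) h
      have := (key _ _ _).1 h
      simp only [Int.cast_natCast, ZMod.natCast_zmod_val] at this
      rw [this]
    · intro ω
      obtain ⟨j, hj⟩ := Quotient.exact (hr (Quotient.mk s ω))
      refine ⟨(Quotient.mk s ω, (j : ZMod M)), Eq.trans ((key _ _ _).2 ?_) hj⟩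
      simp
  refine ⟨_, Equiv.ofBijective e hb, _, hi, fun o j => ?_, fun l => ?_⟩
  · show u ((u ^ (j.val : ℤ)) (r o)) = (u ^ ((j + 1).val : ℤ)) (r o)
    rw [← Equiv.Perm.mul_apply, ← zpow_one_add, key]
    simp [add_comm]
  · have H : ∃ l', Quotient.mk s (p l') = Quotient.mk s (p l) := ⟨l, rfl⟩
    show (u ^ ((0 : ZMod M).val : ℤ)) (r _) = p l
    simp only [r, dif_pos H, hi H.choose_spec, ZMod.val_zero, Nat.cast_zero, zpow_zero,
      Equiv.Perm.one_apply]

/-- Extension lemma for two free actions of a cyclic group. -/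
theorem exists_intertwine {Ω ι : Type} [Finite Ω] (M : ℕ) (u u' : Equiv.Perm Ω)
    (hu : ∀ (ω : Ω) (j : ℤ), (u ^ j) ω = ω ↔ (M : ℤ) ∣ j)
    (hu' : ∀ (ω : Ω) (j : ℤ), (u' ^ j) ω = ω ↔ (M : ℤ) ∣ j) (p q : ι → Ω)
    (hp : ∀ (l l' : ι) (j : ℤ), (u ^ j) (p l) = p l' → l = l')
    (hq : ∀ (l l' : ι) (j : ℤ), (u' ^ j) (q l) = q l' → l = l') :
    ∃ S : Equiv.Perm Ω, S * u = u' * S ∧ ∀ l, S (p l) = q l := by
  rcases isEmpty_or_nonempty Ω with h0 | ⟨⟨ω⟩⟩
  · exact ⟨1, Subsingleton.elim _ _, fun l => h0.elim (p l)⟩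
  have hM : M ≠ 0 := by
    rintro rfl
    have h1 := (hu ω (orderOf u)).1 (by rw [zpow_natCast, pow_orderOf_eq_one]; rfl)
    have h2 := orderOf_pos u
    simp only [Nat.cast_zero, zero_dvd_iff] at h1
    omega
  have : NeZero M := ⟨hM⟩
  obtain ⟨O, e, i, hi, h1, h2⟩ := Cut.exists_coord M u hu p hp
  obtain ⟨O', e', i', hi', h1', h2'⟩ := Cut.exists_coord M u' hu' q hq
  have : Finite O := Finite.of_injective (fun o => e (o, 0)) fun a b h => by simpa using h
  have : Finite O' := Finite.of_injective (fun o => e' (o, 0)) fun a b h => by simpa using h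
  have hc : Nat.card O = Nat.card O' := by
    have h3 := Nat.card_congr (e.trans e'.symm)
    rw [Nat.card_prod, Nat.card_prod, Nat.card_zmod] at h3
    exact Nat.eq_of_mul_eq_mul_right (Nat.pos_of_ne_zero hM) h3
  obtain ⟨β⟩ := Finite.card_eq.1 hc
  have : Finite ι := Finite.of_injective i hi
  obtain ⟨γ, hγ⟩ := Equiv.Perm.exists_extending_pair (β ∘ i) i' (β.injective.comp hi) hi'
  refine ⟨e.symm.trans (((β.trans γ).prodCongr (Equiv.refl _)).trans e'), ?_, fun l => ?_⟩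
  · ext ω
    obtain ⟨⟨o, j⟩, rfl⟩ := e.surjective ω
    simp [h1, h1']
  · rw [← h2, ← h2', ← hγ]
    simp

namespace Cut

theorem xp_mul_nat (m L : ℕ) : xp ((L * m : ℕ) : ℤ) = xp m ^ L := by
  induction L with
  | zero => simp [xp_zero]
  | succ L ih => rw [Nat.succ_mul, Nat.cast_add, xp_add, ih, pow_succ]

theorem exists_chain {n : ℕ} (hn : 2 ≤ n) (τ : ZMod n) {L : ℕ} (hL : 0 < L) :
    ∃ (Γ : Type) (_ : Group Γ) (_ : Finite Γ) (N M : ZMod n → ℕ) (φ : ZMod n → VG →* Γ),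
      (∀ h u, φ h u = 1 ↔ (N h : ℤ√3) ∣ u.a ∧ (M h : ℤ) ∣ u.k) ∧ (∀ h, 9 * L ∣ N h ∧ L ∣ M h) ∧
        ∀ h, h ≠ τ → N (h + 1) = 9 * M h := by
  classical
  have : Fact (1 < n) := ⟨hn⟩
  choose! per hp0 hp1 using exists_period
  let Ns : ℕ → ℕ := fun i => Nat.rec (9 * L) (fun _ a => 9 * (L * per a)) i
  have h0 : ∀ i, 0 < Ns i := fun i => by
    induction i with
    | zero => show 0 < 9 * L; omega
    | succ i ih => exact Nat.mul_pos (by omega) (Nat.mul_pos hL (hp0 _ ih))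
  have h1 : ∀ i, 9 * L ∣ Ns i := fun i => by
    cases i with
    | zero => exact dvd_rfl
    | succ i => exact Nat.mul_dvd_mul_left 9 (Dvd.intro _ rfl)
  have h2 := fun h : ZMod n => exists_cong (Ns (h - τ - 1).val) (L * per (Ns (h - τ - 1).val))
    (h0 _) (Nat.mul_pos hL (hp0 _ (h0 _))) (by
      rw [xp_mul_nat]; exact (hp1 _ (h0 _)).trans (sub_one_dvd_pow_sub_one _ _))
  choose Q gQ fQ f _ hf using h2
  refine ⟨∀ h, Q h, inferInstance, inferInstance, fun h => Ns (h - τ - 1).val,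
    fun h => L * per (Ns (h - τ - 1).val), fun h => (MonoidHom.mulSingle Q h).comp (f h),
    fun h u => ?_, fun h => ⟨h1 _, Dvd.intro _ rfl⟩, fun h hne => ?_⟩
  · rw [← hf]
    simp
  · have h3 : 1 ≤ (h - τ).val := by
      rw [Nat.one_le_iff_ne_zero, Ne, ZMod.val_eq_zero]; exact sub_ne_zero.2 hne
    have h4 := ZMod.val_sub (a := h - τ) (b := 1) (by rwa [ZMod.val_one])
    rw [ZMod.val_one] at h4
    have h5 : (h + 1 - τ - 1).val = (h - τ - 1).val + 1 := by
      rw [show h + 1 - τ - 1 = h - τ by ring]; omega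
    simp only [h5]
    rfl

theorem eg_zpow (ε : Bool) (j : ℤ) : eg ε 1 ^ j = eg ε j := by
  cases ε
  · simp only [eg, cond_false]
    rw [tor_zpow]; congr 1; push_cast; ring
  · exact t_zpow j

/-- Left multiplication in the first coordinate. -/
def lm (Γ B : Type) [Group Γ] : Γ →* Equiv.Perm (Γ × B) where
  toFun g := (Equiv.mulLeft g).prodCongr (Equiv.refl B)
  map_one' := by ext q <;> simp
  map_mul' a b := by ext q <;> simp [mul_assoc]

theorem lm_apply {Γ B : Type} [Group Γ] (g x : Γ) (b : B) : lm Γ B g (x, b) = (g * x, b) := rfl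

variable {n : ℕ} {Γ : Type} [Group Γ] (φ : ZMod n → VG →* Γ)

/-- The image of the first letter. -/
def top (h : ZMod n) : List (VG × Bool) → Γ
  | [] => 1
  | p :: _ => φ h p.1

/-- The prescribed values along a word. -/
def cs : ZMod n → List (VG × Bool) → List (ZMod n × (Γ × ℕ) × (Γ × ℕ))
  | _, [] => []
  | h, p :: l => cond p.2 (h, (top φ (h + sg n p.2) l, l.length), (1, l.length + 1))
      (h + -1, (1, l.length + 1), (top φ (h + sg n p.2) l, l.length)) :: cs (h + sg n p.2) l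

/-- Two prescribed values do not interfere. -/
def Far (c c' : ZMod n × (Γ × ℕ) × (Γ × ℕ)) : Prop :=
  c.1 = c'.1 → (c.2.1.2 = c'.2.1.2 → ∀ j, φ (c.1 + 1) (eg false j) * c.2.1.1 ≠ c'.2.1.1) ∧
    (c.2.2.2 = c'.2.2.2 → ∀ j, φ c.1 (eg true j) * c.2.2.1 ≠ c'.2.2.1)

variable {φ}

theorem Far.symm {c c' : ZMod n × (Γ × ℕ) × (Γ × ℕ)} (H : Far φ c c') : Far φ c' c := by
  intro h
  obtain ⟨h1, h2⟩ := H h.symm
  refine ⟨fun e j e' => h1 e.symm (-j) ?_, fun e j e' => h2 e.symm (-j) ?_⟩ <;>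
    rw [← e', h, ← mul_assoc, ← map_mul, ← eg_zpow, ← eg_zpow _ j, ← zpow_add, neg_add_cancel,
      zpow_zero, map_one, one_mul]

theorem cs_le (h : ZMod n) (l : List (VG × Bool)) :
    ∀ c ∈ cs φ h l, c.2.1.2 ≤ l.length ∧ c.2.2.2 ≤ l.length := by
  induction l generalizing h with
  | nil => simp [cs]
  | cons p l ih =>
    intro c hc
    rcases List.mem_cons.1 hc with rfl | hc
    · cases p.2 <;> simp
    · have := ih _ c hc
      rw [List.length_cons]; omega

theorem cs_far {τ : ZMod n} {δ : Option Bool} {h : ZMod n} {l : List (VG × Bool)}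
    (H : Adm τ δ h l) (hb : ∀ p ∈ l, ∀ h ε j, φ h (eg ε j * p.1) = 1 → ∃ j', p.1 = eg ε j') :
    (cs φ h l).Pairwise (Far φ) := by
  induction l generalizing δ h with
  | nil => simp [cs]
  | cons p l ih =>
    refine List.Pairwise.cons ?_ (ih H.2 fun q hq => hb q (List.mem_cons_of_mem _ hq))
    obtain _ | ⟨p', l⟩ := l
    · simp [cs]
    intro c hc
    obtain ⟨a, ε⟩ := p
    obtain ⟨a', ε'⟩ := p'
    rcases List.mem_cons.1 hc with rfl | hc
    · have h1 := H.2.1.1
      have h2 := hb (a', ε') (by simp)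
      cases ε <;> cases ε' <;> intro _ <;> simp only [cond_true, cond_false, List.length_cons, top]
      · omega
      · refine ⟨by omega, fun _ j e => h1 (vx_sp_eq.2 (h2 (h + -1) true j ?_))⟩
        rw [map_mul]; exact e
      · refine ⟨fun _ j e => h1 (vx_sp_eq.2 (h2 (h + 1) false j ?_)), by omega⟩
        rw [map_mul]; exact e
      · omega
    · have := cs_le _ _ c hc
      cases ε <;> intro _ <;> simp only [cond_true, cond_false, List.length_cons] <;> omega

theorem evw_pt {B : Type} (bl : ℕ → B) (S : ZMod n → Equiv.Perm (Γ × B)) (h : ZMod n)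
    (l : List (VG × Bool))
    (hS : ∀ c ∈ cs φ h l, S c.1 (c.2.1.1, bl c.2.1.2) = (c.2.2.1, bl c.2.2.2)) :
    evw (fun h => (lm Γ B).comp (φ h)) S h l (1, bl 0) = (top φ h l, bl l.length) := by
  induction l generalizing h with
  | nil => rfl
  | cons p l ih =>
    have h1 := ih _ fun c hc => hS c (List.mem_cons_of_mem _ hc)
    have h2 := hS _ (List.mem_cons_self ..)
    have h3 : stp S h p.2 (top φ (h + sg n p.2) l, bl l.length) = (1, bl (l.length + 1)) := by
      obtain ⟨a, _ | _⟩ := p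
      · exact Equiv.Perm.inv_eq_iff_eq.2 h2.symm
      · exact h2
    rw [evw, Equiv.Perm.mul_apply, h1, Equiv.Perm.mul_apply, h3]
    exact Prod.ext (mul_one _) rfl

theorem small_eq_zero {L : ℕ} {x : ℤ} (h : (L : ℤ) ∣ x) (hx : x.natAbs < L) : x = 0 :=
  Int.eq_zero_of_abs_lt_dvd h (by rw [Int.abs_eq_natAbs]; omega)

/-- The size of an element of the vertex group. -/
def sz (a : VG) : ℕ := a.a.re.natAbs + a.a.im.natAbs + a.k.natAbs

theorem exists_data (hn : 2 ≤ n) {τ h0 : ZMod n} {l : List (VG × Bool)} (H : Adm τ none h0 l)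
    (a : VG) (hne : val l * ofV a ≠ 1) :
    ∃ (P : Type) (_ : Group P) (_ : Finite P) (α : ZMod n → VG →* P) (S : ZMod n → P),
      Rel τ α S ∧ evw α S h0 l * α (en h0 l) a ≠ 1 := by
  obtain ⟨L, hLa, hLl⟩ : ∃ L, sz a < L ∧ ∀ p ∈ l, sz p.1 < L :=
    ⟨sz a + (l.map fun p => sz p.1).sum + 1, by omega, fun p hp => by
      have := List.single_le_sum (l := l.map fun p => sz p.1) (fun _ _ => Nat.zero_le _) _
        (List.mem_map_of_mem hp)
      omega⟩
  obtain ⟨Γ, _, _, N, M, φ, hφ, hd, hc⟩ := exists_chain hn τ (L := L) (by omega)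
  have hk : ∀ h (x : ℤ), x.natAbs < L → (M h : ℤ) ∣ x → x = 0 := fun h x hx e =>
    small_eq_zero ((Int.natCast_dvd_natCast.2 (hd h).2).trans e) hx
  have hN : ∀ h (x : ℤ√3), (N h : ℤ√3) ∣ x → ((9 * L : ℕ) : ℤ) ∣ x.re ∧ ((9 * L : ℕ) : ℤ) ∣ x.im :=
    fun h x e => by
      have h1 := (Zsqrtd.intCast_dvd (N h : ℤ) x).1 (by exact_mod_cast e)
      have h2 := Int.natCast_dvd_natCast.2 (hd h).1
      exact ⟨h2.trans h1.1, h2.trans h1.2⟩
  have hz : ∀ h (b : VG), sz b < L → (N h : ℤ√3) ∣ b.a → b.a = 0 := fun h b hb e => by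
    unfold sz at hb
    exact Zsqrtd.ext (small_eq_zero (hN h _ e).1 (by omega)) (small_eq_zero (hN h _ e).2 (by omega))
  have hfar := cs_far (φ := φ) H fun p hp h ε j e => by
    have hs := hLl p hp
    rw [map_mul, mul_eq_one_comm, ← map_mul, hφ] at e
    cases ε
    · have h1 : p.1.k = 0 := hk h _ (by unfold sz at hs; omega) (by simpa [eg] using e.2)
      obtain ⟨h2, h3⟩ := hN h _ e.1
      simp [eg, h1, xp_zero] at h2 h3
      have h4 : p.1.a.im = 0 := small_eq_zero (L := 9 * L) (by exact_mod_cast h3) (by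
        unfold sz at hs; omega)
      obtain ⟨w, hw⟩ := h2
      refine ⟨L * w - j, VG.ext (Zsqrtd.ext ?_ ?_) h1⟩
      · simp [eg]; linear_combination hw
      · simp [eg, h4]
    · exact ⟨p.1.k, VG.ext (hz h _ hs (by simpa [eg] using e.1)) rfl⟩
  let bl : ℕ → Fin (l.length + 1) := fun i => ⟨min i l.length, by omega⟩
  have hbl : ∀ i j, i ≤ l.length → j ≤ l.length → bl i = bl j → i = j := fun i j hi hj e => by
    have := congrArg Fin.val e
    simp only [bl] at this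
    omega
  have : Std.Symm (Far φ) := ⟨fun _ _ => Far.symm⟩
  have hS : ∀ h, ∃ S : Equiv.Perm (Γ × Fin (l.length + 1)),
      (h ≠ τ → S * lm Γ _ (φ (h + 1) (eg false 1)) = lm Γ _ (φ h (eg true 1)) * S) ∧
      ∀ c ∈ cs φ h0 l, c.1 = h → S (c.2.1.1, bl c.2.1.2) = (c.2.2.1, bl c.2.2.2) := by
    intro h
    have f1 : ∀ (c c' : {c // c ∈ cs φ h0 l ∧ c.1 = h}), c ≠ c' → Far φ c.1 c'.1 :=
      fun c c' e => hfar.forall c.2.1 c'.2.1 fun e' => e (Subtype.ext e')
    have f2 : ∀ (c c' : {c // c ∈ cs φ h0 l ∧ c.1 = h}) (j : ℤ),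
        (lm Γ _ (φ (h + 1) (eg false 1)) ^ j) (c.1.2.1.1, bl c.1.2.1.2) =
          (c'.1.2.1.1, bl c'.1.2.1.2) → c = c' := fun c c' j e => by
      by_contra e'
      rw [← map_zpow, ← map_zpow, eg_zpow, lm_apply, Prod.mk.injEq] at e
      refine (f1 c c' e' (c.2.2.trans c'.2.2.symm)).1
        (hbl _ _ (cs_le _ _ _ c.2.1).1 (cs_le _ _ _ c'.2.1).1 e.2) j ?_
      rw [c.2.2]; exact e.1
    have f3 : ∀ (c c' : {c // c ∈ cs φ h0 l ∧ c.1 = h}) (j : ℤ),
        (lm Γ _ (φ h (eg true 1)) ^ j) (c.1.2.2.1, bl c.1.2.2.2) =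
          (c'.1.2.2.1, bl c'.1.2.2.2) → c = c' := fun c c' j e => by
      by_contra e'
      rw [← map_zpow, ← map_zpow, eg_zpow, lm_apply, Prod.mk.injEq] at e
      refine (f1 c c' e' (c.2.2.trans c'.2.2.symm)).2
        (hbl _ _ (cs_le _ _ _ c.2.1).2 (cs_le _ _ _ c'.2.1).2 e.2) j ?_
      rw [c.2.2]; exact e.1
    by_cases hτ : h = τ
    · obtain ⟨S, -, hS⟩ := exists_intertwine 1 1 1 (by simp) (by simp)
        (fun c : {c // c ∈ cs φ h0 l ∧ c.1 = h} => (c.1.2.1.1, bl c.1.2.1.2))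
        (fun c => (c.1.2.2.1, bl c.1.2.2.2))
        (fun c c' _ e => f2 c c' 0 (by simpa using e)) fun c c' _ e => f3 c c' 0 (by simpa using e)
      exact ⟨S, fun e => absurd hτ e, fun c h1 h2 => hS ⟨c, h1, h2⟩⟩
    · obtain ⟨S, h1, hS⟩ := exists_intertwine (M h) _ _ (fun ⟨x, b⟩ j => by
        rw [← map_zpow, ← map_zpow, eg_zpow, lm_apply, Prod.mk.injEq, mul_eq_right, hφ, hc h hτ]
        have : (((9 * M h : ℕ) : ℤ) : ℤ√3) ∣ ((9 * j : ℤ) : ℤ√3) ↔ (M h : ℤ) ∣ j := by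
          rw [Zsqrtd.intCast_dvd_intCast, Nat.cast_mul]
          exact mul_dvd_mul_iff_left (by norm_num)
        simpa [eg] using this) (fun ⟨x, b⟩ j => by
        rw [← map_zpow, ← map_zpow, eg_zpow, lm_apply, Prod.mk.injEq, mul_eq_right, hφ]
        simp [eg]) _ _ f2 f3
      exact ⟨S, fun _ => h1, fun c h1 h2 => hS ⟨c, h1, h2⟩⟩
  choose S hS1 hS2 using hS
  refine ⟨_, inferInstance, inferInstance, fun h => (lm Γ _).comp (φ h), S, fun h hτ j => ?_,
    fun e => ?_⟩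
  · rw [← eg_zpow, ← eg_zpow true, map_zpow, map_zpow]
    exact SemiconjBy.zpow_right (hS1 h hτ) j
  · have h1 := evw_pt bl S h0 l fun c hc => hS2 _ c hc rfl
    rw [mul_eq_one_iff_eq_inv, ← map_inv] at e
    rw [e, MonoidHom.comp_apply, lm_apply, Prod.mk.injEq] at h1
    obtain rfl : l = [] := List.length_eq_zero_iff.1 (hbl _ _ (by omega) le_rfl h1.2).symm
    have h2 := h1.1
    rw [top, mul_one, map_inv, inv_eq_one, hφ] at h2
    apply hne
    rw [show a = 1 from VG.ext (hz _ a hLa h2.1) (hk _ _ (by unfold sz at hLa; omega) h2.2), val,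
      map_one, mul_one]

end Cut

open Cut in
/-- The cut lemma: small patterns in the base group are realised in finite groups. -/
theorem base_cut (n T : ℕ) (hn : T + 2 ≤ n) (tri : List (ℕ × ℕ × ℕ)) (hT : tri.length ≤ T)
    (i0 : ℕ) (f : ℕ → G0 n) (hf : Sat f tri) (h0 : f i0 ≠ 1) : FinReal tri i0 := by
  classical
  have hn2 : 2 ≤ n := by omega
  have : NeZero n := ⟨by omega⟩
  choose md hm using tree_median
  obtain ⟨τ, hτ⟩ : ∃ τ : ZMod n, τ ∉ ((0 : ZMod n) :: tri.map fun t =>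
      ((hgt (md vb (vx (f t.1)) (vx (f t.2.2))) : ℤ) : ZMod n)).toFinset := by
    by_contra hc
    push Not at hc
    have h1 := Finset.card_le_card (fun x (_ : x ∈ Finset.univ) => hc x)
    have h2 := h1.trans (List.toFinset_card_le _)
    rw [Finset.card_univ, ZMod.card, List.length_cons, List.length_map] at h2
    omega
  rw [List.mem_toFinset, List.mem_cons, not_or, List.mem_map, not_exists] at hτ
  have hz : ∀ i, ((ht (f i : GG) : ℤ) : ZMod n) = 0 := fun i =>
    (ZMod.intCast_zmod_eq_zero_iff_dvd _ _).2 (f i).2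
  have h1 : (0 : ZMod n) ≠ τ := fun e => hτ.1 e.symm
  obtain ⟨l, a, H, e⟩ := exists_adm (x := f i0) hn2 h1 (by rwa [hz, add_zero])
  obtain ⟨P, _, _, α, S, hS, hne⟩ := exists_data hn2 H a fun e' => h0 (Subtype.ext (e.trans e'))
  refine ⟨P, inferInstance, inferInstance, fun i => DD τ α S 0 (f i), fun t ht => ?_, ?_⟩
  · have e1 : (f t.2.2 : GG) = f t.1 * f t.2.1 := by rw [← hf t ht]; rfl
    obtain ⟨b1, b2, b3⟩ := hm vb (vx (f t.1)) (vx (f t.2.2))
    have := DD_tri hn2 hS h1 (hz t.1) (hz t.2.1) (fun e' => hτ.2 t ⟨ht, e'⟩) b1 (e1 ▸ b2) (e1 ▸ b3)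
    rwa [← e1] at this
  · show DD τ α S 0 (f i0) ≠ 1
    rwa [e, DD_eq' hS H]

end Pool.Agent.QIB
end

-- merged part: Pool.Agent.Work.MP_9628a2_al.ParEx
section
set_option autoImplicit false

namespace Pool.Agent.QIB

theorem ex_ge (a : ℕ) : ∃ b : ℕ, a ≤ b := ⟨a, le_rfl⟩

theorem ex_gt (a : ℕ) : ∃ b : ℕ, a < b := ⟨a + 1, Nat.lt_succ_self a⟩

theorem ex_gt9 (a : ℕ) : ∃ b : ℕ, 9 ∣ b ∧ a < b := ⟨9 * (a + 1), Dvd.intro _ rfl, by omega⟩

theorem ex_R (δ R0 c1 c2 : ℕ) (hδ : 1 ≤ δ) :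
    ∃ R ν kk : ℕ, R0 ≤ R ∧ R * c1 ≤ ν ∧ ν * c2 ≤ 2 ^ kk ∧ 2 * δ * kk ≤ R := by
  obtain ⟨kk, hkk⟩ := ex_ge (4 + R0 + 2 * δ * c1 * c2)
  have h0 : 1 * kk ≤ 2 * δ * kk := Nat.mul_le_mul_right _ (by omega)
  refine ⟨2 * δ * kk, 2 * δ * kk * c1, kk, by omega, le_rfl, ?_, le_rfl⟩
  have h1 := sq_le_two_pow kk (by omega)
  have h2 : kk * (2 * δ * c1 * c2) ≤ kk * kk := Nat.mul_le_mul_left _ (by omega)
  calc 2 * δ * kk * c1 * c2 = kk * (2 * δ * c1 * c2) := by ring
    _ ≤ 2 ^ kk := h2.trans h1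

theorem exists_par (W1 W2 : List (Bool × ℤ)) (h1 : Alt W1) (h2 : AB W1)
    (h3 : wd W1 * wd W2 ≠ wd W2 * wd W1) (T : ℕ) :
    ∃ P : Par, P.W1 = W1 ∧ P.W2 = W2 ∧ P.T = T := by
  obtain ⟨δ, hδ⟩ := ex_ge (6 * kB + 2)
  obtain ⟨n, hn⟩ := ex_ge (T + 2)
  obtain ⟨ε2, hε2⟩ := ex_ge (30 * δ * 2 ^ (60 * δ) + 200 * δ)
  obtain ⟨ε0, hε0⟩ := ex_ge (ε2 + 10 * δ)
  obtain ⟨ε3, hε3⟩ := ex_ge (4 * (wlen W1 + wlen W2 + 1) * ε0)
  obtain ⟨B0, hB0⟩ := ex_ge (ε3 + n + 1)
  obtain ⟨ε4, hε4⟩ := ex_ge (ε3 + 2 * B0)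
  obtain ⟨ρ, hρ⟩ := ex_ge (10 * ε4 + 1000 * δ)
  obtain ⟨A', hA'⟩ := ex_ge (ρ + 2 * ε2 + 10)
  obtain ⟨A, hA⟩ := ex_ge (31 * ε2 + 2 * A')
  obtain ⟨σ, hσ⟩ := ex_ge (2 * A' + 2 * ε4 + 20 * δ)
  obtain ⟨Δ, hΔ⟩ := ex_ge ((200 * (δ + σ + 1) + 20) * σ + 200 * (δ + σ + 1) + A + 20 * δ)
  obtain ⟨R, ν, kk, hR, hν, hkk, hkk'⟩ := ex_R δ (1000 * (δ + σ + Δ + A + 1))
    (14 * δ * 2 ^ (14 * δ) + 3) (10 * (δ + σ + 1)) (le_trans (by omega) hδ)
  obtain ⟨m, hm9, hm⟩ := ex_gt9 (ν * (ε0 * (R * 2 ^ (2 * ε0)) + 7 * δ))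
  obtain ⟨k0, hk0⟩ := ex_gt (ν * (400 * δ * (R * 2 ^ ρ)))
  obtain ⟨N, hN⟩ := ex_ge ((200 * T + 200) * (20 * δ * (R * 2 ^ ρ)))
  exact ⟨⟨δ, W1, W2, n, T, ε2, ε0, ε3, B0, ε4, ρ, A', A, σ, Δ, R, ν, kk, m, k0, N, hδ, h1, h2, h3,
    hn, hε2, hε0, hε3, hB0, hε4, hρ, hA', hA, hσ, hΔ, hR, hν, hkk, hkk', hm9, hm, hk0, hN⟩,
    rfl, rfl, rfl⟩

end Pool.Agent.QIB
end

-- merged part: Pool.Agent.Work.MP_9628a2_al.LimitA
section
set_option autoImplicit false

/-! Consequences of the invariants at a single stage. -/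

namespace Pool.Agent.QIB

section gen
variable {G H : Type} [Group G] [Group H]

theorem map_lift (φ : G →* H) (x : ℕ → G) (r : FreeGroup ℕ) :
    φ (FreeGroup.lift x r) = FreeGroup.lift (fun i => φ (x i)) r := by
  have : φ.comp (FreeGroup.lift x) = FreeGroup.lift fun i => φ (x i) := by ext i; simp
  exact DFunLike.congr_fun this r

theorem lift_one (r : FreeGroup ℕ) : FreeGroup.lift (fun _ => (1 : G)) r = 1 := by
  have : FreeGroup.lift (fun _ : ℕ => (1 : G)) = 1 := by ext i; simp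
  rw [this]; rfl

theorem ev_of_comm {a b : G} (h : a * b = b * a) {w : FreeGroup Bool}
    (hw : w ∈ derivedSeries (FreeGroup Bool) 2) : ev a b w = 1 := by
  have h1 : ∀ t s : Bool, Commute (ev a b (FreeGroup.of t)) (ev a b (FreeGroup.of s)) := by
    intro t s
    cases t <;> cases s <;> simp [Commute, SemiconjBy, h]
  have h2 : ∀ (t : Bool) (y : FreeGroup Bool), Commute (ev a b (FreeGroup.of t)) (ev a b y) := by
    intro t y
    induction y using FreeGroup.induction_on with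
    | C1 => simp
    | of s => exact h1 t s
    | inv_of s hs => rw [map_inv]; exact hs.inv_right
    | mul x y hx hy => rw [map_mul]; exact hx.mul_right hy
  have h3 : ∀ x y : FreeGroup Bool, Commute (ev a b x) (ev a b y) := by
    intro x y
    induction x using FreeGroup.induction_on with
    | C1 => simp
    | of s => exact h2 s y
    | inv_of s hs => rw [map_inv]; exact hs.inv_left
    | mul x z hx hz => rw [map_mul]; exact hx.mul_left hz
  have h4 : derivedSeries (FreeGroup Bool) 2 ≤ (ev a b).ker := by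
    rw [derivedSeries_succ, Subgroup.commutator_le]
    intro x _ y _
    rw [MonoidHom.mem_ker, map_commutatorElement]
    exact commutatorElement_eq_one_iff_commute.2 (h3 x y)
  exact h4 hw

theorem IsLaw.of_mem {w0 w : FreeGroup Bool} (h : IsLaw G w0)
    (hw : w ∈ Subgroup.normalClosure {w0}) : IsLaw G w := fun a b =>
  Subgroup.normalClosure_le_normal (N := (ev a b).ker) (by rintro _ rfl; exact h a b) hw

theorem comm_rf {B : Type} [CommGroup B] [Group.FG B] {b : B} (hb : b ≠ 1) :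
    ∃ (Q : Type) (_ : Group Q) (_ : Finite Q) (χ : B →* Q), χ b ≠ 1 := by
  obtain ⟨c, hc⟩ := CharacterModule.exists_character_apply_ne_zero_of_ne_zero
    (A := Additive B) (a := Additive.ofMul b) hb
  let χ : B →* Multiplicative (AddCircle (1 : ℚ)) :=
    AddMonoidHom.toMultiplicativeRight (c : Additive B →+ AddCircle (1 : ℚ))
  have ht : IsMulTorsion χ.range := by
    intro x
    rw [← χ.range.subtype_injective.isOfFinOrder_iff]
    obtain ⟨q, hq⟩ := QuotientAddGroup.mk_surjective (Multiplicative.toAdd (x : Multiplicative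
      (AddCircle (1 : ℚ))))
    have h1 : IsOfFinAddOrder (q : AddCircle (1 : ℚ)) :=
      AddCircle.isOfFinAddOrder_iff_exists_rat_eq_div.2 ⟨q, by simp⟩
    rw [hq] at h1
    exact (isOfFinOrder_ofAdd_iff (x := Multiplicative.toAdd x.1)).2 h1
  exact ⟨χ.range, inferInstance, CommGroup.finite_of_fg_isMulTorsion _ ht, χ.rangeRestrict,
    fun h => hc (congrArg Subtype.val h)⟩

/-- The indices that occur in a pattern. -/
def idx (tri : List (ℕ × ℕ × ℕ)) (i0 : ℕ) : List ℕ :=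
  i0 :: tri.flatMap fun t => [t.1, t.2.1, t.2.2]

theorem idx_zero (tri : List (ℕ × ℕ × ℕ)) (i0 : ℕ) : i0 ∈ idx tri i0 := List.mem_cons_self ..

theorem idx_mem {tri : List (ℕ × ℕ × ℕ)} (i0 : ℕ) {t : ℕ × ℕ × ℕ} (ht : t ∈ tri) :
    t.1 ∈ idx tri i0 ∧ t.2.1 ∈ idx tri i0 ∧ t.2.2 ∈ idx tri i0 := by
  simp only [idx, List.mem_cons, List.mem_flatMap]
  exact ⟨Or.inr ⟨t, ht, by simp⟩, Or.inr ⟨t, ht, by simp⟩, Or.inr ⟨t, ht, by simp⟩⟩

open scoped IsMulCommutative in
theorem finReal_of_comm {tri : List (ℕ × ℕ × ℕ)} {i0 : ℕ} {f : ℕ → G} (hf : Sat f tri)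
    (h0 : f i0 ≠ 1) (hc : ∀ j ∈ idx tri i0, ∀ l ∈ idx tri i0, f j * f l = f l * f j) :
    FinReal tri i0 := by
  classical
  set s : Set G := f '' {j | j ∈ idx tri i0}
  have : Finite s := ((List.finite_toSet _).image f).to_subtype
  have : IsMulCommutative (Subgroup.closure s) := Subgroup.isMulCommutative_closure (by
    rintro _ ⟨j, hj, rfl⟩ _ ⟨l, hl, rfl⟩; exact hc j hj l hl)
  let f0 : ℕ → Subgroup.closure s := fun j =>
    if h : j ∈ idx tri i0 then ⟨f j, Subgroup.subset_closure ⟨j, h, rfl⟩⟩ else 1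
  have h1 : ∀ j ∈ idx tri i0, (f0 j : G) = f j := fun j hj => by simp [f0, hj]
  have h2 : Sat f0 tri := fun t ht => Subtype.ext (by
    obtain ⟨a, b, c⟩ := idx_mem i0 ht
    rw [Subgroup.coe_mul, h1 _ a, h1 _ b, h1 _ c, hf t ht])
  have h3 : f0 i0 ≠ 1 := fun h => h0 (by rw [← h1 _ (idx_zero tri i0), h]; rfl)
  obtain ⟨Q, _, _, χ, hχ⟩ := comm_rf h3
  exact ⟨Q, inferInstance, inferInstance, _, h2.map χ, hχ⟩

end gen

section stage
variable {n : ℕ} {G X : Type} [Group G] [MulAction G X] [GSp X] {P : Par} {γ : ℕ → G0 n}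
  {e : G0 n} {S : SD (G0 n) TT G X}

theorem Par.m_ne (P : Par) : P.m ≠ 0 := by have := P.hm; omega

theorem Inv.ev_of_elem (I : Inv P vb γ e S) {g h : G} (he : S.Elem g h) {w : FreeGroup Bool}
    (hw : w ∈ derivedSeries (FreeGroup Bool) 2) : ev g h w = 1 := by
  obtain ⟨s, hs, hg, hh⟩ := he
  rcases hs with ⟨v, rfl⟩ | hs
  · obtain ⟨a, rfl⟩ := I.surj g
    obtain ⟨b, rfl⟩ := I.surj h
    obtain ⟨k1, h1, h2⟩ := I.s1 a v v hg
    obtain ⟨k2, h3, h4⟩ := I.s1 b v v hh
    have := congrArg S.π (base_metab h2 h4 hw)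
    rwa [map_ev, map_mul, map_mul, h1, h3, one_mul, one_mul, map_one] at this
  · exact ev_of_comm (I.E_comm s hs g h hg hh) hw

theorem Inv.lift_pair (I : Inv P vb γ e S) {a : G0 n} {v : TT} (hv : a • v = v) (h1 : a ≠ 1)
    {g : G} (he : S.Elem (S.π a) (g * S.π a * g⁻¹)) :
    ∃ (u : G0 n) (w : TT), S.π u = g ∧ a • w = w ∧ (u * a * u⁻¹) • w = w := by
  obtain ⟨s, hs, h2, h3⟩ := he
  obtain ⟨u, rfl⟩ := I.surj g
  rcases hs with ⟨w, rfl⟩ | hs
  · obtain ⟨k2, a2, b2⟩ := I.s3 a v w hv h1 h2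
    obtain ⟨k3, a3, b3⟩ := I.s3 a v (u⁻¹ • w) hv h1 (by
      rw [I.ι_smul, map_inv, ← mul_smul, eq_inv_smul_iff, ← mul_smul, ← mul_assoc]; exact h3)
    refine ⟨k2 * u * k3⁻¹, k2 • w, by simp [a2, a3], b2, ?_⟩
    simp only [mul_smul, mul_inv_rev, inv_inv, inv_smul_smul]
    rw [b3]
    simp
  · have := I.k0 _ (fun h => h1 (I.s2 a v hv h)) s hs _ (S.ι_mem v) h2
      (by rw [← I.ι_smul, hv])
    exact absurd (this ▸ hs) (I.ι_not v)

theorem Inv.finReal_of_fix (I : Inv P vb γ e S) {tri : List (ℕ × ℕ × ℕ)} {i0 : ℕ} {f : ℕ → G}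
    (hf : Sat f tri) (h0 : f i0 ≠ 1) (z : TT)
    (h : ∀ j ∈ idx tri i0, ∃ u : G0 n, S.π u = f j ∧ u • z = z) : FinReal tri i0 := by
  classical
  choose! u hu hz using h
  let f0 : ℕ → G0 n := fun j => if j ∈ idx tri i0 then u j else 1
  have h1 : ∀ j ∈ idx tri i0, S.π (f0 j) = f j := fun j hj => by simp [f0, hj, hu j hj]
  have h2 : ∀ j, f0 j • z = z := fun j => by
    by_cases hj : j ∈ idx tri i0
    · simp only [f0, if_pos hj]; exact hz j hj
    · simp only [f0, if_neg hj]; exact one_smul _ _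
  refine base_rf z tri i0 f0 h2 (fun t ht => ?_) fun h => h0 ?_
  · obtain ⟨a, b, c⟩ := idx_mem i0 ht
    rw [← mul_inv_eq_one]
    refine I.s2 _ z ?_ ?_
    · rw [mul_smul, mul_smul, inv_smul_eq_iff.2 (h2 _).symm, h2, h2]
    · rw [map_mul, map_mul, map_inv, h1 _ a, h1 _ b, h1 _ c, hf t ht, mul_inv_cancel]
  · rw [← h1 _ (idx_zero tri i0), h, map_one]

theorem Inv.key (I : Inv P vb γ e S) (hn : 2 ≤ n) {tri : List (ℕ × ℕ × ℕ)} {i0 : ℕ} {f : ℕ → G}
    (hf : Sat f tri) (h0 : f i0 ≠ 1)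
    (h1 : ∀ j ∈ idx tri i0, S.Elem (f i0 ^ P.m) ((f j * f i0 * (f j)⁻¹) ^ P.m))
    (h2 : ∀ j ∈ idx tri i0, ∀ l ∈ idx tri i0, ∀ y,
      (y = cm (f i0 ^ P.m) (f j * f i0 ^ P.m * (f j)⁻¹) ∨
        y = cm (f i0 ^ P.m) (cm (f i0 ^ P.m) (f j * f i0 ^ P.m * (f j)⁻¹))) →
      S.Elem (y ^ P.m) ((f l * y * (f l)⁻¹) ^ P.m)) : FinReal tri i0 := by
  have ha : f i0 ^ P.m ≠ 1 := fun h => h0 (I.tf _ _ P.m_ne h)
  simp only [conj_pow] at h1 h2
  obtain ⟨s, hs, hs1, -⟩ := h1 i0 (idx_zero tri i0)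
  rcases hs with ⟨v, rfl⟩ | hs
  · obtain ⟨b, hb⟩ := I.surj (f i0 ^ P.m)
    obtain ⟨k, hk, hv⟩ := I.s1 b v v (hb ▸ hs1)
    set a := k * b
    have hπ : S.π a = f i0 ^ P.m := by rw [map_mul, hk, one_mul, hb]
    have ha1 : a ≠ 1 := fun h => ha (by rw [← hπ, h, map_one])
    obtain ⟨z, hz⟩ := base_td hn a ha1 v hv
    by_cases hall : ∀ j ∈ idx tri i0, ∃ u : G0 n, S.π u = f j ∧ u • z = z
    · exact I.finReal_of_fix hf h0 z hall
    push Not at hall
    obtain ⟨j, hj, hall⟩ := hall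
    obtain ⟨u, w, hu, hw1, hw2⟩ := I.lift_pair hv ha1 (g := f j) (hπ ▸ h1 j hj)
    obtain ⟨y, hy, p, hp⟩ := (hz u w hw1 hw2).resolve_left (hall u hu)
    obtain ⟨hy1, hy2⟩ := hp P.m P.m_ne
    refine I.finReal_of_fix hf h0 p fun l hl => ?_
    obtain ⟨u', w', hu', hw3, hw4⟩ := I.lift_pair ((hy2 p).2 rfl) hy1 (g := f l) (by
      rw [map_pow]
      refine h2 j hj l hl _ ?_
      rcases hy with rfl | rfl
      · left; simp only [map_cm, map_mul, map_inv, hπ, hu]
      · right; simp only [map_cm, map_mul, map_inv, hπ, hu])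
    obtain rfl := (hy2 w').1 hw3
    refine ⟨u', hu', ?_⟩
    rw [mul_smul, mul_smul, smul_eq_iff_eq_inv_smul] at hw4
    exact (inv_smul_eq_iff.1 ((hy2 _).1 hw4)).symm
  · have h3 : ∀ j ∈ idx tri i0, f j • s = s := fun j hj => by
      obtain ⟨s', hs', h4, h5⟩ := h1 j hj
      obtain rfl := I.k0 _ ha s hs s' hs' hs1 h4
      rw [mul_smul, mul_smul, smul_eq_iff_eq_inv_smul] at h5
      exact (inv_smul_eq_iff.1 (I.k0 _ ha s' hs _ (I.Sp_smul _ hs') hs1 h5)).symm
    exact finReal_of_comm hf h0 fun j hj l hl => I.E_comm s hs _ _ (h3 j hj) (h3 l hl)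

end stage

end Pool.Agent.QIB
end

-- merged part: Pool.Agent.Work.MP_9628a2_al.Limit
section
set_option autoImplicit false

namespace Pool.Agent.QIB

/-- The sequence of stages. -/
structure Tower (P : Par) : Type 1 where
  A : ℕ → Stg P vb (gam P.n) (gam P.n 1)
  φ : ∀ k, (A k).G →* (A (k + 1)).G
  tr : ∀ k, Trans P vb (gam P.n) (A k).S (A (k + 1)).S (φ k)
  cut : ∀ (tri : List (ℕ × ℕ × ℕ)), tri.length ≤ P.T → ∀ (i0 : ℕ) (f : ℕ → (A 0).G),
    Sat f tri → f i0 ≠ 1 → FinReal tri i0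
  surv : ∀ g : G0 P.n, g ≠ 1 → d vb (g • vb) ≤ P.R →
    (A 0).S.π g ≠ 1 ∧ d ((A 0).S.ι vb) ((A 0).S.π g • (A 0).S.ι vb) ≤ P.R

/-- The stages, by recursion. -/
noncomputable def stg (P : Par) : ℕ → Stg P vb (gam P.n) (gam P.n 1)
  | 0 => { G := G0 P.n, X := TT, S := SD0 P.n, inv := base_inv P }
  | k + 1 => Classical.choose (stg P k).step

theorem exists_tower (P : Par) : Nonempty (Tower P) :=
  ⟨{ A := stg P
     φ := fun k => Classical.choose (Classical.choose_spec (stg P k).step)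
     tr := fun k => Classical.choose_spec (Classical.choose_spec (stg P k).step)
     cut := fun tri hT i0 f hf h0 => base_cut P.n P.T P.hn tri hT i0 f hf h0
     surv := fun _ h1 h2 => ⟨h1, h2⟩ }⟩

theorem Par.two_le (P : Par) : 2 ≤ P.n := by have := P.hn; omega

theorem Par.one_le_ε0 (P : Par) : 1 ≤ P.ε0 := by have := P.hε0; have := P.one_le; omega

theorem Par.two_le_R (P : Par) : 2 ≤ P.R := by have := P.hR; omega

theorem Par.len_le (P : Par) : P.W1.length * 4 ≤ P.R := by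
  have h1 := P.hW1.length_le
  have h2 := Nat.mul_le_mul_left (4 * (wlen P.W1 + wlen P.W2 + 1)) P.one_le_ε0
  have := P.hε3; have := P.hε4; have := P.hρ; have := P.hA'; have := P.hA; have := P.hR
  omega

theorem Par.wd_ne (P : Par) : wd P.W1 ≠ 1 := fun h => P.hW (by rw [h, one_mul, mul_one])

theorem exists_forall_list {α : Type} {p : ℕ → α → Prop} (hp : ∀ k a, p k a → p (k + 1) a)
    (l : List α) (h : ∀ a ∈ l, ∃ k, p k a) : ∃ k0, ∀ k, k0 ≤ k → ∀ a ∈ l, p k a := by
  have hm : ∀ a k k', k ≤ k' → p k a → p k' a := fun a k k' hk h => by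
    induction hk with
    | refl => exact h
    | step _ ih => exact hp _ _ ih
  induction l with
  | nil => exact ⟨0, by simp⟩
  | cons a l ih =>
    obtain ⟨k1, h1⟩ := h a (List.mem_cons_self ..)
    obtain ⟨k2, h2⟩ := ih fun b hb => h b (List.mem_cons_of_mem _ hb)
    refine ⟨max k1 k2, fun k hk b hb => ?_⟩
    rcases List.mem_cons.1 hb with rfl | hb
    · exact hm _ _ _ (le_of_max_le_left hk) h1
    · exact h2 k (le_of_max_le_right hk) b hb

namespace Tower

variable {P : Par} (W : Tower P)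

/-- The map to the `k`-th stage. -/
abbrev π (k : ℕ) : G0 P.n →* (W.A k).G := (W.A k).S.π

/-- The displacement of the base point at the `k`-th stage. -/
noncomputable def D (k : ℕ) (g : G0 P.n) : ℕ := d ((W.A k).S.ι vb) (W.π k g • (W.A k).S.ι vb)

theorem π_succ (k : ℕ) (g : G0 P.n) : W.π (k + 1) g = W.φ k (W.π k g) := (W.tr k).comp g

theorem ker_mono : Monotone fun k => (W.π k).ker :=
  monotone_nat_of_le_succ fun k g hg => by
    rw [MonoidHom.mem_ker] at hg ⊢
    rw [π_succ, hg, map_one]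

/-- The kernel of the map to the limit. -/
noncomputable def K : Subgroup (G0 P.n) := ⨆ k, (W.π k).ker

theorem mem_K {g : G0 P.n} : g ∈ W.K ↔ ∃ k, W.π k g = 1 :=
  Subgroup.mem_iSup_of_directed W.ker_mono.directed_le

instance : W.K.Normal := ⟨fun g hg u => by
  obtain ⟨k, hk⟩ := W.mem_K.1 hg
  exact W.mem_K.2 ⟨k, by simp [hk]⟩⟩

/-- The limit group. -/
abbrev H : Type := G0 P.n ⧸ W.K

/-- The map to the limit. -/
noncomputable def p : G0 P.n →* W.H := QuotientGroup.mk' W.K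

theorem p_surj : Function.Surjective W.p := QuotientGroup.mk'_surjective _

theorem p_eq_one {g : G0 P.n} : W.p g = 1 ↔ ∃ k, W.π k g = 1 :=
  (QuotientGroup.eq_one_iff g).trans W.mem_K

theorem exists_ψ (k : ℕ) : ∃ ψ : (W.A k).G →* W.H, ∀ g, ψ (W.π k g) = W.p g :=
  ⟨(W.π k).liftOfSurjective (W.A k).inv.surj ⟨W.p, fun _ hg => W.p_eq_one.2 ⟨k, hg⟩⟩,
    fun g => MonoidHom.liftOfRightInverse_comp_apply _ _ _ _ g⟩

theorem D_succ (k : ℕ) (g : G0 P.n) (t : ℕ) (h : W.D k g ≤ t * P.R) : W.D (k + 1) g ≤ t := by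
  have := (W.tr k).shrink (W.π k g) t h
  rwa [← π_succ] at this

theorem D_one (k : ℕ) (g : G0 P.n) (h : W.D k g ≤ 1) : W.D (k + 1) g ≤ 1 :=
  W.D_succ k g 1 (by have := P.two_le_R; omega)

theorem exists_D (g : G0 P.n) : ∃ k, W.D k g ≤ 1 := by
  have : ∀ t k, W.D k g ≤ t + 1 → ∃ k, W.D k g ≤ 1 := fun t => by
    induction t with
    | zero => exact fun k h => ⟨k, h⟩
    | succ t ih =>
      refine fun k h => ih (k + 1) (W.D_succ k g _ (h.trans ?_))
      have := Nat.mul_le_mul_left (t + 1) P.two_le_R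
      omega
  exact this _ 0 (Nat.le_succ _)

theorem p_ne {g : G0 P.n} (h1 : g ≠ 1) (h2 : d vb (g • vb) ≤ P.R) : W.p g ≠ 1 := by
  have : ∀ k, W.π k g ≠ 1 ∧ W.D k g ≤ P.R := fun k => by
    induction k with
    | zero => exact W.surv g h1 h2
    | succ k ih =>
      refine ⟨?_, (W.D_succ k g 1 (by rw [one_mul]; exact ih.2)).trans
        (by have := P.two_le_R; omega)⟩
      rw [π_succ]
      exact (W.tr k).inj _ ih.1 ih.2
  intro h
  obtain ⟨k, hk⟩ := W.p_eq_one.1 h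
  exact (this k).1 hk

theorem short_ne {i : ℕ} (hi : i ≠ 0) :
    W.p (evl (FreeGroup.lift (gam P.n) (wY P.n) ^ i) (FreeGroup.lift (gam P.n) (wY' P.n) ^ i)
      P.W1) ≠ 1 := by
  obtain ⟨v1, hv, h⟩ := base_pp P.two_le
  obtain ⟨A, B, h⟩ := h i hi
  refine W.p_ne ?_ ((d_evl_le' _ _ vb 4 (fun j => ?_) (fun j => ?_) _).trans P.len_le)
  · rw [← ev_wd]; exact pp_inj tree_hyp h _ P.wd_ne
  · rw [MulAction.mem_fixedBy.1 (MulAction.mem_fixedBy_zpow h.ha j), d_self]; omega
  · have := d_move_le ((FreeGroup.lift (gam P.n) (wY' P.n) ^ i) ^ j) vb v1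
    rw [MulAction.mem_fixedBy.1 (MulAction.mem_fixedBy_zpow h.hb j), d_self] at this
    omega

/-- The pair is elementary at the `k`-th stage. -/
def El (k : ℕ) (a b : G0 P.n) : Prop := (W.A k).S.Elem (W.π k a ^ P.m) (W.π k b ^ P.m)

theorem El.succ {k : ℕ} {a b : G0 P.n} (h : W.El k a b) : W.El (k + 1) a b := by
  have := (W.tr k).elem _ _ h
  rwa [map_pow, map_pow, ← π_succ, ← π_succ] at this

/-- The pair is treated in the limit. -/
def Tr (a b : W.H) : Prop :=
  Treated P (fun i => W.p (gam P.n i)) (evl (a ^ P.m) (b ^ P.m) P.W1) (evl (a ^ P.m) (b ^ P.m) P.W2)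

theorem tr_of_stage {k : ℕ} {a b : G0 P.n} (h : Treated P (fun i => W.π k (gam P.n i))
    (evl (W.π k a ^ P.m) (W.π k b ^ P.m) P.W1) (evl (W.π k a ^ P.m) (W.π k b ^ P.m) P.W2)) :
    W.Tr (W.p a) (W.p b) := by
  obtain ⟨ψ, hψ⟩ := W.exists_ψ k
  have := h.map ψ
  simpa only [Tr, map_evl, map_pow, hψ] using this

theorem dich (a b : G0 P.n) : (∃ k, W.El k a b) ∨ W.Tr (W.p a) (W.p b) := by
  obtain ⟨k, hk⟩ := exists_forall_list (p := fun k g => W.D k g ≤ 1) W.D_one
    [a ^ P.m, b ^ P.m, evl (a ^ P.m) (b ^ P.m) P.W1] fun g _ => W.exists_D g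
  have h1 := (hk (k + 1) (by omega) (a ^ P.m) (by simp)).trans P.one_le_ε0
  have h2 := (hk (k + 1) (by omega) (b ^ P.m) (by simp)).trans P.one_le_ε0
  have h3 := (W.tr k).short _ (hk k le_rfl (evl (a ^ P.m) (b ^ P.m) P.W1) (by simp))
  rw [← π_succ, map_evl, map_pow, map_pow] at h3
  rw [D, map_pow] at h1 h2
  rcases (W.A (k + 1)).inv.i3 _ _ _ h1 h2 with h | h | h | h
  · exact Or.inl ⟨_, h⟩
  · exact Or.inr (W.tr_of_stage h)
  · have := (W.tr (k + 1)).ready _ _ h
    simp only [map_evl, map_pow, ← π_succ] at this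
    exact Or.inr (W.tr_of_stage this)
  · exact absurd h3 h.1

theorem ev_of_el {k : ℕ} {a b : G0 P.n} (h : W.El k a b) {l : List (Bool × ℤ)}
    (hl : wd l ∈ derivedSeries (FreeGroup Bool) 2) : evl (W.p a ^ P.m) (W.p b ^ P.m) l = 1 := by
  obtain ⟨ψ, hψ⟩ := W.exists_ψ k
  have := congrArg ψ ((W.A k).inv.ev_of_elem h hl)
  rwa [ev_wd, map_evl, map_pow, map_pow, hψ, hψ, map_one] at this

theorem finReal (tri : List (ℕ × ℕ × ℕ)) (hT : tri.length ≤ P.T) (i0 k : ℕ) :
    ∀ f : ℕ → (W.A k).G, Sat f tri → f i0 ≠ 1 → FinReal tri i0 := by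
  induction k with
  | zero => exact W.cut tri hT i0
  | succ k ih =>
    intro f hf h0
    obtain ⟨f', h1, h2⟩ := (W.tr k).lift tri hT f hf
    exact ih f' h2 fun h => h0 (by rw [← h1, h, map_one])

theorem exists_sat {tri : List (ℕ × ℕ × ℕ)} {F : ℕ → G0 P.n} (h : Sat (fun i => W.p (F i)) tri) :
    ∃ k0, ∀ k, k0 ≤ k → Sat (fun i => W.π k (F i)) tri := by
  refine exists_forall_list
    (p := fun k (t : ℕ × ℕ × ℕ) => W.π k (F t.1) * W.π k (F t.2.1) = W.π k (F t.2.2))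
    (fun k t h => by rw [π_succ, π_succ, π_succ, ← map_mul, h]) tri fun t ht => ?_
  obtain ⟨k, hk⟩ := (W.p_eq_one (g := F t.1 * F t.2.1 * (F t.2.2)⁻¹)).1 (by
    rw [map_mul, map_mul, map_inv, mul_inv_eq_one]; exact h t ht)
  exact ⟨k, by rwa [map_mul, map_mul, map_inv, mul_inv_eq_one] at hk⟩

end Tower

/-- The two-letter words that are substituted for the witness generators. -/
def vP (P : Par) (i : ℕ) : FreeGroup Bool :=
  vw P.N P.k0 i (evl (FreeGroup.of true ^ P.m) (FreeGroup.of false ^ P.m) P.W1)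
    (evl (FreeGroup.of true ^ P.m) (FreeGroup.of false ^ P.m) P.W2)

/-- The conclusion of the sentence. -/
def ωP (P : Par) : FreeGroup ℕ := evl (wY P.n) (wY' P.n) P.W1

theorem ev_vP (P : Par) {G : Type} [Group G] (a b : G) (i : ℕ) : ev a b (vP P i) =
    vw P.N P.k0 i (evl (a ^ P.m) (b ^ P.m) P.W1) (evl (a ^ P.m) (b ^ P.m) P.W2) := by
  simp only [vP, map_vw, map_evl, map_pow, ev_true, ev_false]

theorem lift_ωP (P : Par) {G : Type} [Group G] (x : ℕ → G) : FreeGroup.lift x (ωP P) =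
    evl (FreeGroup.lift x (wY P.n)) (FreeGroup.lift x (wY' P.n)) P.W1 := map_evl _ _ _ _

/-- The test pairs of a pattern. -/
def tests (m : ℕ) (tri : List (ℕ × ℕ × ℕ)) (i0 : ℕ) : List (FreeGroup ℕ × FreeGroup ℕ) :=
  (FreeGroup.of i0 :: (idx tri i0).flatMap fun j =>
    [cm (FreeGroup.of i0 ^ m) (FreeGroup.of j * FreeGroup.of i0 ^ m * (FreeGroup.of j)⁻¹),
      cm (FreeGroup.of i0 ^ m) (cm (FreeGroup.of i0 ^ m)
        (FreeGroup.of j * FreeGroup.of i0 ^ m * (FreeGroup.of j)⁻¹))]).flatMap fun y =>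
    (idx tri i0).map fun l => (y, FreeGroup.of l * y * (FreeGroup.of l)⁻¹)

theorem tests_mem (m : ℕ) (tri : List (ℕ × ℕ × ℕ)) (i0 : ℕ) : ∀ t ∈ tests m tri i0,
    t.1 ∈ Subgroup.normalClosure {FreeGroup.of i0} ∧
      t.2 ∈ Subgroup.normalClosure {FreeGroup.of i0} := by
  set N := Subgroup.normalClosure {FreeGroup.of i0}
  have hN : N.Normal := Subgroup.normalClosure_normal
  have h0 : FreeGroup.of i0 ∈ N := Subgroup.subset_normalClosure rfl
  have hc : ∀ a ∈ N, ∀ b, cm a b ∈ N := fun a ha b => by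
    have := N.mul_mem ha (hN.conj_mem _ (N.inv_mem ha) b)
    simpa only [cm, mul_assoc] using this
  intro t ht
  simp only [tests, List.mem_flatMap, List.mem_map, List.mem_cons, List.not_mem_nil,
    or_false] at ht
  obtain ⟨y, hy, l, -, rfl⟩ := ht
  have : y ∈ N := by
    rcases hy with rfl | ⟨j, -, rfl | rfl⟩
    · exact h0
    · exact hc _ (N.pow_mem h0 m) _
    · exact hc _ (N.pow_mem h0 m) _
  exact ⟨this, hN.conj_mem _ this _⟩

namespace Tower

variable {P : Par} (W : Tower P)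

theorem hold_gam : Hold (fun i => W.p (gam P.n i)) (rels P.n) := fun r hr => by
  rw [← map_lift, rels_hold P.n r hr, map_one]

theorem ω_ne : FreeGroup.lift (fun i => W.p (gam P.n i)) (ωP P) ≠ 1 := by
  have := W.short_ne one_ne_zero
  rwa [pow_one, pow_one, ← lift_ωP, map_lift] at this

theorem Tr.spec {a b : W.H} (h : W.Tr a b) : Hold (fun i => ev a b (vP P i)) (rels P.n) ∧
    FreeGroup.lift (fun i => ev a b (vP P i)) (ωP P) ≠ 1 := by
  obtain ⟨u, hu⟩ := h
  obtain ⟨h1, h2, h3⟩ := rels_congr P.n P.two_le (fun i => ev a b (vP P i))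
    (fun i => (MulAut.conj u).toMonoidHom (W.p (gam P.n i))) fun i hi => by
      rw [ev_vP]; exact hu i hi
  refine ⟨fun r hr => ?_, ?_⟩
  · rw [h1 r hr, ← map_lift, W.hold_gam r hr, map_one]
  · rw [lift_ωP, h2, h3, ← lift_ωP, ← map_lift]
    exact fun h => W.ω_ne ((MulAut.conj u).injective (h.trans (map_one _).symm))

theorem relv (h1 : wd P.W1 ∈ derivedSeries (FreeGroup Bool) 2)
    (h2 : wd P.W2 ∈ derivedSeries (FreeGroup Bool) 2) (a b : W.H) :
    Hold (fun i => ev a b (vP P i)) (rels P.n) := by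
  obtain ⟨a, rfl⟩ := W.p_surj a
  obtain ⟨b, rfl⟩ := W.p_surj b
  rcases W.dich a b with ⟨k, h⟩ | h
  · intro r _
    simp only [ev_vP, W.ev_of_el h h1, W.ev_of_el h h2, vw_one, lift_one]
  · exact h.spec.1

theorem exists_tr (h1 : wd P.W1 ∈ derivedSeries (FreeGroup Bool) 2) : ∃ a b, W.Tr a b := by
  refine ⟨_, _, (W.dich (FreeGroup.lift (gam P.n) (wY P.n))
    (FreeGroup.lift (gam P.n) (wY' P.n))).resolve_left ?_⟩
  rintro ⟨k, h⟩
  refine W.short_ne P.m_ne ?_
  rw [map_evl, map_pow, map_pow]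
  exact W.ev_of_el h h1

theorem key (tri : List (ℕ × ℕ × ℕ)) (i0 : ℕ) (hn : ¬ FinReal tri i0) (f : ℕ → W.H)
    (hf : Sat f tri) (h0 : f i0 ≠ 1) : ∃ t ∈ tests P.m tri i0, FreeGroup.lift
      (fun i => ev (FreeGroup.lift f t.1) (FreeGroup.lift f t.2) (vP P i)) (ωP P) ≠ 1 := by
  by_contra hc
  push Not at hc
  choose F hF using fun i => W.p_surj (f i)
  obtain rfl : f = fun i => W.p (F i) := funext fun i => (hF i).symm
  obtain ⟨k1, hk1⟩ := W.exists_sat hf
  obtain ⟨k2, hk2⟩ := exists_forall_list (p := fun k (t : FreeGroup ℕ × FreeGroup ℕ) =>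
    W.El k (FreeGroup.lift F t.1) (FreeGroup.lift F t.2)) (fun k t h => h.succ)
    (tests P.m tri i0) fun t ht => (W.dich _ _).resolve_right fun h => h.spec.2 (by
      rw [map_lift W.p F, map_lift W.p F]
      exact hc t ht)
  have h1 := hk2 (max k1 k2) (le_max_right _ _)
  have h2 : ∀ y ∈ FreeGroup.of i0 :: (idx tri i0).flatMap fun j =>
      [cm (FreeGroup.of i0 ^ P.m) (FreeGroup.of j * FreeGroup.of i0 ^ P.m * (FreeGroup.of j)⁻¹),
        cm (FreeGroup.of i0 ^ P.m) (cm (FreeGroup.of i0 ^ P.m)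
          (FreeGroup.of j * FreeGroup.of i0 ^ P.m * (FreeGroup.of j)⁻¹))], ∀ l ∈ idx tri i0,
      W.El (max k1 k2) (FreeGroup.lift F y)
        (FreeGroup.lift F (FreeGroup.of l * y * (FreeGroup.of l)⁻¹)) := fun y hy l hl =>
    h1 (y, _) (List.mem_flatMap.2 ⟨y, hy, List.mem_map.2 ⟨l, hl, rfl⟩⟩)
  refine hn ((W.A (max k1 k2)).inv.key P.two_le (hk1 _ (le_max_left _ _))
    (fun h => h0 (W.p_eq_one.2 ⟨_, h⟩)) (fun j hj => ?_) fun j hj l hl y hy => ?_)
  · simpa only [El, map_mul, map_inv, FreeGroup.lift_apply_of] using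
      h2 _ (List.mem_cons_self ..) j hj
  · rcases hy with rfl | rfl
    · simpa only [El, map_mul, map_inv, map_pow, map_cm, FreeGroup.lift_apply_of] using
        h2 _ (List.mem_cons_of_mem _ (List.mem_flatMap.2 ⟨j, hj, List.mem_cons_self ..⟩)) l hl
    · simpa only [El, map_mul, map_inv, map_pow, map_cm, FreeGroup.lift_apply_of] using
        h2 _ (List.mem_cons_of_mem _ (List.mem_flatMap.2
          ⟨j, hj, List.mem_cons_of_mem _ (List.mem_cons_self ..)⟩)) l hl

end Tower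

theorem ωP_fin (P : Par) (h1 : wd P.W1 ∈ derivedSeries (FreeGroup Bool) 2) (Q : Type) [Group Q]
    [Finite Q] (x : ℕ → Q) (hx : Hold x (rels P.n)) : FreeGroup.lift x (ωP P) = 1 := by
  rw [lift_ωP, ← ev_wd]
  exact ev_of_comm (rels_fin P.n P.two_le x hx) h1

theorem Tower.law {P : Par} (W : Tower P) (h1 : wd P.W1 ∈ derivedSeries (FreeGroup Bool) 2)
    (h2 : wd P.W2 ∈ derivedSeries (FreeGroup Bool) 2) : ∃ w, w ≠ 1 ∧ IsLaw W.H w := by
  by_cases h : ∀ r ∈ rels P.n, FreeGroup.lift (vP P) r = 1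
  · exfalso
    obtain ⟨a, b, hab⟩ := W.exists_tr h1
    refine hab.spec.2 ?_
    have : FreeGroup.lift (vP P) (ωP P) = 1 := by
      by_contra hw
      obtain ⟨Q, _, _, c, e, hce⟩ := free_rf _ hw
      refine hce ?_
      rw [map_lift]
      exact ωP_fin P h1 Q _ fun r hr => by rw [← map_lift, h r hr, map_one]
    rw [← map_lift, this, map_one]
  · push Not at h
    obtain ⟨r, hr, h⟩ := h
    exact ⟨_, h, fun a b => by rw [map_lift]; exact W.relv h1 h2 a b r hr⟩

theorem exists_cover (w0 : FreeGroup Bool) (h : w0 ≠ 1) (T : ℕ) : Nonempty (Cover w0 T) := by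
  obtain ⟨W1, W2, a1, a2, a3, b1, b2, c1, c2⟩ := exists_words w0 h
  obtain ⟨P, rfl, rfl, rfl⟩ := exists_par W1 W2 a1 a2 a3 T
  obtain ⟨W⟩ := exists_tower P
  refine ⟨{
    H := W.H
    rl := rels P.n
    ω := ωP P
    v := vP P
    fin := ωP_fin P c1
    fail := ⟨_, W.hold_gam, W.ω_ne⟩
    law_ω := fun G _ hG x => by rw [lift_ωP, ← ev_wd]; exact hG.of_mem b1 _ _
    law_v := fun G _ hG i a b => by
      rw [ev_vP, ← ev_wd, ← ev_wd, hG.of_mem b1, hG.of_mem b2, vw_one]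
    small := fun tri i0 f hT hf h0 => ?_
    law := W.law c1 c2
    relv := W.relv c1 c2
    key := fun tri i0 hn => ⟨tests P.m tri i0, tests_mem _ _ _, W.key tri i0 hn⟩ }⟩
  choose F hF using fun i => W.p_surj (f i)
  obtain rfl : f = fun i => W.p (F i) := funext fun i => (hF i).symm
  obtain ⟨k, hk⟩ := W.exists_sat hf
  exact W.finReal tri hT i0 k _ (hk k le_rfl) fun h => h0 (W.p_eq_one.2 ⟨k, h⟩)

end Pool.Agent.QIB
end
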