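import Mathlib

set_option autoImplicit false

namespace Pool.Agent.QIB

/-- The unit `2 + √3`. -/
def xu : (ℤ√3)ˣ := ⟨⟨2, 1⟩, ⟨2, -1⟩, by decide, by decide⟩

/-- Its integer powers, as ring elements. -/
def xp (k : ℤ) : ℤ√3 := ((xu ^ k : (ℤ√3)ˣ) : ℤ√3)

theorem xp_zero : xp 0 = 1 := by simp [xp]

theorem xp_add (k l : ℤ) : xp (k + l) = xp k * xp l := by simp [xp, zpow_add]

theorem xp_one : xp 1 = ⟨2, 1⟩ := by simp [xp, xu]

/-- The vertex group, a semidirect product. -/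
@[ext] structure VG where
  a : ℤ√3
  k : ℤ

instance : Mul VG := ⟨fun u v => ⟨u.a + xp u.k * v.a, u.k + v.k⟩⟩
instance : One VG := ⟨⟨0, 0⟩⟩
instance : Inv VG := ⟨fun u => ⟨-(xp (-u.k) * u.a), -u.k⟩⟩

@[simp] theorem VG.mul_a (u v : VG) : (u * v).a = u.a + xp u.k * v.a := rfl
@[simp] theorem VG.mul_k (u v : VG) : (u * v).k = u.k + v.k := rfl
@[simp] theorem VG.one_a : (1 : VG).a = 0 := rfl
@[simp] theorem VG.one_k : (1 : VG).k = 0 := rfl
@[simp] theorem VG.inv_a (u : VG) : u⁻¹.a = -(xp (-u.k) * u.a) := rfl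
@[simp] theorem VG.inv_k (u : VG) : u⁻¹.k = -u.k := rfl

instance : Group VG where
  mul_assoc u v w := by
    ext1
    · simp only [VG.mul_a, VG.mul_k, xp_add]; ring
    · simp only [VG.mul_k]; ring
  one_mul u := by ext1 <;> simp [xp_zero]
  mul_one u := by ext1 <;> simp
  inv_mul_cancel u := by ext1 <;> simp

/-- The generator of the torus. -/
def VG.e : VG := ⟨1, 0⟩

/-- The translation generator. -/
def VG.t : VG := ⟨0, 1⟩

/-- The second generator of the torus. -/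
def VG.g : VG := ⟨⟨0, 1⟩, 0⟩

/-- The lower edge group. -/
def Cm : Subgroup VG := Subgroup.zpowers (VG.e ^ 9)

/-- The upper edge group. -/
def Cp : Subgroup VG := Subgroup.zpowers VG.t

theorem tor_zpow (a : ℤ√3) (j : ℤ) : (⟨a, 0⟩ : VG) ^ j = ⟨j * a, 0⟩ := by
  induction j using Int.induction_on with
  | zero => ext1 <;> simp
  | succ i ih =>
    rw [zpow_add_one, ih]
    ext1
    · simp [xp_zero, add_mul]
    · simp
  | pred i ih =>
    rw [zpow_sub_one, ih]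
    ext1
    · simp [xp_zero, sub_eq_add_neg, add_mul]
    · simp

theorem t_zpow (j : ℤ) : VG.t ^ j = ⟨0, j⟩ := by
  induction j using Int.induction_on with
  | zero => ext1 <;> simp
  | succ i ih =>
    rw [zpow_add_one, ih]
    ext1 <;> simp [VG.t]
  | pred i ih =>
    rw [zpow_sub_one, ih]
    ext1 <;> simp [VG.t, sub_eq_add_neg]

theorem zpow_k (u : VG) (j : ℤ) : (u ^ j).k = j * u.k := by
  induction j using Int.induction_on with
  | zero => simp
  | succ i ih => rw [zpow_add_one, VG.mul_k, ih]; ring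
  | pred i ih => rw [zpow_sub_one, VG.mul_k, VG.inv_k, ih]; ring

theorem e9_zpow (j : ℤ) : (VG.e ^ 9) ^ j = ⟨9 * j, 0⟩ := by
  rw [← zpow_natCast, ← zpow_mul, VG.e, tor_zpow]
  simp

theorem mem_Cm {v : VG} : v ∈ Cm ↔ ∃ j : ℤ, v = ⟨9 * j, 0⟩ := by
  rw [Cm, Subgroup.mem_zpowers_iff]
  simp only [e9_zpow]
  exact exists_congr fun _ => eq_comm

theorem mem_Cp {v : VG} : v ∈ Cp ↔ v.a = 0 := by
  rw [Cp, Subgroup.mem_zpowers_iff]
  simp only [t_zpow]
  constructor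
  · rintro ⟨j, rfl⟩
    rfl
  · intro h
    exact ⟨v.k, VG.ext h.symm rfl⟩

theorem exists_phi : ∃ φ : Cm ≃* Cp, ∀ (j : ℤ) (a : Cm), (a : VG) = ⟨9 * j, 0⟩ →
    (φ a : VG) = ⟨0, j⟩ := by
  refine ⟨MulEquiv.symm
    { toFun := fun b => ⟨⟨9 * (b.1.k : ℤ√3), 0⟩, mem_Cm.2 ⟨_, rfl⟩⟩
      invFun := fun a => ⟨⟨0, a.1.a.re / 9⟩, mem_Cp.2 rfl⟩
      left_inv := fun b => Subtype.ext (VG.ext (mem_Cp.1 b.2).symm (by simp))
      right_inv := fun a => Subtype.ext (by
        obtain ⟨j, h⟩ := mem_Cm.1 a.2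
        simp [h])
      map_mul' := fun a b => Subtype.ext (VG.ext (by simp [xp_zero, mul_add]) (by simp)) },
    fun j a h => ?_⟩
  change (⟨0, a.1.a.re / 9⟩ : VG) = _
  simp [h]

/-- The isomorphism of the edge groups. -/
noncomputable def phi : Cm ≃* Cp := Classical.choose exists_phi

theorem phi_spec (j : ℤ) (a : Cm) (h : (a : VG) = ⟨9 * j, 0⟩) : (phi a : VG) = ⟨0, j⟩ :=
  Classical.choose_spec exists_phi j a h

theorem norm_xp (k : ℤ) : (xp k).norm = 1 := by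
  induction k using Int.induction_on with
  | zero => simp [xp_zero]
  | succ i ih => rw [xp_add, Zsqrtd.norm_mul, ih, xp_one]; rfl
  | pred i ih =>
    have h : (xp (-(i : ℤ) - 1 + 1)).norm = 1 := by rw [sub_add_cancel, ih]
    rw [xp_add, Zsqrtd.norm_mul, xp_one, show (⟨2, 1⟩ : ℤ√3).norm = 1 from rfl, mul_one] at h
    exact h

theorem xp_mul_neg (k : ℤ) : xp k * xp (-k) = 1 := by rw [← xp_add, add_neg_cancel, xp_zero]

theorem xp_neg_mul (k : ℤ) : xp (-k) * xp k = 1 := by rw [mul_comm, xp_mul_neg]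

theorem xp_neg (k : ℤ) : xp (-k) = star (xp k) := by
  have h := Zsqrtd.norm_eq_mul_conj (xp k)
  rw [norm_xp] at h
  calc xp (-k) = xp (-k) * (xp k * star (xp k)) := by rw [← h]; simp
    _ = star (xp k) := by rw [← mul_assoc, xp_neg_mul, one_mul]

theorem xp_succ_ge (i : ℕ) : 2 ≤ (xp ((i + 1 : ℕ) : ℤ)).re ∧ 1 ≤ (xp ((i + 1 : ℕ) : ℤ)).im := by
  induction i with
  | zero => simp [xp_one]
  | succ i ih =>
    rw [Nat.cast_succ, xp_add, xp_one, Zsqrtd.re_mul, Zsqrtd.im_mul]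
    constructor <;> simp only <;> omega

theorem norm_xp_sub {k : ℤ} (h : k ≠ 0) : (xp k - 1).norm < 0 := by
  have h1 := norm_xp k
  have h2 : 2 ≤ (xp k).re := by
    obtain ⟨i, rfl | rfl⟩ := Int.eq_nat_or_neg k
    · obtain ⟨i, rfl⟩ : ∃ j, i = j + 1 := ⟨i - 1, by omega⟩
      exact (xp_succ_ge i).1
    · obtain ⟨i, rfl⟩ : ∃ j, i = j + 1 := ⟨i - 1, by omega⟩
      rw [xp_neg, Zsqrtd.re_star]
      exact (xp_succ_ge i).1
  rw [Zsqrtd.norm_def] at h1 ⊢
  simp only [Zsqrtd.re_sub, Zsqrtd.im_sub, Zsqrtd.re_one, Zsqrtd.im_one]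
  linarith

theorem norm_ne_zero {a : ℤ√3} (h : a ≠ 0) : a.norm ≠ 0 := by
  intro h0
  refine h ((Zsqrtd.norm_eq_zero (fun n hn => ?_) a).1 h0)
  have h1 : n < 2 := by nlinarith
  have h2 : -2 < n := by nlinarith
  interval_cases n <;> omega

theorem z3_mul_eq_zero {a b : ℤ√3} (h : a * b = 0) : a = 0 ∨ b = 0 := by
  by_contra hh
  rw [not_or] at hh
  have := congrArg Zsqrtd.norm h
  rw [Zsqrtd.norm_mul, Zsqrtd.norm_zero] at this
  exact mul_ne_zero (norm_ne_zero hh.1) (norm_ne_zero hh.2) this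

theorem z3_cast_ne {j : ℤ} (hj : j ≠ 0) : (j : ℤ√3) ≠ 0 := fun h =>
  hj (by simpa using congrArg Zsqrtd.re h)

theorem xp_ne_zero (k : ℤ) : xp k ≠ 0 := fun h => by
  have := norm_xp k
  rw [h, Zsqrtd.norm_zero] at this
  exact zero_ne_one this

theorem xp_sub_ne {k : ℤ} (h : k ≠ 0) : xp k - 1 ≠ 0 := fun e => by
  have := norm_xp_sub h
  rw [e, Zsqrtd.norm_zero] at this
  exact lt_irrefl _ this

/-- The height of an element of the vertex group, as a homomorphism. -/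
def VG.kHom : VG →* Multiplicative ℤ where
  toFun u := Multiplicative.ofAdd u.k
  map_one' := rfl
  map_mul' _ _ := rfl

theorem VG.tf (u : VG) (j : ℤ) (hj : j ≠ 0) (h : u ^ j = 1) : u = 1 := by
  have hk : u.k = 0 := by
    have := zpow_k u j
    rw [h, VG.one_k] at this
    exact (mul_eq_zero.1 this.symm).resolve_left hj
  obtain ⟨a, k⟩ := u
  obtain rfl : k = 0 := hk
  rw [tor_zpow] at h
  exact VG.ext ((z3_mul_eq_zero (congrArg VG.a h)).resolve_left (z3_cast_ne hj)) rfl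

theorem VG.metab : derivedSeries VG 2 = ⊥ := by
  have h1 : derivedSeries VG 1 ≤ VG.kHom.ker := by
    rw [derivedSeries_one]
    exact Abelianization.commutator_subset_ker _
  rw [derivedSeries_succ, eq_bot_iff, Subgroup.commutator_le]
  intro a ha b hb
  have ha' : a.k = 0 := h1 ha
  have hb' : b.k = 0 := h1 hb
  rw [Subgroup.mem_bot, commutatorElement_eq_one_iff_mul_comm]
  ext1
  · simp [ha', hb', xp_zero, add_comm]
  · simp [add_comm]

/-- The upper edge group is malnormal. -/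
theorem Cp_mal {u a : VG} (hu : u ∈ Cp) (h1 : u ≠ 1) (h : a⁻¹ * u * a ∈ Cp) : a ∈ Cp := by
  rw [mem_Cp] at hu h ⊢
  have hk : u.k ≠ 0 := fun e => h1 (VG.ext hu e)
  simp only [VG.mul_a, VG.inv_a, VG.mul_k, VG.inv_k, hu, xp_add] at h
  have : xp (-a.k) * ((xp u.k - 1) * a.a) = 0 := by rw [← h]; ring
  exact (z3_mul_eq_zero ((z3_mul_eq_zero this).resolve_left (xp_ne_zero _))).resolve_left
    (xp_sub_ne hk)

/-- Roots of elements of the upper edge group lie in it. -/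
theorem Cp_root {u : VG} {j : ℤ} (hj : j ≠ 0) (h : u ^ j ∈ Cp) : u ∈ Cp := by
  rw [mem_Cp] at h ⊢
  by_cases hk : u.k = 0
  · obtain ⟨a, k⟩ := u
    obtain rfl : k = 0 := hk
    rw [tor_zpow] at h
    exact (z3_mul_eq_zero h).resolve_left (z3_cast_ne hj)
  · have e := congrArg VG.a (Commute.zpow_self u j).eq
    rw [VG.mul_a, VG.mul_a, h, zpow_k] at e
    have : (xp (j * u.k) - 1) * u.a = 0 := by linear_combination e
    exact (z3_mul_eq_zero this).resolve_left (xp_sub_ne (mul_ne_zero hj hk))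

/-- Ninth powers with a power in the lower edge group lie in it. -/
theorem Cm_root {u : VG} {m : ℕ} (hm : 9 ∣ m) {j : ℤ} (hj : j ≠ 0) (h : (u ^ m) ^ j ∈ Cm) :
    u ^ m ∈ Cm := by
  rcases Nat.eq_zero_or_pos m with rfl | h0
  · simp
  obtain ⟨i, hi⟩ := mem_Cm.1 h
  have hm0 : (m : ℤ) ≠ 0 := by omega
  rw [← zpow_natCast] at hi ⊢
  have hk : u.k = 0 := by
    have := congrArg VG.k hi
    rw [zpow_k, zpow_k] at this
    simpa [hj, h0.ne'] using this
  obtain ⟨a, k⟩ := u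
  obtain rfl : k = 0 := hk
  rw [tor_zpow] at hi ⊢
  rw [tor_zpow] at hi
  have h2 : a.im = 0 := by
    have := congrArg (fun v : VG => v.a.im) hi
    simpa [hj, h0.ne'] using this
  obtain ⟨c, rfl⟩ := hm
  refine mem_Cm.2 ⟨c * a.re, VG.ext ?_ rfl⟩
  ext <;> simp [h2, mul_assoc]

theorem exists_period (N : ℕ) (hN : 0 < N) : ∃ M : ℕ, 0 < M ∧ (N : ℤ√3) ∣ xp M - 1 := by
  have : NeZero N := ⟨hN.ne'⟩
  have key : ∀ k l : ℕ, k < l → (((xp k).re : ZMod N), ((xp k).im : ZMod N)) =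
      (((xp l).re : ZMod N), ((xp l).im : ZMod N)) →
      ∃ M : ℕ, 0 < M ∧ (N : ℤ√3) ∣ xp M - 1 := fun k l hkl h => by
    obtain ⟨M, rfl⟩ := Nat.exists_eq_add_of_lt hkl
    refine ⟨M + 1, M.succ_pos, ?_⟩
    have h1 : (N : ℤ√3) ∣ xp (k + M + 1 : ℕ) - xp k := by
      rw [← Int.cast_natCast, Zsqrtd.intCast_dvd]
      exact ⟨(ZMod.intCast_eq_intCast_iff_dvd_sub _ _ _).1 (congrArg Prod.fst h),
        (ZMod.intCast_eq_intCast_iff_dvd_sub _ _ _).1 (congrArg Prod.snd h)⟩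
    have h2 := h1.mul_left (xp (-k))
    rwa [mul_sub, xp_neg_mul, ← xp_add, show -(k : ℤ) + (k + M + 1 : ℕ) = (M + 1 : ℕ) by omega]
      at h2
  obtain ⟨k, l, hne, h⟩ := Finite.exists_ne_map_eq_of_infinite
    fun k : ℕ => (((xp k).re : ZMod N), ((xp k).im : ZMod N))
  rcases lt_or_gt_of_ne hne with hlt | hlt
  · exact key k l hlt h
  · exact key l k hlt h.symm

/-- Congruence subgroups of finite index. -/
theorem exists_cong (N M : ℕ) (hN : 0 < N) (hM : 0 < M) (h : (N : ℤ√3) ∣ xp M - 1) :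
    ∃ (Q : Type) (_ : Group Q) (_ : Finite Q) (f : VG →* Q), Function.Surjective f ∧
      ∀ u : VG, f u = 1 ↔ (N : ℤ√3) ∣ u.a ∧ (M : ℤ) ∣ u.k := by
  have hp : ∀ j : ℤ, (N : ℤ√3) ∣ xp (M * j) - 1 := fun j => by
    induction j using Int.induction_on with
    | zero => simp [xp_zero]
    | succ i ih =>
      have : xp (M * (i + 1)) - 1 = xp M * (xp (M * i) - 1) + (xp M - 1) := by
        rw [mul_add, mul_one, xp_add]; ring
      rw [this]
      exact (ih.mul_left _).add h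
    | pred i ih =>
      have : xp (M * (-i - 1)) - 1 = xp (-M) * ((xp (M * -i) - 1) - (xp M - 1)) := by
        rw [show (M : ℤ) * (-i - 1) = -M + M * -i by ring, xp_add]
        linear_combination xp_neg_mul M
      rw [this]
      exact (ih.sub h).mul_left _
  let W : Subgroup VG :=
    { carrier := {u | (N : ℤ√3) ∣ u.a ∧ (M : ℤ) ∣ u.k}
      mul_mem' := fun ha hb => ⟨ha.1.add (hb.1.mul_left _), ha.2.add hb.2⟩
      one_mem' := ⟨dvd_zero _, dvd_zero _⟩
      inv_mem' := fun ha => ⟨(ha.1.mul_left _).neg_right, ha.2.neg_right⟩ }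
  have hW : W.Normal := ⟨fun u hu g => by
    obtain ⟨h1, j, h2⟩ := hu
    refine ⟨?_, j, by simp [h2]⟩
    have : (g * u * g⁻¹).a = xp g.k * u.a - (xp (M * j) - 1) * g.a := by
      simp only [VG.mul_a, VG.inv_a, VG.mul_k, xp_add, h2]
      linear_combination (-(xp (M * j) * g.a)) * xp_mul_neg g.k
    rw [this]
    exact (h1.mul_left _).sub ((hp j).mul_right _)⟩
  have : NeZero N := ⟨hN.ne'⟩
  have : NeZero M := ⟨hM.ne'⟩
  have fin : Finite (VG ⧸ W) := by
    refine Finite.of_surjective (fun p : ZMod N × ZMod N × ZMod M =>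
      ((⟨⟨p.1.val, p.2.1.val⟩, p.2.2.val⟩ : VG) : VG ⧸ W)) fun q => ?_
    obtain ⟨u, rfl⟩ := QuotientGroup.mk_surjective q
    refine ⟨(u.a.re, u.a.im, u.k), QuotientGroup.eq.2 ⟨?_, ?_⟩⟩
    · simp only [VG.mul_a, VG.inv_a, VG.inv_k]
      rw [neg_add_eq_sub, ← mul_sub]
      refine Dvd.dvd.mul_left ?_ _
      rw [← Int.cast_natCast, Zsqrtd.intCast_dvd]
      constructor <;> exact (ZMod.intCast_eq_intCast_iff_dvd_sub _ _ _).1 (by simp)
    · simp only [VG.mul_k, VG.inv_k]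
      rw [neg_add_eq_sub]
      exact (ZMod.intCast_eq_intCast_iff_dvd_sub _ _ _).1 (by simp)
  exact ⟨VG ⧸ W, inferInstance, fin, QuotientGroup.mk' W, QuotientGroup.mk'_surjective W,
    fun u => QuotientGroup.eq_one_iff u⟩

theorem VG.rf (u : VG) (h : u ≠ 1) :
    ∃ (Q : Type) (_ : Group Q) (_ : Finite Q) (f : VG →* Q), f u ≠ 1 := by
  by_cases ha : u.a = 0
  · have hk : u.k ≠ 0 := fun e => h (VG.ext ha e)
    obtain ⟨Q, _, _, f, -, hf⟩ := exists_cong 1 (u.k.natAbs + 1) one_pos (Nat.succ_pos _) (by simp)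
    refine ⟨Q, inferInstance, inferInstance, f, fun e => ?_⟩
    have := Int.natAbs_le_of_dvd_ne_zero ((hf u).1 e).2 hk
    omega
  · obtain ⟨M, hM, h1⟩ := exists_period (u.a.re.natAbs + u.a.im.natAbs + 1) (Nat.succ_pos _)
    obtain ⟨Q, _, _, f, -, hf⟩ := exists_cong _ M (Nat.succ_pos _) hM h1
    refine ⟨Q, inferInstance, inferInstance, f, fun e => ha ?_⟩
    have h2 := ((hf u).1 e).1
    rw [← Int.cast_natCast, Zsqrtd.intCast_dvd] at h2
    ext
    · by_contra h3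
      have := Int.natAbs_le_of_dvd_ne_zero h2.1 h3
      omega
    · by_contra h3
      have := Int.natAbs_le_of_dvd_ne_zero h2.2 h3
      omega

end Pool.Agent.QIB
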