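import Mathlib

set_option autoImplicit false

namespace Pool.Agent.QIB

/-- A geodesic metric space with values in the naturals (a connected graph). -/
class GSp (X : Type) where
  d : X → X → ℕ
  d_self : ∀ x, d x x = 0
  d_comm : ∀ x y, d x y = d y x
  d_tri : ∀ x y z, d x z ≤ d x y + d y z
  eq_of_d : ∀ x y, d x y = 0 → x = y
  step : ∀ x y n, d x y = n + 1 → ∃ z, d x z = 1 ∧ d z y = n

export GSp (d d_self d_comm d_tri eq_of_d)

/-- The action is by isometries. -/
class Iso (G X : Type) [Group G] [MulAction G X] [GSp X] : Prop where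
  d_smul : ∀ (g : G) (x y : X), d (g • x) (g • y) = d x y

export Iso (d_smul)

section Defs
variable {X : Type} [GSp X]

/-- `p` lies on a geodesic from `x` to `y`. -/
def Btw (x p y : X) : Prop := d x p + d p y = d x y

/-- Four point condition. -/
def Hyp (X : Type) [GSp X] (δ : ℕ) : Prop :=
  ∀ x y z w : X, d x y + d z w ≤ max (d x z + d y w) (d x w + d y z) + δ

/-- Slim triangles, for intervals. -/
def Slim (X : Type) [GSp X] (s : ℕ) : Prop :=
  ∀ x y z p : X, Btw x p y → ∃ q, (Btw x q z ∨ Btw z q y) ∧ d p q ≤ s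

/-- A path of length at most `t` that avoids `c`. -/
inductive Reach (c : X) : ℕ → X → X → Prop
  | refl (t : ℕ) (u : X) : u ≠ c → Reach c t u u
  | step (t : ℕ) (u v w : X) : u ≠ c → d u v ≤ 1 → Reach c t v w → Reach c (t + 1) u w

/-- `u` is a first step from `c` toward `x`. -/
def FS (c x u : X) : Prop := d c u = 1 ∧ Btw c u x

/-- The angle at `c` between `x` and `y` is at most `t`. -/
def Ang (c : X) (t : ℕ) (x y : X) : Prop := ∀ u v, FS c x u → FS c y v → Reach c t u v

/-- Every geodesic from `x` to `y` passes through `c`. -/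
def Sep (c x y : X) : Prop := ∀ p, Btw x p y → Btw x c p ∨ Btw p c y

/-- Quasiconvex set. -/
def QC (Y : Set X) (σ : ℕ) : Prop :=
  ∀ y ∈ Y, ∀ y' ∈ Y, ∀ p, Btw y p y' → ∃ q ∈ Y, d p q ≤ σ

/-- `a` is a nearest point of `Y` to `x`. -/
def IsProj (Y : Set X) (x a : X) : Prop := a ∈ Y ∧ ∀ b ∈ Y, d x a ≤ d x b

/-- Bounded overlaps in a family of sets. -/
def Ovl {C : Type} (Y : C → Set X) (κ Δ : ℕ) : Prop :=
  ∀ c c', c ≠ c' → ∀ y1 ∈ Y c, ∀ y2 ∈ Y c, ∀ z1 ∈ Y c', ∀ z2 ∈ Y c',
    d y1 z1 ≤ κ → d y2 z2 ≤ κ → d y1 y2 ≤ Δ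

/-- Uniformly loxodromic. -/
def Lox (X : Type) [GSp X] {G : Type} [Group G] [MulAction G X] (ν : ℕ) (g : G) : Prop :=
  ∀ (x : X) (j : ℕ), j ≤ ν * d x (g ^ j • x)

/-- A geodesic from `x` to `y`, constant after time `d x y`. -/
def IsGeod (γ : ℕ → X) (x y : X) : Prop :=
  γ 0 = x ∧ (∀ i, d x y ≤ i → γ i = y) ∧ ∀ i j, i ≤ j → j ≤ d x y → d (γ i) (γ j) = j - i

end Defs

section Basic
variable {X : Type} [GSp X]

theorem d_eq_zero {x y : X} : d x y = 0 ↔ x = y :=
  ⟨eq_of_d x y, fun h => h ▸ d_self x⟩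

theorem d_pos {x y : X} (h : x ≠ y) : 0 < d x y :=
  Nat.pos_of_ne_zero fun h0 => h (eq_of_d x y h0)

theorem Btw.symm {x p y : X} (h : Btw x p y) : Btw y p x := by
  unfold Btw at *
  have := d_comm x p; have := d_comm p y; have := d_comm x y; omega

theorem btw_left (x y : X) : Btw x x y := by
  unfold Btw; rw [d_self]; simp

theorem btw_right (x y : X) : Btw x y y := by
  unfold Btw; rw [d_self]; simp

theorem Btw.eq_of_self {x p : X} (h : Btw x p x) : p = x := by
  unfold Btw at h; rw [d_self] at h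
  exact (eq_of_d x p (by omega)).symm

theorem Btw.trans_left {x p q y : X} (h1 : Btw x p q) (h2 : Btw x q y) :
    Btw x p y ∧ Btw p q y := by
  unfold Btw at *
  have := d_tri p q y; have := d_tri x p y; omega

theorem Btw.trans_right {x p q y : X} (h1 : Btw x p y) (h2 : Btw p q y) :
    Btw x q y ∧ Btw x p q := by
  unfold Btw at *
  have := d_tri x p q; have := d_tri x q y; omega

theorem exists_geod (x y : X) : ∃ γ, IsGeod γ x y := by
  suffices H : ∀ n, ∀ x : X, d x y = n → ∃ γ, IsGeod γ x y from H _ x rfl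
  intro n
  induction n with
  | zero =>
    intro x h
    obtain rfl := eq_of_d x y h
    refine ⟨fun _ => x, rfl, fun _ _ => rfl, fun i j hij hj => ?_⟩
    rw [d_self] at *; omega
  | succ n ih =>
    intro x h
    obtain ⟨z, hz1, hz2⟩ := GSp.step x y n h
    obtain ⟨γ, h0, h1, h2⟩ := ih z hz2
    refine ⟨fun i => match i with | 0 => x | i + 1 => γ i, rfl, ?_, ?_⟩
    · intro i hi
      cases i with
      | zero => omega
      | succ i => exact h1 i (by omega)
    · intro i j hij hj
      cases j with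
      | zero =>
        obtain rfl : i = 0 := by omega
        exact d_self x
      | succ j =>
        cases i with
        | zero =>
          show d x (γ j) = _
          have a1 := h2 0 j (by omega) (by omega)
          have a2 := h2 j n (by omega) (by omega)
          rw [h0] at a1
          rw [h1 n (by omega)] at a2
          have := d_tri x z (γ j); have := d_tri x (γ j) y; omega
        | succ i =>
          show d (γ i) (γ j) = _
          rw [h2 i j (by omega) (by omega)]; omega

theorem IsGeod.d_left {γ : ℕ → X} {x y : X} (h : IsGeod γ x y) {i : ℕ} (hi : i ≤ d x y) :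
    d x (γ i) = i := by
  have := h.2.2 0 i (by omega) hi
  rw [h.1] at this; omega

theorem IsGeod.d_right {γ : ℕ → X} {x y : X} (h : IsGeod γ x y) {i : ℕ} (hi : i ≤ d x y) :
    d (γ i) y = d x y - i := by
  have := h.2.2 i (d x y) hi le_rfl
  rw [h.2.1 _ le_rfl] at this; omega

theorem IsGeod.btw {γ : ℕ → X} {x y : X} (h : IsGeod γ x y) (i : ℕ) : Btw x (γ i) y := by
  by_cases hi : i ≤ d x y
  · unfold Btw; rw [h.d_left hi, h.d_right hi]; omega
  · rw [h.2.1 i (by omega)]; exact btw_right x y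

theorem IsGeod.d_succ {γ : ℕ → X} {x y : X} (h : IsGeod γ x y) (i : ℕ) :
    d (γ i) (γ (i + 1)) ≤ 1 := by
  by_cases hi : i + 1 ≤ d x y
  · rw [h.2.2 i (i + 1) (by omega) hi]; omega
  · rw [h.2.1 i (by omega), h.2.1 (i + 1) (by omega), d_self]; omega

theorem IsGeod.btw_btw {γ : ℕ → X} {x y : X} (h : IsGeod γ x y) {i j k : ℕ} (hij : i ≤ j)
    (hjk : j ≤ k) (hk : k ≤ d x y) : Btw (γ i) (γ j) (γ k) := by
  unfold Btw
  rw [h.2.2 i j hij (by omega), h.2.2 j k hjk hk, h.2.2 i k (by omega) hk]; omega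

theorem exists_btw (x y : X) (t : ℕ) (ht : t ≤ d x y) : ∃ p, Btw x p y ∧ d x p = t := by
  obtain ⟨γ, h⟩ := exists_geod x y
  exact ⟨γ t, h.btw t, h.d_left ht⟩

/-- A geodesic through a given point of the interval. -/
theorem exists_geod_through {x p y : X} (h : Btw x p y) :
    ∃ γ, IsGeod γ x y ∧ γ (d x p) = p := by
  obtain ⟨α, ha⟩ := exists_geod x p
  obtain ⟨β, hb⟩ := exists_geod p y
  unfold Btw at h
  refine ⟨fun i => if i ≤ d x p then α i else β (i - d x p), ⟨?_, ?_, ?_⟩, ?_⟩
  · simp [ha.1]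
  · intro i hi
    by_cases h1 : i ≤ d x p
    · simp only [h1, if_true]
      rw [ha.2.1 i (by omega)]
      exact eq_of_d p y (by omega)
    · simp only [h1, if_false]
      exact hb.2.1 _ (by omega)
  · intro i j hij hj
    by_cases h1 : j ≤ d x p
    · simp only [h1, show i ≤ d x p by omega, if_true]
      exact ha.2.2 i j hij h1
    · by_cases h2 : i ≤ d x p
      · simp only [h1, h2, if_true, if_false]
        have a1 := ha.d_left h2
        have a2 := ha.d_right h2
        have a3 := hb.d_left (i := j - d x p) (by omega)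
        have a4 := hb.d_right (i := j - d x p) (by omega)
        have := d_tri (α i) p (β (j - d x p))
        have := d_tri x (α i) y
        have := d_tri (α i) (β (j - d x p)) y
        omega
      · simp only [h1, h2, if_false]
        rw [hb.2.2 _ _ (by omega) (by omega)]; omega
  · simp only [le_refl, if_true]
    exact ha.2.1 _ le_rfl

theorem Hyp.mono {δ δ' : ℕ} (h : Hyp X δ) (hh : δ ≤ δ') : Hyp X δ' := fun x y z w => by
  have := h x y z w; omega

theorem Slim.mono {s s' : ℕ} (h : Slim X s) (hh : s ≤ s') : Slim X s' := fun x y z p hp => by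
  obtain ⟨q, h1, h2⟩ := h x y z p hp
  exact ⟨q, h1, by omega⟩

theorem QC.mono {Y : Set X} {s s' : ℕ} (h : QC Y s) (hh : s ≤ s') : QC Y s' :=
  fun y hy y' hy' p hp => by
    obtain ⟨q, h1, h2⟩ := h y hy y' hy' p hp
    exact ⟨q, h1, by omega⟩

theorem exists_proj {Y : Set X} (hY : Y.Nonempty) (x : X) : ∃ a, IsProj Y x a := by
  classical
  have hex : ∃ n, ∃ a ∈ Y, d x a = n := by
    obtain ⟨a, ha⟩ := hY
    exact ⟨_, a, ha, rfl⟩
  obtain ⟨a, ha, h⟩ := Nat.find_spec hex
  exact ⟨a, ha, fun b hb => h ▸ Nat.find_min' hex ⟨b, hb, rfl⟩⟩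

end Basic

section Act
variable {G X : Type} [Group G] [MulAction G X] [GSp X] [Iso G X]

theorem d_inv_smul (g : G) (x y : X) : d x (g⁻¹ • y) = d (g • x) y := by
  rw [← d_smul g x (g⁻¹ • y), smul_inv_smul]

theorem d_smul_inv (g : G) (x : X) : d x (g⁻¹ • x) = d x (g • x) := by
  rw [d_inv_smul, d_comm]

theorem d_mul_le (g h : G) (x : X) : d x ((g * h) • x) ≤ d x (g • x) + d x (h • x) := by
  have := d_tri x (g • x) ((g * h) • x)
  rw [mul_smul, d_smul] at this; rw [mul_smul]; exact this

theorem d_move_le (g : G) (x y : X) : d x (g • x) ≤ d y (g • y) + 2 * d x y := by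
  have h1 := d_tri x y (g • x)
  have h2 := d_tri y (g • y) (g • x)
  have h3 := d_smul g y x
  have := d_comm x y; omega

theorem d_pow_le (g : G) (x : X) (j : ℕ) : d x (g ^ j • x) ≤ j * d x (g • x) := by
  induction j with
  | zero => simp [d_self]
  | succ j ih => have := d_mul_le (g ^ j) g x; rw [pow_succ, Nat.succ_mul]; omega

theorem d_zpow_eq (g : G) (x : X) (i : ℤ) : d x (g ^ i • x) = d x (g ^ i.natAbs • x) := by
  rcases Int.natAbs_eq i with h | h
  · conv_lhs => rw [h, zpow_natCast]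
  · conv_lhs => rw [h, zpow_neg, zpow_natCast, d_smul_inv]

theorem btw_smul (g : G) (x p y : X) : Btw (g • x) (g • p) (g • y) ↔ Btw x p y := by
  unfold Btw; rw [d_smul, d_smul, d_smul]

theorem Reach.smul (g : G) {c u w : X} {t : ℕ} (h : Reach c t u w) :
    Reach (g • c) t (g • u) (g • w) := by
  induction h with
  | refl t u hu => exact Reach.refl t _ (fun h => hu (MulAction.injective g h))
  | step t u v w hu hv _ ih =>
    exact Reach.step t _ (g • v) _ (fun h => hu (MulAction.injective g h))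
      (by rw [d_smul]; exact hv) ih

theorem reach_smul (g : G) (c u w : X) (t : ℕ) :
    Reach (g • c) t (g • u) (g • w) ↔ Reach c t u w :=
  ⟨fun h => by simpa using h.smul g⁻¹, fun h => h.smul g⟩

theorem fs_smul (g : G) (c x u : X) : FS (g • c) (g • x) (g • u) ↔ FS c x u := by
  unfold FS; rw [d_smul, btw_smul]

theorem Ang.smul (g : G) {c x y : X} {t : ℕ} (h : Ang c t x y) :
    Ang (g • c) t (g • x) (g • y) := by
  intro u v hu hv
  have := h (g⁻¹ • u) (g⁻¹ • v) (by rw [← fs_smul g]; simpa using hu)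
    (by rw [← fs_smul g]; simpa using hv)
  simpa using this.smul g

theorem ang_smul (g : G) (c x y : X) (t : ℕ) :
    Ang (g • c) t (g • x) (g • y) ↔ Ang c t x y :=
  ⟨fun h => by simpa using h.smul g⁻¹, fun h => h.smul g⟩

theorem Sep.smul (g : G) {c x y : X} (h : Sep c x y) : Sep (g • c) (g • x) (g • y) := by
  intro p hp
  have := h (g⁻¹ • p) (by rw [← btw_smul g]; simpa using hp)
  rw [← btw_smul g, ← btw_smul g (g⁻¹ • p)] at this
  simpa using this

theorem sep_smul (g : G) (c x y : X) : Sep (g • c) (g • x) (g • y) ↔ Sep c x y :=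
  ⟨fun h => by simpa using h.smul g⁻¹, fun h => h.smul g⟩

end Act

end Pool.Agent.QIB
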